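import Pool.Agent.Lib_MP_b9d69a.Defs

/-!
# Piece CL-A1: selection of the dilation factor

`v 1 = A 0 (v 0), ..., v (k-1) = A (k-2) (v (k-2))`, `v 0 = (1+t) A (k-1) (v (k-1))`
gives `v 0 = (1 + t) B (v 0)` with `B = A (k-1) ∘ ... ∘ A 0` (define the partial products by
recursion on `ℕ`); `B` has finitely many eigenvalues (`Module.End.finite_hasEigenvalue`), so all
but finitely many `t` in `(0, δ)` are good; if `v 0 = 0` then `v = 0`.
In `Fin k`: `i + 1 = 0` exactly for the last index `i = k - 1`.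
-/

set_option autoImplicit false
open scoped Manifold ContDiff Topology
open Set Filter

namespace Pool.Agent.CL

/-- partial products -/
private noncomputable def pprod {n : ℕ} (k : ℕ) [NeZero k] (A : Fin k → (Eu n →L[ℝ] Eu n)) :
    ℕ → (Eu n →ₗ[ℝ] Eu n)
  | 0 => LinearMap.id
  | m + 1 => (A (Fin.ofNat k m)).toLinearMap ∘ₗ pprod k A m

private theorem ofNat_add_one (k : ℕ) [NeZero k] (m : ℕ) :
    Fin.ofNat k m + 1 = Fin.ofNat k (m + 1) := by
  apply Fin.ext
  simp [Fin.val_add]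

private theorem ofNat_ne_zero (k : ℕ) [NeZero k] (m : ℕ) (h0 : 0 < m) (hm : m < k) :
    Fin.ofNat k m ≠ 0 := by
  intro h
  have := congrArg Fin.val h
  simp [Nat.mod_eq_of_lt hm] at this
  omega

private theorem ofNat_self (k : ℕ) [NeZero k] : Fin.ofNat k k = 0 := by
  apply Fin.ext
  simp

theorem linear_select {n : ℕ} (k : ℕ) [NeZero k] (A : Fin k → (Eu n →L[ℝ] Eu n)) (δ : ℝ)
    (hδ : 0 < δ) :
    ∃ t : ℝ, 0 < t ∧ t < δ ∧ ∀ v : Fin k → Eu n,
      (∀ i, (if i + 1 = 0 then (1 + t) • A i (v i) else A i (v i)) = v (i + 1)) → v = 0 := by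
  have hk : 0 < k := Nat.pos_of_ne_zero (NeZero.ne k)
  have hfin : Set.Finite {μ : ℝ | Module.End.HasEigenvalue (pprod k A k) μ} :=
    Module.End.finite_hasEigenvalue _
  have hinf : (Set.Ioo ((1 + δ)⁻¹) (1 : ℝ)).Infinite := by
    apply Set.Ioo_infinite
    apply inv_lt_one_of_one_lt₀
    linarith
  obtain ⟨s, hs, hs'⟩ := (hinf.sdiff hfin).nonempty
  have hs0 : 0 < s := lt_trans (by positivity) hs.1
  refine ⟨s⁻¹ - 1, ?_, ?_, ?_⟩
  · have := (one_lt_inv₀ hs0).mpr hs.2
    linarith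
  · have := (inv_lt_comm₀ (by positivity) hs0).mp hs.1
    linarith
  intro v hv
  have hst : 1 + (s⁻¹ - 1) = s⁻¹ := by ring
  have hP : ∀ m, m < k → v (Fin.ofNat k m) = pprod k A m (v 0) := by
    intro m
    induction m with
    | zero =>
      intro _
      simp [pprod]
    | succ m ih =>
      intro hm
      have h1 := hv (Fin.ofNat k m)
      rw [ofNat_add_one, if_neg (ofNat_ne_zero k (m + 1) (Nat.succ_pos m) hm), ih (by omega)] at h1
      rw [← h1]
      rfl
  obtain ⟨k', rfl⟩ : ∃ k', k = k' + 1 := ⟨k - 1, by omega⟩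
  have hlast := hv (Fin.ofNat (k' + 1) k')
  rw [ofNat_add_one, ofNat_self, if_pos rfl, hst, hP k' (by omega)] at hlast
  have hB : pprod (k' + 1) A (k' + 1) (v 0) = s • v 0 := by
    have h2 : s • (s⁻¹ • (A (Fin.ofNat (k' + 1) k')) (pprod (k' + 1) A k' (v 0))) = s • v 0 := by
      rw [hlast]
    rw [smul_smul, mul_inv_cancel₀ hs0.ne', one_smul] at h2
    exact h2
  have hv0 : v 0 = 0 := by
    by_contra hne
    exact hs' (Module.End.hasEigenvalue_of_hasEigenvector
      ⟨Module.End.mem_eigenspace_iff.mpr hB, hne⟩)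
  funext i
  have h3 := hP i.1 i.2
  have h4 : Fin.ofNat (k' + 1) i.1 = i := by
    apply Fin.ext
    simp
  rw [h4, hv0, map_zero] at h3
  simpa using h3

end Pool.Agent.CL
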