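import Pool.Agent.Lib_MP_b9d69a.Defs

/-!
# Piece CL-BUMP: scaled bumps

`χ` a smooth bump function with `χ = 1` on `‖u‖ ≤ 1/2` and `χ = 0` on `1 ≤ ‖u‖`
(`ContDiffBump (0 : Eu n)` with `rIn = 1/2`, `rOut = 1`).  The bound: `D^j χ` is bounded
(compact support), and `‖D^j (χ ∘ (u ↦ ρ⁻¹ (u - y)))‖ ≤ j! C ρ^{-j}`
(`norm_iteratedFDeriv_comp_le`) and `ρ ≤ 1`.
-/

set_option autoImplicit false
open scoped Manifold ContDiff Topology
open Set Filter

namespace Pool.Agent.CL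

private theorem exists_bound {E F : Type*} [NormedAddCommGroup E] [NormedSpace ℝ E]
    [NormedAddCommGroup F] [NormedSpace ℝ F] (k : ℕ) (f : E → F) (hf : ContDiff ℝ ∞ f)
    (hc : HasCompactSupport f) :
    ∃ C : ℝ, 0 < C ∧ ∀ j ≤ k, ∀ u, ‖iteratedFDeriv ℝ j f u‖ ≤ C := by
  have h1 : ∀ j : ℕ, ∃ B : ℝ, ∀ u, ‖iteratedFDeriv ℝ j f u‖ ≤ B := by
    intro j
    have hcont : Continuous (iteratedFDeriv ℝ j f) :=
      hf.continuous_iteratedFDeriv (by exact_mod_cast le_top)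
    exact hcont.bounded_above_of_compact_support (hc.iteratedFDeriv (𝕜 := ℝ) j)
  choose B hB using h1
  refine ⟨1 + ∑ j ∈ Finset.range (k + 1), |B j|, ?_, ?_⟩
  · have : 0 ≤ ∑ j ∈ Finset.range (k + 1), |B j| := Finset.sum_nonneg fun _ _ => abs_nonneg _
    linarith
  · intro j hj u
    have h2 : |B j| ≤ ∑ j ∈ Finset.range (k + 1), |B j| :=
      Finset.single_le_sum (f := fun j => |B j|) (fun _ _ => abs_nonneg _)
        (Finset.mem_range.mpr (by omega))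
    have h3 := hB j u
    have h4 := le_abs_self (B j)
    linarith

theorem exists_bump (n k : ℕ) : ∃ (χ : Eu n → ℝ) (C : ℝ), 0 < C ∧ ContDiff ℝ ∞ χ ∧
    (∀ u, ‖u‖ ≤ 1 / 2 → χ u = 1) ∧ (∀ u, 1 ≤ ‖u‖ → χ u = 0) ∧
    ∀ (y v : Eu n) (ρ : ℝ), 0 < ρ → ρ ≤ 1 → ∀ j ≤ k, ∀ u,
      ‖iteratedFDeriv ℝ j (fun u => χ (ρ⁻¹ • (u - y)) • v) u‖ ≤ C * ‖v‖ / ρ ^ k := by
  let b : ContDiffBump (0 : Eu n) := ⟨1 / 2, 1, by norm_num, by norm_num⟩
  have hb : ContDiff ℝ ∞ (b : Eu n → ℝ) := b.contDiff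
  obtain ⟨C, hC, hCb⟩ := exists_bound k (b : Eu n → ℝ) hb b.hasCompactSupport
  refine ⟨b, C, hC, hb, ?_, ?_, ?_⟩
  · intro u hu
    apply b.one_of_mem_closedBall
    rw [mem_closedBall_zero_iff]
    exact hu
  · intro u hu
    apply b.zero_of_le_dist
    rw [dist_zero_right]
    exact hu
  · intro y v ρ hρ hρ1 j hj u
    have hji : ((j : ℕ) : WithTop ℕ∞) ≤ ((⊤ : ℕ∞) : WithTop ℕ∞) := by exact_mod_cast le_top
    let g : Eu n →L[ℝ] Eu n := ρ⁻¹ • ContinuousLinearMap.id ℝ (Eu n)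
    have hg : ‖g‖ ≤ ρ⁻¹ := by
      refine ContinuousLinearMap.opNorm_le_bound g (inv_nonneg.mpr hρ.le) fun w => ?_
      have h0 : g w = ρ⁻¹ • w := rfl
      rw [h0, norm_smul, Real.norm_of_nonneg (inv_nonneg.mpr hρ.le)]
    let s : ℝ →L[ℝ] Eu n := ContinuousLinearMap.toSpanSingleton ℝ v
    have hs : ‖s‖ ≤ ‖v‖ := by
      rw [ContinuousLinearMap.norm_toSpanSingleton]
    have hbg : ContDiff ℝ ∞ ((b : Eu n → ℝ) ∘ g) := hb.comp g.contDiff
    have hfun : (fun u => (b : Eu n → ℝ) (ρ⁻¹ • (u - y)) • v) =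
        fun u => (s ∘ ((b : Eu n → ℝ) ∘ g)) (u - y) := by
      funext w
      simp [s, g]
    rw [hfun, iteratedFDeriv_comp_sub]
    have h1 : ‖iteratedFDeriv ℝ j (s ∘ ((b : Eu n → ℝ) ∘ g)) (u - y)‖ ≤
        ‖s‖ * ‖iteratedFDeriv ℝ j ((b : Eu n → ℝ) ∘ g) (u - y)‖ :=
      ContinuousLinearMap.norm_iteratedFDeriv_comp_left s hbg.contDiffAt hji
    have h2 : ‖iteratedFDeriv ℝ j ((b : Eu n → ℝ) ∘ g) (u - y)‖ ≤ C * (ρ⁻¹) ^ j := by
      rw [ContinuousLinearMap.iteratedFDeriv_comp_right g hb (u - y) hji]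
      refine (ContinuousMultilinearMap.norm_compContinuousLinearMap_le _ _).trans ?_
      rw [Finset.prod_const, Finset.card_univ, Fintype.card_fin]
      exact mul_le_mul (hCb j hj _) (pow_le_pow_left₀ (norm_nonneg _) hg j)
        (pow_nonneg (norm_nonneg _) _) hC.le
    have h3 : (ρ⁻¹) ^ j ≤ (ρ⁻¹) ^ k :=
      pow_le_pow_right₀ ((one_le_inv₀ hρ).mpr hρ1) hj
    calc ‖iteratedFDeriv ℝ j (s ∘ ((b : Eu n → ℝ) ∘ g)) (u - y)‖
        ≤ ‖s‖ * ‖iteratedFDeriv ℝ j ((b : Eu n → ℝ) ∘ g) (u - y)‖ := h1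
      _ ≤ ‖v‖ * (C * (ρ⁻¹) ^ k) := by
          refine mul_le_mul hs (h2.trans (mul_le_mul_of_nonneg_left h3 hC.le))
            (norm_nonneg _) (norm_nonneg _)
      _ = C * ‖v‖ / ρ ^ k := by
          rw [inv_pow]; ring

/-- A fixed smooth vector field `β` supported in the ball, equal to `u - c` near `c`. -/
theorem exists_dilation (n k : ℕ) (c : Eu n) (R : ℝ) (hR : 0 < R) :
    ∃ (β : Eu n → Eu n) (C : ℝ), 0 < C ∧ ContDiff ℝ ∞ β ∧
    (∀ᶠ u in 𝓝 c, β u = u - c) ∧ (∀ u, u ∉ Metric.closedBall c R → β u = 0) ∧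
    ∀ (t : ℝ), ∀ j ≤ k, ∀ u, ‖iteratedFDeriv ℝ j (fun u => t • β u) u‖ ≤ C * |t| := by
  let b : ContDiffBump c := ⟨R / 2, R, by linarith, by linarith⟩
  have hb : ContDiff ℝ ∞ (b : Eu n → ℝ) := b.contDiff
  have hβ : ContDiff ℝ ∞ (fun u => b u • (u - c)) := hb.smul (contDiff_id.sub contDiff_const)
  have hcs : HasCompactSupport (fun u => b u • (u - c)) := b.hasCompactSupport.smul_right
  obtain ⟨C, hC, hCb⟩ := exists_bound k _ hβ hcs
  refine ⟨fun u => b u • (u - c), C, hC, hβ, ?_, ?_, ?_⟩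
  · filter_upwards [b.eventuallyEq_one] with u hu
    rw [hu]
    simp
  · intro u hu
    have h0 : b u = 0 := by
      apply b.zero_of_le_dist
      rw [Metric.mem_closedBall, not_le] at hu
      exact hu.le
    simp [h0]
  · intro t j hj u
    have hji : ((j : ℕ) : WithTop ℕ∞) ≤ ((⊤ : ℕ∞) : WithTop ℕ∞) := by exact_mod_cast le_top
    have h1 : iteratedFDeriv ℝ j (fun u => t • (b u • (u - c))) u =
        t • iteratedFDeriv ℝ j (fun u => b u • (u - c)) u :=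
      iteratedFDeriv_const_smul_apply' ((hβ.of_le hji).contDiffAt)
    rw [h1, norm_smul, Real.norm_eq_abs, mul_comm]
    exact mul_le_mul_of_nonneg_right (hCb j hj u) (abs_nonneg t)

end Pool.Agent.CL
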