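import Pool.Agent.Lib_MP_b9d69a.Defs

/-!
# Piece CL-R: robust periodic points

Charts `φ i = chartAt (P i)`, `G i = φ (i+1) ∘ g ∘ (φ i).symm`, `p i = φ i (P i)`.
Choose `s > 0` with `closedBall (p i) s ⊆ (φ i).target`, `g` maps
`K i = (φ i).symm '' closedBall (p i) s` into `(φ (i+1)).source`,
`(φ 0).symm '' closedBall (p 0) s ⊆ U`, and `‖D G i (u) - D G i (p i)‖ ≤ η` on the closed ball.
The neighbourhood `𝒱`: intersection of the subbasic sets `subb g (φ i) (φ (i+1)) (K i) 1 ε`.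
For `g' ∈ 𝒱` let `F : (Fin k → Eu n) → (Fin k → Eu n)`, `F y i = G' i (y i) - y (i+1)`; the linear
map `L v i = A i (v i) - v (i+1)` is injective, hence invertible; `F - L` is Lipschitz with
constant `η + ε` on the (convex) product of closed balls, so
`ApproximatesLinearOn F L _ (η + ε)` and `F` maps the closed ball around `p` onto a ball of radius
`(‖L⁻¹‖⁻¹ - (η + ε)) s` around `F p` (`ApproximatesLinearOn.surjOn_closedBall_of_nonlinearRightInverse`),
which contains `0` because `‖F p‖ ≤ ε` (`G i (p i) = p (i+1)`).  A zero `y` of `F` gives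
`g' ((φ i).symm (y i)) = (φ (i+1)).symm (y (i+1))`, so `(φ 0).symm (y 0) ∈ U` is fixed by
`g'^[k]`.
-/

set_option autoImplicit false
open scoped Manifold ContDiff Topology NNReal
open Set Filter

namespace Pool.Agent.CL

/-- the map in charts is smooth -/
private theorem r_smooth {n : ℕ} {M : Type} [TopologicalSpace M] [ChartedSpace (Eu n) M]
    [IsManifold 𝓘(ℝ, Eu n) ((⊤ : ℕ∞) : WithTop ℕ∞) M]
    (g : Dif n M) (a b : M) (u : Eu n) (hu : u ∈ (chartAt (Eu n) a).target)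
    (hgu : g ((chartAt (Eu n) a).symm u) ∈ (chartAt (Eu n) b).source) :
    ContDiffAt ℝ ((⊤ : ℕ∞) : WithTop ℕ∞) (chartAt (Eu n) b ∘ g ∘ (chartAt (Eu n) a).symm) u := by
  have h1 := (contMDiffAt_iff_of_mem_source (I := 𝓘(ℝ, Eu n)) (I' := 𝓘(ℝ, Eu n))
    (n := ((⊤ : ℕ∞) : WithTop ℕ∞)) (x := a) (y := b)
    ((chartAt (Eu n) a).map_target hu) hgu).1 (g.contMDiff _)
  have h2 := h1.2
  simp only [mfld_simps] at h2
  rw [(chartAt (Eu n) a).right_inv hu] at h2
  rw [contDiffWithinAt_univ] at h2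
  exact h2

private theorem r_norm0 {n : ℕ} (F G : Eu n → Eu n) (u : Eu n) :
    ‖F u - G u‖ = ‖iteratedFDeriv ℝ 0 F u - iteratedFDeriv ℝ 0 G u‖ := by
  rw [iteratedFDeriv_zero_eq_comp, iteratedFDeriv_zero_eq_comp, Function.comp_apply,
    Function.comp_apply, ← map_sub, LinearIsometryEquiv.norm_map]

private theorem r_norm1 {n : ℕ} (F G : Eu n → Eu n) (u : Eu n) :
    ‖fderiv ℝ F u - fderiv ℝ G u‖ ≤ ‖iteratedFDeriv ℝ 1 F u - iteratedFDeriv ℝ 1 G u‖ := by
  refine ContinuousLinearMap.opNorm_le_bound _ (norm_nonneg _) fun v => ?_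
  have h1 : (fderiv ℝ F u - fderiv ℝ G u) v =
      (iteratedFDeriv ℝ 1 F u - iteratedFDeriv ℝ 1 G u) (fun _ => v) := by
    rw [ContinuousLinearMap.sub_apply, ContinuousMultilinearMap.sub_apply,
      iteratedFDeriv_one_apply, iteratedFDeriv_one_apply]
  rw [h1]
  refine (ContinuousMultilinearMap.le_opNorm _ _).trans ?_
  simp

private theorem r_subb_mem {n : ℕ} {M : Type} [TopologicalSpace M] [ChartedSpace (Eu n) M]
    (g : Dif n M) (e e' : OpenPartialHomeomorph M (Eu n)) (he : e ∈ atlas (Eu n) M)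
    (he' : e' ∈ atlas (Eu n) M) (K : Set M) (hK : IsCompact K) (hKe : K ⊆ e.source)
    (hgK : g.toFun '' K ⊆ e'.source) (k : ℕ) (ε : ℝ) (hε : 0 < ε) :
    subb g e e' K k ε ∈ @nhds (Dif n M) (cInfTop n M) g := by
  let _ := cInfTop n M
  refine IsOpen.mem_nhds ?_ ?_
  · exact TopologicalSpace.isOpen_generateFrom_of_mem
      ⟨g, e, he, e', he', K, hK, hKe, hgK, k, ε, hε, rfl⟩
  · refine ⟨hgK, fun x _ j _ => ?_⟩
    rw [sub_self, norm_zero]
    exact hε

private theorem r_zero {n k : ℕ} [NeZero k] (A : Fin k → (Eu n →L[ℝ] Eu n))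
    (hinj : ∀ v : Fin k → Eu n, (∀ i, A i (v i) = v (i + 1)) → v = 0) :
    ∃ N : ℝ, 0 < N ∧ ∀ (H : Fin k → Eu n → Eu n) (p : Fin k → Eu n) (s : ℝ), 0 < s →
      (∀ i, ∀ u ∈ Metric.closedBall (p i) s, DifferentiableAt ℝ (H i) u ∧
        ‖fderiv ℝ (H i) u - A i‖ ≤ 1 / (2 * N)) →
      (∀ i, ‖H i (p i) - p (i + 1)‖ ≤ s / (2 * N)) →
      ∃ y : Fin k → Eu n, (∀ i, y i ∈ Metric.closedBall (p i) s) ∧ ∀ i, H i (y i) = y (i + 1) := by
  obtain ⟨L, hL⟩ : ∃ L : (Fin k → Eu n) →L[ℝ] (Fin k → Eu n), ∀ v i, L v i = A i (v i) - v (i + 1) :=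
    ⟨ContinuousLinearMap.pi fun i =>
      (A i).comp (ContinuousLinearMap.proj (R := ℝ) (φ := fun _ : Fin k => Eu n) i) -
        ContinuousLinearMap.proj (R := ℝ) (φ := fun _ : Fin k => Eu n) (i + 1), fun v i => rfl⟩
  have hLinj : Function.Injective (L : (Fin k → Eu n) →ₗ[ℝ] (Fin k → Eu n)) := by
    rw [← LinearMap.ker_eq_bot, LinearMap.ker_eq_bot']
    intro v hv
    refine hinj v fun i => ?_
    have h1 : L v i = 0 := congrFun hv i
    rw [hL] at h1
    exact sub_eq_zero.1 h1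
  let e : (Fin k → Eu n) ≃L[ℝ] (Fin k → Eu n) :=
    (LinearEquiv.ofInjectiveEndo (L : (Fin k → Eu n) →ₗ[ℝ] (Fin k → Eu n)) hLinj).toContinuousLinearEquiv
  have he : ∀ v, e v = L v := fun v => rfl
  let R : L.NonlinearRightInverse :=
    { toFun := fun v => e.symm v
      nnnorm := ‖(e.symm : (Fin k → Eu n) →L[ℝ] (Fin k → Eu n))‖₊ + 1
      bound' := fun v => by
        refine ((e.symm : (Fin k → Eu n) →L[ℝ] (Fin k → Eu n)).le_opNorm v).trans ?_
        push_cast
        rw [add_mul]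
        have : 0 ≤ 1 * ‖v‖ := by positivity
        linarith
      right_inv' := fun v => by
        rw [← he]
        exact e.apply_symm_apply v }
  obtain ⟨N, hN⟩ : ∃ N : ℝ, N = (R.nnnorm : ℝ) := ⟨_, rfl⟩
  have hN0 : 0 < N := by
    rw [hN]
    change 0 < ((‖(e.symm : (Fin k → Eu n) →L[ℝ] (Fin k → Eu n))‖₊ + 1 : ℝ≥0) : ℝ)
    push_cast
    positivity
  refine ⟨N, hN0, fun H p s hs hH hp => ?_⟩
  obtain ⟨F, hF⟩ : ∃ F : (Fin k → Eu n) → (Fin k → Eu n), ∀ y i, F y i = H i (y i) - y (i + 1) :=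
    ⟨fun y i => H i (y i) - y (i + 1), fun _ _ => rfl⟩
  have hcoord : ∀ y ∈ Metric.closedBall p s, ∀ i, y i ∈ Metric.closedBall (p i) s := by
    intro y hy i
    rw [Metric.mem_closedBall] at hy ⊢
    exact (dist_le_pi_dist y p i).trans hy
  obtain ⟨c, hc⟩ : ∃ c : ℝ≥0, (c : ℝ) = 1 / (2 * N) := ⟨⟨1 / (2 * N), by positivity⟩, rfl⟩
  have happ : ApproximatesLinearOn F L (Metric.closedBall p s) c := by
    intro x hx y hy
    refine (pi_norm_le_iff_of_nonneg (by positivity)).2 fun i => ?_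
    have h1 : (F x - F y - L (x - y)) i = H i (x i) - H i (y i) - A i (x i - y i) := by
      rw [Pi.sub_apply, Pi.sub_apply, hF, hF, hL, Pi.sub_apply, Pi.sub_apply]
      abel
    rw [h1]
    have h2 := (convex_closedBall (p i) s).norm_image_sub_le_of_norm_hasFDerivWithin_le'
      (f := H i) (f' := fun u => fderiv ℝ (H i) u) (φ := A i) (C := 1 / (2 * N))
      (fun u hu => ((hH i u hu).1.hasFDerivAt).hasFDerivWithinAt) (fun u hu => (hH i u hu).2)
      (hcoord y hy i) (hcoord x hx i)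
    refine h2.trans ?_
    rw [hc]
    refine mul_le_mul_of_nonneg_left ?_ (by positivity)
    exact norm_le_pi_norm (x - y) i
  have hsurj := happ.surjOn_closedBall_of_nonlinearRightInverse R hs.le (le_refl _)
  have h0 : (0 : Fin k → Eu n) ∈ Metric.closedBall (F p) (((R.nnnorm : ℝ)⁻¹ - c) * s) := by
    rw [mem_closedBall_iff_norm, zero_sub, norm_neg, ← hN, hc]
    have h1 : (N⁻¹ - 1 / (2 * N)) * s = s / (2 * N) := by
      field_simp
      ring
    rw [h1]
    refine (pi_norm_le_iff_of_nonneg (by positivity)).2 fun i => ?_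
    rw [hF]
    exact hp i
  obtain ⟨y, hy, hy0⟩ := hsurj h0
  refine ⟨y, hcoord y hy, fun i => ?_⟩
  have h1 : F y i = 0 := congrFun hy0 i
  rw [hF] at h1
  exact sub_eq_zero.1 h1

theorem robust_periodic {n : ℕ} {M : Type} [TopologicalSpace M] [ChartedSpace (Eu n) M]
    [IsManifold 𝓘(ℝ, Eu n) ((⊤ : ℕ∞) : WithTop ℕ∞) M] [T2Space M]
    (g : Dif n M) (k : ℕ) [NeZero k] (P : Fin k → M) (hP : ∀ i, g (P i) = P (i + 1))
    (A : Fin k → (Eu n →L[ℝ] Eu n))
    (hA : ∀ i, HasFDerivAt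
      (chartAt (Eu n) (P (i + 1)) ∘ g ∘ (chartAt (Eu n) (P i)).symm) (A i)
      (chartAt (Eu n) (P i) (P i)))
    (hinj : ∀ v : Fin k → Eu n, (∀ i, A i (v i) = v (i + 1)) → v = 0)
    (U : Set M) (hU : U ∈ 𝓝 (P 0)) :
    ∃ 𝒱 ∈ @nhds (Dif n M) (cInfTop n M) g, ∀ g' ∈ 𝒱, ∃ q ∈ U, q ∈ Function.periodicPts g' := by
  obtain ⟨N, hN, hzero⟩ := r_zero A hinj
  have hPs : ∀ i, P i ∈ (chartAt (Eu n) (P i)).source := fun i => mem_chart_source _ _
  have hpt : ∀ i, chartAt (Eu n) (P i) (P i) ∈ (chartAt (Eu n) (P i)).target := fun i =>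
    (chartAt (Eu n) (P i)).map_source (hPs i)
  have hinv : ∀ i, (chartAt (Eu n) (P i)).symm (chartAt (Eu n) (P i) (P i)) = P i := fun i =>
    (chartAt (Eu n) (P i)).left_inv (hPs i)
  have hcont : ∀ i, ContinuousAt (chartAt (Eu n) (P i)).symm (chartAt (Eu n) (P i) (P i)) := fun i =>
    (chartAt (Eu n) (P i)).continuousAt_symm (hpt i)
  have hgs : ∀ i, g ((chartAt (Eu n) (P i)).symm (chartAt (Eu n) (P i) (P i))) ∈
      (chartAt (Eu n) (P (i + 1))).source := fun i => by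
    rw [hinv, hP]
    exact hPs _
  -- good neighbourhoods
  have hev : ∀ i, ∀ᶠ u in 𝓝 (chartAt (Eu n) (P i) (P i)), u ∈ (chartAt (Eu n) (P i)).target ∧
      g ((chartAt (Eu n) (P i)).symm u) ∈ (chartAt (Eu n) (P (i + 1))).source ∧
      ‖fderiv ℝ (chartAt (Eu n) (P (i + 1)) ∘ g ∘ (chartAt (Eu n) (P i)).symm) u - A i‖ ≤
        1 / (4 * N) ∧ (i = 0 → (chartAt (Eu n) (P i)).symm u ∈ U) := by
    intro i
    have h1 : ∀ᶠ u in 𝓝 (chartAt (Eu n) (P i) (P i)), u ∈ (chartAt (Eu n) (P i)).target :=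
      (chartAt (Eu n) (P i)).open_target.mem_nhds (hpt i)
    have hgc : ContinuousAt (fun u => g ((chartAt (Eu n) (P i)).symm u))
        (chartAt (Eu n) (P i) (P i)) :=
      ContinuousAt.comp (g := g) g.continuous.continuousAt (hcont i)
    have h2 : ∀ᶠ u in 𝓝 (chartAt (Eu n) (P i) (P i)),
        g ((chartAt (Eu n) (P i)).symm u) ∈ (chartAt (Eu n) (P (i + 1))).source :=
      hgc ((chartAt (Eu n) (P (i + 1))).open_source.mem_nhds (hgs i))
    have h3 : ContinuousAt (fderiv ℝ (chartAt (Eu n) (P (i + 1)) ∘ g ∘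
        (chartAt (Eu n) (P i)).symm)) (chartAt (Eu n) (P i) (P i)) := by
      have h4 := r_smooth g (P i) (P (i + 1)) _ (hpt i) (hgs i)
      exact (h4.fderiv_right (m := 0) (by norm_cast)).continuousAt
    have h5 : ∀ᶠ u in 𝓝 (chartAt (Eu n) (P i) (P i)),
        ‖fderiv ℝ (chartAt (Eu n) (P (i + 1)) ∘ g ∘ (chartAt (Eu n) (P i)).symm) u - A i‖ ≤
        1 / (4 * N) := by
      have h6 : Tendsto (fun u => ‖fderiv ℝ (chartAt (Eu n) (P (i + 1)) ∘ g ∘
          (chartAt (Eu n) (P i)).symm) u - A i‖) (𝓝 (chartAt (Eu n) (P i) (P i))) (𝓝 0) := by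
        have h7 := (h3.tendsto.sub_const (A i)).norm
        rw [(hA i).fderiv, sub_self, norm_zero] at h7
        exact h7
      exact h6.eventually (Iic_mem_nhds (by positivity))
    have h8 : ∀ᶠ u in 𝓝 (chartAt (Eu n) (P i) (P i)),
        (i = 0 → (chartAt (Eu n) (P i)).symm u ∈ U) := by
      by_cases hi : i = 0
      · subst hi
        have h9 : U ∈ 𝓝 ((chartAt (Eu n) (P 0)).symm (chartAt (Eu n) (P 0) (P 0))) := by
          rw [hinv]
          exact hU
        filter_upwards [hcont 0 h9] with u hu _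
        exact hu
      · exact Eventually.of_forall fun u h => absurd h hi
    filter_upwards [h1, h2, h5, h8] with u a b c d
    exact ⟨a, b, c, d⟩
  obtain ⟨s, hs, hball⟩ : ∃ s : ℝ, 0 < s ∧ ∀ i, ∀ u ∈ Metric.closedBall
      (chartAt (Eu n) (P i) (P i)) s, u ∈ (chartAt (Eu n) (P i)).target ∧
      g ((chartAt (Eu n) (P i)).symm u) ∈ (chartAt (Eu n) (P (i + 1))).source ∧
      ‖fderiv ℝ (chartAt (Eu n) (P (i + 1)) ∘ g ∘ (chartAt (Eu n) (P i)).symm) u - A i‖ ≤
        1 / (4 * N) ∧ (i = 0 → (chartAt (Eu n) (P i)).symm u ∈ U) := by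
    have h1 : ∀ i, ∃ s : ℝ, 0 < s ∧ ∀ u ∈ Metric.closedBall
        (chartAt (Eu n) (P i) (P i)) s, u ∈ (chartAt (Eu n) (P i)).target ∧
        g ((chartAt (Eu n) (P i)).symm u) ∈ (chartAt (Eu n) (P (i + 1))).source ∧
        ‖fderiv ℝ (chartAt (Eu n) (P (i + 1)) ∘ g ∘ (chartAt (Eu n) (P i)).symm) u - A i‖ ≤
          1 / (4 * N) ∧ (i = 0 → (chartAt (Eu n) (P i)).symm u ∈ U) := by
      intro i
      obtain ⟨s, hs, h⟩ := (Metric.nhds_basis_closedBall.eventually_iff).1 (hev i)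
      exact ⟨s, hs, fun u hu => h hu⟩
    choose s hs h using h1
    obtain ⟨j, -, hj⟩ := Finset.exists_min_image Finset.univ s ⟨0, Finset.mem_univ _⟩
    exact ⟨s j, hs j, fun i u hu => h i u (Metric.closedBall_subset_closedBall
      (hj i (Finset.mem_univ _)) hu)⟩
  obtain ⟨ε, hε⟩ : ∃ ε : ℝ, ε = min (1 / (4 * N)) (s / (2 * N)) := ⟨_, rfl⟩
  have hε0 : 0 < ε := by
    rw [hε]
    exact lt_min (by positivity) (by positivity)
  have hε1 : ε ≤ 1 / (4 * N) := by rw [hε]; exact min_le_left _ _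
  have hε2 : ε ≤ s / (2 * N) := by rw [hε]; exact min_le_right _ _
  obtain ⟨K, hK⟩ : ∃ K : Fin k → Set M, ∀ i, K i = (chartAt (Eu n) (P i)).symm ''
      Metric.closedBall (chartAt (Eu n) (P i) (P i)) s := ⟨_, fun _ => rfl⟩
  refine ⟨⋂ i, subb g (chartAt (Eu n) (P i)) (chartAt (Eu n) (P (i + 1))) (K i) 1 ε, ?_, ?_⟩
  · refine Filter.iInter_mem.2 fun i => ?_
    refine r_subb_mem g _ _ (chart_mem_atlas _ _) (chart_mem_atlas _ _) _ ?_ ?_ ?_ 1 ε hε0
    · rw [hK]
      exact (isCompact_closedBall _ _).image_of_continuousOn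
        ((chartAt (Eu n) (P i)).continuousOn_symm.mono fun u hu => (hball i u hu).1)
    · rw [hK]
      rintro _ ⟨u, hu, rfl⟩
      exact (chartAt (Eu n) (P i)).map_target (hball i u hu).1
    · rw [hK]
      rintro _ ⟨_, ⟨u, hu, rfl⟩, rfl⟩
      exact (hball i u hu).2.1
  · intro g' hg'
    rw [Set.mem_iInter] at hg'
    have hmem : ∀ i, ∀ u ∈ Metric.closedBall (chartAt (Eu n) (P i) (P i)) s,
        (chartAt (Eu n) (P i)).symm u ∈ K i := fun i u hu => by
      rw [hK]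
      exact ⟨u, hu, rfl⟩
    have hsrc : ∀ i, ∀ u ∈ Metric.closedBall (chartAt (Eu n) (P i) (P i)) s,
        g' ((chartAt (Eu n) (P i)).symm u) ∈ (chartAt (Eu n) (P (i + 1))).source := fun i u hu =>
      (hg' i).1 ⟨_, hmem i u hu, rfl⟩
    have hclose : ∀ i, ∀ u ∈ Metric.closedBall (chartAt (Eu n) (P i) (P i)) s, ∀ j ≤ 1,
        ‖iteratedFDeriv ℝ j (chartAt (Eu n) (P (i + 1)) ∘ g' ∘ (chartAt (Eu n) (P i)).symm) u -
          iteratedFDeriv ℝ j (chartAt (Eu n) (P (i + 1)) ∘ g ∘ (chartAt (Eu n) (P i)).symm) u‖ < ε := by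
      intro i u hu j hj
      have h1 := (hg' i).2 _ (hmem i u hu) j hj
      have h2 : (chartAt (Eu n) (P i)).toFun ((chartAt (Eu n) (P i)).symm u) = u :=
        (chartAt (Eu n) (P i)).right_inv (hball i u hu).1
      rw [h2] at h1
      exact h1
    obtain ⟨y, hy, hyy⟩ := hzero
      (fun i => chartAt (Eu n) (P (i + 1)) ∘ g' ∘ (chartAt (Eu n) (P i)).symm)
      (fun i => chartAt (Eu n) (P i) (P i)) s hs
      (fun i u hu => by
        refine ⟨(r_smooth g' (P i) (P (i + 1)) u (hball i u hu).1 (hsrc i u hu)).differentiableAt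
          (by norm_num), ?_⟩
        have h1 := r_norm1 (chartAt (Eu n) (P (i + 1)) ∘ g' ∘ (chartAt (Eu n) (P i)).symm)
          (chartAt (Eu n) (P (i + 1)) ∘ g ∘ (chartAt (Eu n) (P i)).symm) u
        have h2 := hclose i u hu 1 le_rfl
        have h3 := (hball i u hu).2.2.1
        have h4 := norm_sub_le_norm_sub_add_norm_sub
          (fderiv ℝ (chartAt (Eu n) (P (i + 1)) ∘ g' ∘ (chartAt (Eu n) (P i)).symm) u)
          (fderiv ℝ (chartAt (Eu n) (P (i + 1)) ∘ g ∘ (chartAt (Eu n) (P i)).symm) u) (A i)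
        have h5 : 1 / (2 * N) = 1 / (4 * N) + 1 / (4 * N) := by
          field_simp
          norm_num
        rw [h5]
        linarith)
      (fun i => by
        have hc := Metric.mem_closedBall_self (x := chartAt (Eu n) (P i) (P i)) hs.le
        have h1 := r_norm0 (chartAt (Eu n) (P (i + 1)) ∘ g' ∘ (chartAt (Eu n) (P i)).symm)
          (chartAt (Eu n) (P (i + 1)) ∘ g ∘ (chartAt (Eu n) (P i)).symm)
          (chartAt (Eu n) (P i) (P i))
        have h2 := hclose i _ hc 0 (by norm_num)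
        have h3 : (chartAt (Eu n) (P (i + 1)) ∘ g ∘ (chartAt (Eu n) (P i)).symm)
            (chartAt (Eu n) (P i) (P i)) = chartAt (Eu n) (P (i + 1)) (P (i + 1)) := by
          rw [Function.comp_apply, Function.comp_apply, hinv, hP]
        rw [h3] at h1
        rw [h1]
        exact (h2.le).trans hε2)
    -- the periodic orbit
    obtain ⟨x, hx⟩ : ∃ x : Fin k → M, ∀ i, x i = (chartAt (Eu n) (P i)).symm (y i) :=
      ⟨_, fun _ => rfl⟩
    have hstep : ∀ i, g' (x i) = x (i + 1) := by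
      intro i
      have h1 := hyy i
      rw [Function.comp_apply, Function.comp_apply, ← hx] at h1
      have h2 := hsrc i (y i) (hy i)
      rw [← hx] at h2
      rw [hx (i + 1), ← h1, (chartAt (Eu n) (P (i + 1))).left_inv h2]
    have hiter : ∀ m : ℕ, g'^[m] (x 0) = x (Fin.ofNat k m) := by
      intro m
      induction m with
      | zero => rfl
      | succ m ih =>
        rw [Function.iterate_succ_apply', ih, hstep]
        congr 1
        refine Fin.ext ?_
        rw [Fin.val_add, Fin.val_ofNat, Fin.val_ofNat]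
        simp [Nat.add_mod]
    refine ⟨x 0, ?_, ?_⟩
    · rw [hx]
      exact (hball 0 (y 0) (hy 0)).2.2.2 rfl
    · refine Function.mk_mem_periodicPts (Nat.pos_of_ne_zero (NeZero.ne k)) ?_
      change g'^[k] (x 0) = x 0
      rw [hiter]
      congr 1
      refine Fin.ext ?_
      rw [Fin.val_ofNat]
      simp

end Pool.Agent.CL
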