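import Pool.Agent.Lib_MP_b9d69a.P
import Pool.Agent.Lib_MP_b9d69a.Bump
import Pool.Agent.Lib_MP_b9d69a.R
import Pool.Agent.Lib_MP_b9d69a.A1

/-!
# Piece CL-A2: a periodic point can be made robust

`k = minimalPeriod f p`, `P i = f^[i] p` (`i : Fin k`), pairwise distinct.
`exists_robust_near`: `φ = chartAt p`, closed ball `B` around `φ p` in `φ.target`, so small that
`φ.symm '' B` contains no `P i`, `i ≠ 0`; `pert` and `exists_dilation` give for small `t` a
diffeomorphism `h_t` with `g = f.trans h_t ∈ 𝒰`, `g (P i) = P (i+1)`, and the derivatives of `g`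
in the charts are those of `f` except that the one at `P (k-1)` (into the chart at
`P 0 = p`) is multiplied by `1 + t`.  Apply `linear_select` and `robust_periodic`.
-/

set_option autoImplicit false
open scoped Manifold ContDiff Topology
open Set Filter

namespace Pool.Agent.CL

/-- A diffeomorphism is differentiable in the charts. -/
private theorem diffAt_charts {n : ℕ} {M : Type} [TopologicalSpace M] [ChartedSpace (Eu n) M]
    (f : Dif n M) (x : M) :
    DifferentiableAt ℝ (chartAt (Eu n) (f x) ∘ f ∘ (chartAt (Eu n) x).symm)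
      (chartAt (Eu n) x x) := by
  have h := (contMDiffAt_iff.1 (f.contMDiff x)).2
  simp only [mfld_simps] at h
  have h2 : ContDiffAt ℝ ((⊤ : ℕ∞) : WithTop ℕ∞)
      (chartAt (Eu n) (f x) ∘ f ∘ (chartAt (Eu n) x).symm) (chartAt (Eu n) x x) := by
    rw [← contDiffWithinAt_univ]
    exact h
  exact h2.differentiableAt (by simp)

theorem exists_robust_near {n : ℕ} {M : Type} [TopologicalSpace M] [ChartedSpace (Eu n) M]
    [IsManifold 𝓘(ℝ, Eu n) ((⊤ : ℕ∞) : WithTop ℕ∞) M] [T2Space M]
    (f : Dif n M) (U : Set M) (hU : IsOpen U) (p : M) (hpU : p ∈ U)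
    (hp : p ∈ Function.periodicPts f) (𝒰 : Set (Dif n M))
    (h𝒰 : 𝒰 ∈ @nhds (Dif n M) (cInfTop n M) f) :
    ∃ g ∈ 𝒰, ∃ 𝒱 ∈ @nhds (Dif n M) (cInfTop n M) g,
      ∀ g' ∈ 𝒱, ∃ q ∈ U, q ∈ Function.periodicPts g' := by
  classical
  obtain ⟨k, hk⟩ : ∃ k : ℕ, k = Function.minimalPeriod f p := ⟨_, rfl⟩
  have hkpos : 0 < k := hk ▸ Function.minimalPeriod_pos_of_mem_periodicPts hp
  have : NeZero k := ⟨hkpos.ne'⟩
  let P : Fin k → M := fun i => (⇑f)^[i.val] p
  have hP0 : P 0 = p := by simp [P]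
  have hPs : ∀ i : Fin k, f (P i) = P (i + 1) := by
    intro i
    have h1 : (i + 1 : Fin k).val = (i.val + 1) % k := by
      rw [Fin.val_add, Fin.val_one', Nat.add_mod_mod]
    have h2 : ∀ m : ℕ, (⇑f)^[m % k] p = (⇑f)^[m] p := by
      intro m
      rw [hk]
      exact Function.iterate_mod_minimalPeriod_eq
    show f ((⇑f)^[i.val] p) = (⇑f)^[(i + 1 : Fin k).val] p
    rw [h1, h2, Function.iterate_succ_apply']
  have hPinj : Function.Injective P := by
    intro i j hij
    exact Fin.ext ((Function.iterate_eq_iterate_iff_of_lt_minimalPeriod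
      (hk ▸ i.isLt) (hk ▸ j.isLt)).1 hij)
  set φ := chartAt (Eu n) p with hφ
  have hps : p ∈ φ.source := mem_chart_source _ p
  have hpt : φ p ∈ φ.target := φ.map_source hps
  -- the ball
  have hS : ({x : M | ∃ i : Fin k, i ≠ 0 ∧ P i = x}ᶜ) ∈ 𝓝 p := by
    have hfin : ({x : M | ∃ i : Fin k, i ≠ 0 ∧ P i = x}).Finite := by
      refine (Set.finite_range P).subset ?_
      rintro x ⟨i, -, rfl⟩
      exact ⟨i, rfl⟩
    refine hfin.isClosed.isOpen_compl.mem_nhds ?_
    rintro ⟨i, hi, hix⟩
    exact hi (hPinj (hix.trans hP0.symm))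
  have hev : ∀ᶠ u in 𝓝 (φ p), φ.symm u ∈ ({x : M | ∃ i : Fin k, i ≠ 0 ∧ P i = x}ᶜ) := by
    have hc : ContinuousAt φ.symm (φ p) := φ.continuousAt_symm hpt
    have h2 : ({x : M | ∃ i : Fin k, i ≠ 0 ∧ P i = x}ᶜ) ∈ 𝓝 (φ.symm (φ p)) := by
      rw [φ.left_inv hps]; exact hS
    exact hc h2
  obtain ⟨R, hR, hRb⟩ := Metric.nhds_basis_closedBall.mem_iff.1
    (inter_mem hev (φ.open_target.mem_nhds hpt))
  have hB : Metric.closedBall (φ p) R ⊆ φ.target := fun u hu => (hRb hu).2
  have hBS : ∀ u ∈ Metric.closedBall (φ p) R, ∀ i : Fin k, i ≠ 0 → P i ≠ φ.symm u := by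
    intro u hu i hi hPi
    exact (hRb hu).1 ⟨i, hi, hPi⟩
  obtain ⟨k₁, δ, hδ, hpert⟩ := pert f φ (chart_mem_atlas _ p) (φ p) R hB 𝒰 h𝒰
  obtain ⟨β, C, hC, hβs, hβ1, hβ0, hβn⟩ := exists_dilation n k₁ (φ p) R hR
  let A : Fin k → (Eu n →L[ℝ] Eu n) := fun i =>
    fderiv ℝ (chartAt (Eu n) (P (i + 1)) ∘ f ∘ (chartAt (Eu n) (P i)).symm)
      (chartAt (Eu n) (P i) (P i))
  have hAf : ∀ i, HasFDerivAt (chartAt (Eu n) (P (i + 1)) ∘ f ∘ (chartAt (Eu n) (P i)).symm)
      (A i) (chartAt (Eu n) (P i) (P i)) := by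
    intro i
    have h := diffAt_charts f (P i)
    rw [hPs i] at h
    exact h.hasFDerivAt
  obtain ⟨t, ht0, ht1, hsel⟩ := linear_select k A (δ / C) (by positivity)
  obtain ⟨h, hreal, hfh⟩ := hpert (fun u => t • β u) (show ContDiff ℝ ∞ (fun u => t • β u) from hβs.const_smul t)
    (fun u hu => by simp only [hβ0 u hu, smul_zero])
    (fun j hj u => by
      refine (hβn t j hj u).trans ?_
      rw [abs_of_pos ht0]
      rw [lt_div_iff₀ hC] at ht1
      linarith)
  -- `h` is the identity off the small ball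
  have hoff : ∀ x : M, (∀ u ∈ Metric.closedBall (φ p) R, x ≠ φ.symm u) → h x = x := by
    intro x hx
    by_cases hxs : x ∈ φ.source
    · obtain ⟨h1, h2⟩ := hreal.1 x hxs
      have h3 : φ x ∉ Metric.closedBall (φ p) R := fun hmem =>
        hx _ hmem (φ.left_inv hxs).symm
      simp only [hβ0 _ h3, smul_zero, add_zero] at h2
      exact φ.injOn h1 hxs h2
    · exact hreal.2 x hxs
  have hhp : h p = p := by
    obtain ⟨h1, h2⟩ := hreal.1 p hps
    have h3 : β (φ p) = 0 := by
      have := hβ1.self_of_nhds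
      simpa using this
    simp only [h3, smul_zero, add_zero] at h2
    exact φ.injOn h1 hps h2
  have hhP : ∀ i, h (P i) = P i := by
    intro i
    by_cases hi : i = 0
    · rw [hi, hP0]; exact hhp
    · exact hoff _ (fun u hu => hBS u hu i hi)
  have hfcont : ∀ i : Fin k, Tendsto (fun u => f ((chartAt (Eu n) (P i)).symm u))
      (𝓝 (chartAt (Eu n) (P i) (P i))) (𝓝 (P (i + 1))) := by
    intro i
    have h1 : ContinuousAt (chartAt (Eu n) (P i)).symm (chartAt (Eu n) (P i) (P i)) :=
      (chartAt (Eu n) (P i)).continuousAt_symm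
        ((chartAt (Eu n) (P i)).map_source (mem_chart_source _ _))
    have h2 : ContinuousAt (fun u => f ((chartAt (Eu n) (P i)).symm u))
        (chartAt (Eu n) (P i) (P i)) := f.continuous.continuousAt.comp h1
    have h3 := h2.tendsto
    rwa [(chartAt (Eu n) (P i)).left_inv (mem_chart_source _ _), hPs i] at h3
  have hg : ∀ i, HasFDerivAt
      (chartAt (Eu n) (P (i + 1)) ∘ (f.trans h) ∘ (chartAt (Eu n) (P i)).symm)
      (if i + 1 = 0 then (1 + t) • A i else A i) (chartAt (Eu n) (P i) (P i)) := by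
    intro i
    by_cases hi : i + 1 = 0
    · rw [if_pos hi]
      have hPi : P (i + 1) = p := by rw [hi]; exact hP0
      have hAi := hAf i
      have hci := hfcont i
      rw [hPi] at hAi hci ⊢
      have h1 : HasFDerivAt (fun u => (φ ∘ f ∘ (chartAt (Eu n) (P i)).symm) u +
          t • ((φ ∘ f ∘ (chartAt (Eu n) (P i)).symm) u - φ p))
          (A i + t • (A i)) (chartAt (Eu n) (P i) (P i)) := by
        have h2 := hAi.sub_const (φ p)
        exact hAi.add (h2.const_smul t)
      have h4 : (1 + t) • A i = A i + t • A i := by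
        refine ContinuousLinearMap.ext fun v => ?_
        show (1 + t) • (A i v) = A i v + t • (A i v)
        rw [add_smul, one_smul]
      rw [h4]
      refine h1.congr_of_eventuallyEq ?_
      have h5 : ∀ᶠ x in 𝓝 p, x ∈ φ.source ∧ β (φ x) = φ x - φ p :=
        (φ.open_source.mem_nhds hps |> fun hh => (show ∀ᶠ x in 𝓝 p, x ∈ φ.source from hh)).and
          ((φ.continuousAt hps).eventually hβ1)
      filter_upwards [hci.eventually h5] with u hu
      have h6 := (hreal.1 _ hu.1).2
      simp only [Function.comp_apply, Diffeomorph.coe_trans]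
      rw [h6]
      simp only [hu.2]
    · rw [if_neg hi]
      refine (hAf i).congr_of_eventuallyEq ?_
      have hZ : IsClosed (φ.symm '' Metric.closedBall (φ p) R) := by
        refine ((isCompact_closedBall (φ p) R).image_of_continuousOn ?_).isClosed
        exact φ.continuousOn_symm.mono hB
      have h5 : ∀ᶠ x in 𝓝 (P (i + 1)), x ∈ (φ.symm '' Metric.closedBall (φ p) R)ᶜ := by
        refine hZ.isOpen_compl.mem_nhds ?_
        rintro ⟨u, hu, hux⟩
        exact hBS u hu (i + 1) hi hux.symm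
      filter_upwards [(hfcont i).eventually h5] with u hu
      simp only [Function.comp_apply, Diffeomorph.coe_trans]
      rw [hoff _ (fun v hv hvx => hu ⟨v, hv, hvx.symm⟩)]
  obtain ⟨𝒱, h𝒱, hV⟩ := robust_periodic (f.trans h) k P
    (fun i => by
      simp only [Diffeomorph.coe_trans, Function.comp_apply]
      rw [hPs i]; exact hhP (i + 1))
    (fun i => if i + 1 = 0 then (1 + t) • A i else A i) hg
    (fun v hv => hsel v (fun i => by
      have := hv i
      by_cases hi : i + 1 = 0
      · simp only [if_pos hi] at this ⊢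
        exact this
      · simpa only [if_neg hi] using this)) U
    (by rw [hP0]; exact hU.mem_nhds hpU)
  exact ⟨f.trans h, hfh, 𝒱, h𝒱, hV⟩

end Pool.Agent.CL
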