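import Pool.Agent.Lib_MP_b9d69a.Defs

/-!
# Piece CL-C: doubling and covering

`doubling`: induction on `j`.  `j = 0`: take the least `k' ≥ 1` with `f^[k'] z ∈ B 1`
(`k' ≤ k`); `hstar` gives `0 < i < k'` with `f^[i] z ∈ B 0`, not in `B 1` by minimality.
Step: `hstar` gives `0 < i < k`, `f^[i] z ∈ B (j+1)`; add the counts of `(z, i)` and
`(f^[i] z, k - i)` (shift by `i`).
`exists_loop`: if no `z ∈ A` loops at `y`, each `z ∈ A` has `V_z, W_z, m_z`; cover `A` by finitely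
many `W_z`, `V = ⋂ V_z`: a segment from `V` to `V` visits `A` at most `∑ m_z` times.
-/

set_option autoImplicit false
open scoped Manifold ContDiff Topology
open Set Filter

namespace Pool.Agent.CL

theorem doubling {M : Type} (f : M → M) (B : ℕ → Set M) (hB : ∀ j, B (j + 1) ⊆ B j)
    (hstar : ∀ (j : ℕ) (z : M) (k : ℕ), 1 ≤ k → z ∈ B (j + 1) → f^[k] z ∈ B (j + 1) →
      ∃ i, 0 < i ∧ i < k ∧ f^[i] z ∈ B j)
    (j : ℕ) (z : M) (k : ℕ) (hk : 1 ≤ k) (hz : z ∈ B (j + 1)) (hkz : f^[k] z ∈ B (j + 1)) :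
    ∃ S : Finset ℕ, 2 ^ j ≤ S.card ∧ ∀ i ∈ S, i < k ∧ f^[i] z ∈ B 0 \ B 1 := by
  classical
  induction j generalizing z k with
  | zero =>
    have hex : ∃ k', 1 ≤ k' ∧ f^[k'] z ∈ B 1 := ⟨k, hk, hkz⟩
    obtain ⟨h1, h2⟩ := Nat.find_spec hex
    obtain ⟨i, hi0, hi1, hi2⟩ := hstar 0 z (Nat.find hex) h1 hz h2
    refine ⟨{i}, by simp, fun i' hi' => ?_⟩
    rw [Finset.mem_singleton] at hi'
    subst hi'
    refine ⟨hi1.trans_le (Nat.find_min' hex ⟨hk, hkz⟩), hi2, fun h3 => ?_⟩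
    exact Nat.find_min hex hi1 ⟨hi0, h3⟩
  | succ j ih =>
    obtain ⟨i, hi0, hi1, hi2⟩ := hstar (j + 1) z k hk hz hkz
    obtain ⟨S1, hS1, hS1'⟩ := ih z i hi0 (hB _ hz) hi2
    have e : f^[k - i] (f^[i] z) = f^[k] z := by
      rw [← Function.iterate_add_apply, Nat.sub_add_cancel hi1.le]
    obtain ⟨S2, hS2, hS2'⟩ := ih (f^[i] z) (k - i) (by omega) hi2 (by rw [e]; exact hB _ hkz)
    refine ⟨S1 ∪ S2.map (addRightEmbedding i), ?_, ?_⟩
    · rw [Finset.card_union_of_disjoint, Finset.card_map, pow_succ]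
      · omega
      · rw [Finset.disjoint_left]
        intro a ha hb
        rw [Finset.mem_map] at hb
        obtain ⟨b, -, hb⟩ := hb
        have h1 := (hS1' a ha).1
        rw [addRightEmbedding_apply] at hb
        omega
    · intro a ha
      rw [Finset.mem_union, Finset.mem_map] at ha
      rcases ha with ha | ⟨b, hb, hb2⟩
      · exact ⟨(hS1' a ha).1.trans hi1, (hS1' a ha).2⟩
      · rw [addRightEmbedding_apply] at hb2
        subst hb2
        obtain ⟨h1, h2⟩ := hS2' b hb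
        refine ⟨by omega, ?_⟩
        rw [Function.iterate_add_apply]
        exact h2

theorem exists_loop {M : Type} [TopologicalSpace M] (f : M → M) (y : M) (A : Set M)
    (hA : IsCompact A)
    (h : ∀ V ∈ 𝓝 y, ∀ m : ℕ, ∃ p ∈ V, ∃ k : ℕ, f^[k] p ∈ V ∧
      ∃ S : Finset ℕ, m ≤ S.card ∧ ∀ i ∈ S, i < k ∧ f^[i] p ∈ A) :
    ∃ z ∈ A, Loops f y z := by
  classical
  by_contra hcon
  push Not at hcon
  have h1 : ∀ z : A, ∃ V ∈ 𝓝 y, ∃ W ∈ 𝓝 (z : M), ∃ m : ℕ, ∀ p ∈ V, ∀ k : ℕ, f^[k] p ∈ V →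
      ∀ S : Finset ℕ, (∀ i ∈ S, i < k ∧ f^[i] p ∈ W) → S.card ≤ m := by
    intro z
    have h2 := hcon z z.2
    unfold Loops at h2
    push Not at h2
    obtain ⟨V, hV, W, hW, m, h3⟩ := h2
    refine ⟨V, hV, W, hW, m, fun p hp k hk S hS => ?_⟩
    by_contra h4
    obtain ⟨i, hi, hi2⟩ := h3 p hp k hk S (by omega)
    exact hi2 (hS i hi).1 (hS i hi).2
  choose V hV W hW m hm using h1
  obtain ⟨t, ht⟩ := hA.elim_nhds_subcover' (fun z hz => W ⟨z, hz⟩) (fun z hz => hW ⟨z, hz⟩)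
  obtain ⟨p, hp, k, hk, S, hS, hS2⟩ := h (⋂ z ∈ t, V z) ((Filter.biInter_finset_mem t).2 fun z _ => hV z)
    (∑ z ∈ t, m z + 1)
  have h2 : S ⊆ t.biUnion fun z => S.filter fun i => f^[i] p ∈ W z := by
    intro i hi
    have h3 := ht (hS2 i hi).2
    rw [Set.mem_iUnion₂] at h3
    obtain ⟨z, hz, hz2⟩ := h3
    rw [Finset.mem_biUnion]
    exact ⟨z, hz, Finset.mem_filter.2 ⟨hi, hz2⟩⟩
  have h3 : S.card ≤ ∑ z ∈ t, m z := by
    refine (Finset.card_le_card h2).trans (Finset.card_biUnion_le.trans (Finset.sum_le_sum fun z hz => ?_))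
    refine hm z p (Set.mem_iInter₂.1 hp z hz) k (Set.mem_iInter₂.1 hk z hz) _ fun i hi => ?_
    rw [Finset.mem_filter] at hi
    exact ⟨(hS2 i hi.1).1, hi.2⟩
  omega

/-- A point which loops at another one is nonwandering. -/
theorem Loops.nonwandering {M : Type} [TopologicalSpace M] {f : M → M} {y z : M}
    (h : Loops f y z) : z ∈ nonwandering f := by
  intro U hU
  obtain ⟨p, -, k, -, S, hS, hS2⟩ := h Set.univ Filter.univ_mem U hU 2
  obtain ⟨a, ha, b, hb, hab⟩ := Finset.one_lt_card.1 (show 1 < S.card by omega)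
  have key : ∀ a ∈ S, ∀ b ∈ S, a < b → ∃ m : ℕ, 1 ≤ m ∧ ∃ y ∈ U, f^[m] y ∈ U := by
    intro a ha b hb hab
    refine ⟨b - a, by omega, f^[a] p, (hS2 a ha).2, ?_⟩
    rw [← Function.iterate_add_apply, Nat.sub_add_cancel hab.le]
    exact (hS2 b hb).2
  rcases lt_or_gt_of_ne hab with h1 | h1
  · exact key a ha b hb h1
  · exact key b hb a ha h1

end Pool.Agent.CL
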