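import Mathlib

/-!
# The C^infty closing lemma at nonwandering points with polynomial gaps: definitions

Definitions and statements shared by the files of this folder.  The paper proof is the board
note 2158 (kind proposal) of the row MP_b9d69a_an.
-/

set_option autoImplicit false
open scoped Manifold ContDiff Topology
open Set Filter

namespace Pool.Agent.CL

/-- The model space. -/
abbrev Eu (n : ℕ) := EuclideanSpace ℝ (Fin n)

/-- The `C^∞` diffeomorphisms of `M`. -/
abbrev Dif (n : ℕ) (M : Type) [TopologicalSpace M] [ChartedSpace (Eu n) M] :=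
  Diffeomorph 𝓘(ℝ, Eu n) 𝓘(ℝ, Eu n) M M ((⊤ : ℕ∞) : WithTop ℕ∞)

/-- The `C^∞` topology on `Diff(M)`, word for word as in the frozen statement `S05927`. -/
def cInfTop (n : ℕ) (M : Type) [TopologicalSpace M] [ChartedSpace (Eu n) M] :
    TopologicalSpace (Dif n M) :=
  TopologicalSpace.generateFrom
    {U | ∃ f₀ : Dif n M,
        ∃ e ∈ atlas (Eu n) M,
        ∃ e' ∈ atlas (Eu n) M,
        ∃ K : Set M, IsCompact K ∧ K ⊆ e.source ∧ f₀.toFun '' K ⊆ e'.source ∧
        ∃ k : ℕ, ∃ ε : ℝ, 0 < ε ∧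
        U = {g : Dif n M |
              g.toFun '' K ⊆ e'.source ∧
              ∀ x ∈ K, ∀ j : ℕ, j ≤ k →
                ‖iteratedFDeriv ℝ j (e'.toFun ∘ g.toFun ∘ e.invFun) (e.toFun x)
                  - iteratedFDeriv ℝ j (e'.toFun ∘ f₀.toFun ∘ e.invFun)
                      (e.toFun x)‖ < ε}}

/-- The nonwandering set. -/
def nonwandering {M : Type} [TopologicalSpace M] (f : M → M) : Set M :=
  {x : M | ∀ U ∈ nhds x, ∃ m : ℕ, 1 ≤ m ∧ ∃ y ∈ U, f^[m] y ∈ U}

/-- The local `C^∞` closing lemma holds for `f` at `x`: for every neighbourhood `V` of `x` and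
every `C^∞` neighbourhood `𝒰` of `f` there is `g ∈ 𝒰`, which differs from `f` only at points
which `f` sends into `V`, with a periodic point in `V`. -/
def LocallyClosable {n : ℕ} {M : Type} [TopologicalSpace M] [ChartedSpace (Eu n) M]
    (f : Dif n M) (x : M) : Prop :=
  ∀ V ∈ nhds x, ∀ 𝒰 ∈ @nhds (Dif n M) (cInfTop n M) f,
    ∃ g ∈ 𝒰, (∀ p : M, f p ∉ V → g p = f p) ∧ ∃ q ∈ V, q ∈ Function.periodicPts g

/-- `z` loops at `y`: for all neighbourhoods `V` of `y` and `W` of `z` and all `m` there is an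
orbit segment which starts in `V`, ends in `V` and visits `W` at least `m` times. -/
def Loops {M : Type} [TopologicalSpace M] (f : M → M) (y z : M) : Prop :=
  ∀ V ∈ nhds y, ∀ W ∈ nhds z, ∀ m : ℕ, ∃ p ∈ V, ∃ k : ℕ, f^[k] p ∈ V ∧
    ∃ S : Finset ℕ, m ≤ S.card ∧ ∀ i ∈ S, i < k ∧ f^[i] p ∈ W

/-- The nonwandering set is polynomially perfect at `x`: there are a neighbourhood `W` of `x`,
contained in the domain of the chart `φ` at `x`, a natural number `r` and `c > 0` such that for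
every nonwandering `y ∈ W` and every `0 < ρ < c` there is a nonwandering `z` which loops at `y`,
with `ρ ^ r ≤ ‖φ z - φ y‖ ≤ ρ`. -/
def PolyPerfectAt {n : ℕ} {M : Type} [TopologicalSpace M] [ChartedSpace (Eu n) M]
    (f : M → M) (x : M) : Prop :=
  ∃ W ∈ nhds x, W ⊆ (chartAt (Eu n) x).source ∧ ∃ (r : ℕ) (c : ℝ), 0 < c ∧
    ∀ y ∈ W, y ∈ nonwandering f → ∀ ρ : ℝ, 0 < ρ → ρ < c →
      ∃ z ∈ (chartAt (Eu n) x).source, z ∈ nonwandering f ∧ Loops f y z ∧
        ρ ^ r ≤ ‖chartAt (Eu n) x z - chartAt (Eu n) x y‖ ∧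
        ‖chartAt (Eu n) x z - chartAt (Eu n) x y‖ ≤ ρ

/-! ## Auxiliary definitions -/

/-- `h` is the map `id + b` in the chart `e`, and the identity outside the domain of `e`. -/
def Realises {n : ℕ} {M : Type} [TopologicalSpace M] [ChartedSpace (Eu n) M]
    (e : OpenPartialHomeomorph M (Eu n)) (b : Eu n → Eu n) (h : Dif n M) : Prop :=
  (∀ x ∈ e.source, h x ∈ e.source ∧ e (h x) = e x + b (e x)) ∧ ∀ x, x ∉ e.source → h x = x

/-- A subbasic open set of the `C^∞` topology. -/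
def subb {n : ℕ} {M : Type} [TopologicalSpace M] [ChartedSpace (Eu n) M]
    (f₀ : Dif n M) (e e' : OpenPartialHomeomorph M (Eu n)) (K : Set M) (k : ℕ) (ε : ℝ) :
    Set (Dif n M) :=
  {g : Dif n M |
      g.toFun '' K ⊆ e'.source ∧
      ∀ x ∈ K, ∀ j : ℕ, j ≤ k →
        ‖iteratedFDeriv ℝ j (e'.toFun ∘ g.toFun ∘ e.invFun) (e.toFun x)
          - iteratedFDeriv ℝ j (e'.toFun ∘ f₀.toFun ∘ e.invFun)
              (e.toFun x)‖ < ε}

/-- The open ball of radius `ρ` around `y` in the chart at `x`. -/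
def cball {n : ℕ} {M : Type} [TopologicalSpace M] [ChartedSpace (Eu n) M]
    (x y : M) (ρ : ℝ) : Set M :=
  {z | z ∈ (chartAt (Eu n) x).source ∧ ‖chartAt (Eu n) x z - chartAt (Eu n) x y‖ < ρ}

end Pool.Agent.CL
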