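import Pool.Agent.Lib_MP_b9d69a.Defs

/-!
# Piece CL-E: the Euclidean `C^k` lemma

Proof.  Suppose not: for every `m` there are `b_m` with `‖D^j b_m‖ ≤ 1/(m+1)` (`j ≤ k`), `u_m ∈ K`
and `j_m ≤ k` with difference `≥ ε`; pass to a constant `j`, and to a convergent subsequence
`u_m → u` in `K` (or argue with the filter `atTop` and compactness).  By `iteratedFDeriv_comp`
both derivatives are `taylorComp`s; the outer series differ by
`D^i Φ (Ψ u_m + b_m (Ψ u_m)) - D^i Φ (Ψ u_m) → 0` (continuity of `D^i Φ` on the open set `O`,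
compactness of `Ψ '' K`), the inner series by `D^i (b_m ∘ Ψ) (u_m) → 0`
(`norm_iteratedFDeriv_comp_le`), everything is bounded; conclude by
`FormalMultilinearSeries.taylorComp_sub_taylorComp_isLittleO` with `f = 1`.
-/

set_option autoImplicit false
open scoped Manifold ContDiff Topology
open Set Filter

namespace Pool.Agent.CL

/-- continuity of the iterated derivative at a point of smoothness -/
theorem continuousAt_iter {n : ℕ} {F : Type*} [NormedAddCommGroup F] [NormedSpace ℝ F]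
    (Φ : Eu n → F) (x : Eu n) (h : ContDiffAt ℝ ∞ Φ x) (i : ℕ) :
    ContinuousAt (iteratedFDeriv ℝ i Φ) x := by
  have h1 : ContDiffAt ℝ ((i : ℕ∞) : WithTop ℕ∞) Φ x := h.of_le (by exact_mod_cast le_top)
  have h2 : ContDiffAt ℝ 0 (iteratedFDeriv ℝ i Φ) x := by
    apply ContDiffAt.iteratedFDeriv_right h1
    simp
  exact h2.continuousAt

theorem zero_taylorComp {n : ℕ} (q : FormalMultilinearSeries ℝ (Eu n) (Eu n)) (i : ℕ) :
    ((0 : FormalMultilinearSeries ℝ (Eu n) (Eu n)).taylorComp q) i = 0 := by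
  ext v
  simp [FormalMultilinearSeries.taylorComp, FormalMultilinearSeries.compAlongOrderedFinpartition]

theorem euclid_comp_close_aux {n : ℕ} (K O : Set (Eu n)) (hK : IsCompact K) (hO : IsOpen O)
    (Φ Ψ : Eu n → Eu n) (hΨ : ∀ u ∈ K, ContDiffAt ℝ ∞ Ψ u) (hΨO : ∀ u ∈ K, Ψ u ∈ O)
    (hΦ : ContDiffOn ℝ ∞ Φ O) (j : ℕ) (ε : ℝ) (hε : 0 < ε) :
    ∃ δ : ℝ, 0 < δ ∧ ∀ b : Eu n → Eu n, ContDiff ℝ ∞ b →
      (∀ i ≤ j, ∀ u, ‖iteratedFDeriv ℝ i b u‖ ≤ δ) →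
      ∀ u ∈ K,
        ‖iteratedFDeriv ℝ j (Φ ∘ (fun v => v + b v) ∘ Ψ) u - iteratedFDeriv ℝ j (Φ ∘ Ψ) u‖ < ε := by
  by_contra hcon
  push Not at hcon
  have hpos : ∀ m : ℕ, (0 : ℝ) < 1 / ((m : ℝ) + 1) := fun m => by positivity
  choose b hb hbd u huK hbad using fun m : ℕ => hcon (1 / ((m : ℝ) + 1)) (hpos m)
  obtain ⟨u₀, hu₀, ψ, hψ, hlim⟩ := hK.tendsto_subseq huK
  have hinv : Tendsto (fun m : ℕ => 1 / (((ψ m : ℕ) : ℝ) + 1)) atTop (𝓝 0) :=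
    tendsto_one_div_add_atTop_nhds_zero_nat.comp hψ.tendsto_atTop
  have hψc : Tendsto (fun m => Ψ (u (ψ m))) atTop (𝓝 (Ψ u₀)) :=
    ((hΨ u₀ hu₀).continuousAt.tendsto).comp hlim
  -- derivatives of b tend to zero
  have hb0 : ∀ i ≤ j, ∀ w : ℕ → Eu n,
      Tendsto (fun m => iteratedFDeriv ℝ i (b (ψ m)) (w m)) atTop (𝓝 0) := by
    intro i hi w
    rw [tendsto_zero_iff_norm_tendsto_zero]
    exact squeeze_zero (fun _ => norm_nonneg _) (fun m => hbd (ψ m) i hi (w m)) hinv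
  have hb00 : Tendsto (fun m => b (ψ m) (Ψ (u (ψ m)))) atTop (𝓝 0) := by
    rw [tendsto_zero_iff_norm_tendsto_zero]
    refine squeeze_zero (fun _ => norm_nonneg _) (fun m => ?_) hinv
    have := hbd (ψ m) 0 (Nat.zero_le _) (Ψ (u (ψ m)))
    rwa [norm_iteratedFDeriv_zero] at this
  have hsum : Tendsto (fun m => Ψ (u (ψ m)) + b (ψ m) (Ψ (u (ψ m)))) atTop (𝓝 (Ψ u₀)) := by
    simpa using hψc.add hb00
  have hΦat : ∀ y ∈ O, ContDiffAt ℝ ∞ Φ y := fun y hy => hΦ.contDiffAt (hO.mem_nhds hy)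
  have hp₁ : ∀ i, Tendsto (fun m => iteratedFDeriv ℝ i Φ
      (Ψ (u (ψ m)) + b (ψ m) (Ψ (u (ψ m))))) atTop (𝓝 (iteratedFDeriv ℝ i Φ (Ψ u₀))) := fun i =>
    ((continuousAt_iter Φ _ (hΦat _ (hΨO u₀ hu₀)) i).tendsto).comp hsum
  have hp₂ : ∀ i, Tendsto (fun m => iteratedFDeriv ℝ i Φ (Ψ (u (ψ m)))) atTop
      (𝓝 (iteratedFDeriv ℝ i Φ (Ψ u₀))) := fun i =>
    ((continuousAt_iter Φ _ (hΦat _ (hΨO u₀ hu₀)) i).tendsto).comp hψc
  have hq₂ : ∀ i, Tendsto (fun m => iteratedFDeriv ℝ i Ψ (u (ψ m))) atTop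
      (𝓝 (iteratedFDeriv ℝ i Ψ u₀)) := fun i =>
    ((continuousAt_iter Ψ _ (hΨ u₀ hu₀) i).tendsto).comp hlim
  -- derivatives of b ∘ Ψ tend to zero
  have hc : ∀ i ≤ j, Tendsto (fun m => iteratedFDeriv ℝ i (b (ψ m) ∘ Ψ) (u (ψ m))) atTop
      (𝓝 0) := by
    intro i hi
    have h1 : (fun m => iteratedFDeriv ℝ i (b (ψ m) ∘ Ψ) (u (ψ m))) =
        fun m => (ftaylorSeries ℝ (b (ψ m)) (Ψ (u (ψ m)))).taylorComp
          (ftaylorSeries ℝ Ψ (u (ψ m))) i -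
          ((0 : FormalMultilinearSeries ℝ (Eu n) (Eu n)).taylorComp
            (ftaylorSeries ℝ Ψ (u (ψ m)))) i := by
      funext m
      rw [zero_taylorComp, sub_zero]
      exact iteratedFDeriv_comp (n := ((i : ℕ∞) : WithTop ℕ∞))
        ((hb (ψ m)).contDiffAt.of_le (by exact_mod_cast le_top))
        ((hΨ _ (huK (ψ m))).of_le (by exact_mod_cast le_top)) le_rfl
    rw [h1, ← Asymptotics.isLittleO_one_iff ℝ]
    apply FormalMultilinearSeries.taylorComp_sub_taylorComp_isLittleO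
    · intro i' hi'
      exact (hb0 i' (hi'.trans hi) _).norm.isBoundedUnder_le
    · intro i' hi'
      rw [Asymptotics.isLittleO_one_iff]
      simpa [ftaylorSeries] using hb0 i' (hi'.trans hi) (fun m => Ψ (u (ψ m)))
    · intro i' _
      exact (hq₂ i').norm.isBoundedUnder_le
    · intro i' _
      exact (hq₂ i').norm.isBoundedUnder_le
    · intro i' _
      simp
  have hgsmooth : ∀ m, ContDiffAt ℝ ∞ (b (ψ m) ∘ Ψ) (u (ψ m)) := fun m =>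
    (hb (ψ m)).contDiffAt.comp _ (hΨ _ (huK (ψ m)))
  have hq₁eq : ∀ i m, iteratedFDeriv ℝ i ((fun v => v + b (ψ m) v) ∘ Ψ) (u (ψ m)) =
      iteratedFDeriv ℝ i Ψ (u (ψ m)) + iteratedFDeriv ℝ i (b (ψ m) ∘ Ψ) (u (ψ m)) := by
    intro i m
    have h2 : ((fun v => v + b (ψ m) v) ∘ Ψ) = Ψ + (b (ψ m) ∘ Ψ) := by
      funext w; rfl
    rw [h2]
    exact iteratedFDeriv_add_apply ((hΨ _ (huK (ψ m))).of_le (by exact_mod_cast le_top))
      ((hgsmooth m).of_le (by exact_mod_cast le_top))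
  have hq₁ : ∀ i ≤ j, Tendsto (fun m => iteratedFDeriv ℝ i ((fun v => v + b (ψ m) v) ∘ Ψ)
      (u (ψ m))) atTop (𝓝 (iteratedFDeriv ℝ i Ψ u₀)) := by
    intro i hi
    simp only [hq₁eq]
    simpa using (hq₂ i).add (hc i hi)
  have hev : ∀ᶠ m in atTop, Ψ (u (ψ m)) + b (ψ m) (Ψ (u (ψ m))) ∈ O :=
    hsum (hO.mem_nhds (hΨO u₀ hu₀))
  have hfin : Tendsto (fun m =>
      (ftaylorSeries ℝ Φ (Ψ (u (ψ m)) + b (ψ m) (Ψ (u (ψ m))))).taylorComp
        (ftaylorSeries ℝ ((fun v => v + b (ψ m) v) ∘ Ψ) (u (ψ m))) j -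
      (ftaylorSeries ℝ Φ (Ψ (u (ψ m)))).taylorComp (ftaylorSeries ℝ Ψ (u (ψ m))) j)
      atTop (𝓝 0) := by
    rw [← Asymptotics.isLittleO_one_iff ℝ]
    apply FormalMultilinearSeries.taylorComp_sub_taylorComp_isLittleO
    · intro i _
      exact (hp₁ i).norm.isBoundedUnder_le
    · intro i _
      rw [Asymptotics.isLittleO_one_iff]
      simpa [ftaylorSeries] using (hp₁ i).sub (hp₂ i)
    · intro i hi
      exact (hq₁ i hi).norm.isBoundedUnder_le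
    · intro i _
      exact (hq₂ i).norm.isBoundedUnder_le
    · intro i hi
      rw [Asymptotics.isLittleO_one_iff]
      simpa [ftaylorSeries] using (hq₁ i hi).sub (hq₂ i)
  have hsmall : ∀ᶠ m in atTop, ‖(ftaylorSeries ℝ Φ (Ψ (u (ψ m)) + b (ψ m) (Ψ (u (ψ m))))).taylorComp
        (ftaylorSeries ℝ ((fun v => v + b (ψ m) v) ∘ Ψ) (u (ψ m))) j -
      (ftaylorSeries ℝ Φ (Ψ (u (ψ m)))).taylorComp (ftaylorSeries ℝ Ψ (u (ψ m))) j‖ < ε := by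
    have := hfin.norm
    rw [norm_zero] at this
    exact this.eventually (gt_mem_nhds hε)
  obtain ⟨m, hm1, hm2⟩ := (hsmall.and hev).exists
  have e1 : iteratedFDeriv ℝ j (Φ ∘ (fun v => v + b (ψ m) v) ∘ Ψ) (u (ψ m)) =
      (ftaylorSeries ℝ Φ (Ψ (u (ψ m)) + b (ψ m) (Ψ (u (ψ m))))).taylorComp
        (ftaylorSeries ℝ ((fun v => v + b (ψ m) v) ∘ Ψ) (u (ψ m))) j :=
    iteratedFDeriv_comp (g := Φ) (f := (fun v => v + b (ψ m) v) ∘ Ψ) (x := u (ψ m))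
      (n := ((j : ℕ∞) : WithTop ℕ∞))
      ((hΦat _ hm2).of_le (by exact_mod_cast le_top))
      ((((hΨ _ (huK (ψ m)))).add (hgsmooth m)).of_le (by exact_mod_cast le_top)) le_rfl
  have e2 : iteratedFDeriv ℝ j (Φ ∘ Ψ) (u (ψ m)) =
      (ftaylorSeries ℝ Φ (Ψ (u (ψ m)))).taylorComp (ftaylorSeries ℝ Ψ (u (ψ m))) j :=
    iteratedFDeriv_comp (n := ((j : ℕ∞) : WithTop ℕ∞))
      ((hΦat _ (hΨO _ (huK (ψ m)))).of_le (by exact_mod_cast le_top))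
      ((hΨ _ (huK (ψ m))).of_le (by exact_mod_cast le_top)) le_rfl
  rw [← e1, ← e2] at hm1
  exact absurd hm1 (not_lt.mpr (hbad (ψ m)))

theorem euclid_comp_close {n : ℕ} (K O : Set (Eu n)) (hK : IsCompact K) (hO : IsOpen O)
    (Φ Ψ : Eu n → Eu n) (hΨ : ∀ u ∈ K, ContDiffAt ℝ ∞ Ψ u) (hΨO : ∀ u ∈ K, Ψ u ∈ O)
    (hΦ : ContDiffOn ℝ ∞ Φ O) (k : ℕ) (ε : ℝ) (hε : 0 < ε) :
    ∃ δ : ℝ, 0 < δ ∧ ∀ b : Eu n → Eu n, ContDiff ℝ ∞ b →
      (∀ j ≤ k, ∀ u, ‖iteratedFDeriv ℝ j b u‖ ≤ δ) →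
      ∀ u ∈ K, ∀ j ≤ k,
        ‖iteratedFDeriv ℝ j (Φ ∘ (fun v => v + b v) ∘ Ψ) u - iteratedFDeriv ℝ j (Φ ∘ Ψ) u‖ < ε := by
  choose d hd hdb using fun j => euclid_comp_close_aux K O hK hO Φ Ψ hΨ hΨO hΦ j ε hε
  refine ⟨(Finset.range (k + 1)).inf' ⟨0, by simp⟩ d, ?_, ?_⟩
  · rw [Finset.lt_inf'_iff]
    exact fun i _ => hd i
  · intro b hb hbd u hu j hj
    refine hdb j b hb (fun i hi w => (hbd i (hi.trans hj) w).trans ?_) u hu
    exact Finset.inf'_le _ (by simp; omega)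

end Pool.Agent.CL
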