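import Pool.Agent.Lib_MP_b9d69a.Defs

/-!
# Exponential returns: definitions

Paper proof: board note 2212 (kind proposal) of the row MP_b9d69a_an.
-/

set_option autoImplicit false
open scoped Manifold ContDiff Topology
open Set Filter

namespace Pool.Agent.CL

/-- The returns of a point: `near p` says that the `p`-th iterate is close to the point, `a p` is
the displacement and `A p` the derivative of the `p`-th iterate at the point (in a chart). -/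
structure LinData (n : ℕ) (K ρ : ℝ) where
  near : ℕ → Prop
  a : ℕ → Eu n
  A : ℕ → (Eu n →L[ℝ] Eu n)
  near_norm : ∀ p, near p → ‖a p‖ ≤ ρ
  split : ∀ p s, near (p + s) → near p → K ^ p * (‖a (p + s)‖ + ‖a p‖) ≤ ρ →
    near s ∧ ‖a s‖ ≤ K ^ p * (‖a (p + s)‖ + ‖a p‖)
  comp : ∀ p q, near p → near q → K ^ p * ‖a q‖ ≤ ρ →
    ‖a (p + q) - a p - A p (a q)‖ ≤ K ^ p * ‖a q‖ ^ 2
  compA : ∀ p q, near p → near q → K ^ p * ‖a q‖ ≤ ρ →
    ‖A (p + q) - (A p).comp (A q)‖ ≤ K ^ (p + q) * ‖a q‖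
  bound : ∀ p, near p → ‖A p‖ ≤ K ^ p
  bound_inv : ∀ p, near p → ∀ v, ‖v‖ ≤ K ^ p * ‖A p v‖

/-- `F` is controlled on the ball `closedBall u₀ R`: it is differentiable, the derivative and its
inverse are bounded by `B`, and the derivative moves by at most `L * ‖u - u₀‖`. -/
def Ctl {n : ℕ} (F : Eu n → Eu n) (u₀ : Eu n) (R B L : ℝ) : Prop :=
  ∃ F' : Eu n → (Eu n →L[ℝ] Eu n), ∀ u ∈ Metric.closedBall u₀ R,
    HasFDerivAt F (F' u) u ∧ ‖F' u‖ ≤ B ∧ (∀ v, ‖v‖ ≤ B * ‖F' u v‖) ∧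
    ‖F' u - F' u₀‖ ≤ L * ‖u - u₀‖

/-- Returns are at most exponentially fast near `x`. -/
def ExpReturnsAt {n : ℕ} {M : Type} [TopologicalSpace M] [ChartedSpace (Eu n) M]
    (f : M → M) (x : M) : Prop :=
  ∃ W ∈ nhds x, W ⊆ (chartAt (Eu n) x).source ∧ ∃ C : ℝ, 0 < C ∧
    ∀ z ∈ W, ∀ k : ℕ, 1 ≤ k → f^[k] z ∈ (chartAt (Eu n) x).source →
      Real.exp (-(C * k)) ≤ ‖chartAt (Eu n) x (f^[k] z) - chartAt (Eu n) x z‖

end Pool.Agent.CL
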