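import Pool.Agent.Lib_MP_b9d69a.ERQ3

/-!
# Piece ER-F: the return data of a point

Proof.  `local_data` for `f` and for `f.symm` gives `K₁, ρ₁, W₁` and `K₂, ρ₂, W₂`; put
`K = max K₁ K₂`, choose `ρ ≤ ρ₁, ρ₂` with `φ.symm (closedBall (φ x) (2 ρ)) ⊆ W₁ ∩ W₂`,
`closedBall (φ x) (2 ρ) ⊆ φ.target`, and `W = {z ∈ φ.source | ‖φ z - φ x‖ < ρ}`.  For `z ∈ W` put
`near p := f^[p] z ∈ φ.source ∧ ‖φ (f^[p] z) - φ z‖ ≤ ρ` (then `f^[p] z ∈ W₁ ∩ W₂`),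
`a p = φ (f^[p] z) - φ z`, `A p = fderiv ℝ (φ ∘ f^[p] ∘ φ.symm) (φ z)`.
* `split`: `f^[s] z = f.symm^[p] (f^[p + s] z)`; the data of `f.symm` at `w = f^[p] z`
  (`f.symm^[p] w = z`), applied to `u = φ (f^[p + s] z)`, `‖u - φ w‖ ≤ ‖a (p + s)‖ + ‖a p‖ ≤ ρ / K ^ p`:
  the image is in `φ.source`, and the mean value inequality on the ball gives the bound.
* `comp`: `F = φ ∘ f^[p] ∘ φ.symm`, `F (φ z) = φ z + a p`, `F (φ z + a q) = φ (f^[p + q] z) =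
  φ z + a (p + q)`; the mean value inequality for `u ↦ F u - F' (φ z) u` on
  `closedBall (φ z) ‖a q‖`, where `‖F' u - F' (φ z)‖ ≤ K ^ p ‖a q‖`.
* `compA`: near `φ z` the map `φ ∘ f^[p + q] ∘ φ.symm` is the composition, so
  `A (p + q) = F' (φ z + a q) ∘ A q`, `‖F' (φ z + a q) - A p‖ ≤ K ^ p ‖a q‖`, `‖A q‖ ≤ K ^ q`.
* `bound`, `bound_inv`: `local_data` at `u = φ z`.
-/

set_option autoImplicit false
open scoped Manifold Topology ContDiff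
open Set Filter

namespace Pool.Agent.CL

variable {n : ℕ} {M : Type} [TopologicalSpace M] [ChartedSpace (Eu n) M]
    [IsManifold 𝓘(ℝ, Eu n) ((⊤ : ℕ∞) : WithTop ℕ∞) M] [T2Space M]

theorem exists_linData [CompactSpace M] (f : Dif n M) (x : M) :
    ∃ K ρ : ℝ, 2 ≤ K ∧ 0 < ρ ∧ ∃ W ∈ 𝓝 x, W ⊆ (chartAt (Eu n) x).source ∧
      ∀ z ∈ W, ∃ D : LinData n K ρ,
        (∀ p, D.near p ↔ f^[p] z ∈ (chartAt (Eu n) x).source ∧
          ‖chartAt (Eu n) x (f^[p] z) - chartAt (Eu n) x z‖ ≤ ρ) ∧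
        ∀ p, D.a p = chartAt (Eu n) x (f^[p] z) - chartAt (Eu n) x z := by
  classical
  obtain ⟨K₁, ρ₁, hK₁, hρ₁, W₁, hW₁, hW₁s, h₁⟩ := local_data f x
  obtain ⟨K₂, ρ₂, hK₂, hρ₂, W₂, hW₂, hW₂s, h₂⟩ := local_data f.symm x
  set φ := chartAt (Eu n) x with hφ
  have hx : x ∈ φ.source := mem_chart_source _ x
  set K := max K₁ K₂ with hK
  have hK1 : K₁ ≤ K := le_max_left _ _
  have hK2 : K₂ ≤ K := le_max_right _ _
  have hK2' : (2 : ℝ) ≤ K := hK₁.trans hK1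
  have hK0 : 0 < K := by linarith
  have hnb : φ.symm ⁻¹' (W₁ ∩ W₂) ∩ φ.target ∈ 𝓝 (φ x) :=
    Filter.inter_mem (φ.tendsto_symm hx (Filter.inter_mem hW₁ hW₂))
      (φ.open_target.mem_nhds (φ.map_source hx))
  obtain ⟨r, hr, hrs⟩ := Metric.nhds_basis_closedBall.mem_iff.1 hnb
  set ρ := min (min ρ₁ ρ₂) (r / 2) with hρ
  have hρ0 : 0 < ρ := lt_min (lt_min hρ₁ hρ₂) (by linarith)
  have hρ1 : ρ ≤ ρ₁ := (min_le_left _ _).trans (min_le_left _ _)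
  have hρ2 : ρ ≤ ρ₂ := (min_le_left _ _).trans (min_le_right _ _)
  have hρr : ρ + ρ ≤ r := by
    have := min_le_right (min ρ₁ ρ₂) (r / 2)
    linarith
  have hin : ∀ y ∈ φ.source, ‖φ y - φ x‖ ≤ r → y ∈ W₁ ∧ y ∈ W₂ := by
    intro y hy hyr
    have h := hrs (show φ y ∈ Metric.closedBall (φ x) r by
      rw [mem_closedBall_iff_norm]; exact hyr)
    have h' : φ.symm (φ y) ∈ W₁ ∩ W₂ := h.1
    rw [φ.left_inv hy] at h'
    exact h'
  refine ⟨K, ρ, hK2', hρ0, φ.source ∩ φ ⁻¹' Metric.ball (φ x) ρ,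
    Filter.inter_mem (φ.open_source.mem_nhds hx)
      ((φ.continuousAt hx).preimage_mem_nhds (Metric.ball_mem_nhds _ hρ0)),
    Set.inter_subset_left, ?_⟩
  rintro z ⟨hzs, hzb⟩
  have hzb' : ‖φ z - φ x‖ < ρ := by
    rw [← mem_ball_iff_norm]; exact hzb
  have hzW := hin z hzs (by linarith)
  -- powers and radii
  have hpow1 : ∀ p : ℕ, K₁ ^ p ≤ K ^ p := fun p => pow_le_pow_left₀ (by linarith) hK1 p
  have hpow2 : ∀ p : ℕ, K₂ ^ p ≤ K ^ p := fun p => pow_le_pow_left₀ (by linarith) hK2 p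
  have hp1 : ∀ p : ℕ, 0 < K₁ ^ p := fun p => pow_pos (by linarith) p
  have hp2 : ∀ p : ℕ, 0 < K₂ ^ p := fun p => pow_pos (by linarith) p
  have hp : ∀ p : ℕ, 0 < K ^ p := fun p => pow_pos hK0 p
  have hrad1 : ∀ (p : ℕ) (c : ℝ), 0 ≤ c → K ^ p * c ≤ ρ → c ≤ ρ₁ / K₁ ^ p := by
    intro p c hc hcρ
    rw [le_div_iff₀ (hp1 p)]
    calc c * K₁ ^ p ≤ c * K ^ p := mul_le_mul_of_nonneg_left (hpow1 p) hc
      _ = K ^ p * c := mul_comm _ _
      _ ≤ ρ₁ := hcρ.trans hρ1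
  have hrad2 : ∀ (p : ℕ) (c : ℝ), 0 ≤ c → K ^ p * c ≤ ρ → c ≤ ρ₂ / K₂ ^ p := by
    intro p c hc hcρ
    rw [le_div_iff₀ (hp2 p)]
    calc c * K₂ ^ p ≤ c * K ^ p := mul_le_mul_of_nonneg_left (hpow2 p) hc
      _ = K ^ p * c := mul_comm _ _
      _ ≤ ρ₂ := hcρ.trans hρ2
  -- near
  have hnear : ∀ p : ℕ, f^[p] z ∈ φ.source → ‖φ (f^[p] z) - φ z‖ ≤ ρ →
      f^[p] z ∈ W₁ ∧ f^[p] z ∈ W₂ := by
    intro p hs hn
    refine hin _ hs ?_
    calc ‖φ (f^[p] z) - φ x‖ = ‖(φ (f^[p] z) - φ z) + (φ z - φ x)‖ := by congr 1; abel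
      _ ≤ ‖φ (f^[p] z) - φ z‖ + ‖φ z - φ x‖ := norm_add_le _ _
      _ ≤ r := by linarith
  have hinv : ∀ (p : ℕ) (y : M), (⇑f.symm)^[p] (f^[p] y) = y := fun p y =>
    (Function.LeftInverse.iterate (fun w => f.symm_apply_apply w) p) y
  let F : ℕ → Eu n → Eu n := fun p u => φ (f^[p] (φ.symm u))
  have hFz : ∀ p, F p (φ z) = φ (f^[p] z) := fun p => by
    change φ (f^[p] (φ.symm (φ z))) = _
    rw [φ.left_inv hzs]
  have hball0 : ∀ p : ℕ, φ z ∈ Metric.closedBall (φ z) (ρ₁ / K₁ ^ p) := fun p =>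
    Metric.mem_closedBall_self (div_nonneg hρ₁.le (hp1 p).le)
  refine ⟨{
    near := fun p => f^[p] z ∈ φ.source ∧ ‖φ (f^[p] z) - φ z‖ ≤ ρ
    a := fun p => φ (f^[p] z) - φ z
    A := fun p => fderiv ℝ (F p) (φ z)
    near_norm := fun p h => h.2
    split := ?_
    comp := ?_
    compA := ?_
    bound := ?_
    bound_inv := ?_ }, fun p => Iff.rfl, fun p => rfl⟩
  · -- split
    intro p s hps hpn hle
    obtain ⟨-, hC⟩ := h₂ (f^[p] z) (hnear p hpn.1 hpn.2).2 p (by rw [hinv]; exact hzW.2)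
    have hball := (h₂ (f^[p] z) (hnear p hpn.1 hpn.2).2 p (by rw [hinv]; exact hzW.2)).1
    have hu : ‖φ (f^[p + s] z) - φ (f^[p] z)‖ ≤
        ‖φ (f^[p + s] z) - φ z‖ + ‖φ (f^[p] z) - φ z‖ := by
      calc ‖φ (f^[p + s] z) - φ (f^[p] z)‖ =
          ‖(φ (f^[p + s] z) - φ z) - (φ (f^[p] z) - φ z)‖ := by congr 1; abel
        _ ≤ _ := norm_sub_le _ _
    have hu' : φ (f^[p + s] z) ∈ Metric.closedBall (φ (f^[p] z)) (ρ₂ / K₂ ^ p) := by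
      rw [mem_closedBall_iff_norm]
      exact hu.trans (hrad2 p _ (add_nonneg (norm_nonneg _) (norm_nonneg _)) hle)
    have hsym : (⇑f.symm)^[p] (φ.symm (φ (f^[p + s] z))) = f^[s] z := by
      rw [φ.left_inv hps.1, Function.iterate_add_apply, hinv]
    have hsrc : f^[s] z ∈ φ.source := by
      have := (hball _ hu').2
      rwa [hsym] at this
    have hb := hC.norm_sub_le hu'
    simp only [hsym] at hb
    rw [φ.left_inv hpn.1, hinv] at hb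
    have hb2 : ‖φ (f^[s] z) - φ z‖ ≤
        K ^ p * (‖φ (f^[p + s] z) - φ z‖ + ‖φ (f^[p] z) - φ z‖) :=
      hb.trans (mul_le_mul (hpow2 p) hu (norm_nonneg _) (hp p).le)
    exact ⟨⟨hsrc, hb2.trans hle⟩, hb2⟩
  · -- comp
    intro p q hpn hqn hle
    have hd := h₁ z hzW.1 p (hnear p hpn.1 hpn.2).1
    have hu' : φ (f^[q] z) ∈ Metric.closedBall (φ z) (ρ₁ / K₁ ^ p) := by
      rw [mem_closedBall_iff_norm]
      exact hrad1 p _ (norm_nonneg _) hle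
    have ht := Ctl.taylor (div_nonneg hρ₁.le (hp1 p).le) (hp1 p).le hd.2 hu'
    have e1 : φ (f^[p] (φ.symm (φ (f^[q] z)))) = φ (f^[p + q] z) := by
      rw [φ.left_inv hqn.1, Function.iterate_add_apply]
    have e2 : φ (f^[p] (φ.symm (φ z))) = φ (f^[p] z) := by rw [φ.left_inv hzs]
    simp only [e1, e2] at ht
    have e3 : φ (f^[p + q] z) - φ z - (φ (f^[p] z) - φ z) = φ (f^[p + q] z) - φ (f^[p] z) := by
      abel
    rw [e3]
    exact ht.trans (mul_le_mul_of_nonneg_right (hpow1 p) (sq_nonneg _))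
  · -- compA
    intro p q hpn hqn hle
    obtain ⟨hbp, P', hP⟩ := h₁ z hzW.1 p (hnear p hpn.1 hpn.2).1
    obtain ⟨hbq, Q', hQ⟩ := h₁ z hzW.1 q (hnear q hqn.1 hqn.2).1
    have hu' : φ (f^[q] z) ∈ Metric.closedBall (φ z) (ρ₁ / K₁ ^ p) := by
      rw [mem_closedBall_iff_norm]
      exact hrad1 p _ (norm_nonneg _) hle
    obtain ⟨hP1, -, -, hP4⟩ := hP _ hu'
    obtain ⟨hP0, -, -, -⟩ := hP _ (hball0 p)
    obtain ⟨hQ1, hQ2, -, -⟩ := hQ _ (hball0 q)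
    have hcomp : HasFDerivAt (fun u => F p (F q u)) ((P' (φ (f^[q] z))).comp (Q' (φ z)))
        (φ z) := by
      have hP1' : HasFDerivAt (F p) (P' (φ (f^[q] z))) (F q (φ z)) := by
        rw [hFz q]
        exact hP1
      exact HasFDerivAt.comp (φ z) hP1' hQ1
    have hev : F (p + q) =ᶠ[𝓝 (φ z)] fun u => F p (F q u) := by
      have hnb : Metric.closedBall (φ z) (ρ₁ / K₁ ^ q) ∈ 𝓝 (φ z) :=
        Metric.closedBall_mem_nhds _ (div_pos hρ₁ (hp1 q))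
      filter_upwards [hnb] with u hu
      change φ (f^[p + q] (φ.symm u)) = φ (f^[p] (φ.symm (φ (f^[q] (φ.symm u)))))
      rw [φ.left_inv (hbq u hu).2, Function.iterate_add_apply]
    have eA : fderiv ℝ (F (p + q)) (φ z) = (P' (φ (f^[q] z))).comp (Q' (φ z)) :=
      (hcomp.congr_of_eventuallyEq hev).fderiv
    have eP : fderiv ℝ (F p) (φ z) = P' (φ z) := HasFDerivAt.fderiv hP0
    have eQ : fderiv ℝ (F q) (φ z) = Q' (φ z) := HasFDerivAt.fderiv hQ1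
    rw [eA, eP, eQ, ← ContinuousLinearMap.sub_comp]
    calc ‖(P' (φ (f^[q] z)) - P' (φ z)).comp (Q' (φ z))‖ ≤
        ‖P' (φ (f^[q] z)) - P' (φ z)‖ * ‖Q' (φ z)‖ := ContinuousLinearMap.opNorm_comp_le _ _
      _ ≤ (K₁ ^ p * ‖φ (f^[q] z) - φ z‖) * K₁ ^ q :=
        mul_le_mul hP4 hQ2 (norm_nonneg _) (mul_nonneg (hp1 p).le (norm_nonneg _))
      _ ≤ (K ^ p * ‖φ (f^[q] z) - φ z‖) * K ^ q :=
        mul_le_mul (mul_le_mul_of_nonneg_right (hpow1 p) (norm_nonneg _)) (hpow1 q) (hp1 q).le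
          (mul_nonneg (hp p).le (norm_nonneg _))
      _ = K ^ (p + q) * ‖φ (f^[q] z) - φ z‖ := by rw [pow_add]; ring
  · -- bound
    intro p hpn
    obtain ⟨-, P', hP⟩ := h₁ z hzW.1 p (hnear p hpn.1 hpn.2).1
    obtain ⟨hP0, hP1, -, -⟩ := hP _ (hball0 p)
    have eP : fderiv ℝ (F p) (φ z) = P' (φ z) := HasFDerivAt.fderiv hP0
    rw [eP]
    exact hP1.trans (hpow1 p)
  · -- bound_inv
    intro p hpn v
    obtain ⟨-, P', hP⟩ := h₁ z hzW.1 p (hnear p hpn.1 hpn.2).1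
    obtain ⟨hP0, -, hP2, -⟩ := hP _ (hball0 p)
    have eP : fderiv ℝ (F p) (φ z) = P' (φ z) := HasFDerivAt.fderiv hP0
    rw [eP]
    exact (hP2 v).trans (mul_le_mul_of_nonneg_right (hpow1 p) (norm_nonneg _))

end Pool.Agent.CL
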