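import Pool.Agent.Lib_MP_b9d69a.ER0

/-!
# Piece ER-L2: the Euclidean algorithm for return times

Paper proof (note 2212, L2).  Induction on `N`, for all `p, q` with `p + q ≤ N` and all `b, c, E`.
If `1 < E` the conclusion is trivial.  So `E ≤ 1`.
* `p = q`: `|b - c| = |b| + |c| ≥ 1` (as `b c ≤ 0` and `0 < |b| q + |c| p`), and
  `‖(b - c) • a₀‖ ≤ ‖a p - c a₀‖ + ‖a p - b a₀‖ ≤ 2 E ‖a₀‖`, so `1 / 2 ≤ E ≤ (4 K) ^ (p + q) * E`.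
* `q < p` (the case `p < q` is symmetric: the hypotheses are symmetric under exchanging `(p, b)` and
  `(q, c)`).  Put `s = p - q`, so `p = q + s`.  `|b|, |c| ≤ k` and `|b| + |c| ≤ k`, so
  `‖a p‖ + ‖a q‖ ≤ 2 (k + 1) ‖a₀‖ ≤ K ^ (2 k) ‖a₀‖`, `K ^ q (‖a p‖ + ‖a q‖) ≤ K ^ (3 k) ‖a₀‖ ≤ ρ`.
  `D.split q s`: `near s` and `‖a s‖ ≤ K ^ (3 k) ‖a₀‖`.  Hence `K ^ q ‖a s‖ ≤ K ^ (4 k) ‖a₀‖ ≤ ρ`.
  `D.comp q s`: `‖a p - a q - A q (a s)‖ ≤ K ^ q ‖a s‖ ^ 2 ≤ K ^ (7 k) ‖a₀‖ ^ 2 ≤ E ‖a₀‖`.  So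
  `‖A q (a s - (b - c) • a₀)‖ ≤ E ‖a₀‖ + 2 E ‖a₀‖ + |b - c| ‖A q a₀ - a₀‖ ≤ 4 E ‖a₀‖`, as
  `|b - c| ≤ k`; by `bound_inv`: `‖a s - (b - c) • a₀‖ ≤ 4 K ^ q E ‖a₀‖`.
  `D.compA q s`: `‖A p - (A q).comp (A s)‖ ≤ K ^ p ‖a s‖ ≤ K ^ (4 k) ‖a₀‖`, so
  `‖A q (A s a₀ - a₀)‖ ≤ ‖A p a₀ - a₀‖ + ‖A q a₀ - a₀‖ + K ^ (4 k) ‖a₀‖ ^ 2` and, as `k ≤ K ^ k`,
  `k ‖A s a₀ - a₀‖ ≤ K ^ q (2 E ‖a₀‖ + K ^ (5 k) ‖a₀‖ ^ 2) ≤ 4 K ^ q E ‖a₀‖`.
  Apply the induction hypothesis to `(s, b - c)` and `(q, c)` with `E' = 4 K ^ q E`: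
  `(b - c) c ≤ 0`, `|b - c| q + |c| s = |b| q + |c| p`, and
  `(4 K) ^ (s + q) * (4 K ^ q E) ≤ (4 K) ^ (p + q) * E` as `q ≥ 1`.
-/

set_option autoImplicit false
open scoped Topology
open Set Filter

namespace Pool.Agent.CL

/-- the hypotheses of `euclid_returns` -/
private structure Hyp {n : ℕ} {K ρ : ℝ} (D : LinData n K ρ) (k : ℕ) (a₀ : Eu n) (p q : ℕ)
    (b c : ℤ) (E : ℝ) : Prop where
  hp : 1 ≤ p
  hq : 1 ≤ q
  hpk : p ≤ k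
  hqk : q ≤ k
  hnp : D.near p
  hnq : D.near q
  hbc : b * c ≤ 0
  hpos : 0 < |b| * q + |c| * p
  hle : |b| * q + |c| * p ≤ k
  hE : K ^ (9 * k) * ‖a₀‖ ≤ E
  h1 : ‖D.a p - (b : ℝ) • a₀‖ ≤ E * ‖a₀‖
  h2 : ‖D.a q - (c : ℝ) • a₀‖ ≤ E * ‖a₀‖
  h3 : k * ‖D.A p a₀ - a₀‖ ≤ E * ‖a₀‖
  h4 : k * ‖D.A q a₀ - a₀‖ ≤ E * ‖a₀‖

private theorem Hyp.symm {n : ℕ} {K ρ : ℝ} {D : LinData n K ρ} {k : ℕ} {a₀ : Eu n} {p q : ℕ}
    {b c : ℤ} {E : ℝ} (h : Hyp D k a₀ p q b c E) : Hyp D k a₀ q p c b E where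
  hp := h.hq
  hq := h.hp
  hpk := h.hqk
  hqk := h.hpk
  hnp := h.hnq
  hnq := h.hnp
  hbc := by rw [mul_comm]; exact h.hbc
  hpos := by rw [add_comm]; exact h.hpos
  hle := by rw [add_comm]; exact h.hle
  hE := h.hE
  h1 := h.h2
  h2 := h.h1
  h3 := h.h4
  h4 := h.h3

private theorem num1 (k : ℕ) (hk : 1 ≤ k) {K : ℝ} (hK : 2 ≤ K) : (k : ℝ) + 2 ≤ K ^ (2 * k) := by
  have h1 : k + 2 ≤ 4 ^ k := by
    induction k, hk using Nat.le_induction with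
    | base => norm_num
    | succ m hm ih =>
      rw [pow_succ]
      omega
  have h2 : (k : ℝ) + 2 ≤ (4 : ℝ) ^ k := by exact_mod_cast h1
  have h3 : (4 : ℝ) ^ k ≤ K ^ (2 * k) := by
    rw [pow_mul]
    apply pow_le_pow_left₀ (by norm_num)
    nlinarith
  exact h2.trans h3

private theorem num2 (k : ℕ) {K : ℝ} (hK : 2 ≤ K) : (k : ℝ) ≤ K ^ k := by
  have h1 : k ≤ 2 ^ k := Nat.lt_two_pow_self.le
  have h2 : (k : ℝ) ≤ (2 : ℝ) ^ k := by exact_mod_cast h1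
  exact h2.trans (pow_le_pow_left₀ (by norm_num) hK k)

private theorem abs_sub_opp {b c : ℤ} (h : b * c ≤ 0) : |b - c| = |b| + |c| := by
  rcases le_total 0 b with hb | hb
  · rcases eq_or_lt_of_le hb with hb0 | hb0
    · rw [← hb0]
      simp
    · have hc : c ≤ 0 := by
        by_contra hc
        push Not at hc
        have := mul_pos hb0 hc
        omega
      rw [abs_of_nonneg hb, abs_of_nonpos hc, abs_of_nonneg (by omega)]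
      ring
  · rcases eq_or_lt_of_le hb with hb0 | hb0
    · rw [hb0]
      simp
    · have hc : 0 ≤ c := by
        by_contra hc
        push Not at hc
        have := mul_pos_of_neg_of_neg hb0 hc
        omega
      rw [abs_of_nonpos hb, abs_of_nonneg hc, abs_of_nonpos (by omega)]
      ring

private theorem Hyp.sum_le {n : ℕ} {K ρ : ℝ} {D : LinData n K ρ} {k : ℕ} {a₀ : Eu n} {p q : ℕ}
    {b c : ℤ} {E : ℝ} (h : Hyp D k a₀ p q b c E) : |b| + |c| ≤ k := by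
  have h1 : |b| ≤ |b| * q := by
    have hq : (1 : ℤ) ≤ q := by exact_mod_cast h.hq
    nlinarith [abs_nonneg b]
  have h2 : |c| ≤ |c| * p := by
    have hp : (1 : ℤ) ≤ p := by exact_mod_cast h.hp
    nlinarith [abs_nonneg c]
  have := h.hle
  omega

private theorem Hyp.one_le {n : ℕ} {K ρ : ℝ} {D : LinData n K ρ} {k : ℕ} {a₀ : Eu n} {p q : ℕ}
    {b c : ℤ} {E : ℝ} (h : Hyp D k a₀ p q b c E) : 1 ≤ |b| + |c| := by
  by_contra hc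
  have h1 : |b| = 0 := by
    have := abs_nonneg b
    have := abs_nonneg c
    omega
  have h2 : |c| = 0 := by
    have := abs_nonneg b
    have := abs_nonneg c
    omega
  have := h.hpos
  rw [h1, h2] at this
  simp at this

private theorem base_case {n : ℕ} {K ρ : ℝ} (hK : 2 ≤ K) {D : LinData n K ρ} {k : ℕ} {a₀ : Eu n}
    (ha₀ : a₀ ≠ 0) {p : ℕ} {b c : ℤ} {E : ℝ} (h : Hyp D k a₀ p p b c E) :
    1 / 2 ≤ (4 * K) ^ (p + p) * E := by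
  have hα : 0 < ‖a₀‖ := norm_pos_iff.2 ha₀
  have e1 : ‖((b : ℝ) - (c : ℝ)) • a₀‖ ≤ E * ‖a₀‖ + E * ‖a₀‖ := by
    have e : ((b : ℝ) - (c : ℝ)) • a₀ =
        (D.a p - (c : ℝ) • a₀) - (D.a p - (b : ℝ) • a₀) := by
      rw [sub_smul]
      abel
    rw [e]
    exact (norm_sub_le _ _).trans (add_le_add h.h2 h.h1)
  have e2 : (1 : ℝ) ≤ |(b : ℝ) - (c : ℝ)| := by
    have h1 := h.one_le
    rw [← abs_sub_opp h.hbc] at h1
    have h2 : ((1 : ℤ) : ℝ) ≤ ((|b - c| : ℤ) : ℝ) := by exact_mod_cast h1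
    simpa using h2
  rw [norm_smul, Real.norm_eq_abs] at e1
  have e3 : 1 / 2 ≤ E := by
    have e4 : 1 * ‖a₀‖ ≤ |(b : ℝ) - (c : ℝ)| * ‖a₀‖ := mul_le_mul_of_nonneg_right e2 hα.le
    have e5 : 1 * ‖a₀‖ ≤ (2 * E) * ‖a₀‖ := by linarith
    have e6 := le_of_mul_le_mul_right e5 hα
    linarith
  have e7 : (1 : ℝ) ≤ (4 * K) ^ (p + p) := one_le_pow₀ (by linarith)
  nlinarith

private theorem step {n : ℕ} {K ρ : ℝ} (hK : 2 ≤ K) {D : LinData n K ρ} {k : ℕ} {a₀ : Eu n}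
    (hρ5 : K ^ (5 * k) * ‖a₀‖ ≤ ρ) {q s : ℕ} (hs : 1 ≤ s) {b c : ℤ} {E : ℝ}
    (hE1 : E ≤ 1) (h : Hyp D k a₀ (q + s) q b c E) :
    Hyp D k a₀ s q (b - c) c (4 * K ^ q * E) := by
  have hα : 0 ≤ ‖a₀‖ := norm_nonneg a₀
  have hK0 : (0 : ℝ) ≤ K := by linarith
  have hK1 : (1 : ℝ) ≤ K := by linarith
  have hk : 1 ≤ k := h.hq.trans h.hqk
  have hpk := h.hpk
  have hmono : ∀ {i j : ℕ}, i ≤ j → K ^ i ≤ K ^ j := fun hij => pow_le_pow_right₀ hK1 hij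
  have hP : ∀ i : ℕ, 0 ≤ K ^ i := fun i => pow_nonneg hK0 i
  have hE0 : 0 ≤ E := le_trans (mul_nonneg (hP _) hα) h.hE
  have hbck : |b| + |c| ≤ (k : ℤ) := h.sum_le
  have hbcR : |(b : ℝ)| + |(c : ℝ)| ≤ (k : ℝ) := by exact_mod_cast hbck
  -- norms of the displacements
  have n1 : ‖D.a (q + s)‖ ≤ (E + |(b : ℝ)|) * ‖a₀‖ := by
    have e : D.a (q + s) = (D.a (q + s) - (b : ℝ) • a₀) + (b : ℝ) • a₀ := by abel
    calc ‖D.a (q + s)‖ = ‖(D.a (q + s) - (b : ℝ) • a₀) + (b : ℝ) • a₀‖ := by rw [← e]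
      _ ≤ E * ‖a₀‖ + |(b : ℝ)| * ‖a₀‖ := by
        refine (norm_add_le _ _).trans (add_le_add h.h1 ?_)
        rw [norm_smul, Real.norm_eq_abs]
      _ = (E + |(b : ℝ)|) * ‖a₀‖ := by ring
  have n2 : ‖D.a q‖ ≤ (E + |(c : ℝ)|) * ‖a₀‖ := by
    have e : D.a q = (D.a q - (c : ℝ) • a₀) + (c : ℝ) • a₀ := by abel
    calc ‖D.a q‖ = ‖(D.a q - (c : ℝ) • a₀) + (c : ℝ) • a₀‖ := by rw [← e]
      _ ≤ E * ‖a₀‖ + |(c : ℝ)| * ‖a₀‖ := by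
        refine (norm_add_le _ _).trans (add_le_add h.h2 ?_)
        rw [norm_smul, Real.norm_eq_abs]
      _ = (E + |(c : ℝ)|) * ‖a₀‖ := by ring
  have n3 : ‖D.a (q + s)‖ + ‖D.a q‖ ≤ K ^ (2 * k) * ‖a₀‖ := by
    have e := num1 k hk hK
    have e2 : (E + |(b : ℝ)|) + (E + |(c : ℝ)|) ≤ K ^ (2 * k) := by linarith
    calc ‖D.a (q + s)‖ + ‖D.a q‖ ≤ ((E + |(b : ℝ)|) + (E + |(c : ℝ)|)) * ‖a₀‖ := by
          rw [add_mul]
          exact add_le_add n1 n2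
      _ ≤ K ^ (2 * k) * ‖a₀‖ := mul_le_mul_of_nonneg_right e2 hα
  have n4 : K ^ q * (‖D.a (q + s)‖ + ‖D.a q‖) ≤ K ^ (3 * k) * ‖a₀‖ := by
    calc K ^ q * (‖D.a (q + s)‖ + ‖D.a q‖) ≤ K ^ k * (K ^ (2 * k) * ‖a₀‖) :=
          mul_le_mul (hmono h.hqk) n3 (by positivity) (hP _)
      _ = K ^ (3 * k) * ‖a₀‖ := by
        rw [← mul_assoc, ← pow_add]
        congr 2
        ring
  have n5 : K ^ (3 * k) * ‖a₀‖ ≤ ρ :=
    (mul_le_mul_of_nonneg_right (hmono (by omega)) hα).trans hρ5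
  obtain ⟨hns, n6⟩ := D.split q s h.hnp h.hnq (n4.trans n5)
  have n7 : ‖D.a s‖ ≤ K ^ (3 * k) * ‖a₀‖ := n6.trans n4
  have n8 : K ^ q * ‖D.a s‖ ≤ K ^ (4 * k) * ‖a₀‖ := by
    calc K ^ q * ‖D.a s‖ ≤ K ^ k * (K ^ (3 * k) * ‖a₀‖) :=
          mul_le_mul (hmono h.hqk) n7 (norm_nonneg _) (hP _)
      _ = K ^ (4 * k) * ‖a₀‖ := by
        rw [← mul_assoc, ← pow_add]
        congr 2
        ring
  have n9 : K ^ q * ‖D.a s‖ ≤ ρ :=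
    (n8.trans (mul_le_mul_of_nonneg_right (hmono (by omega)) hα)).trans hρ5
  have m7 : K ^ (7 * k) * ‖a₀‖ ≤ E :=
    (mul_le_mul_of_nonneg_right (hmono (by omega)) hα).trans h.hE
  have m5 : K ^ (5 * k) * ‖a₀‖ ≤ E :=
    (mul_le_mul_of_nonneg_right (hmono (by omega)) hα).trans h.hE
  have n10 : ‖D.a (q + s) - D.a q - D.A q (D.a s)‖ ≤ E * ‖a₀‖ := by
    refine (D.comp q s h.hnq hns n9).trans ?_
    calc K ^ q * ‖D.a s‖ ^ 2 = (K ^ q * ‖D.a s‖) * ‖D.a s‖ := by ring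
      _ ≤ (K ^ (4 * k) * ‖a₀‖) * (K ^ (3 * k) * ‖a₀‖) :=
          mul_le_mul n8 n7 (norm_nonneg _) (by positivity)
      _ = (K ^ (7 * k) * ‖a₀‖) * ‖a₀‖ := by
        have : K ^ (7 * k) = K ^ (4 * k) * K ^ (3 * k) := by
          rw [← pow_add]
          congr 1
          ring
        rw [this]
        ring
      _ ≤ E * ‖a₀‖ := mul_le_mul_of_nonneg_right m7 hα
  have habs : |(b : ℝ) - (c : ℝ)| ≤ k := (abs_sub _ _).trans hbcR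
  have n11 : ‖D.A q (D.a s - (((b - c : ℤ) : ℝ)) • a₀)‖ ≤ 4 * E * ‖a₀‖ := by
    have e : D.A q (D.a s - (((b - c : ℤ) : ℝ)) • a₀) =
        -(D.a (q + s) - D.a q - D.A q (D.a s)) + (D.a (q + s) - (b : ℝ) • a₀) -
          (D.a q - (c : ℝ) • a₀) - ((b : ℝ) - (c : ℝ)) • (D.A q a₀ - a₀) := by
      rw [map_sub, map_smul, Int.cast_sub, sub_smul, sub_smul, smul_sub, smul_sub]
      abel
    rw [e]
    have t1 : ‖((b : ℝ) - (c : ℝ)) • (D.A q a₀ - a₀)‖ ≤ E * ‖a₀‖ := by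
      rw [norm_smul, Real.norm_eq_abs]
      exact (mul_le_mul_of_nonneg_right habs (norm_nonneg _)).trans h.h4
    calc ‖-(D.a (q + s) - D.a q - D.A q (D.a s)) + (D.a (q + s) - (b : ℝ) • a₀) -
          (D.a q - (c : ℝ) • a₀) - ((b : ℝ) - (c : ℝ)) • (D.A q a₀ - a₀)‖
        ≤ ‖-(D.a (q + s) - D.a q - D.A q (D.a s))‖ + ‖D.a (q + s) - (b : ℝ) • a₀‖ +
          ‖D.a q - (c : ℝ) • a₀‖ + ‖((b : ℝ) - (c : ℝ)) • (D.A q a₀ - a₀)‖ := by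
          refine (norm_sub_le _ _).trans (add_le_add ?_ le_rfl)
          refine (norm_sub_le _ _).trans (add_le_add ?_ le_rfl)
          exact norm_add_le _ _
      _ ≤ E * ‖a₀‖ + E * ‖a₀‖ + E * ‖a₀‖ + E * ‖a₀‖ := by
          rw [norm_neg]
          exact add_le_add (add_le_add (add_le_add n10 h.h1) h.h2) t1
      _ = 4 * E * ‖a₀‖ := by ring
  have n12 : ‖D.A (q + s) - (D.A q).comp (D.A s)‖ ≤ K ^ (4 * k) * ‖a₀‖ := by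
    refine (D.compA q s h.hnq hns n9).trans ?_
    calc K ^ (q + s) * ‖D.a s‖ ≤ K ^ k * (K ^ (3 * k) * ‖a₀‖) :=
          mul_le_mul (hmono h.hpk) n7 (norm_nonneg _) (hP _)
      _ = K ^ (4 * k) * ‖a₀‖ := by
        rw [← mul_assoc, ← pow_add]
        congr 2
        ring
  have n13 : ‖D.A q (D.A s a₀ - a₀)‖ ≤
      K ^ (4 * k) * ‖a₀‖ * ‖a₀‖ + ‖D.A (q + s) a₀ - a₀‖ + ‖D.A q a₀ - a₀‖ := by
    have e : D.A q (D.A s a₀ - a₀) = -((D.A (q + s) - (D.A q).comp (D.A s)) a₀) +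
        (D.A (q + s) a₀ - a₀) - (D.A q a₀ - a₀) := by
      rw [map_sub, sub_apply, ContinuousLinearMap.comp_apply]
      abel
    rw [e]
    refine (norm_sub_le _ _).trans (add_le_add ?_ le_rfl)
    refine (norm_add_le _ _).trans (add_le_add ?_ le_rfl)
    rw [norm_neg]
    exact (ContinuousLinearMap.le_opNorm _ _).trans (mul_le_mul_of_nonneg_right n12 hα)
  have hE' : E ≤ 4 * K ^ q * E := by
    have e : (1 : ℝ) ≤ K ^ q := one_le_pow₀ hK1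
    nlinarith
  have hE'α : E * ‖a₀‖ ≤ 4 * K ^ q * E * ‖a₀‖ := mul_le_mul_of_nonneg_right hE' hα
  refine ⟨hs, h.hq, by omega, h.hqk, hns, h.hnq, ?_, ?_, ?_, h.hE.trans hE', ?_,
    h.h2.trans hE'α, ?_, h.h4.trans hE'α⟩
  · have e := h.hbc
    nlinarith [sq_nonneg c]
  · have e := h.hpos
    rw [abs_sub_opp h.hbc]
    push_cast at e ⊢
    nlinarith
  · have e := h.hle
    rw [abs_sub_opp h.hbc]
    push_cast at e ⊢
    nlinarith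
  · refine (D.bound_inv q h.hnq _).trans ?_
    calc K ^ q * ‖D.A q (D.a s - (((b - c : ℤ) : ℝ)) • a₀)‖ ≤ K ^ q * (4 * E * ‖a₀‖) :=
          mul_le_mul_of_nonneg_left n11 (hP _)
      _ = 4 * K ^ q * E * ‖a₀‖ := by ring
  · have e1 : ‖D.A s a₀ - a₀‖ ≤ K ^ q * (K ^ (4 * k) * ‖a₀‖ * ‖a₀‖ +
        ‖D.A (q + s) a₀ - a₀‖ + ‖D.A q a₀ - a₀‖) :=
      (D.bound_inv q h.hnq _).trans (mul_le_mul_of_nonneg_left n13 (hP _))
    have e2 : (k : ℝ) * (K ^ (4 * k) * ‖a₀‖ * ‖a₀‖) ≤ E * ‖a₀‖ := by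
      calc (k : ℝ) * (K ^ (4 * k) * ‖a₀‖ * ‖a₀‖) ≤ K ^ k * (K ^ (4 * k) * ‖a₀‖ * ‖a₀‖) :=
            mul_le_mul_of_nonneg_right (num2 k hK) (by positivity)
        _ = (K ^ (5 * k) * ‖a₀‖) * ‖a₀‖ := by
          have : K ^ (5 * k) = K ^ k * K ^ (4 * k) := by
            rw [← pow_add]
            congr 1
            ring
          rw [this]
          ring
        _ ≤ E * ‖a₀‖ := mul_le_mul_of_nonneg_right m5 hα
    calc (k : ℝ) * ‖D.A s a₀ - a₀‖ ≤ k * (K ^ q * (K ^ (4 * k) * ‖a₀‖ * ‖a₀‖ +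
          ‖D.A (q + s) a₀ - a₀‖ + ‖D.A q a₀ - a₀‖)) :=
          mul_le_mul_of_nonneg_left e1 (Nat.cast_nonneg k)
      _ = K ^ q * ((k : ℝ) * (K ^ (4 * k) * ‖a₀‖ * ‖a₀‖) + k * ‖D.A (q + s) a₀ - a₀‖ +
          k * ‖D.A q a₀ - a₀‖) := by ring
      _ ≤ K ^ q * (E * ‖a₀‖ + E * ‖a₀‖ + E * ‖a₀‖) :=
          mul_le_mul_of_nonneg_left (add_le_add (add_le_add e2 h.h3) h.h4) (hP _)
      _ ≤ 4 * K ^ q * E * ‖a₀‖ := by
        have e3 : 0 ≤ K ^ q * (E * ‖a₀‖) := mul_nonneg (hP _) (mul_nonneg hE0 hα)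
        nlinarith

private theorem step_concl {K : ℝ} (hK : 2 ≤ K) {q s : ℕ} (hq : 1 ≤ q) {E : ℝ} (hE0 : 0 ≤ E)
    (h : 1 / 2 ≤ (4 * K) ^ (s + q) * (4 * K ^ q * E)) :
    1 / 2 ≤ (4 * K) ^ ((q + s) + q) * E := by
  refine h.trans ?_
  have hK0 : (0 : ℝ) ≤ K := by linarith
  have e1 : 4 * K ^ q ≤ (4 * K) ^ q := by
    rw [mul_pow]
    apply mul_le_mul_of_nonneg_right _ (pow_nonneg hK0 q)
    calc (4 : ℝ) = 4 ^ 1 := (pow_one 4).symm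
      _ ≤ 4 ^ q := pow_le_pow_right₀ (by norm_num) hq
  have e2 : (4 * K) ^ ((q + s) + q) = (4 * K) ^ (s + q) * (4 * K) ^ q := by
    rw [← pow_add]
    congr 1
    ring
  rw [e2]
  calc (4 * K) ^ (s + q) * (4 * K ^ q * E) ≤ (4 * K) ^ (s + q) * ((4 * K) ^ q * E) :=
        mul_le_mul_of_nonneg_left (mul_le_mul_of_nonneg_right e1 hE0)
          (pow_nonneg (by linarith) _)
    _ = (4 * K) ^ (s + q) * (4 * K) ^ q * E := by ring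

private theorem euclid_aux (n : ℕ) (K ρ : ℝ) (hK : 2 ≤ K) (D : LinData n K ρ) (k : ℕ) (a₀ : Eu n)
    (ha₀ : a₀ ≠ 0) (hρ5 : K ^ (5 * k) * ‖a₀‖ ≤ ρ) (N : ℕ) :
    ∀ (p q : ℕ) (b c : ℤ) (E : ℝ), p + q ≤ N → Hyp D k a₀ p q b c E →
      1 / 2 ≤ (4 * K) ^ (p + q) * E := by
  induction N with
  | zero =>
    intro p q b c E hN h
    have := h.hp
    omega
  | succ N ih =>
    intro p q b c E hN h
    have hK0 : (0 : ℝ) ≤ K := by linarith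
    have hE0 : 0 ≤ E := le_trans (mul_nonneg (pow_nonneg hK0 _) (norm_nonneg _)) h.hE
    rcases le_or_gt E 1 with hE1 | hE1
    · rcases lt_trichotomy q p with hqp | hqp | hqp
      · obtain ⟨s, rfl⟩ := Nat.exists_eq_add_of_lt hqp
        have h' : Hyp D k a₀ (q + (s + 1)) q b c E := h
        have hs := step hK hρ5 (Nat.succ_le_succ (Nat.zero_le s)) hE1 h'
        have hq := h.hq
        exact step_concl hK hq hE0 (ih _ _ _ _ _ (by omega) hs)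
      · subst hqp
        exact base_case hK ha₀ h
      · obtain ⟨s, rfl⟩ := Nat.exists_eq_add_of_lt hqp
        have h' : Hyp D k a₀ (p + (s + 1)) p c b E := h.symm
        have hs := step hK hρ5 (Nat.succ_le_succ (Nat.zero_le s)) hE1 h'
        have hp := h.hp
        have e := step_concl hK hp hE0 (ih _ _ _ _ _ (by omega) hs)
        rw [add_comm p]
        exact e
    · have e1 : (1 : ℝ) ≤ (4 * K) ^ (p + q) := one_le_pow₀ (by linarith)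
      nlinarith

theorem euclid_returns (n : ℕ) (K ρ : ℝ) (hK : 2 ≤ K) (D : LinData n K ρ) (k : ℕ) (a₀ : Eu n)
    (ha₀ : a₀ ≠ 0) (hρ5 : K ^ (5 * k) * ‖a₀‖ ≤ ρ) (p q : ℕ) (hp : 1 ≤ p) (hq : 1 ≤ q)
    (hpk : p ≤ k) (hqk : q ≤ k) (hnp : D.near p) (hnq : D.near q) (b c : ℤ) (hbc : b * c ≤ 0)
    (hpos : 0 < |b| * q + |c| * p) (hle : |b| * q + |c| * p ≤ k) (E : ℝ)
    (hE : K ^ (9 * k) * ‖a₀‖ ≤ E)
    (h1 : ‖D.a p - (b : ℝ) • a₀‖ ≤ E * ‖a₀‖) (h2 : ‖D.a q - (c : ℝ) • a₀‖ ≤ E * ‖a₀‖)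
    (h3 : k * ‖D.A p a₀ - a₀‖ ≤ E * ‖a₀‖) (h4 : k * ‖D.A q a₀ - a₀‖ ≤ E * ‖a₀‖) :
    1 / 2 ≤ (4 * K) ^ (p + q) * E :=
  euclid_aux n K ρ hK D k a₀ ha₀ hρ5 (p + q) p q b c E le_rfl
    ⟨hp, hq, hpk, hqk, hnp, hnq, hbc, hpos, hle, hE, h1, h2, h3, h4⟩

end Pool.Agent.CL
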