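import Pool.Agent.Lib_MP_b9d69a.ERL1
import Pool.Agent.Lib_MP_b9d69a.ERL2

/-!
# Piece ER-L3: the abstract theorem on returns

Paper proof: note 2212, L3.
-/

set_option autoImplicit false
open scoped Topology
open Set Filter

namespace Pool.Agent.CL

private theorem LinData.commute {n : ℕ} {K ρ : ℝ} (D : LinData n K ρ) (p q : ℕ) (hp : D.near p)
    (hq : D.near q) (h1 : K ^ p * ‖D.a q‖ ≤ ρ) (h2 : K ^ q * ‖D.a p‖ ≤ ρ) :
    ‖D.A p (D.a q) - D.a q - (D.A q (D.a p) - D.a p)‖ ≤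
      K ^ p * ‖D.a q‖ ^ 2 + K ^ q * ‖D.a p‖ ^ 2 := by
  have e1 := D.comp p q hp hq h1
  have e2 := D.comp q p hq hp h2
  have h3 : D.A p (D.a q) - D.a q - (D.A q (D.a p) - D.a p) =
      (D.a (q + p) - D.a q - D.A q (D.a p)) - (D.a (p + q) - D.a p - D.A p (D.a q)) := by
    rw [add_comm q p]
    abel
  rw [h3]
  have h4 := norm_sub_le (D.a (q + p) - D.a q - D.A q (D.a p))
    (D.a (p + q) - D.a p - D.A p (D.a q))
  linarith

private theorem real_aux (κ T X Y Z : ℝ) (hκ2 : 2 ≤ κ) (hT1 : 1 ≤ T) (hX : 0 ≤ X) (hY : 0 ≤ Y)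
    (h1 : X * T ≤ Y) (h2 : Y * T ≤ 1) (e3 : Z ≤ κ * Y ^ 2 + κ * X ^ 2 + (κ + 1) * X) :
    Z * T ≤ κ ^ 3 * Y := by
  have hXY : X ≤ Y := by nlinarith
  have hY1 : Y ≤ 1 := by nlinarith
  have e4 : Z * T ≤ (κ * Y ^ 2 + κ * X ^ 2 + (κ + 1) * X) * T :=
    mul_le_mul_of_nonneg_right e3 (by linarith)
  refine e4.trans ?_
  have e5 : κ * Y ^ 2 * T ≤ κ * Y := by
    have : κ * Y ^ 2 * T = κ * Y * (Y * T) := by ring
    rw [this]
    exact mul_le_of_le_one_right (by positivity) h2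
  have e6 : κ * X ^ 2 * T ≤ κ * Y := by
    have : κ * X ^ 2 * T = κ * X * (X * T) := by ring
    rw [this]
    have h7 : κ * X * (X * T) ≤ κ * 1 * Y := by
      apply mul_le_mul _ h1 (by positivity) (by positivity)
      apply mul_le_mul_of_nonneg_left _ (by positivity)
      linarith
    linarith
  have e7 : (κ + 1) * X * T ≤ (κ + 1) * Y := by
    rw [mul_assoc]
    exact mul_le_mul_of_nonneg_left h1 (by linarith)
  have e8 : κ * Y + κ * Y + (κ + 1) * Y ≤ κ ^ 3 * Y := by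
    have h8 : κ + κ + (κ + 1) ≤ κ ^ 3 := by
      have h9 : 4 * κ ≤ κ ^ 2 * κ := mul_le_mul_of_nonneg_right (by nlinarith) (by linarith)
      nlinarith
    nlinarith
  linarith

/-- One step down almost fixes the next displacement. -/
private theorem LinData.almost_fix {n : ℕ} {K ρ : ℝ} (hK : 2 ≤ K) (D : LinData n K ρ) (k L : ℕ)
    (hk : 1 ≤ k) (p q : ℕ) (hpk : p ≤ k) (hqk : q ≤ k) (hp : D.near p) (hq : D.near q)
    (hρ : K ^ k * ‖D.a q‖ ≤ ρ)
    (h1 : ‖D.a p‖ * (K ^ k) ^ L ≤ ‖D.a q‖) (h2 : ‖D.a q‖ * (K ^ k) ^ L ≤ 1) :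
    ‖D.A p (D.a q) - D.a q‖ * (K ^ k) ^ L ≤ (K ^ k) ^ 3 * ‖D.a q‖ := by
  have hK1 : 1 ≤ K := by linarith
  obtain ⟨κ, hκ⟩ : ∃ κ, κ = K ^ k := ⟨_, rfl⟩
  have hκ2 : 2 ≤ κ := by
    rw [hκ]
    calc (2 : ℝ) ≤ K := hK
      _ = K ^ 1 := (pow_one K).symm
      _ ≤ K ^ k := pow_le_pow_right₀ hK1 hk
  rw [← hκ] at h1 h2 hρ ⊢
  obtain ⟨T, hT⟩ : ∃ T, T = κ ^ L := ⟨_, rfl⟩
  have hT1 : 1 ≤ T := by
    rw [hT]
    exact one_le_pow₀ (by linarith)
  rw [← hT] at h1 h2 ⊢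
  have hX := norm_nonneg (D.a p)
  have hY := norm_nonneg (D.a q)
  have hXY : ‖D.a p‖ ≤ ‖D.a q‖ := by nlinarith
  have hKp : K ^ p ≤ κ := by
    rw [hκ]
    exact pow_le_pow_right₀ hK1 hpk
  have hKq : K ^ q ≤ κ := by
    rw [hκ]
    exact pow_le_pow_right₀ hK1 hqk
  have hKp0 : 0 < K ^ p := by positivity
  have hKq0 : 0 < K ^ q := by positivity
  have e1 := D.commute p q hp hq
    ((mul_le_mul_of_nonneg_right hKp hY).trans hρ)
    ((mul_le_mul hKq hXY hX (by linarith)).trans hρ)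
  have e2 : ‖D.A q (D.a p) - D.a p‖ ≤ (κ + 1) * ‖D.a p‖ := by
    have h3 := norm_sub_le (D.A q (D.a p)) (D.a p)
    have h4 := (D.A q).le_opNorm (D.a p)
    have h5 : ‖D.A q‖ * ‖D.a p‖ ≤ κ * ‖D.a p‖ :=
      mul_le_mul_of_nonneg_right ((D.bound q hq).trans hKq) hX
    linarith
  have e3 : ‖D.A p (D.a q) - D.a q‖ ≤
      κ * ‖D.a q‖ ^ 2 + κ * ‖D.a p‖ ^ 2 + (κ + 1) * ‖D.a p‖ := by
    have h3 : D.A p (D.a q) - D.a q = (D.A p (D.a q) - D.a q - (D.A q (D.a p) - D.a p)) +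
      (D.A q (D.a p) - D.a p) := by abel
    rw [h3]
    have h4 := norm_add_le (D.A p (D.a q) - D.a q - (D.A q (D.a p) - D.a p))
      (D.A q (D.a p) - D.a p)
    have h5 : K ^ p * ‖D.a q‖ ^ 2 ≤ κ * ‖D.a q‖ ^ 2 :=
      mul_le_mul_of_nonneg_right hKp (by positivity)
    have h6 : K ^ q * ‖D.a p‖ ^ 2 ≤ κ * ‖D.a p‖ ^ 2 :=
      mul_le_mul_of_nonneg_right hKq (by positivity)
    linarith
  exact real_aux κ T _ _ _ hκ2 hT1 hX hY h1 h2 e3

theorem abstract_returns (n : ℕ) (K ρ c : ℝ) (r : ℕ) (hK : 2 ≤ K) (hρ : 0 < ρ) (hc : 0 < c) :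
    ∃ C : ℕ, ∀ D : LinData n K ρ,
      (∀ η : ℝ, 0 < η → η < c → ∀ p, 1 ≤ p → D.near p → ‖D.a p‖ < η ^ r →
        ∃ i, 0 < i ∧ i < p ∧ D.near i ∧ ‖D.a i‖ < η) →
      ∀ k, 1 ≤ k → D.near k → (K ^ (C * k))⁻¹ < ‖D.a k‖ := by
  have hK1 : 1 ≤ K := by linarith
  have hK1' : 1 < K := by linarith
  have hK0 : 0 < K := by linarith
  obtain ⟨L₀, hL₀⟩ : ∃ L₀ : ℕ, (min c ρ)⁻¹ < K ^ L₀ := pow_unbounded_of_one_lt _ hK1'
  have hmin : 0 < min c ρ := lt_min hc hρ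
  have hL₀' : (K ^ L₀)⁻¹ < min c ρ := inv_lt_of_inv_lt₀ hmin hL₀
  obtain ⟨m, hm⟩ : ∃ m, m = n + 1 := ⟨_, rfl⟩
  obtain ⟨L, hL⟩ : ∃ L, L = 16 * m + 22 + L₀ := ⟨_, rfl⟩
  obtain ⟨cc, hcc⟩ : ∃ cc : ℕ → ℕ, cc = fun i => L * (r + 2) ^ (2 * m - i) := ⟨_, rfl⟩
  have hccL : ∀ i, L ≤ cc i := by
    intro i
    rw [hcc]
    exact Nat.le_mul_of_pos_right _ (by positivity)
  have hccs : ∀ i, i < 2 * m → cc i = (r + 2) * cc (i + 1) := by
    intro i hi
    rw [hcc]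
    simp only
    have : 2 * m - i = (2 * m - (i + 1)) + 1 := by omega
    rw [this, pow_succ]
    ring
  have hcc0 : ∀ i, cc i ≤ cc 0 := by
    intro i
    rw [hcc]
    simp only
    exact Nat.mul_le_mul_left _ (Nat.pow_le_pow_right (by omega) (by omega))
  refine ⟨cc 0, fun D hstar k hk hnk => ?_⟩
  by_contra hcon
  rw [not_lt] at hcon
  obtain ⟨κ, hκ⟩ : ∃ κ, κ = K ^ k := ⟨_, rfl⟩
  have hκ2 : 2 ≤ κ := by
    rw [hκ]
    calc (2 : ℝ) ≤ K := hK
      _ = K ^ 1 := (pow_one K).symm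
      _ ≤ K ^ k := pow_le_pow_right₀ hK1 hk
  have hκ1 : 1 ≤ κ := by linarith
  have hκ0 : 0 < κ := by linarith
  have hKκ : ∀ j, K ^ (j * k) = κ ^ j := by
    intro j
    rw [hκ, pow_mul']
  rw [hKκ] at hcon
  have hLκ : K ^ L₀ ≤ κ ^ L₀ := by
    rw [← hKκ]
    exact pow_le_pow_right₀ hK1 (Nat.le_mul_of_pos_right _ (by omega))
  -- the sets of good return times
  obtain ⟨S, hS⟩ : ∃ S : ℕ → Set ℕ, S = fun i => {p | 1 ≤ p ∧ D.near p ∧
    ‖D.a p‖ * κ ^ cc i ≤ 1} := ⟨_, rfl⟩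
  have hkS : ∀ i, k ∈ S i := by
    intro i
    rw [hS]
    refine ⟨hk, hnk, ?_⟩
    have h1 : ‖D.a k‖ * κ ^ cc i ≤ (κ ^ cc 0)⁻¹ * κ ^ cc 0 :=
      mul_le_mul hcon (pow_le_pow_right₀ hκ1 (hcc0 i)) (by positivity) (by positivity)
    rwa [inv_mul_cancel₀ (by positivity)] at h1
  obtain ⟨q, hq⟩ : ∃ q : ℕ → ℕ, q = fun i => sInf (S i) := ⟨_, rfl⟩
  have hqS : ∀ i, q i ∈ S i := by
    intro i
    rw [hq]
    exact Nat.sInf_mem ⟨k, hkS i⟩
  have hqle : ∀ i p, p ∈ S i → q i ≤ p := by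
    intro i p hp
    rw [hq]
    exact Nat.sInf_le hp
  have hqk : ∀ i, q i ≤ k := fun i => hqle i k (hkS i)
  have hq1 : ∀ i, 1 ≤ q i := by
    intro i
    have := hqS i
    rw [hS] at this
    exact this.1
  have hqn : ∀ i, D.near (q i) := by
    intro i
    have := hqS i
    rw [hS] at this
    exact this.2.1
  have hqa : ∀ i, ‖D.a (q i)‖ * κ ^ cc i ≤ 1 := by
    intro i
    have := hqS i
    rw [hS] at this
    exact this.2.2
  have hqdec : ∀ i, i < 2 * m → q (i + 1) < q i := by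
    intro i hi
    have hηc : (κ ^ cc (i + 1))⁻¹ < c := by
      have h1 : K ^ L₀ ≤ κ ^ cc (i + 1) :=
        hLκ.trans (pow_le_pow_right₀ hκ1 ((by omega : L₀ ≤ L).trans (hccL _)))
      have h2 : (κ ^ cc (i + 1))⁻¹ ≤ (K ^ L₀)⁻¹ := inv_anti₀ (by positivity) h1
      exact lt_of_le_of_lt h2 (lt_of_lt_of_le hL₀' (min_le_left _ _))
    obtain ⟨j, hj0, hjq, hjn, hja⟩ := hstar (κ ^ cc (i + 1))⁻¹ (by positivity) hηc (q i)
      (hq1 i) (hqn i) (by
        rw [inv_pow, ← pow_mul]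
        have h1 : ‖D.a (q i)‖ ≤ (κ ^ cc i)⁻¹ := by
          rw [← one_div, le_div_iff₀ (by positivity)]
          exact hqa i
        refine lt_of_le_of_lt h1 ?_
        apply inv_strictAnti₀ (by positivity)
        apply pow_lt_pow_right₀ (by linarith)
        rw [hccs i hi]
        have h2 : 1 ≤ cc (i + 1) := (by omega : 1 ≤ L).trans (hccL _)
        nlinarith)
    refine lt_of_le_of_lt (hqle (i + 1) j ?_) hjq
    rw [hS]
    refine ⟨hj0, hjn, ?_⟩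
    rw [← one_div, lt_div_iff₀ (by positivity)] at hja
    exact hja.le
  -- the sequence `u`
  obtain ⟨u, hu⟩ : ∃ u : ℕ → ℕ, u = fun i => q (2 * i) := ⟨_, rfl⟩
  have hu' : ∀ i, u i = q (2 * i) := fun i => by rw [hu]
  have hlow : ∀ i, i < m → 1 < ‖D.a (u (i + 1))‖ * κ ^ cc (2 * i + 1) := by
    intro i hi
    by_contra h
    rw [not_lt] at h
    have h1 : u (i + 1) ∈ S (2 * i + 1) := by
      rw [hS]
      refine ⟨?_, ?_, h⟩
      · rw [hu']
        exact hq1 _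
      · rw [hu']
        exact hqn _
    have h2 := hqle _ _ h1
    have h3 := hqdec (2 * i + 1) (by omega)
    rw [hu'] at h2
    have h4 : 2 * (i + 1) = 2 * i + 1 + 1 := by ring
    rw [h4] at h2
    omega
  have hratio : ∀ i, i < m → ‖D.a (u i)‖ * κ ^ L ≤ ‖D.a (u (i + 1))‖ := by
    intro i hi
    have h1 := hqa (2 * i)
    rw [← hu'] at h1
    have h2 := hlow i hi
    have h3 : cc (2 * i + 1) + L ≤ cc (2 * i) := by
      rw [hccs (2 * i) (by omega)]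
      have := hccL (2 * i + 1)
      nlinarith
    have h4 : ‖D.a (u i)‖ * (κ ^ L * κ ^ cc (2 * i + 1)) ≤ 1 := by
      rw [← pow_add]
      refine le_trans ?_ h1
      apply mul_le_mul_of_nonneg_left _ (norm_nonneg _)
      exact pow_le_pow_right₀ hκ1 (by omega)
    have h5 : 0 < κ ^ cc (2 * i + 1) := by positivity
    by_contra h6
    rw [not_le] at h6
    have h7 := mul_lt_mul_of_pos_right h6 h5
    nlinarith
  have hup : ∀ i, ‖D.a (u i)‖ * κ ^ L ≤ 1 := by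
    intro i
    rw [hu']
    refine le_trans ?_ (hqa (2 * i))
    exact mul_le_mul_of_nonneg_left (pow_le_pow_right₀ hκ1 (hccL _)) (norm_nonneg _)
  have hmono : ∀ i j, i < j → j ≤ m → ‖D.a (u i)‖ * κ ^ L ≤ ‖D.a (u j)‖ := by
    intro i j hij
    induction j, hij using Nat.le_induction with
    | base => exact fun h => hratio i (by omega)
    | succ j hj ih =>
      intro h
      refine (ih (by omega)).trans ?_
      refine le_trans ?_ (hratio j (by omega))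
      exact le_mul_of_one_le_right (norm_nonneg _) (one_le_pow₀ hκ1)
  have hune : ∀ i, i < m → D.a (u (i + 1)) ≠ 0 := by
    intro i hi h
    have := hlow i hi
    rw [h, norm_zero, zero_mul] at this
    linarith
  have hκL : κ ^ L = κ ^ (16 * m + 22) * κ ^ L₀ := by rw [hL, pow_add]
  have hρ' : ∀ i, ∀ j, j ≤ 16 * m + 22 → κ ^ j * ‖D.a (u i)‖ ≤ ρ := by
    intro i j hj
    have h1 := hup i
    have h2 : κ ^ j * ‖D.a (u i)‖ * κ ^ L₀ ≤ 1 := by
      refine le_trans ?_ h1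
      rw [hκL]
      have h3 : κ ^ j ≤ κ ^ (16 * m + 22) := pow_le_pow_right₀ hκ1 hj
      have h4 : 0 ≤ ‖D.a (u i)‖ * κ ^ L₀ := by positivity
      nlinarith
    have h3 : κ ^ j * ‖D.a (u i)‖ ≤ (κ ^ L₀)⁻¹ := by
      rw [← one_div, le_div_iff₀ (by positivity)]
      exact h2
    have h4 : (κ ^ L₀)⁻¹ ≤ (K ^ L₀)⁻¹ := inv_anti₀ (by positivity) hLκ
    exact h3.trans (h4.trans (hL₀'.le.trans (min_le_right _ _)))
  have huk : ∀ i, u i ≤ k := fun i => by rw [hu']; exact hqk _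
  have hu1 : ∀ i, 1 ≤ u i := fun i => by rw [hu']; exact hq1 _
  have hun : ∀ i, D.near (u i) := fun i => by rw [hu']; exact hqn _
  -- almost fixed
  have hfix : ∀ i j, i < j → j ≤ m →
      ‖D.A (u i) (D.a (u j)) - D.a (u j)‖ * κ ^ L ≤ κ ^ 3 * ‖D.a (u j)‖ := by
    intro i j hij hj
    rw [hκ]
    refine D.almost_fix hK k L hk (u i) (u j) (huk i) (huk j) (hun i) (hun j) ?_ ?_ ?_
    · have := hρ' j 1 (by omega)
      rw [pow_one, hκ] at this
      exact this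
    · rw [← hκ]
      exact hmono i j hij hj
    · rw [← hκ]
      exact hup j
  -- the linear algebra lemma
  have hpow : ∀ i, K ^ u i ≤ κ := by
    intro i
    rw [hκ]
    exact pow_le_pow_right₀ hK1 (huk i)
  obtain ⟨i, hi⟩ := dependent_small n m (by omega)
    (fun i : Fin m => (‖D.a (u (i + 1))‖)⁻¹ • D.a (u (i + 1)))
    (fun i => norm_smul_inv_norm (hune i i.2))
    (fun i : Fin m => D.A (u (i + 1)) - ContinuousLinearMap.id ℝ (Eu n))
    (κ ^ 2) (κ ^ 9)⁻¹ (κ ^ 3 * (κ ^ L)⁻¹) (one_le_pow₀ hκ1) (by positivity)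
    (inv_le_one_of_one_le₀ (one_le_pow₀ hκ1)) (by positivity)
    (fun i => by
      have h1 := norm_sub_le (D.A (u (i + 1))) (ContinuousLinearMap.id ℝ (Eu n))
      have h2 := D.bound _ (hun (i + 1))
      have h3 := hpow (i + 1)
      have h4 : ‖ContinuousLinearMap.id ℝ (Eu n)‖ ≤ 1 := ContinuousLinearMap.norm_id_le
      nlinarith)
    (fun i j hij => by
      have h0 := hune j j.2
      have h0' : 0 < ‖D.a (u (j + 1))‖ := norm_pos_iff.2 h0
      have h1 := hfix (i + 1) (j + 1) (by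
        have : (i : ℕ) < j := hij
        omega) j.2
      have h2 : (D.A (u (i + 1)) - ContinuousLinearMap.id ℝ (Eu n))
          ((‖D.a (u (j + 1))‖)⁻¹ • D.a (u (j + 1))) = (‖D.a (u (j + 1))‖)⁻¹ •
            (D.A (u (i + 1)) (D.a (u (j + 1))) - D.a (u (j + 1))) := by
        rw [map_smul]
        rfl
      rw [h2, norm_smul, norm_inv, norm_norm, inv_mul_le_iff₀ h0', ← mul_assoc,
        ← div_eq_mul_inv, le_div_iff₀ (by positivity)]
      linarith)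
    (by
      have h1 : ((κ ^ 14)⁻¹ : ℝ) ≤ (κ ^ 9)⁻¹ / (8 * κ ^ 2) := by
        rw [div_eq_mul_inv, ← mul_inv]
        apply inv_anti₀ (by positivity)
        have h8 : (8 : ℝ) ≤ κ ^ 3 := by
          calc (8 : ℝ) = 2 ^ 3 := by norm_num
            _ ≤ κ ^ 3 := pow_le_pow_left₀ (by norm_num) hκ2 3
        calc κ ^ 9 * (8 * κ ^ 2) = 8 * κ ^ 11 := by ring
          _ ≤ κ ^ 3 * κ ^ 11 := mul_le_mul_of_nonneg_right h8 (by positivity)
          _ = κ ^ 14 := by ring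
      have h2 : ((κ ^ 14)⁻¹ : ℝ) ^ m ≤ ((κ ^ 9)⁻¹ / (8 * κ ^ 2)) ^ m :=
        pow_le_pow_left₀ (by positivity) h1 m
      have h3 : (κ ^ 9)⁻¹ * ((κ ^ 14)⁻¹ : ℝ) ^ m ≤
          (κ ^ 9)⁻¹ * ((κ ^ 9)⁻¹ / (8 * κ ^ 2)) ^ m :=
        mul_le_mul_of_nonneg_left h2 (by positivity)
      refine le_trans ?_ h3
      have h3' : (κ ^ 9)⁻¹ * ((κ ^ 14)⁻¹ : ℝ) ^ m = (κ ^ (9 + 14 * m))⁻¹ := by
        rw [inv_pow, ← mul_inv, ← pow_mul, ← pow_add]
      rw [h3', ← one_div (κ ^ (9 + 14 * m)), le_div_iff₀ (by positivity)]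
      have h4 : (4 : ℝ) * 3 ^ m ≤ κ ^ 2 * κ ^ (2 * m) := by
        have h5 : (4 : ℝ) ≤ κ ^ 2 := by nlinarith
        have h6 : (3 : ℝ) ^ m ≤ κ ^ (2 * m) := by
          rw [pow_mul]
          exact pow_le_pow_left₀ (by norm_num) (by nlinarith) m
        exact mul_le_mul h5 h6 (by positivity) (by positivity)
      have h5 : κ ^ 3 * (κ ^ L)⁻¹ * (4 * 3 ^ m) * κ ^ (9 + 14 * m) ≤
          κ ^ 3 * (κ ^ L)⁻¹ * (κ ^ 2 * κ ^ (2 * m)) * κ ^ (9 + 14 * m) := by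
        apply mul_le_mul_of_nonneg_right _ (by positivity)
        exact mul_le_mul_of_nonneg_left h4 (by positivity)
      refine h5.trans ?_
      have h6 : κ ^ 3 * (κ ^ L)⁻¹ * (κ ^ 2 * κ ^ (2 * m)) * κ ^ (9 + 14 * m) =
          κ ^ (16 * m + 14) * (κ ^ L)⁻¹ := by
        have : 16 * m + 14 = 3 + 2 + 2 * m + (9 + 14 * m) := by ring
        rw [this, pow_add, pow_add, pow_add]
        ring
      rw [h6, ← div_eq_mul_inv, div_le_one (by positivity)]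
      exact pow_le_pow_right₀ hκ1 (by omega))
  -- the Euclidean algorithm
  have ha0 := hune i i.2
  have ha0' : 0 < ‖D.a (u (i + 1))‖ := norm_pos_iff.2 ha0
  have hkκ : (k : ℝ) ≤ κ := by
    rw [hκ]
    have h1 : (k : ℝ) < 2 ^ k := by exact_mod_cast Nat.lt_two_pow_self
    exact h1.le.trans (pow_le_pow_left₀ (by norm_num) hK k)
  have hkk : (0 : ℝ) ≤ k := by positivity
  have hEpos : (0 : ℝ) < (κ ^ 8)⁻¹ := by positivity
  have hLinv : ∀ j, j ≤ 14 → κ ^ j * (κ ^ L)⁻¹ ≤ (κ ^ 8)⁻¹ := by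
    intro j hj
    rw [← one_div (κ ^ 8), le_div_iff₀ (by positivity), mul_assoc, mul_comm (κ ^ L)⁻¹,
      ← mul_assoc, ← pow_add, ← div_eq_mul_inv, div_le_one (by positivity)]
    exact pow_le_pow_right₀ hκ1 (by omega)
  have hfinal := euclid_returns n K ρ hK D k (D.a (u (i + 1))) ha0
    (by rw [hKκ]; exact hρ' _ 5 (by omega)) (u i) (u (i + 1)) (hu1 _) (hu1 _) (huk _) (huk _)
    (hun _) (hun _) 0 1 (by norm_num)
    (by
      have := hu1 i
      simp only [abs_zero, zero_mul, abs_one, one_mul, zero_add]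
      exact_mod_cast this)
    (by
      have := huk i
      simp only [abs_zero, zero_mul, abs_one, one_mul, zero_add]
      exact_mod_cast this) (κ ^ 8)⁻¹
    (by
      rw [hKκ]
      have h1 := hup (i + 1)
      have h2 : ‖D.a (u (i + 1))‖ ≤ (κ ^ L)⁻¹ := by
        rw [← one_div, le_div_iff₀ (by positivity)]
        exact h1
      exact (mul_le_mul_of_nonneg_left h2 (by positivity)).trans (hLinv 9 (by norm_num)))
    (by
      rw [Int.cast_zero, zero_smul, sub_zero]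
      have h1 := hratio i i.2
      have h2 : ‖D.a (u i)‖ ≤ (κ ^ L)⁻¹ * ‖D.a (u (i + 1))‖ := by
        rw [inv_mul_eq_div, le_div_iff₀ (by positivity)]
        exact h1
      refine h2.trans (mul_le_mul_of_nonneg_right ?_ (norm_nonneg _))
      have := hLinv 0 (by norm_num)
      rwa [pow_zero, one_mul] at this)
    (by
      rw [Int.cast_one, one_smul, sub_self, norm_zero]
      positivity)
    (by
      have h1 := hfix i (i + 1) (by omega) i.2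
      have h2 : ‖D.A (u i) (D.a (u (i + 1))) - D.a (u (i + 1))‖ ≤
          κ ^ 3 * (κ ^ L)⁻¹ * ‖D.a (u (i + 1))‖ := by
        have h3 : κ ^ 3 * (κ ^ L)⁻¹ * ‖D.a (u (i + 1))‖ =
          κ ^ 3 * ‖D.a (u (i + 1))‖ / κ ^ L := by
          rw [div_eq_mul_inv]
          ring
        rw [h3, le_div_iff₀ (by positivity)]
        exact h1
      have h3 : (k : ℝ) * ‖D.A (u i) (D.a (u (i + 1))) - D.a (u (i + 1))‖ ≤
          κ * (κ ^ 3 * (κ ^ L)⁻¹ * ‖D.a (u (i + 1))‖) :=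
        mul_le_mul hkκ h2 (norm_nonneg _) (by positivity)
      refine h3.trans ?_
      have h4 : κ * (κ ^ 3 * (κ ^ L)⁻¹ * ‖D.a (u (i + 1))‖) =
        κ ^ 4 * (κ ^ L)⁻¹ * ‖D.a (u (i + 1))‖ := by ring
      rw [h4]
      exact mul_le_mul_of_nonneg_right (hLinv 4 (by norm_num)) (norm_nonneg _))
    (by
      have h2 : (D.A (u (i + 1)) - ContinuousLinearMap.id ℝ (Eu n))
          ((‖D.a (u (i + 1))‖)⁻¹ • D.a (u (i + 1))) = (‖D.a (u (i + 1))‖)⁻¹ •
            (D.A (u (i + 1)) (D.a (u (i + 1))) - D.a (u (i + 1))) := by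
        rw [map_smul]
        rfl
      have h3 : ‖(D.A (u (i + 1)) - ContinuousLinearMap.id ℝ (Eu n))
          ((‖D.a (u (i + 1))‖)⁻¹ • D.a (u (i + 1)))‖ ≤ (κ ^ 9)⁻¹ := hi
      rw [h2, norm_smul, norm_inv, norm_norm, inv_mul_le_iff₀ ha0'] at h3
      have h4 : (k : ℝ) * ‖D.A (u (i + 1)) (D.a (u (i + 1))) - D.a (u (i + 1))‖ ≤
          κ * (‖D.a (u (i + 1))‖ * (κ ^ 9)⁻¹) :=
        mul_le_mul hkκ h3 (norm_nonneg _) (by positivity)
      refine h4.trans (le_of_eq ?_)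
      field_simp)
  have h1 : (4 * K) ^ (u i + u (i + 1)) ≤ κ ^ 6 := by
    have h2 : 4 * K ≤ K ^ 3 := by nlinarith [sq_nonneg (K - 2)]
    calc (4 * K) ^ (u i + u (i + 1)) ≤ (K ^ 3) ^ (u i + u (i + 1)) :=
          pow_le_pow_left₀ (by positivity) h2 _
      _ ≤ (K ^ 3) ^ (2 * k) := pow_le_pow_right₀ (one_le_pow₀ hK1) (by
          have := huk i
          have := huk (i + 1)
          omega)
      _ = κ ^ 6 := by
          rw [hκ, ← pow_mul, ← pow_mul]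
          congr 1
          ring
  have h2 : (4 * K) ^ (u i + u (i + 1)) * (κ ^ 8)⁻¹ ≤ κ ^ 6 * (κ ^ 8)⁻¹ :=
    mul_le_mul_of_nonneg_right h1 hEpos.le
  have h3 : κ ^ 6 * (κ ^ 8)⁻¹ ≤ 1 / 4 := by
    rw [← div_eq_mul_inv, div_le_iff₀ (by positivity)]
    have h4 : (4 : ℝ) ≤ κ ^ 2 := by nlinarith
    have h5 : κ ^ 8 = κ ^ 6 * κ ^ 2 := by ring
    have h6 : 0 < κ ^ 6 := by positivity
    nlinarith
  linarith

end Pool.Agent.CL
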