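import Pool.Agent.Lib_MP_b9d69a.P
import Pool.Agent.Lib_MP_b9d69a.Bump

/-!
# Piece CL-NR: no isolated returns where local closing fails

Let `φ = chartAt x`, `V`, `𝒰` the data of the failure of local closing.  Choose `R > 0` (`R ≤ 1`)
with `closedBall (φ x) (3 R) ⊆ φ.target` and `φ.symm '' closedBall (φ x) (3 R) ⊆ V`.
`pert` with this ball gives `k, δ`; `exists_bump n k` gives `χ, C`.  Put
`W = {y ∈ φ.source | ‖φ y - φ x‖ < R}`, `r = k + 2`, `c = min (1/4) R (δ / (2 C))` or so.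
Let `y ∈ W`, `0 < ρ < c`, `z, f^[k'] z ∈ cball x y (ρ ^ r)`, `k' ≥ 1`, minimal counterexample:
no `0 < i < k'` with `f^[i] z ∈ cball x y ρ`.  Put `v = φ z - φ (f^[k'] z)`, `‖v‖ ≤ 2 ρ ^ r`,
`b u = χ (ρ⁻¹ • (u - φ y)) • v`, supported in `closedBall (φ y) ρ ⊆ closedBall (φ x) (3 R)`, and
`C ‖v‖ / ρ ^ k ≤ 2 C ρ ^ 2 ≤ δ`.  As `ρ ^ r ≤ ρ / 2`, `b (φ (f^[k'] z)) = v`, so the
diffeomorphism `h` of `pert` has `h (f^[k'] z) = z`, and `h w = w` for `w` not in
`cball x y ρ` (where `b (φ w) = 0`).  Hence `g = f.trans h` satisfies `g^[i] z = f^[i] z` for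
`i < k'`, `g^[k'] z = z`, `g ∈ 𝒰`, `g p = f p` for `f p ∉ V`, `z ∈ V`: contradiction.
-/

set_option autoImplicit false
open scoped Manifold ContDiff Topology
open Set Filter

namespace Pool.Agent.CL

variable {n : ℕ} {M : Type} [TopologicalSpace M] [ChartedSpace (Eu n) M]
    [IsManifold 𝓘(ℝ, Eu n) ((⊤ : ℕ∞) : WithTop ℕ∞) M] [T2Space M]

theorem no_return (f : Dif n M) (x : M) (hx : ¬ LocallyClosable f x) :
    ∃ W ∈ 𝓝 x, W ⊆ (chartAt (Eu n) x).source ∧
      ∃ (r : ℕ) (c : ℝ), 2 ≤ r ∧ 0 < c ∧ c ≤ 1 / 2 ∧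
      (∀ y ∈ W, Metric.closedBall (chartAt (Eu n) x y) c ⊆ (chartAt (Eu n) x).target) ∧
      ∀ y ∈ W, ∀ ρ : ℝ, 0 < ρ → ρ < c → ∀ (z : M) (k : ℕ), 1 ≤ k →
        z ∈ cball (n := n) x y (ρ ^ r) → f^[k] z ∈ cball (n := n) x y (ρ ^ r) →
        ∃ i, 0 < i ∧ i < k ∧ f^[i] z ∈ cball (n := n) x y ρ := by
  unfold LocallyClosable at hx
  push Not at hx
  obtain ⟨V, hV, 𝒰, h𝒰, hno⟩ := hx
  set φ := chartAt (Eu n) x with hφ
  have hxs : x ∈ φ.source := mem_chart_source (Eu n) x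
  have hxt : φ x ∈ φ.target := φ.map_source hxs
  -- the radius
  have hn1 : φ.target ∩ φ.symm ⁻¹' V ∈ 𝓝 (φ x) := by
    refine Filter.inter_mem (φ.open_target.mem_nhds hxt) ?_
    have h1 := φ.continuousAt_symm hxt
    have h2 : V ∈ 𝓝 (φ.symm (φ x)) := by
      rw [φ.left_inv hxs]
      exact hV
    exact h1 h2
  obtain ⟨R₀, hR₀, hB₀⟩ := Metric.nhds_basis_closedBall.mem_iff.1 hn1
  obtain ⟨R, hRdef⟩ : ∃ R, R = R₀ / 3 := ⟨_, rfl⟩
  have hR : 0 < R := by rw [hRdef]; linarith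
  have h3R : 3 * R = R₀ := by rw [hRdef]; ring
  have hB : Metric.closedBall (φ x) (3 * R) ⊆ φ.target := by
    rw [h3R]
    exact fun u hu => (hB₀ hu).1
  have hBV : ∀ w ∈ φ.source, φ w ∈ Metric.closedBall (φ x) (3 * R) → w ∈ V := by
    intro w hw hu
    rw [h3R] at hu
    have h1 := (hB₀ hu).2
    rw [Set.mem_preimage, φ.left_inv hw] at h1
    exact h1
  obtain ⟨k, δ, hδ, hpert⟩ := pert f φ (chart_mem_atlas (Eu n) x) (φ x) (3 * R) hB 𝒰 h𝒰
  obtain ⟨χ, C, hC, hχ, hχ1, hχ0, hχb⟩ := exists_bump n k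
  have hW : {y | y ∈ φ.source ∧ ‖φ y - φ x‖ < R} ∈ 𝓝 x := by
    have h1 : φ.source ∈ 𝓝 x := φ.open_source.mem_nhds hxs
    have h2 : ∀ᶠ y in 𝓝 x, φ y ∈ Metric.ball (φ x) R :=
      (φ.continuousAt hxs) (Metric.ball_mem_nhds _ hR)
    filter_upwards [h1, h2] with y hy1 hy2
    refine ⟨hy1, ?_⟩
    rw [Metric.mem_ball, dist_eq_norm] at hy2
    exact hy2
  obtain ⟨c, hcdef⟩ : ∃ c, c = min (1 / 4) (min R (δ / (2 * C))) := ⟨_, rfl⟩
  have hc0 : 0 < c := by
    rw [hcdef]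
    exact lt_min (by norm_num) (lt_min hR (by positivity))
  have hc4 : c ≤ 1 / 4 := by
    rw [hcdef]
    exact min_le_left _ _
  have hcR : c ≤ R := by
    rw [hcdef]
    exact (min_le_right _ _).trans (min_le_left _ _)
  have hcδ : c ≤ δ / (2 * C) := by
    rw [hcdef]
    exact (min_le_right _ _).trans (min_le_right _ _)
  refine ⟨_, hW, fun y hy => hy.1, k + 2, c, by omega, hc0, by linarith, ?_, ?_⟩
  · intro y hy u hu
    apply hB
    have h1 : ‖u - φ y‖ ≤ c := by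
      rw [← dist_eq_norm]
      exact Metric.mem_closedBall.1 hu
    rw [Metric.mem_closedBall, dist_eq_norm]
    have h2 : u - φ x = (u - φ y) + (φ y - φ x) := by abel
    rw [h2]
    have h3 := norm_add_le (u - φ y) (φ y - φ x)
    have h4 := hy.2
    linarith
  · intro y hy ρ hρ hρc z k' hk' hz hfz
    by_contra hcon
    push Not at hcon
    have hρ1 : ρ ≤ 1 := by linarith
    have hρr : ρ ^ (k + 2) ≤ ρ ^ 2 := pow_le_pow_of_le_one hρ.le hρ1 (by omega)
    have hρr2 : ρ ^ (k + 2) ≤ ρ / 2 := by nlinarith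
    obtain ⟨v, hv⟩ : ∃ v, v = φ z - φ (f^[k'] z) := ⟨_, rfl⟩
    have hvn : ‖v‖ ≤ 2 * ρ ^ (k + 2) := by
      have h1 : v = (φ z - φ y) - (φ (f^[k'] z) - φ y) := by rw [hv]; abel
      rw [h1]
      have h2 := norm_sub_le (φ z - φ y) (φ (f^[k'] z) - φ y)
      have h3 := hz.2
      have h4 := hfz.2
      linarith
    -- points at distance less than `ρ` from `φ y`
    have hnear : ∀ u : Eu n, ‖u - φ y‖ < ρ → u ∈ Metric.closedBall (φ x) (3 * R) := by
      intro u hu
      rw [Metric.mem_closedBall, dist_eq_norm]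
      have h2 : u - φ x = (u - φ y) + (φ y - φ x) := by abel
      rw [h2]
      have h3 := norm_add_le (u - φ y) (φ y - φ x)
      have h4 := hy.2
      linarith
    have hb0 : ∀ u : Eu n, ¬ ‖u - φ y‖ < ρ → χ (ρ⁻¹ • (u - φ y)) • v = 0 := by
      intro u hu
      rw [hχ0, zero_smul]
      rw [norm_smul, Real.norm_of_nonneg (inv_nonneg.2 hρ.le)]
      rw [not_lt] at hu
      rw [inv_mul_eq_div, one_le_div hρ]
      exact hu
    obtain ⟨h, hreal, hmem⟩ := hpert (fun u => χ (ρ⁻¹ • (u - φ y)) • v)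
      ((hχ.comp ((contDiff_id.sub contDiff_const).const_smul _)).smul contDiff_const)
      (fun u hu => hb0 u fun h1 => hu (hnear u h1))
      (fun j hj u => by
        refine (hχb (φ y) v ρ hρ hρ1 j hj u).trans ?_
        rw [div_le_iff₀ (pow_pos hρ k)]
        have h1 : C * ‖v‖ ≤ C * (2 * ρ ^ (k + 2)) := mul_le_mul_of_nonneg_left hvn hC.le
        refine h1.trans ?_
        have h2 : 2 * C * ρ ≤ δ := by
          have h3 : ρ ≤ δ / (2 * C) := by linarith
          rw [le_div_iff₀ (by positivity)] at h3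
          linarith
        have h4 : 0 < ρ ^ k := pow_pos hρ k
        have h5 : C * (2 * ρ ^ (k + 2)) = (2 * C * ρ) * ρ * ρ ^ k := by ring
        rw [h5]
        refine mul_le_mul_of_nonneg_right ?_ h4.le
        have h6 : 0 ≤ 2 * C * ρ := by positivity
        nlinarith)
    -- `h` moves only the points of the small ball
    have hfix : ∀ w, w ∉ cball (n := n) x y ρ → h w = w := by
      intro w hw
      by_cases hws : w ∈ φ.source
      · obtain ⟨h1, h2⟩ := hreal.1 w hws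
        have h3 : ¬ ‖φ w - φ y‖ < ρ := fun h4 => hw ⟨hws, h4⟩
        have h5 : φ (h w) = φ w + χ (ρ⁻¹ • (φ w - φ y)) • v := h2
        rw [hb0 _ h3, add_zero] at h5
        exact φ.injOn h1 hws h5
      · exact hreal.2 w hws
    have hmove : h (f^[k'] z) = z := by
      obtain ⟨h1, h2⟩ := hreal.1 _ hfz.1
      have h3 : χ (ρ⁻¹ • (φ (f^[k'] z) - φ y)) = 1 := by
        apply hχ1
        rw [norm_smul, Real.norm_of_nonneg (inv_nonneg.2 hρ.le), inv_mul_eq_div, div_le_iff₀ hρ]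
        have h4 : ‖φ (f^[k'] z) - φ y‖ < ρ ^ (k + 2) := hfz.2
        linarith
      have h5 : φ (h (f^[k'] z)) = φ (f^[k'] z) + χ (ρ⁻¹ • (φ (f^[k'] z) - φ y)) • v := h2
      rw [h3, one_smul, hv, add_sub_cancel] at h5
      exact φ.injOn h1 hz.1 h5
    have hiter : ∀ i, i < k' → (f.trans h)^[i] z = f^[i] z := by
      intro i
      induction i with
      | zero => exact fun _ => rfl
      | succ i ih =>
        intro hi
        rw [Function.iterate_succ_apply', ih (by omega), Function.iterate_succ_apply']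
        change h (f (f^[i] z)) = f (f^[i] z)
        apply hfix
        have h1 := hcon (i + 1) (by omega) hi
        rw [Function.iterate_succ_apply'] at h1
        exact h1
    have hper : (f.trans h)^[k'] z = z := by
      obtain ⟨j, rfl⟩ : ∃ j, k' = j + 1 := ⟨k' - 1, by omega⟩
      rw [Function.iterate_succ_apply', hiter j (by omega)]
      change h (f (f^[j] z)) = z
      rw [← Function.iterate_succ_apply' (f := f)]
      exact hmove
    have hcV : ∀ w, w ∈ cball (n := n) x y ρ → w ∈ V := fun w hw =>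
      hBV w hw.1 (hnear _ hw.2)
    have hzV : z ∈ V := by
      apply hcV
      refine ⟨hz.1, lt_of_lt_of_le hz.2 ?_⟩
      linarith
    refine hno (f.trans h) hmem (fun p hp => ?_) z hzV
      (Function.mk_mem_periodicPts (by omega) hper)
    change h (f p) = f p
    exact hfix _ fun h1 => hp (hcV _ h1)

end Pool.Agent.CL
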