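import Pool.Agent.Lib_MP_b9d69a.ERF
import Pool.Agent.Lib_MP_b9d69a.ERL3
import Pool.Agent.Lib_MP_b9d69a.NR

/-!
# Exponential returns: assembly
-/

set_option autoImplicit false
open scoped Manifold Topology ContDiff
open Set Filter

namespace Pool.Agent.CL

variable {n : ℕ} {M : Type} [TopologicalSpace M] [ChartedSpace (Eu n) M]
    [IsManifold 𝓘(ℝ, Eu n) ((⊤ : ℕ∞) : WithTop ℕ∞) M] [T2Space M]

/-- Where local closing fails, returns are at most exponentially fast. -/
theorem exp_returns [CompactSpace M] (f : Dif n M) (x : M) (hx : ¬ LocallyClosable f x) :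
    ExpReturnsAt (n := n) f x := by
  obtain ⟨W₁, hW₁, hW₁s, r, c, hr, hc, hc2, -, hret⟩ := no_return f x hx
  obtain ⟨K, ρ, hK, hρ, W₂, hW₂, hW₂s, hdata⟩ := exists_linData f x
  obtain ⟨C, hC⟩ := abstract_returns n K ρ (min c ρ) r hK hρ (lt_min hc hρ)
  have hK0 : 0 < K := by linarith
  have hlogK : 0 ≤ Real.log K := Real.log_nonneg (by linarith)
  refine ⟨W₁ ∩ W₂, inter_mem hW₁ hW₂, fun z hz => hW₁s hz.1,
    C * Real.log K + |Real.log ρ| + 1, by positivity, ?_⟩
  rintro z ⟨hz1, hz2⟩ k hk hks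
  obtain ⟨D, hnear, ha⟩ := hdata z hz2
  have hk1 : (1 : ℝ) ≤ k := by exact_mod_cast hk
  by_cases hn : D.near k
  · have h1 := hC D (by
      intro η hη hηc p hp hpn hpa
      have hηc' : η < c := lt_of_lt_of_le hηc (min_le_left _ _)
      have hηρ : η < ρ := lt_of_lt_of_le hηc (min_le_right _ _)
      have hps := (hnear p).1 hpn
      rw [ha p] at hpa
      obtain ⟨i, hi0, hip, hi⟩ := hret z hz1 η hη hηc' z p hp
        ⟨hW₁s hz1, by rw [sub_self, norm_zero]; positivity⟩ ⟨hps.1, hpa⟩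
      refine ⟨i, hi0, hip, (hnear i).2 ⟨hi.1, hi.2.le.trans hηρ.le⟩, ?_⟩
      rw [ha i]
      exact hi.2) k hk hn
    rw [ha k] at h1
    refine le_trans ?_ h1.le
    have h2 : (K ^ (C * k))⁻¹ = Real.exp (-(C * Real.log K * k)) := by
      rw [Real.exp_neg, ← Real.rpow_natCast, Real.rpow_def_of_pos hK0]
      congr 2
      push_cast
      ring
    rw [h2]
    apply Real.exp_le_exp.2
    have h3 : 0 ≤ |Real.log ρ| * k := by positivity
    nlinarith
  · have h1 : ρ < ‖chartAt (Eu n) x (f^[k] z) - chartAt (Eu n) x z‖ := by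
      by_contra hcon
      exact hn ((hnear k).2 ⟨hks, not_lt.1 hcon⟩)
    refine le_trans ?_ h1.le
    have h2 : ρ = Real.exp (Real.log ρ) := (Real.exp_log hρ).symm
    rw [h2]
    apply Real.exp_le_exp.2
    rw [← h2]
    have h3 : -|Real.log ρ| ≤ Real.log ρ := neg_abs_le _
    have h4 : 0 ≤ C * Real.log K * k := by positivity
    have h5 : |Real.log ρ| ≤ |Real.log ρ| * k := by
      have := abs_nonneg (Real.log ρ)
      nlinarith
    nlinarith

end Pool.Agent.CL
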