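import Pool.Agent.Lib_MP_b9d69a.ER0

/-!
# Piece ER-L1: dependent unit vectors

Paper proof (note 2212, L1).  Suppose `β < ‖B i (e i)‖` for all `i`.  Put `τ = β / (8 N) ≤ 1 / 8`.
Let `S j` be the span of the `e l` with `j ≤ l` (`j ≤ m`).  Let `j : Fin m` be the LARGEST index
with `infDist (e j) (S (j + 1)) ≤ τ`; it exists, as otherwise `e j ∉ S (j + 1)` for all `j`, and the
`m > n` vectors would be linearly independent.
Claim (downward induction on `i` from `m` to `j + 1`): every `v ∈ S i` satisfies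
`‖B j v‖ ≤ 3 ^ (m - i) * δ / τ ^ (m - i) * ‖v‖` (for `i = m`: `v = 0`; the step: `v = c • e i + v'`,
`v' ∈ S (i + 1)`, `|c| * τ ≤ ‖v‖` because `τ < infDist (e i) (S (i + 1))`, so
`‖v'‖ ≤ ‖v‖ + |c| ≤ 2 * ‖v‖ / τ`, and `‖B j v‖ ≤ |c| δ + M ‖v'‖ ≤ (δ + 2 M) / τ * ‖v‖`).
Now `e j = v + w` with `v ∈ S (j + 1)`, `‖w‖ ≤ 2 τ`, so
`‖B j (e j)‖ ≤ 3 ^ m * δ / τ ^ m * (1 + 2 τ) + 2 N τ ≤ β / 2 + β / 4 ≤ β`.
-/

set_option autoImplicit false
open scoped Topology
open Set Filter

namespace Pool.Agent.CL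

private def spn {n m : ℕ} (e : Fin m → Eu n) (k : ℕ) : Submodule ℝ (Eu n) :=
  Submodule.span ℝ (e '' {l | k ≤ l.val})

private theorem spn_split {n m : ℕ} (e : Fin m → Eu n) (i : Fin m) (v : Eu n)
    (hv : v ∈ spn e i.val) : ∃ c : ℝ, ∃ v' ∈ spn e (i.val + 1), v = c • e i + v' := by
  have hset : (e '' {l | i.val ≤ l.val}) = insert (e i) (e '' {l | i.val + 1 ≤ l.val}) := by
    rw [← Set.image_insert_eq]
    congr 1
    ext l
    simp only [Set.mem_setOf_eq, Set.mem_insert_iff]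
    constructor
    · intro h
      rcases Nat.eq_or_lt_of_le h with h | h
      · left; exact Fin.ext h.symm
      · right; exact h
    · rintro (h | h)
      · rw [h]
      · omega
  unfold spn at hv
  rw [hset, Submodule.mem_span_insert] at hv
  obtain ⟨c, v', hv', h⟩ := hv
  exact ⟨c, v', hv', h⟩

private theorem coef_bound {n : ℕ} (S : Submodule ℝ (Eu n)) (x : Eu n) (τ : ℝ)
    (hτ : τ < Metric.infDist x (S : Set (Eu n))) (c : ℝ) (v' : Eu n) (hv' : v' ∈ S) :
    |c| * τ ≤ ‖c • x + v'‖ := by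
  rcases eq_or_ne c 0 with hc | hc
  · subst hc
    simp
  · have h1 : c • x + v' = c • (x - (-(c⁻¹)) • v') := by
      rw [smul_sub, smul_smul, mul_neg, mul_inv_cancel₀ hc, neg_smul, one_smul, sub_neg_eq_add]
    rw [h1, norm_smul, Real.norm_eq_abs]
    apply mul_le_mul_of_nonneg_left _ (abs_nonneg c)
    rw [← dist_eq_norm]
    exact hτ.le.trans (Metric.infDist_le_dist_of_mem (S.smul_mem _ hv'))

private theorem bound_spn {n m : ℕ} (e : Fin m → Eu n) (he : ∀ i, ‖e i‖ = 1) (j : ℕ) (τ δ : ℝ)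
    (hτ : 0 < τ) (hτ1 : τ ≤ 1) (hδ : 0 ≤ δ)
    (hd : ∀ l : Fin m, j < l.val → τ < Metric.infDist (e l) (spn e (l.val + 1) : Set (Eu n)))
    (T : Eu n →L[ℝ] Eu n) (hT : ∀ l : Fin m, j < l.val → ‖T (e l)‖ ≤ δ) :
    ∀ d k : ℕ, k + d = m → j < k → ∀ v ∈ spn e k, ‖T v‖ ≤ (3 / τ) ^ d * δ * ‖v‖ := by
  intro d
  induction d with
  | zero =>
    intro k hk hjk v hv
    have : v = 0 := by
      unfold spn at hv
      have hem : (e '' {l | k ≤ l.val}) = ∅ := by
        rw [Set.image_eq_empty]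
        ext l
        simp only [Set.mem_setOf_eq, Set.mem_empty_iff_false, iff_false]
        have := l.isLt
        omega
      rw [hem, Submodule.span_empty] at hv
      simpa using hv
    subst this
    simp
  | succ d ih =>
    intro k hk hjk v hv
    have hkm : k < m := by omega
    obtain ⟨c, v', hv', h⟩ := spn_split e ⟨k, hkm⟩ v hv
    have hc : |c| * τ ≤ ‖v‖ := by
      rw [h]
      exact coef_bound _ _ τ (hd ⟨k, hkm⟩ hjk) c v' hv'
    have hc' : |c| ≤ ‖v‖ / τ := by rw [le_div_iff₀ hτ]; exact hc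
    have hv'n : ‖v'‖ ≤ 2 * (‖v‖ / τ) := by
      have h1 : v' = v - c • e ⟨k, hkm⟩ := by rw [h]; simp
      have h2 : ‖v'‖ ≤ ‖v‖ + |c| := by
        rw [h1]
        refine (norm_sub_le _ _).trans ?_
        rw [norm_smul, he, mul_one, Real.norm_eq_abs]
      have h3 : ‖v‖ ≤ ‖v‖ / τ := by
        rw [le_div_iff₀ hτ]
        nlinarith [norm_nonneg v]
      linarith
    have hTv' := ih (k + 1) (by omega) (by omega) v' hv'
    have hTv : ‖T v‖ ≤ |c| * δ + ‖T v'‖ := by
      rw [h, map_add, map_smul]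
      refine (norm_add_le _ _).trans ?_
      rw [norm_smul, Real.norm_eq_abs]
      have := hT ⟨k, hkm⟩ hjk
      gcongr
    set M : ℝ := (3 / τ) ^ d * δ with hM
    have h3τ : 1 ≤ 3 / τ := by rw [le_div_iff₀ hτ]; linarith
    have hδM : δ ≤ M := by
      rw [hM]
      have : 1 ≤ (3 / τ) ^ d := one_le_pow₀ h3τ
      nlinarith
    have hM0 : 0 ≤ M := hδ.trans hδM
    have hvτ : 0 ≤ ‖v‖ / τ := by positivity
    have e1 : (3 / τ) ^ (d + 1) * δ * ‖v‖ = 3 * (M * (‖v‖ / τ)) := by
      rw [hM, pow_succ]; ring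
    rw [e1]
    have a1 : |c| * δ ≤ (‖v‖ / τ) * M := mul_le_mul hc' hδM hδ hvτ
    have a2 : M * ‖v'‖ ≤ M * (2 * (‖v‖ / τ)) := mul_le_mul_of_nonneg_left hv'n hM0
    linarith

theorem dependent_small (n m : ℕ) (hnm : n < m) (e : Fin m → Eu n) (he : ∀ i, ‖e i‖ = 1)
    (B : Fin m → (Eu n →L[ℝ] Eu n)) (N β δ : ℝ) (hN : 1 ≤ N) (hβ : 0 < β) (hβ1 : β ≤ 1)
    (hδ : 0 ≤ δ) (hB : ∀ i, ‖B i‖ ≤ N) (hBe : ∀ i j, i < j → ‖B i (e j)‖ ≤ δ)
    (hsmall : δ * (4 * 3 ^ m) ≤ β * (β / (8 * N)) ^ m) :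
    ∃ i, ‖B i (e i)‖ ≤ β := by
  by_contra hcon
  push Not at hcon
  have hN0 : 0 < N := by linarith
  set τ : ℝ := β / (8 * N) with hτdef
  have hτ : 0 < τ := by positivity
  have hτ8 : τ ≤ 1 / 8 := by
    rw [hτdef, div_le_iff₀ (by positivity)]
    linarith
  have hNτ : N * τ = β / 8 := by
    rw [hτdef]; field_simp
  -- all distances are larger than τ
  have hd : ∀ d : ℕ, ∀ i : Fin m, i.val + d + 1 = m →
      τ < Metric.infDist (e i) (spn e (i.val + 1) : Set (Eu n)) := by
    intro d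
    induction d using Nat.strong_induction_on with
    | _ d ih =>
      intro i hi
      by_contra hle
      push Not at hle
      have hne : (spn e (i.val + 1) : Set (Eu n)).Nonempty := ⟨0, (spn e (i.val + 1)).zero_mem⟩
      have hlt : Metric.infDist (e i) (spn e (i.val + 1) : Set (Eu n)) < 2 * τ := by linarith
      obtain ⟨v, hv, hdist⟩ := (Metric.infDist_lt_iff hne).1 hlt
      have hb := bound_spn e he i.val τ δ hτ (by linarith) hδ
        (fun l hl => ih (m - 1 - l.val) (by have := l.isLt; omega) l (by have := l.isLt; omega))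
        (B i) (fun l hl => hBe i l (Fin.lt_def.2 hl)) d (i.val + 1) (by omega) (by omega) v hv
      have hvn : ‖v‖ ≤ 1 + 2 * τ := by
        have : v = e i - (e i - v) := by abel
        rw [this]
        refine (norm_sub_le _ _).trans ?_
        rw [he, ← dist_eq_norm]
        linarith
      have h1 : ‖B i (e i)‖ ≤ ‖B i v‖ + N * (2 * τ) := by
        have : e i = v + (e i - v) := by abel
        calc ‖B i (e i)‖ = ‖B i v + B i (e i - v)‖ := by rw [← map_add, ← this]
          _ ≤ ‖B i v‖ + ‖B i (e i - v)‖ := norm_add_le _ _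
          _ ≤ ‖B i v‖ + N * (2 * τ) := by
            have h2 : ‖B i (e i - v)‖ ≤ ‖B i‖ * ‖e i - v‖ := (B i).le_opNorm _
            have h3 : ‖B i‖ * ‖e i - v‖ ≤ N * (2 * τ) := by
              apply mul_le_mul (hB i) _ (norm_nonneg _) hN0.le
              rw [← dist_eq_norm]; exact hdist.le
            linarith
      have h3τ : 1 ≤ 3 / τ := by rw [le_div_iff₀ hτ]; linarith
      have hpow : (3 / τ) ^ d ≤ (3 / τ) ^ m := pow_le_pow_right₀ h3τ (by omega)
      have hδβ : (3 / τ) ^ m * δ ≤ β / 4 := by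
        rw [div_pow, div_mul_eq_mul_div, div_le_iff₀ (by positivity)]
        linarith
      have hfin : ‖B i v‖ ≤ β / 4 * (1 + 2 * τ) := by
        refine hb.trans ?_
        apply mul_le_mul _ hvn (norm_nonneg _) (by positivity)
        refine le_trans ?_ hδβ
        exact mul_le_mul_of_nonneg_right hpow hδ
      have := hcon i
      nlinarith
  -- a linear relation
  have hdep : ¬ LinearIndependent ℝ e := by
    intro hli
    have := hli.fintype_card_le_finrank
    simp at this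
    omega
  rw [Fintype.not_linearIndependent_iff] at hdep
  obtain ⟨g, hg, i0, hi0⟩ := hdep
  -- least index
  obtain ⟨i, hi, himin⟩ := WellFounded.has_min (wellFounded_lt (α := Fin m)) {i | g i ≠ 0} ⟨i0, hi0⟩
  have hmem : e i ∈ spn e (i.val + 1) := by
    have hz : ∀ l : Fin m, l < i → g l = 0 := by
      intro l hl
      by_contra h
      exact himin l h hl
    have hsum : g i • e i + ∑ l ∈ Finset.univ.erase i, g l • e l = 0 := by
      rw [Finset.add_sum_erase _ (fun l => g l • e l) (Finset.mem_univ i)]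
      exact hg
    have hin : ∑ l ∈ Finset.univ.erase i, g l • e l ∈ spn e (i.val + 1) := by
      apply Submodule.sum_mem
      intro l hl
      rcases lt_or_ge i l with h | h
      · apply Submodule.smul_mem
        apply Submodule.subset_span
        exact ⟨l, by simpa using h, rfl⟩
      · have hne : l ≠ i := Finset.ne_of_mem_erase hl
        rw [hz l (lt_of_le_of_ne h hne), zero_smul]
        exact Submodule.zero_mem _
    have hgi : g i ≠ 0 := hi
    have : e i = (-(g i)⁻¹) • ∑ l ∈ Finset.univ.erase i, g l • e l := by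
      have h1 : ∑ l ∈ Finset.univ.erase i, g l • e l = -(g i • e i) := by
        rw [eq_neg_iff_add_eq_zero, add_comm]; exact hsum
      rw [h1, smul_neg, neg_smul, neg_neg, smul_smul, inv_mul_cancel₀ hgi, one_smul]
    rw [this]
    exact Submodule.smul_mem _ _ hin
  have hlast := hd (m - 1 - i.val) i (by have := i.isLt; omega)
  rw [Metric.infDist_zero_of_mem hmem] at hlast
  linarith

end Pool.Agent.CL
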