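import Pool.Agent.Lib_MP_b9d69a.Defs

/-!
# Piece CL-U: polynomially perfect implies uncountable

`nonwandering f` is closed (for any `f`).  Suppose `U ∩ nonwandering f` is countable.  Let
`X = nonwandering f ∩ interior (U ∩ W)` as a subspace: nonempty (it contains `x`), locally
compact Hausdorff (locally closed in the locally compact Hausdorff space `M`, which is locally
compact as a charted space, `ChartedSpace.locallyCompactSpace`), countable, so by Baire some
singleton `{y}` is open in `X`: `y` is isolated in `nonwandering f`.  But `y ∈ W` is nonwandering,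
so there are `z ∈ nonwandering f` with `0 < ρ ^ r ≤ ‖φ z - φ y‖ ≤ ρ` for every small `ρ`, i.e.
`z ≠ y` arbitrarily close to `y`: contradiction.
-/

set_option autoImplicit false
open scoped Manifold ContDiff Topology
open Set Filter

namespace Pool.Agent.CL

theorem isClosed_nonwandering {M : Type} [TopologicalSpace M] (f : M → M) :
    IsClosed (nonwandering f) := by
  rw [← isOpen_compl_iff, isOpen_iff_mem_nhds]
  intro x hx
  simp only [nonwandering, mem_compl_iff, mem_ofPred_eq, not_forall, not_exists, not_and] at hx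
  obtain ⟨U, hU, h⟩ := hx
  filter_upwards [interior_mem_nhds.2 hU] with y hy hny
  obtain ⟨m, hm, z, hz, hz'⟩ := hny (interior U) (isOpen_interior.mem_nhds hy)
  exact h m hm z (interior_subset hz) (interior_subset hz')

theorem PolyPerfectAt.uncountable {n : ℕ} {M : Type} [TopologicalSpace M]
    [ChartedSpace (Eu n) M] [T2Space M] {f : M → M} {x : M}
    (hx : x ∈ nonwandering f) (h : PolyPerfectAt (n := n) f x) :
    ∀ U ∈ 𝓝 x, ¬ (U ∩ nonwandering f).Countable := by
  intro U hU hcount
  obtain ⟨W, hW, hWs, r, c, hc, hgap⟩ := h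
  set O : Set M := interior (U ∩ W) with hO
  have hxO : x ∈ O := mem_interior_iff_mem_nhds.2 (inter_mem hU hW)
  have hOo : IsOpen O := isOpen_interior
  have hOW : O ⊆ W := fun z hz => (interior_subset hz).2
  have hOU : O ⊆ U := fun z hz => (interior_subset hz).1
  have : LocallyCompactSpace M := ChartedSpace.locallyCompactSpace (Eu n) M
  have hlc : IsLocallyClosed (O ∩ nonwandering f) :=
    hOo.isLocallyClosed.inter (isClosed_nonwandering f).isLocallyClosed
  have : LocallyCompactSpace (O ∩ nonwandering f : Set M) := by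
    refine Topology.IsInducing.subtypeVal.locallyCompactSpace ?_
    rwa [Subtype.range_coe]
  have : Countable (O ∩ nonwandering f : Set M) :=
    (hcount.mono (inter_subset_inter_left _ hOU)).to_subtype
  have : Nonempty (O ∩ nonwandering f : Set M) := ⟨⟨x, hxO, hx⟩⟩
  obtain ⟨y, hy⟩ := nonempty_interior_of_iUnion_of_closed
    (f := fun y : (O ∩ nonwandering f : Set M) => ({y} : Set (O ∩ nonwandering f : Set M)))
    (fun y => isClosed_singleton) (iUnion_of_singleton _)
  have hyint : interior ({y} : Set (O ∩ nonwandering f : Set M)) = {y} := by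
    obtain ⟨w, hw⟩ := hy
    have := interior_subset hw
    rw [mem_singleton_iff] at this
    subst this
    exact subset_antisymm interior_subset (singleton_subset_iff.2 hw)
  have hyo : IsOpen ({y} : Set (O ∩ nonwandering f : Set M)) := by
    rw [← hyint]
    exact isOpen_interior
  obtain ⟨V, hV, hVy⟩ := isOpen_induced_iff.1 hyo
  have hyV : (y : M) ∈ V := by
    have : y ∈ (Subtype.val ⁻¹' V : Set (O ∩ nonwandering f : Set M)) := by
      rw [hVy]
      rfl
    exact this
  have hyO : (y : M) ∈ O := y.2.1
  have hys : (y : M) ∈ (chartAt (Eu n) x).source := hWs (hOW hyO)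
  have hnh : (chartAt (Eu n) x).symm ⁻¹' (V ∩ O) ∈ 𝓝 (chartAt (Eu n) x (y : M)) := by
    apply ((chartAt (Eu n) x).continuousAt_symm ((chartAt (Eu n) x).map_source hys)).preimage_mem_nhds
    rw [(chartAt (Eu n) x).left_inv hys]
    exact (hV.inter hOo).mem_nhds ⟨hyV, hyO⟩
  obtain ⟨ρ₀, hρ₀, hball⟩ := Metric.mem_nhds_iff.1 hnh
  have hρ : 0 < min c ρ₀ / 2 := by positivity
  have hρc : min c ρ₀ / 2 < c := by
    have := min_le_left c ρ₀
    linarith
  have hρρ : min c ρ₀ / 2 < ρ₀ := by
    have := min_le_right c ρ₀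
    linarith
  obtain ⟨z, hzs, hzn, -, hz1, hz2⟩ := hgap y (hOW hyO) y.2.2 _ hρ hρc
  have hzb : chartAt (Eu n) x z ∈ Metric.ball (chartAt (Eu n) x (y : M)) ρ₀ := by
    rw [Metric.mem_ball, dist_eq_norm]
    exact lt_of_le_of_lt hz2 hρρ
  have hzVO := hball hzb
  rw [mem_preimage, (chartAt (Eu n) x).left_inv hzs] at hzVO
  have hzy : (⟨z, hzVO.2, hzn⟩ : (O ∩ nonwandering f : Set M)) = y := by
    have : (⟨z, hzVO.2, hzn⟩ : (O ∩ nonwandering f : Set M)) ∈
        (Subtype.val ⁻¹' V : Set (O ∩ nonwandering f : Set M)) := hzVO.1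
    rw [hVy] at this
    exact this
  have hzy' : z = y := congrArg Subtype.val hzy
  rw [hzy', sub_self, norm_zero] at hz1
  exact absurd hz1 (not_le.2 (pow_pos hρ r))

end Pool.Agent.CL
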