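import Pool.Agent.Lib_MP_b9d69a.NR
import Pool.Agent.Lib_MP_b9d69a.C
import Pool.Agent.Lib_MP_b9d69a.U
import Pool.Agent.Lib_MP_b9d69a.A

/-!
# Assembly
-/

set_option autoImplicit false
open scoped Manifold ContDiff Topology
open Set Filter

namespace Pool.Agent.CL

theorem cball_mem_nhds {n : ℕ} {M : Type} [TopologicalSpace M] [ChartedSpace (Eu n) M]
    (x y : M) (hy : y ∈ (chartAt (Eu n) x).source) (ρ : ℝ) (hρ : 0 < ρ) :
    cball (n := n) x y ρ ∈ 𝓝 y := by
  have h1 : (chartAt (Eu n) x).source ∈ 𝓝 y := (chartAt (Eu n) x).open_source.mem_nhds hy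
  have h2 : ContinuousAt (chartAt (Eu n) x) y := (chartAt (Eu n) x).continuousAt hy
  have h3 := h2 (Metric.ball_mem_nhds (chartAt (Eu n) x y) hρ)
  filter_upwards [h1, h3] with z hz1 hz2
  refine ⟨hz1, ?_⟩
  rw [← dist_eq_norm]
  exact hz2

theorem exists_cball_subset {n : ℕ} {M : Type} [TopologicalSpace M] [ChartedSpace (Eu n) M]
    (x y : M) (hy : y ∈ (chartAt (Eu n) x).source) (V : Set M) (hV : V ∈ 𝓝 y) :
    ∃ ε : ℝ, 0 < ε ∧ cball (n := n) x y ε ⊆ V := by
  set φ := chartAt (Eu n) x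
  have h1 : φ.symm ⁻¹' V ∈ 𝓝 (φ y) := by
    have := φ.continuousAt_symm (φ.map_source hy)
    apply this
    rw [φ.left_inv hy]
    exact hV
  obtain ⟨ε, hε, hb⟩ := Metric.mem_nhds_iff.mp h1
  refine ⟨ε, hε, fun z hz => ?_⟩
  have h2 : φ z ∈ Metric.ball (φ y) ε := by
    rw [Metric.mem_ball, dist_eq_norm]; exact hz.2
  have h3 := hb h2
  rw [mem_preimage, φ.left_inv hz.1] at h3
  exact h3

theorem cball_mono {n : ℕ} {M : Type} [TopologicalSpace M] [ChartedSpace (Eu n) M]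
    (x y : M) {a b : ℝ} (h : a ≤ b) : cball (n := n) x y a ⊆ cball (n := n) x y b :=
  fun _ hz => ⟨hz.1, lt_of_lt_of_le hz.2 h⟩

/-- The closing theorem: where local closing fails the nonwandering set is polynomially perfect. -/
theorem closing {n : ℕ} {M : Type} [TopologicalSpace M] [ChartedSpace (Eu n) M]
    [IsManifold 𝓘(ℝ, Eu n) ((⊤ : ℕ∞) : WithTop ℕ∞) M] [T2Space M]
    (f : Dif n M) (x : M) (hx : ¬ LocallyClosable f x) : PolyPerfectAt (n := n) f x := by
  obtain ⟨W, hW, hWs, r, c, hr, hc, hc2, hball, hNR⟩ := no_return f x hx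
  refine ⟨W, hW, hWs, r, c, hc, fun y hyW hyΩ ρ hρ hρc => ?_⟩
  set φ := chartAt (Eu n) x with hφ
  have hys : y ∈ φ.source := hWs hyW
  have hρ1 : ρ < 1 := by linarith
  have hr1 : 1 ≤ r := by omega
  set B : ℕ → Set M := fun j => cball (n := n) x y (ρ ^ (r ^ j)) with hBdef
  have hpow : ∀ j, ρ ^ (r ^ j) ≤ ρ := fun j => by
    calc ρ ^ (r ^ j) ≤ ρ ^ 1 :=
          pow_le_pow_of_le_one hρ.le hρ1.le (Nat.one_le_pow _ _ (by omega))
      _ = ρ := pow_one ρ
  have hBmono : ∀ j, B (j + 1) ⊆ B j := fun j =>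
    cball_mono x y (pow_le_pow_of_le_one hρ.le hρ1.le (Nat.pow_le_pow_right (by omega) (by omega)))
  have hstar : ∀ (j : ℕ) (z : M) (k : ℕ), 1 ≤ k → z ∈ B (j + 1) → f^[k] z ∈ B (j + 1) →
      ∃ i, 0 < i ∧ i < k ∧ f^[i] z ∈ B j := by
    intro j z k hk hz hkz
    have e1 : ρ ^ (r ^ (j + 1)) = (ρ ^ (r ^ j)) ^ r := by rw [← pow_mul, ← pow_succ]
    refine hNR y hyW (ρ ^ (r ^ j)) (pow_pos hρ _) (lt_of_le_of_lt (hpow j) hρc) z k hk ?_ ?_
    · rw [← e1]; exact hz
    · rw [← e1]; exact hkz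
  set A : Set M := {z | z ∈ φ.source ∧ ρ ^ r ≤ ‖φ z - φ y‖ ∧ ‖φ z - φ y‖ ≤ ρ} with hAdef
  have hAc : IsCompact A := by
    have h1 : A = φ.symm '' (Metric.closedBall (φ y) ρ ∩ {u | ρ ^ r ≤ ‖u - φ y‖}) := by
      ext z
      constructor
      · rintro ⟨h1, h2, h3⟩
        refine ⟨φ z, ⟨?_, h2⟩, φ.left_inv h1⟩
        rw [Metric.mem_closedBall, dist_eq_norm]; exact h3
      · rintro ⟨u, ⟨h1, h2⟩, rfl⟩
        have hu : u ∈ φ.target := hball y hyW (Metric.closedBall_subset_closedBall hρc.le h1)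
        refine ⟨φ.map_target hu, ?_, ?_⟩
        · rw [φ.right_inv hu]; exact h2
        · rw [φ.right_inv hu, ← dist_eq_norm]; exact h1
    rw [h1]
    apply IsCompact.image_of_continuousOn
    · apply IsCompact.inter_right (isCompact_closedBall _ _)
      exact isClosed_le continuous_const (by fun_prop)
    · apply φ.continuousOn_symm.mono
      intro u hu
      exact hball y hyW (Metric.closedBall_subset_closedBall hρc.le hu.1)
  have hBA : B 0 \ B 1 ⊆ A := by
    rintro z ⟨h0, h1⟩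
    simp only [hBdef, pow_zero, pow_one] at h0 h1
    refine ⟨h0.1, ?_, h0.2.le⟩
    by_contra hlt
    exact h1 ⟨h0.1, not_le.mp hlt⟩
  obtain ⟨z, hzA, hz⟩ := exists_loop f y A hAc (fun V hV m => by
    obtain ⟨ε, hε, hεV⟩ := exists_cball_subset x y hys V hV
    have hlim : Tendsto (fun j : ℕ => ρ ^ (r ^ (j + 1))) atTop (𝓝 0) := by
      refine (tendsto_pow_atTop_nhds_zero_of_lt_one hρ.le hρ1).comp ?_
      exact (tendsto_pow_atTop_atTop_of_one_lt (by omega)).comp (tendsto_add_atTop_nat 1)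
    have h1 : ∀ᶠ j : ℕ in atTop, ρ ^ (r ^ (j + 1)) < ε := hlim.eventually (gt_mem_nhds hε)
    have h2 : ∀ᶠ j : ℕ in atTop, m ≤ 2 ^ j :=
      (tendsto_pow_atTop_atTop_of_one_lt (by norm_num : 1 < 2)).eventually (eventually_ge_atTop m)
    obtain ⟨j, hj1, hj2⟩ := (h1.and h2).exists
    have hBV : B (j + 1) ⊆ V := (cball_mono x y hj1.le).trans hεV
    obtain ⟨k, hk, p, hp, hkp⟩ := hyΩ (B (j + 1))
      (cball_mem_nhds x y hys _ (pow_pos hρ _))
    obtain ⟨S, hS1, hS2⟩ := doubling f B hBmono hstar j p k hk hp hkp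
    exact ⟨p, hBV hp, k, hBV hkp, S, hj2.trans hS1, fun i hi => ⟨(hS2 i hi).1, hBA (hS2 i hi).2⟩⟩)
  exact ⟨z, hzA.1, hz.nonwandering, hz, hzA.2.1, hzA.2.2⟩

/-- Generic version. -/
theorem generic (n : ℕ) (M : Type) [TopologicalSpace M] [ChartedSpace (Eu n) M]
    [IsManifold 𝓘(ℝ, Eu n) ((⊤ : ℕ∞) : WithTop ℕ∞) M] [CompactSpace M] [T2Space M] :
    ∀ᶠ f : Dif n M in @residual (Dif n M) (cInfTop n M),
      ∀ x ∉ closure (Function.periodicPts (⇑f)), ¬ LocallyClosable f x := by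
  letI τ : TopologicalSpace (Dif n M) := cInfTop n M
  haveI : SecondCountableTopology M := ChartedSpace.secondCountable_of_sigmaCompact (Eu n) M
  set PU : Set M → Set (Dif n M) := fun U => {g | ∃ q ∈ U, q ∈ Function.periodicPts (⇑g)} with hPU
  have key : ∀ U ∈ TopologicalSpace.countableBasis M,
      ∀ᶠ f : Dif n M in residual (Dif n M), f ∈ interior (PU U) ∪ (closure (PU U))ᶜ := by
    intro U hU
    have hUo : IsOpen U := TopologicalSpace.isOpen_of_mem_countableBasis hU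
    apply residual_of_dense_open
    · exact isOpen_interior.union isClosed_closure.isOpen_compl
    · intro f
      by_cases hf : f ∈ closure (PU U)
      · rw [mem_closure_iff_nhds]
        intro 𝒰 h𝒰
        obtain ⟨𝒰', h𝒰', h𝒰o, hf𝒰⟩ := mem_nhds_iff.mp h𝒰
        obtain ⟨f', hf'1, p, hpU, hp⟩ := mem_closure_iff.mp hf 𝒰' h𝒰o hf𝒰
        obtain ⟨g, hg, 𝒱, h𝒱, hall⟩ := exists_robust_near f' U hUo p hpU hp 𝒰'
          (h𝒰o.mem_nhds hf'1)
        refine ⟨g, h𝒰' hg, Or.inl ?_⟩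
        rw [mem_interior_iff_mem_nhds]
        exact Filter.mem_of_superset h𝒱 hall
      · exact subset_closure (Or.inr hf)
  have key2 : ∀ᶠ f : Dif n M in residual (Dif n M), ∀ U (_ : U ∈ TopologicalSpace.countableBasis M),
      f ∈ interior (PU U) ∪ (closure (PU U))ᶜ :=
    (eventually_countable_ball (TopologicalSpace.countable_countableBasis M)).mpr key
  filter_upwards [key2] with f hf x hx hclos
  obtain ⟨U, hUb, hxU, hUsub⟩ :=
    (TopologicalSpace.isBasis_countableBasis M).mem_nhds_iff.mp (isClosed_closure.isOpen_compl.mem_nhds hx)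
  have hnot : f ∉ PU U := by
    rintro ⟨q, hqU, hq⟩
    exact hUsub hqU (subset_closure hq)
  have h1 : f ∈ (closure (PU U))ᶜ := by
    rcases hf U hUb with h | h
    · exact absurd (interior_subset h) hnot
    · exact h
  have hUo : IsOpen U := TopologicalSpace.isOpen_of_mem_countableBasis hUb
  obtain ⟨g, hg, -, q, hqU, hq⟩ := hclos U (hUo.mem_nhds hxU) (closure (PU U))ᶜ
    (isClosed_closure.isOpen_compl.mem_nhds h1)
  exact hg (subset_closure ⟨q, hqU, hq⟩)

end Pool.Agent.CL
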