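import Pool.Agent.Lib_MP_b9d69a.ER0
import Pool.Agent.Lib_MP_b9d69a.G

/-!
# Exponential returns make all invariant measures log-Hölder

If `f^[k] z` is never closer than `exp (-C k)` to `z`, the preimages `f^{-i} B`, `i < N`, of a ball
`B` of radius `ρ` are pairwise disjoint for `N ≈ log (1 / ρ) / C`, so `μ B ≤ C / log (1 / ρ)` for
every invariant probability measure `μ`.
-/

set_option autoImplicit false
open scoped Manifold ContDiff Topology
open Set Filter MeasureTheory

namespace Pool.Agent.CL

/-- All invariant probability measures are log-Hölder near `x`, uniformly: there are a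
neighbourhood `W` of `x` in the domain of the chart at `x` and `C > 0` such that
`μ {z | |z - y| < ρ} ≤ C / log (1 / ρ)` for every invariant probability measure `μ`, `y ∈ W` and
`0 < ρ < 1 / 2`. -/
def LogHolderAt {n : ℕ} {M : Type} [TopologicalSpace M] [ChartedSpace (Eu n) M]
    [MeasurableSpace M] (f : M → M) (x : M) : Prop :=
  ∃ W ∈ nhds x, W ⊆ (chartAt (Eu n) x).source ∧ ∃ C : ℝ, 0 < C ∧
    ∀ μ : Measure M, IsProbabilityMeasure μ → MeasurePreserving f μ μ →
      ∀ y ∈ W, ∀ ρ : ℝ, 0 < ρ → ρ < 1 / 2 →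
        μ.real (cball (n := n) x y ρ) ≤ C / Real.log (1 / ρ)

private theorem disjoint_count {M : Type} [MeasurableSpace M] (f : M → M) (μ : Measure M)
    [IsProbabilityMeasure μ] (hf : MeasurePreserving f μ μ) (B : Set M) (hB : MeasurableSet B)
    (N : ℕ) (hdis : ∀ z ∈ B, ∀ i, 0 < i → i < N → f^[i] z ∉ B) : (N : ℝ) * μ.real B ≤ 1 := by
  have h1 : Set.PairwiseDisjoint (↑(Finset.range N)) (fun i => f^[i] ⁻¹' B) := by
    have key : ∀ i j : ℕ, i < j → j < N → Disjoint (f^[i] ⁻¹' B) (f^[j] ⁻¹' B) := by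
      intro i j hij hj
      rw [Set.disjoint_left]
      intro z hzi hzj
      refine hdis (f^[i] z) hzi (j - i) (by omega) (by omega) ?_
      rw [← Function.iterate_add_apply]
      have : j - i + i = j := by omega
      rw [this]
      exact hzj
    intro i hi j hj hij
    rw [Finset.coe_range, Set.mem_Iio] at hi hj
    rcases lt_or_gt_of_ne hij with h | h
    · exact key i j h hj
    · exact (key j i h hi).symm
  have h2 : ∀ i ∈ Finset.range N, MeasurableSet (f^[i] ⁻¹' B) :=
    fun i _ => (hf.iterate i).measurable hB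
  have h3 : μ (⋃ i ∈ Finset.range N, f^[i] ⁻¹' B) = ∑ i ∈ Finset.range N, μ (f^[i] ⁻¹' B) :=
    measure_biUnion_finset h1 h2
  have h4 : ∀ i ∈ Finset.range N, μ (f^[i] ⁻¹' B) = μ B :=
    fun i _ => (hf.iterate i).measure_preimage hB.nullMeasurableSet
  rw [Finset.sum_congr rfl h4, Finset.sum_const, Finset.card_range, nsmul_eq_mul] at h3
  have h5 : (N : ENNReal) * μ B ≤ 1 := by
    rw [← h3]
    exact prob_le_one
  have h6 := ENNReal.toReal_mono ENNReal.one_ne_top h5
  rw [ENNReal.toReal_mul, ENNReal.toReal_natCast, ENNReal.toReal_one] at h6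
  exact h6

theorem logHolder_of_expReturns {n : ℕ} {M : Type} [TopologicalSpace M] [ChartedSpace (Eu n) M]
    [MeasurableSpace M] [BorelSpace M] (f : M → M) (x : M) (h : ExpReturnsAt (n := n) f x) :
    LogHolderAt (n := n) f x := by
  obtain ⟨W, hW, hWs, C, hC, hret⟩ := h
  set φ := chartAt (Eu n) x with hφ
  have hxs : x ∈ φ.source := mem_chart_source (Eu n) x
  -- a ball
  obtain ⟨ε, hε, hεW⟩ := exists_cball_subset (n := n) x x hxs W hW
  obtain ⟨η, hη⟩ : ∃ η, η = min (ε / 2) (1 / 4) := ⟨_, rfl⟩
  have hη0 : 0 < η := by rw [hη]; positivity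
  have hη4 : η ≤ 1 / 4 := by rw [hη]; exact min_le_right _ _
  have hηε : η ≤ ε / 2 := by rw [hη]; exact min_le_left _ _
  refine ⟨cball (n := n) x x η, cball_mem_nhds x x hxs η hη0, fun z hz => hz.1,
    2 * C + |Real.log (1 / η)|, by positivity, ?_⟩
  intro μ hμ hf y hy ρ hρ hρ2
  have hlog : 0 < Real.log (1 / ρ) := by
    apply Real.log_pos
    rw [lt_div_iff₀ hρ]
    linarith
  rw [le_div_iff₀ hlog]
  have hμ1 : μ.real (cball (n := n) x y ρ) ≤ 1 := by
    have := prob_le_one (μ := μ) (s := cball (n := n) x y ρ)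
    exact measureReal_le_one
  have hμ0 : 0 ≤ μ.real (cball (n := n) x y ρ) := measureReal_nonneg
  by_cases hρη : η ≤ ρ
  · have h1 : Real.log (1 / ρ) ≤ Real.log (1 / η) := by
      apply Real.log_le_log (by positivity)
      exact one_div_le_one_div_of_le hη0 hρη
    have h2 := le_abs_self (Real.log (1 / η))
    nlinarith
  · rw [not_le] at hρη
    -- the ball is contained in `W`
    have hsub : cball (n := n) x y ρ ⊆ W := by
      intro z hz
      apply hεW
      refine ⟨hz.1, ?_⟩
      have h1 : chartAt (Eu n) x z - chartAt (Eu n) x x =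
        (chartAt (Eu n) x z - chartAt (Eu n) x y) + (chartAt (Eu n) x y - chartAt (Eu n) x x) := by
        abel
      rw [h1]
      have h2 := norm_add_le (chartAt (Eu n) x z - chartAt (Eu n) x y)
        (chartAt (Eu n) x y - chartAt (Eu n) x x)
      have h3 : ‖chartAt (Eu n) x z - chartAt (Eu n) x y‖ < ρ := hz.2
      have h4 : ‖chartAt (Eu n) x y - chartAt (Eu n) x x‖ < η := hy.2
      linarith
    obtain ⟨N, hN⟩ : ∃ N : ℕ, N = ⌊Real.log (1 / (2 * ρ)) / C⌋₊ + 1 := ⟨_, rfl⟩
    have hlog2 : 0 < Real.log (1 / (2 * ρ)) := by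
      apply Real.log_pos
      rw [lt_div_iff₀ (by positivity)]
      linarith
    have hN1 : Real.log (1 / (2 * ρ)) / C < N := by
      rw [hN]
      push_cast
      exact Nat.lt_floor_add_one _
    have hmeas : MeasurableSet (cball (n := n) x y ρ) := by
      have h1 : cball (n := n) x y ρ = φ.source ∩ φ ⁻¹' Metric.ball (φ y) ρ := by
        ext z
        simp only [cball, Set.mem_setOf_eq, Set.mem_inter_iff, Set.mem_preimage, Metric.mem_ball,
          dist_eq_norm]
        rfl
      rw [h1]
      exact (φ.isOpen_inter_preimage Metric.isOpen_ball).measurableSet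
    have hcount := disjoint_count f μ hf (cball (n := n) x y ρ) hmeas N (by
      intro z hz i hi0 hiN hzi
      have h1 := hret z (hsub hz) i hi0 hzi.1
      have h2 : ‖φ (f^[i] z) - φ z‖ < 2 * ρ := by
        have h3 : φ (f^[i] z) - φ z = (φ (f^[i] z) - φ y) - (φ z - φ y) := by abel
        rw [h3]
        have h4 := norm_sub_le (φ (f^[i] z) - φ y) (φ z - φ y)
        have h5 : ‖φ z - φ y‖ < ρ := hz.2
        have h6 : ‖φ (f^[i] z) - φ y‖ < ρ := hzi.2
        linarith
      have h3 : Real.exp (-(C * i)) < 2 * ρ := lt_of_le_of_lt h1 h2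
      have h4 : -(C * i) < Real.log (2 * ρ) := by
        rw [Real.lt_log_iff_exp_lt (by positivity)]
        exact h3
      have h5 : Real.log (1 / (2 * ρ)) = -Real.log (2 * ρ) := by
        rw [one_div, Real.log_inv]
      have h6 : (i : ℝ) ≤ Real.log (1 / (2 * ρ)) / C := by
        have h7 : i ≤ ⌊Real.log (1 / (2 * ρ)) / C⌋₊ := by omega
        exact (Nat.cast_le.2 h7).trans (Nat.floor_le (by positivity))
      rw [le_div_iff₀ hC] at h6
      rw [h5] at h6
      linarith)
    have h1 : Real.log (1 / (2 * ρ)) < C * N := by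
      rw [div_lt_iff₀ hC] at hN1
      linarith
    have h2 : Real.log (1 / ρ) ≤ 2 * Real.log (1 / (2 * ρ)) := by
      have h3 : Real.log (1 / ρ) ≤ Real.log ((1 / (2 * ρ)) ^ 2) := by
        apply Real.log_le_log (by positivity)
        rw [div_pow, one_pow]
        apply one_div_le_one_div_of_le (by positivity)
        nlinarith
      rw [Real.log_pow] at h3
      push_cast at h3
      exact h3
    have h3 : Real.log (1 / ρ) ≤ 2 * (C * N) := by linarith
    calc μ.real (cball (n := n) x y ρ) * Real.log (1 / ρ)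
        ≤ μ.real (cball (n := n) x y ρ) * (2 * (C * N)) :=
          mul_le_mul_of_nonneg_left h3 hμ0
      _ = 2 * C * (N * μ.real (cball (n := n) x y ρ)) := by ring
      _ ≤ 2 * C * 1 := mul_le_mul_of_nonneg_left hcount (by positivity)
      _ ≤ 2 * C + |Real.log (1 / η)| := by
          have := abs_nonneg (Real.log (1 / η))
          linarith

end Pool.Agent.CL
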