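import Pool.Agent.Lib_MP_b9d69a.ER0

/-!
# Piece ER-Q0: uniform control of a local diffeomorphism near a compact set

`F` is smooth on the open set `U`, `G` is smooth on the open set `V`, `F` maps `U` into `V` and
`G ∘ F = id` on `U`.  For `Q ⊆ U` compact there are `σ > 0` and `κ ≥ 1` such that `F` is controlled
on the balls of radius `σ` about the points of `Q`.

Proof.  `Q` has a compact thickening `T = Metric.cthickening σ Q ⊆ U`
(`IsCompact.exists_cthickening_subset_open`, `IsCompact.cthickening`).  On `T` the continuous functions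
`fderiv ℝ F`, `fderiv ℝ G ∘ F` and `fderiv ℝ (fderiv ℝ F)` are bounded
(`IsCompact.exists_bound_of_continuousOn`); `fderiv ℝ G (F u) ∘ fderiv ℝ F u = id` (chain rule, `G ∘ F`
is eventually `id` near `u`) gives `‖v‖ ≤ κ ‖fderiv ℝ F u v‖`; the mean value inequality on the convex
set `closedBall q σ` (`Convex.norm_image_sub_le_of_norm_fderiv_le`) gives the last bound.
-/

set_option autoImplicit false
open scoped Topology ContDiff
open Set Filter

namespace Pool.Agent.CL

theorem ctl_compact {n : ℕ} (F G : Eu n → Eu n) (U V Q : Set (Eu n)) (hU : IsOpen U)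
    (hV : IsOpen V) (hF : ∀ u ∈ U, ContDiffAt ℝ ∞ F u) (hG : ∀ u ∈ V, ContDiffAt ℝ ∞ G u)
    (hFU : ∀ u ∈ U, F u ∈ V) (hGF : ∀ u ∈ U, G (F u) = u) (hQ : IsCompact Q) (hQU : Q ⊆ U) :
    ∃ σ κ : ℝ, 0 < σ ∧ 1 ≤ κ ∧ ∀ q ∈ Q, Metric.closedBall q σ ⊆ U ∧ Ctl F q σ κ κ := by
  obtain ⟨σ, hσ, hσU⟩ := hQ.exists_cthickening_subset_open hU hQU
  have hT : IsCompact (Metric.cthickening σ Q) := hQ.cthickening
  have h2 : ((1 : WithTop ℕ∞) + 1) ≤ ∞ :=
    WithTop.coe_le_coe.2 (le_top : ((1 : ℕ∞) + 1) ≤ ⊤)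
  have h1 : ∀ u ∈ U, ContDiffAt ℝ 1 (fderiv ℝ F) u := fun u hu => (hF u hu).fderiv_right h2
  have h1G : ∀ u ∈ V, ContDiffAt ℝ 1 (fderiv ℝ G) u := fun u hu => (hG u hu).fderiv_right h2
  have h3 : ∀ u ∈ U, ContinuousAt (fderiv ℝ (fderiv ℝ F)) u := fun u hu =>
    ((h1 u hu).fderiv_right (m := 0) (by norm_num)).continuousAt
  obtain ⟨C1, hC1⟩ := hT.exists_bound_of_continuousOn (f := fderiv ℝ F) fun u hu =>
    (h1 u (hσU hu)).continuousAt.continuousWithinAt
  obtain ⟨C2, hC2⟩ := hT.exists_bound_of_continuousOn (f := fun u => fderiv ℝ G (F u)) fun u hu => by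
    have h4 : ContinuousAt (fderiv ℝ G) (F u) := (h1G _ (hFU u (hσU hu))).continuousAt
    exact (ContinuousAt.comp h4 (hF u (hσU hu)).continuousAt).continuousWithinAt
  obtain ⟨C3, hC3⟩ := hT.exists_bound_of_continuousOn (f := fderiv ℝ (fderiv ℝ F)) fun u hu =>
    (h3 u (hσU hu)).continuousWithinAt
  have hdF : ∀ u ∈ U, DifferentiableAt ℝ F u := fun u hu =>
    (hF u hu).differentiableAt (by simp)
  have hdG : ∀ u ∈ V, DifferentiableAt ℝ G u := fun u hu =>
    (hG u hu).differentiableAt (by simp)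
  have hchain : ∀ u ∈ U, ∀ v, fderiv ℝ G (F u) (fderiv ℝ F u v) = v := by
    intro u hu v
    have h4 : (G ∘ F) =ᶠ[𝓝 u] id := by
      filter_upwards [hU.mem_nhds hu] with w hw
      exact hGF w hw
    have h5 : fderiv ℝ (G ∘ F) u = fderiv ℝ id u := h4.fderiv_eq
    rw [fderiv_comp u (hdG _ (hFU u hu)) (hdF u hu), fderiv_id] at h5
    exact congrArg (fun L : Eu n →L[ℝ] Eu n => L v) h5
  refine ⟨σ, 1 + |C1| + |C2| + |C3|, hσ, ?_, fun q hq => ?_⟩
  · have := abs_nonneg C1
    have := abs_nonneg C2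
    have := abs_nonneg C3
    linarith
  · have hball : Metric.closedBall q σ ⊆ Metric.cthickening σ Q :=
      Metric.closedBall_subset_cthickening hq σ
    have hk1 : C1 ≤ 1 + |C1| + |C2| + |C3| := by
      have := le_abs_self C1
      have := abs_nonneg C2
      have := abs_nonneg C3
      linarith
    have hk2 : C2 ≤ 1 + |C1| + |C2| + |C3| := by
      have := le_abs_self C2
      have := abs_nonneg C1
      have := abs_nonneg C3
      linarith
    have hk3 : C3 ≤ 1 + |C1| + |C2| + |C3| := by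
      have := le_abs_self C3
      have := abs_nonneg C2
      have := abs_nonneg C1
      linarith
    refine ⟨hball.trans hσU, fderiv ℝ F, fun u hu => ?_⟩
    have huT := hball hu
    have huU := hσU huT
    refine ⟨(hdF u huU).hasFDerivAt, (hC1 u huT).trans hk1, fun v => ?_, ?_⟩
    · calc ‖v‖ = ‖fderiv ℝ G (F u) (fderiv ℝ F u v)‖ := by rw [hchain u huU]
        _ ≤ ‖fderiv ℝ G (F u)‖ * ‖fderiv ℝ F u v‖ := ContinuousLinearMap.le_opNorm _ _
        _ ≤ _ := mul_le_mul_of_nonneg_right ((hC2 u huT).trans hk2) (norm_nonneg _)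
    · have hqb : q ∈ Metric.closedBall q σ := Metric.mem_closedBall_self hσ.le
      refine Convex.norm_image_sub_le_of_norm_fderiv_le (𝕜 := ℝ) (s := Metric.closedBall q σ)
        (fun w hw => ?_) (fun w hw => ?_) (convex_closedBall q σ) hqb hu
      · exact (h1 w (hσU (hball hw))).differentiableAt (by simp)
      · exact (hC3 w (hball hw)).trans hk3

end Pool.Agent.CL
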