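import Pool.Agent.Lib_MP_b9d69a.E

/-!
# Piece CL-P1: subbasic sets are stable under small perturbations

`subb_pert`: `f.trans h = h ∘ f`.  Let `Z = e.symm '' closedBall c R` (compact, closed).
On `K ∩ f⁻¹ Z` (compact) `e₂ ∘ h ∘ f ∘ e₁.symm = (e₂ ∘ e.symm) ∘ (id + b) ∘ (e ∘ f ∘ e₁.symm)`
near `e₁ x`, use `euclid_comp_close` with the compact set `e₁ '' (K ∩ f⁻¹ Z)`,
`O = e.target ∩ e.symm ⁻¹' e₂.source`, and with `ε' = ` minimum over the compact set of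
`ε - ‖ D^j (e₂ f e₁⁻¹) - D^j (e₂ f₀ e₁⁻¹) ‖ > 0` (continuity of the iterated derivatives along
`e₁ '' K`, all `j ≤ k`).  Off `f⁻¹ Z` the maps `h ∘ f` and `f` agree near `x`.  The first clause
(`h (f x) ∈ e₂.source`): `e '' (f '' K ∩ Z)` is a compact subset of the open set `O`, so a small
`b` (case `j = 0`, `‖b u‖ = ‖iteratedFDeriv ℝ 0 b u‖`) does not leave `O`.
-/

set_option autoImplicit false
open scoped Manifold ContDiff Topology
open Set Filter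

namespace Pool.Agent.CL

variable {n : ℕ} {M : Type} [TopologicalSpace M] [ChartedSpace (Eu n) M]
    [IsManifold 𝓘(ℝ, Eu n) ((⊤ : ℕ∞) : WithTop ℕ∞) M]

theorem chartRep_contDiffAt (f : Dif n M) (e e' : OpenPartialHomeomorph M (Eu n))
    (he : e ∈ atlas (Eu n) M) (he' : e' ∈ atlas (Eu n) M) (x : M) (hx : x ∈ e.source)
    (hfx : f x ∈ e'.source) : ContDiffAt ℝ ∞ (e' ∘ f ∘ e.symm) (e x) := by
  have h1 : e ∈ IsManifold.maximalAtlas 𝓘(ℝ, Eu n) ((⊤ : ℕ∞) : WithTop ℕ∞) M :=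
    IsManifold.subset_maximalAtlas he
  have h2 : e' ∈ IsManifold.maximalAtlas 𝓘(ℝ, Eu n) ((⊤ : ℕ∞) : WithTop ℕ∞) M :=
    IsManifold.subset_maximalAtlas he'
  rw [← contMDiffAt_iff_contDiffAt]
  have h3 : ContMDiffAt 𝓘(ℝ, Eu n) 𝓘(ℝ, Eu n) ((⊤ : ℕ∞) : WithTop ℕ∞) e.symm (e x) :=
    contMDiffAt_symm_of_mem_maximalAtlas h1 (e.map_source hx)
  have h4 : ContMDiffAt 𝓘(ℝ, Eu n) 𝓘(ℝ, Eu n) ((⊤ : ℕ∞) : WithTop ℕ∞) f (e.symm (e x)) :=
    f.contMDiff.contMDiffAt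
  have h5 : ContMDiffAt 𝓘(ℝ, Eu n) 𝓘(ℝ, Eu n) ((⊤ : ℕ∞) : WithTop ℕ∞) e'
      ((f ∘ e.symm) (e x)) := by
    apply contMDiffAt_of_mem_maximalAtlas h2
    simpa [e.left_inv hx] using hfx
  exact h5.comp (e x) (h4.comp (e x) h3)

theorem chartChange_contDiffOn (e e' : OpenPartialHomeomorph M (Eu n))
    (he : e ∈ atlas (Eu n) M) (he' : e' ∈ atlas (Eu n) M) :
    ContDiffOn ℝ ∞ (e' ∘ e.symm) (e.target ∩ e.symm ⁻¹' e'.source) := by
  have h1 : e ∈ IsManifold.maximalAtlas 𝓘(ℝ, Eu n) ((⊤ : ℕ∞) : WithTop ℕ∞) M :=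
    IsManifold.subset_maximalAtlas he
  have h2 : e' ∈ IsManifold.maximalAtlas 𝓘(ℝ, Eu n) ((⊤ : ℕ∞) : WithTop ℕ∞) M :=
    IsManifold.subset_maximalAtlas he'
  rw [← contMDiffOn_iff_contDiffOn]
  exact (contMDiffOn_of_mem_maximalAtlas h2).comp
    ((contMDiffOn_symm_of_mem_maximalAtlas h1).mono inter_subset_left) (fun u hu => hu.2)

/-- uniform slack on a compact set -/
theorem exists_slack {X : Type*} [TopologicalSpace X] (K : Set X) (hK : IsCompact K) (G : X → ℝ)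
    (hG : ContinuousOn G K) (ε : ℝ) (hlt : ∀ x ∈ K, G x < ε) :
    ∃ η : ℝ, 0 < η ∧ ∀ x ∈ K, G x ≤ ε - η := by
  rcases K.eq_empty_or_nonempty with h | h
  · exact ⟨1, one_pos, by simp [h]⟩
  · obtain ⟨x₀, hx₀, hmax⟩ := hK.exists_isMaxOn h hG
    refine ⟨ε - G x₀, sub_pos.mpr (hlt x₀ hx₀), fun x hx => ?_⟩
    have := hmax hx
    have h2 : G x ≤ G x₀ := this
    linarith

variable [T2Space M]

theorem subb_pert (f f₀ : Dif n M) (e e₁ e₂ : OpenPartialHomeomorph M (Eu n))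
    (he : e ∈ atlas (Eu n) M) (he₁ : e₁ ∈ atlas (Eu n) M) (he₂ : e₂ ∈ atlas (Eu n) M)
    (c : Eu n) (R : ℝ) (hB : Metric.closedBall c R ⊆ e.target)
    (K : Set M) (hK : IsCompact K) (hKe : K ⊆ e₁.source) (hKf₀ : f₀.toFun '' K ⊆ e₂.source)
    (k : ℕ) (ε : ℝ) (hf : f ∈ subb f₀ e₁ e₂ K k ε) :
    ∃ δ : ℝ, 0 < δ ∧ ∀ b : Eu n → Eu n, ContDiff ℝ ∞ b →
      (∀ u, u ∉ Metric.closedBall c R → b u = 0) →
      (∀ j ≤ k, ∀ u, ‖iteratedFDeriv ℝ j b u‖ ≤ δ) →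
      ∀ h : Dif n M, Realises e b h → f.trans h ∈ subb f₀ e₁ e₂ K k ε := by
  obtain ⟨hf1, hf2⟩ := hf
  have hfe₂ : ∀ x ∈ K, f x ∈ e₂.source := fun x hx => hf1 ⟨x, hx, rfl⟩
  have hf₀e₂ : ∀ x ∈ K, f₀ x ∈ e₂.source := fun x hx => hKf₀ ⟨x, hx, rfl⟩
  set Z : Set M := e.symm '' Metric.closedBall c R with hZdef
  have hZc : IsCompact Z := (isCompact_closedBall c R).image_of_continuousOn
    (e.continuousOn_symm.mono hB)
  have hZcl : IsClosed Z := hZc.isClosed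
  have hZs : Z ⊆ e.source := by
    rintro _ ⟨u, hu, rfl⟩
    exact e.map_target (hB hu)
  have hZb : ∀ z ∈ Z, e z ∈ Metric.closedBall c R := by
    rintro _ ⟨u, hu, rfl⟩
    rw [e.right_inv (hB hu)]; exact hu
  have hZmem : ∀ z ∈ e.source, e z ∈ Metric.closedBall c R → z ∈ Z := fun z hz hz2 =>
    ⟨e z, hz2, e.left_inv hz⟩
  set K' : Set M := K ∩ f ⁻¹' Z with hK'def
  have hK'c : IsCompact K' := hK.inter_right (hZcl.preimage f.continuous)
  set L : Set (Eu n) := e₁ '' K' with hLdef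
  have hLc : IsCompact L := hK'c.image_of_continuousOn
    (e₁.continuousOn.mono (inter_subset_left.trans hKe))
  set Ψ : Eu n → Eu n := e ∘ f ∘ e₁.symm with hΨdef
  set Φ : Eu n → Eu n := e₂ ∘ e.symm with hΦdef
  set O : Set (Eu n) := e.target ∩ e.symm ⁻¹' e₂.source with hOdef
  have hOo : IsOpen O := e.symm.isOpen_inter_preimage e₂.open_source
  have hΨval : ∀ x ∈ K, Ψ (e₁ x) = e (f x) := fun x hx => by
    simp [hΨdef, e₁.left_inv (hKe hx)]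
  have hΨ : ∀ u ∈ L, ContDiffAt ℝ ∞ Ψ u := by
    rintro _ ⟨x, hx, rfl⟩
    exact chartRep_contDiffAt f e₁ e he₁ he x (hKe hx.1) (hZs hx.2)
  have hΨO : ∀ u ∈ L, Ψ u ∈ O := by
    rintro _ ⟨x, hx, rfl⟩
    rw [hΨval x hx.1]
    refine ⟨e.map_source (hZs hx.2), ?_⟩
    rw [mem_preimage, e.left_inv (hZs hx.2)]
    exact hfe₂ x hx.1
  have hΦ : ContDiffOn ℝ ∞ Φ O := chartChange_contDiffOn e e₂ he he₂
  -- slack
  have hG : ∀ j : ℕ, ∃ η : ℝ, 0 < η ∧ (j ≤ k → ∀ x ∈ K,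
      ‖iteratedFDeriv ℝ j (e₂ ∘ f ∘ e₁.symm) (e₁ x)
        - iteratedFDeriv ℝ j (e₂ ∘ f₀ ∘ e₁.symm) (e₁ x)‖ ≤ ε - η) := by
    intro j
    by_cases hj : j ≤ k
    · obtain ⟨η, hη, hηK⟩ := exists_slack K hK (fun x =>
        ‖iteratedFDeriv ℝ j (e₂ ∘ f ∘ e₁.symm) (e₁ x)
        - iteratedFDeriv ℝ j (e₂ ∘ f₀ ∘ e₁.symm) (e₁ x)‖) (by
          intro x hx
          apply ContinuousAt.continuousWithinAt
          apply ContinuousAt.norm
          apply ContinuousAt.sub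
          · exact ContinuousAt.comp (f := e₁) (g := iteratedFDeriv ℝ j (e₂ ∘ f ∘ e₁.symm))
              (continuousAt_iter _ _
                (chartRep_contDiffAt f e₁ e₂ he₁ he₂ x (hKe hx) (hfe₂ x hx)) j)
              (e₁.continuousAt (hKe hx))
          · exact ContinuousAt.comp (f := e₁) (g := iteratedFDeriv ℝ j (e₂ ∘ f₀ ∘ e₁.symm))
              (continuousAt_iter _ _
                (chartRep_contDiffAt f₀ e₁ e₂ he₁ he₂ x (hKe hx) (hf₀e₂ x hx)) j)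
              (e₁.continuousAt (hKe hx))) ε (fun x hx => hf2 x hx j hj)
      exact ⟨η, hη, fun _ => hηK⟩
    · exact ⟨1, one_pos, fun h => absurd h hj⟩
  choose η' hη'pos hη' using hG
  set η : ℝ := (Finset.range (k + 1)).inf' ⟨0, by simp⟩ η' with hηdef
  have hηpos : 0 < η := by
    rw [hηdef, Finset.lt_inf'_iff]
    exact fun i _ => hη'pos i
  have hηle : ∀ j ≤ k, η ≤ η' j := fun j hj => Finset.inf'_le _ (by simp; omega)
  obtain ⟨δ₁, hδ₁, hclose⟩ := euclid_comp_close L O hLc hOo Φ Ψ hΨ hΨO hΦ k η hηpos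
  -- staying inside O
  have hΨL : IsCompact (Ψ '' L) := hLc.image_of_continuousOn
    (fun u hu => (hΨ u hu).continuousAt.continuousWithinAt)
  have hΨLO : Ψ '' L ⊆ O := by
    rintro _ ⟨u, hu, rfl⟩; exact hΨO u hu
  obtain ⟨δ₂, hδ₂, hthick⟩ := hΨL.exists_cthickening_subset_open hOo hΨLO
  refine ⟨min δ₁ δ₂, lt_min hδ₁ hδ₂, fun b hb hbs hbd h hh => ?_⟩
  obtain ⟨hh1, hh2⟩ := hh
  have hfix : ∀ z, z ∉ Z → h z = z := by
    intro z hz
    by_cases hzs : z ∈ e.source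
    · have h3 := hh1 z hzs
      have h4 : b (e z) = 0 := hbs _ (fun hcb => hz (hZmem z hzs hcb))
      rw [h4, add_zero] at h3
      exact e.injOn h3.1 hzs h3.2
    · exact hh2 z hzs
  have hbnorm : ∀ u, ‖b u‖ ≤ δ₂ := fun u => by
    have := hbd 0 (Nat.zero_le _) u
    rw [norm_iteratedFDeriv_zero] at this
    exact this.trans (min_le_right _ _)
  have hin : ∀ x ∈ K', e (f x) + b (e (f x)) ∈ O := by
    intro x hx
    apply hthick
    have hmem : e (f x) ∈ Ψ '' L := ⟨e₁ x, ⟨x, hx, rfl⟩, hΨval x hx.1⟩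
    apply Metric.mem_cthickening_of_dist_le _ (e (f x)) _ _ hmem
    rw [dist_eq_norm, add_sub_cancel_left]
    exact hbnorm _
  refine ⟨?_, ?_⟩
  · rintro _ ⟨x, hx, rfl⟩
    change h (f x) ∈ e₂.source
    by_cases hfx : f x ∈ Z
    · have h3 := hh1 (f x) (hZs hfx)
      have h4 := hin x ⟨hx, hfx⟩
      rw [← h3.2] at h4
      have h5 := h4.2
      rw [mem_preimage, e.left_inv h3.1] at h5
      exact h5
    · rw [hfix _ hfx]
      exact hfe₂ x hx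
  · intro x hx j hj
    change ‖iteratedFDeriv ℝ j (e₂ ∘ (h ∘ f) ∘ e₁.symm) (e₁ x)
        - iteratedFDeriv ℝ j (e₂ ∘ f₀ ∘ e₁.symm) (e₁ x)‖ < ε
    have hcont : ContinuousAt (f ∘ e₁.symm) (e₁ x) :=
      f.continuous.continuousAt.comp (e₁.continuousAt_symm (e₁.map_source (hKe hx)))
    have hval : (f ∘ e₁.symm) (e₁ x) = f x := by simp [e₁.left_inv (hKe hx)]
    by_cases hfx : f x ∈ Z
    · have hnear : ∀ᶠ u in 𝓝 (e₁ x), f (e₁.symm u) ∈ e.source := by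
        apply hcont
        rw [hval]
        exact e.open_source.mem_nhds (hZs hfx)
      have E1 : (e₂ ∘ (h ∘ f) ∘ e₁.symm) =ᶠ[𝓝 (e₁ x)] (Φ ∘ (fun v => v + b v) ∘ Ψ) := by
        filter_upwards [hnear] with u hu
        have h3 := hh1 (f (e₁.symm u)) hu
        simp only [Function.comp_apply, hΦdef, hΨdef]
        rw [← h3.2, e.left_inv h3.1]
      have E2 : (e₂ ∘ f ∘ e₁.symm) =ᶠ[𝓝 (e₁ x)] (Φ ∘ Ψ) := by
        filter_upwards [hnear] with u hu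
        simp only [Function.comp_apply, hΦdef, hΨdef]
        rw [e.left_inv hu]
      have h6 : ‖iteratedFDeriv ℝ j (Φ ∘ (fun v => v + b v) ∘ Ψ) (e₁ x)
          - iteratedFDeriv ℝ j (Φ ∘ Ψ) (e₁ x)‖ < η :=
        hclose b hb (fun i hi u => (hbd i hi u).trans (min_le_left _ _)) (e₁ x)
          ⟨x, ⟨hx, hfx⟩, rfl⟩ j hj
      have h7 := hη' j hj x hx
      have h8 := hηle j hj
      rw [(E1.iteratedFDeriv ℝ j).eq_of_nhds]
      rw [(E2.iteratedFDeriv ℝ j).eq_of_nhds] at h7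
      calc _ = ‖(iteratedFDeriv ℝ j (Φ ∘ (fun v => v + b v) ∘ Ψ) (e₁ x)
              - iteratedFDeriv ℝ j (Φ ∘ Ψ) (e₁ x)) + (iteratedFDeriv ℝ j (Φ ∘ Ψ) (e₁ x)
              - iteratedFDeriv ℝ j (e₂ ∘ f₀ ∘ e₁.symm) (e₁ x))‖ := by
            rw [sub_add_sub_cancel]
        _ ≤ _ := norm_add_le _ _
        _ < η + (ε - η' j) := by linarith
        _ ≤ ε := by linarith
    · have E1 : (e₂ ∘ (h ∘ f) ∘ e₁.symm) =ᶠ[𝓝 (e₁ x)] (e₂ ∘ f ∘ e₁.symm) := by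
        have hnear : ∀ᶠ u in 𝓝 (e₁ x), f (e₁.symm u) ∈ Zᶜ := by
          apply hcont
          rw [hval]
          exact hZcl.isOpen_compl.mem_nhds hfx
        filter_upwards [hnear] with u hu
        simp only [Function.comp_apply]
        rw [hfix _ hu]
      rw [(E1.iteratedFDeriv ℝ j).eq_of_nhds]
      exact hf2 x hx j hj

end Pool.Agent.CL
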