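import Pool.Agent.Lib_MP_b9d69a.ERQ0
import Pool.Agent.Lib_MP_b9d69a.P1

/-!
# Piece ER-Q1: one step in two charts

For charts `e, e'` and compact sets `Z ⊆ e.source`, `Z' ⊆ e'.source`: uniform control of
`e' ∘ f ∘ e.symm` at the points `e z` with `z ∈ Z`, `f z ∈ Z'`.

Proof.  Apply `ctl_compact` with `Q = e '' (Z ∩ f ⁻¹' Z')`,
`U = {u ∈ e.target | f (e.symm u) ∈ e'.source}`, `V = {w ∈ e'.target | f.symm (e'.symm w) ∈ e.source}`,
`F = e' ∘ f ∘ e.symm`, `G = e ∘ f.symm ∘ e'.symm`; smoothness: `chartRep_contDiffAt` (file P1) for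
`f` and `f.symm`.
-/

set_option autoImplicit false
open scoped Manifold Topology ContDiff
open Set Filter

namespace Pool.Agent.CL

variable {n : ℕ} {M : Type} [TopologicalSpace M] [ChartedSpace (Eu n) M]
    [IsManifold 𝓘(ℝ, Eu n) ((⊤ : ℕ∞) : WithTop ℕ∞) M] [T2Space M]

theorem ctl_pair (f : Dif n M) (e e' : OpenPartialHomeomorph M (Eu n))
    (he : e ∈ atlas (Eu n) M) (he' : e' ∈ atlas (Eu n) M) (Z Z' : Set M) (hZ : IsCompact Z)
    (hZ' : IsCompact Z') (hZe : Z ⊆ e.source) (hZe' : Z' ⊆ e'.source) :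
    ∃ σ κ : ℝ, 0 < σ ∧ 1 ≤ κ ∧ ∀ z ∈ Z, f z ∈ Z' →
      (∀ u ∈ Metric.closedBall (e z) σ, u ∈ e.target ∧ f (e.symm u) ∈ e'.source) ∧
      Ctl (fun u => e' (f (e.symm u))) (e z) σ κ κ := by
  have hC : IsCompact (Z ∩ f ⁻¹' Z') := hZ.inter_right (hZ'.isClosed.preimage f.continuous)
  have hQ : IsCompact (e '' (Z ∩ f ⁻¹' Z')) :=
    hC.image_of_continuousOn (e.continuousOn.mono (inter_subset_left.trans hZe))
  have hU : IsOpen (e.target ∩ e.symm ⁻¹' (f ⁻¹' e'.source)) :=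
    e.symm.isOpen_inter_preimage (e'.open_source.preimage f.continuous)
  have hV : IsOpen (e'.target ∩ e'.symm ⁻¹' (f.symm ⁻¹' e.source)) :=
    e'.symm.isOpen_inter_preimage (e.open_source.preimage f.symm.continuous)
  obtain ⟨σ, κ, hσ, hκ, h⟩ := ctl_compact (fun u => e' (f (e.symm u)))
    (fun w => e (f.symm (e'.symm w))) _ _ _ hU hV
    (by
      intro u hu
      have h1 := chartRep_contDiffAt f e e' he he' (e.symm u) (e.map_target hu.1) hu.2
      rw [e.right_inv hu.1] at h1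
      exact h1)
    (by
      intro w hw
      have h1 := chartRep_contDiffAt f.symm e' e he' he (e'.symm w) (e'.map_target hw.1) hw.2
      rw [e'.right_inv hw.1] at h1
      exact h1)
    (by
      intro u hu
      refine ⟨e'.map_source hu.2, ?_⟩
      change f.symm (e'.symm (e' (f (e.symm u)))) ∈ e.source
      rw [e'.left_inv hu.2, f.symm_apply_apply]
      exact e.map_target hu.1)
    (by
      intro u hu
      rw [e'.left_inv hu.2, f.symm_apply_apply, e.right_inv hu.1])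
    hQ
    (by
      rintro _ ⟨z, hz, rfl⟩
      refine ⟨e.map_source (hZe hz.1), ?_⟩
      change f (e.symm (e z)) ∈ e'.source
      rw [e.left_inv (hZe hz.1)]
      exact hZe' hz.2)
  refine ⟨σ, κ, hσ, hκ, fun z hz hfz => ?_⟩
  obtain ⟨h1, h2⟩ := h (e z) ⟨z, ⟨hz, hfz⟩, rfl⟩
  exact ⟨fun u hu => ⟨(h1 hu).1, (h1 hu).2⟩, h2⟩

end Pool.Agent.CL
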