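import Pool.Agent.Lib_MP_b9d69a.ER0

/-!
# Piece ER-Q2: composition and monotonicity of controlled maps

Proof of `Ctl.comp`: mean value inequality on the convex set `closedBall u₀ R`:
`‖G u - G u₀‖ ≤ κ ‖u - u₀‖ ≤ κ R ≤ R'`.  The derivative of `F ∘ G` is `(F' (G u)).comp (G' u)`:
norm `≤ B κ ≤ B K`; `‖v‖ ≤ κ ‖G' u v‖ ≤ κ B ‖F' (G u) (G' u v)‖`; difference at `u` and `u₀`:
`≤ B ‖G u - G u₀‖ κ + B κ ‖u - u₀‖ ≤ B (κ ^ 2 + κ) ‖u - u₀‖`.
`Ctl.norm_sub_le`: mean value inequality; `Ctl.taylor`: mean value inequality for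
`u ↦ F u - F' u₀ (u - u₀)` on `closedBall u₀ ‖u - u₀‖`.
-/

set_option autoImplicit false
open scoped Topology
open Set Filter

namespace Pool.Agent.CL

theorem Ctl.mono {n : ℕ} {F : Eu n → Eu n} {u₀ : Eu n} {R B L R' B' L' : ℝ} (h : Ctl F u₀ R B L)
    (hR : R' ≤ R) (hB : B ≤ B') (hL : L ≤ L') : Ctl F u₀ R' B' L' := by
  obtain ⟨F', hF'⟩ := h
  refine ⟨F', fun u hu => ?_⟩
  obtain ⟨h1, h2, h3, h4⟩ := hF' u (Metric.closedBall_subset_closedBall hR hu)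
  exact ⟨h1, h2.trans hB, fun v => (h3 v).trans (mul_le_mul_of_nonneg_right hB (norm_nonneg _)),
    h4.trans (mul_le_mul_of_nonneg_right hL (norm_nonneg _))⟩

theorem Ctl.norm_sub_le {n : ℕ} {F : Eu n → Eu n} {u₀ : Eu n} {R B L : ℝ} (h : Ctl F u₀ R B L)
    {u : Eu n} (hu : u ∈ Metric.closedBall u₀ R) : ‖F u - F u₀‖ ≤ B * ‖u - u₀‖ := by
  obtain ⟨F', hF'⟩ := h
  have hR : 0 ≤ R := dist_nonneg.trans (Metric.mem_closedBall.1 hu)
  exact Convex.norm_image_sub_le_of_norm_hasFDerivWithin_le (f' := F')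
    (fun w hw => (hF' w hw).1.hasFDerivWithinAt) (fun w hw => (hF' w hw).2.1)
    (convex_closedBall u₀ R) (Metric.mem_closedBall_self hR) hu

theorem Ctl.taylor {n : ℕ} {F : Eu n → Eu n} {u₀ : Eu n} {R B L : ℝ} (hR : 0 ≤ R)
    (hL : 0 ≤ L) (h : Ctl F u₀ R B L) {u : Eu n} (hu : u ∈ Metric.closedBall u₀ R) :
    ‖F u - F u₀ - fderiv ℝ F u₀ (u - u₀)‖ ≤ L * ‖u - u₀‖ ^ 2 := by
  obtain ⟨F', hF'⟩ := h
  have h0 : fderiv ℝ F u₀ = F' u₀ := (hF' u₀ (Metric.mem_closedBall_self hR)).1.fderiv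
  have hsub : Metric.closedBall u₀ ‖u - u₀‖ ⊆ Metric.closedBall u₀ R := by
    apply Metric.closedBall_subset_closedBall
    rw [← dist_eq_norm]
    exact Metric.mem_closedBall.1 hu
  rw [h0]
  have h1 := Convex.norm_image_sub_le_of_norm_hasFDerivWithin_le' (f' := F') (φ := F' u₀)
    (f := F) (C := L * ‖u - u₀‖) (s := Metric.closedBall u₀ ‖u - u₀‖) (x := u₀) (y := u)
    (fun w hw => (hF' w (hsub hw)).1.hasFDerivWithinAt)
    (fun w hw => (hF' w (hsub hw)).2.2.2.trans (mul_le_mul_of_nonneg_left (by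
      rw [← dist_eq_norm w]
      exact Metric.mem_closedBall.1 hw) hL))
    (convex_closedBall u₀ _) (Metric.mem_closedBall_self (norm_nonneg _))
    (by rw [Metric.mem_closedBall, dist_eq_norm])
  calc ‖F u - F u₀ - F' u₀ (u - u₀)‖ ≤ L * ‖u - u₀‖ * ‖u - u₀‖ := h1
    _ = L * ‖u - u₀‖ ^ 2 := by ring

theorem Ctl.comp {n : ℕ} {F G : Eu n → Eu n} {u₀ : Eu n} {R R' K κ B : ℝ} (hκ : 1 ≤ κ)
    (hK : κ + κ ^ 2 ≤ K) (hB : 0 ≤ B) (hR : κ * R ≤ R') (hR0 : 0 ≤ R)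
    (hG : Ctl G u₀ R κ κ) (hF : Ctl F (G u₀) R' B B) :
    Ctl (fun u => F (G u)) u₀ R (B * K) (B * K) ∧
      ∀ u ∈ Metric.closedBall u₀ R, G u ∈ Metric.closedBall (G u₀) R' := by
  have hmap : ∀ u ∈ Metric.closedBall u₀ R, G u ∈ Metric.closedBall (G u₀) R' := by
    intro u hu
    rw [Metric.mem_closedBall, dist_eq_norm]
    refine (hG.norm_sub_le hu).trans (le_trans ?_ hR)
    refine mul_le_mul_of_nonneg_left ?_ (by linarith)
    rw [← dist_eq_norm]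
    exact Metric.mem_closedBall.1 hu
  have hGn : ∀ u ∈ Metric.closedBall u₀ R, ‖G u - G u₀‖ ≤ κ * ‖u - u₀‖ :=
    fun u hu => hG.norm_sub_le hu
  have hu₀ : u₀ ∈ Metric.closedBall u₀ R := Metric.mem_closedBall_self hR0
  obtain ⟨G', hG'⟩ := hG
  obtain ⟨F', hF'⟩ := hF
  refine ⟨⟨fun u => (F' (G u)).comp (G' u), fun u hu => ?_⟩, hmap⟩
  obtain ⟨g1, g2, g3, g4⟩ := hG' u hu
  obtain ⟨f1, f2, f3, f4⟩ := hF' (G u) (hmap u hu)
  obtain ⟨-, f2', -, -⟩ := hF' (G u₀) (hmap u₀ hu₀)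
  have hKκ : κ ≤ K := by nlinarith
  refine ⟨f1.comp u g1, ?_, ?_, ?_⟩
  · refine (ContinuousLinearMap.opNorm_comp_le _ _).trans ?_
    exact mul_le_mul f2 (g2.trans hKκ) (norm_nonneg _) hB
  · intro v
    have h1 := g3 v
    have h2 := f3 (G' u v)
    have h3 : κ * ‖G' u v‖ ≤ κ * (B * ‖F' (G u) (G' u v)‖) :=
      mul_le_mul_of_nonneg_left h2 (by linarith)
    refine h1.trans (h3.trans ?_)
    change κ * (B * ‖F' (G u) (G' u v)‖) ≤ B * K * ‖F' (G u) (G' u v)‖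
    have h4 : κ * (B * ‖F' (G u) (G' u v)‖) = κ * B * ‖F' (G u) (G' u v)‖ := by ring
    rw [h4, mul_comm κ B]
    refine mul_le_mul_of_nonneg_right ?_ (norm_nonneg _)
    exact mul_le_mul_of_nonneg_left hKκ hB
  · have h1 : (F' (G u)).comp (G' u) - (F' (G u₀)).comp (G' u₀) =
        (F' (G u) - F' (G u₀)).comp (G' u) + (F' (G u₀)).comp (G' u - G' u₀) := by
      ext v
      simp
    change ‖(F' (G u)).comp (G' u) - (F' (G u₀)).comp (G' u₀)‖ ≤ _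
    rw [h1]
    have h2 := norm_add_le ((F' (G u) - F' (G u₀)).comp (G' u))
      ((F' (G u₀)).comp (G' u - G' u₀))
    have h3 : ‖(F' (G u) - F' (G u₀)).comp (G' u)‖ ≤ B * (κ * ‖u - u₀‖) * κ := by
      refine (ContinuousLinearMap.opNorm_comp_le _ _).trans ?_
      refine mul_le_mul ?_ g2 (norm_nonneg _) (by positivity)
      exact f4.trans (mul_le_mul_of_nonneg_left (hGn u hu) hB)
    have h4 : ‖(F' (G u₀)).comp (G' u - G' u₀)‖ ≤ B * (κ * ‖u - u₀‖) := by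
      refine (ContinuousLinearMap.opNorm_comp_le _ _).trans ?_
      exact mul_le_mul f2' g4 (norm_nonneg _) hB
    have h5 : B * (κ + κ ^ 2) * ‖u - u₀‖ ≤ B * K * ‖u - u₀‖ :=
      mul_le_mul_of_nonneg_right (mul_le_mul_of_nonneg_left hK hB) (norm_nonneg _)
    nlinarith

end Pool.Agent.CL
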