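import Pool.Agent.Lib_MP_b9d69a.ERQ1
import Pool.Agent.Lib_MP_b9d69a.ERQ2

/-!
# Piece ER-Q3: control of the iterates, with exponential constants

Proof.  By compactness of `M` there are finitely many charts `e i ∈ atlas` and compact sets
`Z i ⊆ (e i).source` (`i : Option ι`, `ι` finite) which cover `M`, with `e none = φ = chartAt x` and
`W = Z none ∈ 𝓝 x`.  Take `σ, κ` from `ctl_pair` uniform for all pairs `(i, j)` (smallest `σ`, largest
`κ`; `Ctl.mono`).  Put `K = κ + κ ^ 2` (so `K ≥ 2`, `κ ≤ K`) and `ρ = σ`.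
(Use `Ctl.comp` of ERQ2.)  Claim, for `p ≥ 1`, by induction on `p`, for all `i`, all `z ∈ Z i` with `f^[p] z ∈ W`:
for all `u ∈ closedBall (e i z) (ρ / K ^ p)`: `u ∈ (e i).target`, `f^[p] ((e i).symm u) ∈ φ.source`,
and `Ctl (φ ∘ f^[p] ∘ (e i).symm) (e i z) (ρ / K ^ p) (K ^ p) (K ^ p)`.
`p = 1`: `ctl_pair` for `(i, none)`.  Step `p → p + 1`: choose `j` with `f z ∈ Z j`; by `ctl_pair` for
`(i, j)` the map `e j ∘ f ∘ (e i).symm` sends `closedBall (e i z) (ρ / K ^ (p + 1))` into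
`closedBall (e j (f z)) (ρ / K ^ p)` (mean value inequality, `κ ≤ K`), and
`φ ∘ f^[p + 1] ∘ (e i).symm = (φ ∘ f^[p] ∘ (e j).symm) ∘ (e j ∘ f ∘ (e i).symm)` near the points of the
ball; the derivative of the composition is the product, bounded by `K ^ p κ ≤ K ^ (p + 1)` with
inverse bounded in the same way, and moves by at most
`(K ^ p κ κ + K ^ p κ) ‖u - e i z‖ = K ^ (p + 1) ‖u - e i z‖`.
`p = 0` (only for `i = none`): the identity near the ball.
-/

set_option autoImplicit false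
open scoped Manifold Topology ContDiff
open Set Filter

namespace Pool.Agent.CL

variable {n : ℕ} {M : Type} [TopologicalSpace M] [ChartedSpace (Eu n) M]
    [IsManifold 𝓘(ℝ, Eu n) ((⊤ : ℕ∞) : WithTop ℕ∞) M] [T2Space M]

private theorem q3_congr {F F₂ : Eu n → Eu n} {u₀ : Eu n} {R B L : ℝ} (h : Ctl F u₀ R B L)
    (hE : ∀ u ∈ Metric.closedBall u₀ R, F =ᶠ[𝓝 u] F₂) : Ctl F₂ u₀ R B L := by
  obtain ⟨F', hF⟩ := h
  refine ⟨F', fun u hu => ?_⟩
  obtain ⟨h1, h2, h3, h4⟩ := hF u hu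
  exact ⟨h1.congr_of_eventuallyEq (hE u hu).symm, h2, h3, h4⟩

private theorem q3_id (u₀ : Eu n) (R : ℝ) : Ctl (fun u : Eu n => u) u₀ R 1 1 := by
  refine ⟨fun _ => ContinuousLinearMap.id ℝ (Eu n), fun u _ => ?_⟩
  refine ⟨hasFDerivAt_id u, ContinuousLinearMap.norm_id_le, fun v => ?_, ?_⟩
  · rw [one_mul]; exact le_of_eq rfl
  · rw [sub_self, norm_zero]; positivity

theorem local_data [CompactSpace M] (f : Dif n M) (x : M) :
    ∃ K ρ : ℝ, 2 ≤ K ∧ 0 < ρ ∧ ∃ W ∈ 𝓝 x, W ⊆ (chartAt (Eu n) x).source ∧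
      ∀ z ∈ W, ∀ p : ℕ, f^[p] z ∈ W →
        (∀ u ∈ Metric.closedBall (chartAt (Eu n) x z) (ρ / K ^ p),
          u ∈ (chartAt (Eu n) x).target ∧
          f^[p] ((chartAt (Eu n) x).symm u) ∈ (chartAt (Eu n) x).source) ∧
        Ctl (fun u => chartAt (Eu n) x (f^[p] ((chartAt (Eu n) x).symm u)))
          (chartAt (Eu n) x z) (ρ / K ^ p) (K ^ p) (K ^ p) := by
  classical
  -- compact neighbourhoods in the charts
  have hZ0 : ∀ y : M, ∃ Z ∈ 𝓝 y, Z ⊆ (chartAt (Eu n) y).source ∧ IsCompact Z := fun y =>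
    local_compact_nhds ((chartAt (Eu n) y).open_source.mem_nhds (mem_chart_source (Eu n) y))
  choose Z hZn hZs hZc using hZ0
  obtain ⟨T, -, hT⟩ := isCompact_univ.elim_nhds_subcover Z (fun y _ => hZn y)
  set T' : Finset M := insert x T with hT'
  have hcov : ∀ y : M, ∃ j ∈ T', y ∈ Z j := by
    intro y
    have h1 := hT (mem_univ y)
    simp only [mem_iUnion, exists_prop] at h1
    obtain ⟨j, hj, hy⟩ := h1
    exact ⟨j, Finset.mem_insert_of_mem hj, hy⟩
  have hxT : x ∈ T' := Finset.mem_insert_self x T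
  have hpair := fun i j : M => ctl_pair f (chartAt (Eu n) i) (chartAt (Eu n) j)
    (chart_mem_atlas (Eu n) i) (chart_mem_atlas (Eu n) j) (Z i) (Z j) (hZc i) (hZc j) (hZs i)
    (hZs j)
  choose σ κ hσ hκ hctl using hpair
  obtain ⟨qσ, hqσ, hminσ⟩ := (T' ×ˢ T').exists_min_image (fun q => σ q.1 q.2)
    ⟨(x, x), Finset.mk_mem_product hxT hxT⟩
  obtain ⟨qκ, hqκ, hmaxκ⟩ := (T' ×ˢ T').exists_max_image (fun q => κ q.1 q.2)
    ⟨(x, x), Finset.mk_mem_product hxT hxT⟩
  set ρ : ℝ := σ qσ.1 qσ.2 with hρdef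
  set κ₀ : ℝ := κ qκ.1 qκ.2 with hκdef
  have hρ : 0 < ρ := hσ _ _
  have hκ₀ : 1 ≤ κ₀ := hκ _ _
  have hρle : ∀ i ∈ T', ∀ j ∈ T', ρ ≤ σ i j := fun i hi j hj =>
    hminσ (i, j) (Finset.mk_mem_product hi hj)
  have hκle : ∀ i ∈ T', ∀ j ∈ T', κ i j ≤ κ₀ := fun i hi j hj =>
    hmaxκ (i, j) (Finset.mk_mem_product hi hj)
  set K : ℝ := κ₀ + κ₀ ^ 2 with hKdef
  have hK2 : 2 ≤ K := by nlinarith
  have hK0 : 0 < K := by linarith
  have hκK : κ₀ ≤ K := by nlinarith
  have hpowK : ∀ p : ℕ, 1 ≤ K ^ p := fun p => one_le_pow₀ (by linarith)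
  -- one step
  have hstep : ∀ i ∈ T', ∀ j ∈ T', ∀ z ∈ Z i, f z ∈ Z j →
      (∀ u ∈ Metric.closedBall (chartAt (Eu n) i z) ρ,
        u ∈ (chartAt (Eu n) i).target ∧ f ((chartAt (Eu n) i).symm u) ∈ (chartAt (Eu n) j).source) ∧
      Ctl (fun u => chartAt (Eu n) j (f ((chartAt (Eu n) i).symm u))) (chartAt (Eu n) i z) ρ κ₀ κ₀ := by
    intro i hi j hj z hz hfz
    obtain ⟨h1, h2⟩ := hctl i j z hz hfz
    refine ⟨fun u hu => h1 u (Metric.closedBall_subset_closedBall (hρle i hi j hj) hu), ?_⟩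
    exact h2.mono (hρle i hi j hj) (hκle i hi j hj) (hκle i hi j hj)
  have main : ∀ p : ℕ, ∀ i ∈ T', ∀ z ∈ Z i, f^[p + 1] z ∈ Z x →
      (∀ u ∈ Metric.closedBall (chartAt (Eu n) i z) (ρ / K ^ (p + 1)),
        u ∈ (chartAt (Eu n) i).target ∧
        f^[p + 1] ((chartAt (Eu n) i).symm u) ∈ (chartAt (Eu n) x).source) ∧
      Ctl (fun u => chartAt (Eu n) x (f^[p + 1] ((chartAt (Eu n) i).symm u)))
        (chartAt (Eu n) i z) (ρ / K ^ (p + 1)) (K ^ (p + 1)) (K ^ (p + 1)) := by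
    intro p
    induction p with
    | zero =>
      intro i hi z hz hfz
      have hfz' : f z ∈ Z x := hfz
      obtain ⟨h1, h2⟩ := hstep i hi x hxT z hz hfz'
      have hle : ρ / K ^ (0 + 1) ≤ ρ := div_le_self hρ.le (hpowK _)
      refine ⟨fun u hu => h1 u (Metric.closedBall_subset_closedBall hle hu), ?_⟩
      have hκ' : κ₀ ≤ K ^ (0 + 1) := by rw [zero_add, pow_one]; exact hκK
      exact h2.mono hle hκ' hκ'
    | succ p ih =>
      intro i hi z hz hfz
      obtain ⟨j, hj, hzj⟩ := hcov (f z)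
      have hfz' : f^[p + 1] (f z) ∈ Z x := hfz
      obtain ⟨a1, a2⟩ := hstep i hi j hj z hz hzj
      obtain ⟨b1, b2⟩ := ih j hj (f z) hzj hfz'
      have hzs : z ∈ (chartAt (Eu n) i).source := hZs i hz
      have hz0 : (chartAt (Eu n) i).symm (chartAt (Eu n) i z) = z :=
        (chartAt (Eu n) i).left_inv hzs
      have hR0 : 0 < ρ / K ^ (p + 1 + 1) := by positivity
      have hRρ : ρ / K ^ (p + 1 + 1) < ρ := by
        rw [div_lt_iff₀ (by positivity)]
        have h3 : 1 < K ^ (p + 1 + 1) := one_lt_pow₀ (by linarith) (by omega)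
        nlinarith
      have hRR' : κ₀ * (ρ / K ^ (p + 1 + 1)) ≤ ρ / K ^ (p + 1) := by
        rw [pow_succ K (p + 1), ← mul_div_assoc, div_le_div_iff₀ (by positivity) (by positivity)]
        have h3 : 0 < ρ * K ^ (p + 1) := by positivity
        nlinarith
      have b2' : Ctl (fun w => chartAt (Eu n) x (f^[p + 1] ((chartAt (Eu n) j).symm w)))
          (chartAt (Eu n) j (f ((chartAt (Eu n) i).symm (chartAt (Eu n) i z))))
          (ρ / K ^ (p + 1)) (K ^ (p + 1)) (K ^ (p + 1)) := by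
        rw [hz0]; exact b2
      obtain ⟨c1, c2⟩ := Ctl.comp (F := fun w => chartAt (Eu n) x (f^[p + 1] ((chartAt (Eu n) j).symm w)))
        (G := fun u => chartAt (Eu n) j (f ((chartAt (Eu n) i).symm u)))
        hκ₀ (le_refl K) (by positivity) hRR' hR0.le
        (a2.mono hRρ.le le_rfl le_rfl) b2'
      refine ⟨fun u hu => ?_, ?_⟩
      · obtain ⟨d1, d2⟩ := a1 u (Metric.closedBall_subset_closedBall hRρ.le hu)
        refine ⟨d1, ?_⟩
        have d3 := c2 u hu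
        simp only [hz0] at d3
        have d4 := (b1 _ d3).2
        rw [(chartAt (Eu n) j).left_inv d2] at d4
        exact d4
      · have e1 : K ^ (p + 1) * K = K ^ (p + 1 + 1) := (pow_succ K (p + 1)).symm
        rw [e1] at c1
        refine q3_congr c1 fun u hu => ?_
        have hub : u ∈ Metric.ball (chartAt (Eu n) i z) ρ := by
          rw [Metric.mem_ball]
          exact lt_of_le_of_lt (Metric.mem_closedBall.1 hu) hRρ
        filter_upwards [Metric.isOpen_ball.mem_nhds hub] with w hw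
        obtain ⟨-, d2⟩ := a1 w (Metric.ball_subset_closedBall hw)
        show chartAt (Eu n) x (f^[p + 1] ((chartAt (Eu n) j).symm
          (chartAt (Eu n) j (f ((chartAt (Eu n) i).symm w))))) = _
        rw [(chartAt (Eu n) j).left_inv d2]
        rfl
  refine ⟨K, ρ, hK2, hρ, Z x, hZn x, hZs x, fun z hz p hp => ?_⟩
  rcases p with _ | p
  · obtain ⟨j, hj, hzj⟩ := hcov (f z)
    obtain ⟨a1, -⟩ := hstep x hxT j hj z hz hzj
    have h0 : ρ / K ^ 0 = ρ := by rw [pow_zero, div_one]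
    rw [h0, pow_zero]
    refine ⟨fun u hu => ⟨(a1 u hu).1, (chartAt (Eu n) x).map_target (a1 u hu).1⟩, ?_⟩
    refine q3_congr (q3_id _ _) fun u hu => ?_
    filter_upwards [(chartAt (Eu n) x).open_target.mem_nhds (a1 u hu).1] with w hw
    show w = chartAt (Eu n) x ((chartAt (Eu n) x).symm w)
    rw [(chartAt (Eu n) x).right_inv hw]
  · exact main p x hxT z hz hp

end Pool.Agent.CL
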