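import Pool.Agent.Lib_MP_b9d69a.Pub
import Pool.Agent.Lib_MP_b9d69a.ERG

set_option autoImplicit false
open scoped Manifold Topology
open Pool.Agent.CL

namespace Pool.Agent.CL.ERResult

/-- For EVERY `C^∞` diffeomorphism `f` of a compact smooth manifold `M` and every point `x`:
either the local `C^∞` closing lemma holds for `f` at `x`, or near `x` the returns are at most
exponentially fast: `exp (-C k) ≤ |f^k z - z|` in the chart at `x`, for all `z` near `x` and all
`k ≥ 1`. -/
theorem result (n : ℕ) (M : Type) [TopologicalSpace M] [ChartedSpace (Eu n) M]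
    (hM : IsSmooth n M) [CompactSpace M] [T2Space M] (f : Dif n M) (x : M) :
    LocalClosingAt f x ∨ ExpReturnsAt (n := n) (fn f) x := by
  haveI : IsManifold 𝓘(ℝ, Eu n) ((⊤ : ℕ∞) : WithTop ℕ∞) M := hM
  by_cases h : LocalClosingAt f x
  · exact Or.inl h
  · exact Or.inr (exp_returns f x (fun hc => h ((localClosingAt_iff f x).mpr hc)))

end Pool.Agent.CL.ERResult
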