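import Pool.Agent.Lib_MP_b9d69a.ER0

/-!
# Returns and growth: definitions

Paper proof: board note (kind proposal) of helper48 with title `GROWTH`, row MP_b9d69a_an.
-/

set_option autoImplicit false
open scoped Manifold ContDiff Topology
open Set Filter

namespace Pool.Agent.CL

/-- The metric of `M` is locally bi-Lipschitz equivalent to the charts (for example the distance of
a Riemannian metric). -/
def LocBiLip (n : ℕ) (M : Type) [MetricSpace M] [ChartedSpace (Eu n) M] : Prop :=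
  ∀ x : M, ∃ W ∈ nhds x, W ⊆ (chartAt (Eu n) x).source ∧ ∃ L : ℝ, ∀ y ∈ W, ∀ z ∈ W,
    ‖chartAt (Eu n) x y - chartAt (Eu n) x z‖ ≤ L * dist y z ∧
    dist y z ≤ L * ‖chartAt (Eu n) x y - chartAt (Eu n) x z‖

/-- `G` bounds the infinitesimal expansion and contraction of the iterates of `f` along the orbit
segment `z, f z, …, f^[N] z`. -/
def GrowthLE {M : Type} [MetricSpace M] (f : M → M) (z : M) (N : ℕ) (G : ℝ) : Prop :=
  ∀ i p : ℕ, i + p ≤ N → ∀ᶠ u in nhds (f^[i] z),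
    dist (f^[p] u) (f^[i + p] z) ≤ G * dist u (f^[i] z) ∧
    dist u (f^[i] z) ≤ G * dist (f^[p] u) (f^[i + p] z)

/-- Near `x` returns are not faster than a fixed power of the growth: for a neighbourhood `W` of
`x` and some `C`, all `z ∈ W`, `k ≥ 1` and every bound `G ≥ 1` of the growth along
`z, …, f^[2 k] z`, `dist (f^[k] z) z ≥ (C k G) ^ (-C)`. -/
def GrowthReturnsAt {M : Type} [MetricSpace M] (f : M → M) (x : M) : Prop :=
  ∃ W ∈ nhds x, ∃ C : ℕ, ∀ z ∈ W, ∀ k : ℕ, 1 ≤ k → ∀ G : ℝ, 1 ≤ G →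
    GrowthLE f z (2 * k) G → 1 ≤ (C * k * G) ^ C * dist (f^[k] z) z

/-! ## Auxiliary definitions -/

/-- Return data up to time `2 k`, with one constant `κ`. -/
structure RetData (n k : ℕ) (κ ρ : ℝ) where
  near : ℕ → Prop
  a : ℕ → Eu n
  A : ℕ → (Eu n →L[ℝ] Eu n)
  near_norm : ∀ p, near p → ‖a p‖ ≤ ρ
  near_zero : near 0
  a_zero : a 0 = 0
  A_zero : A 0 = ContinuousLinearMap.id ℝ (Eu n)
  split : ∀ p s, p + s ≤ 2 * k → near (p + s) → near p → κ * (‖a (p + s)‖ + ‖a p‖) ≤ ρ →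
    near s ∧ ‖a s‖ ≤ κ * (‖a (p + s)‖ + ‖a p‖)
  near_add : ∀ p q, p + q ≤ 2 * k → near p → near q → ‖a p‖ + κ * ‖a q‖ ≤ ρ → near (p + q)
  comp : ∀ p q, p + q ≤ 2 * k → near p → near q → κ * ‖a q‖ ≤ ρ →
    ‖a (p + q) - a p - A p (a q)‖ ≤ κ * ‖a q‖ ^ 2
  compA : ∀ p q, p + q ≤ 2 * k → near p → near q → κ * ‖a q‖ ≤ ρ →
    ‖A (p + q) - (A p).comp (A q)‖ ≤ κ ^ 2 * ‖a q‖
  bound : ∀ p, p ≤ 2 * k → near p → ‖A p‖ ≤ κ

/-- `F` is controlled on the ball `closedBall u₀ R`: differentiable, the derivative is bounded by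
`B` and moves by at most `L * ‖u - u₀‖`. -/
def Con {n : ℕ} (F : Eu n → Eu n) (u₀ : Eu n) (R B L : ℝ) : Prop :=
  ∃ F' : Eu n → (Eu n →L[ℝ] Eu n), ∀ u ∈ Metric.closedBall u₀ R,
    HasFDerivAt F (F' u) u ∧ ‖F' u‖ ≤ B ∧ ‖F' u - F' u₀‖ ≤ L * ‖u - u₀‖

theorem Ctl.con {n : ℕ} {F : Eu n → Eu n} {u₀ : Eu n} {R B L : ℝ} (h : Ctl F u₀ R B L) :
    Con F u₀ R B L := by
  obtain ⟨F', hF'⟩ := h
  exact ⟨F', fun u hu => ⟨(hF' u hu).1, (hF' u hu).2.1, (hF' u hu).2.2.2⟩⟩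

/-- The composition `F (p - 1) ∘ ⋯ ∘ F 0`. -/
def compSeq {n : ℕ} (F : ℕ → Eu n → Eu n) : ℕ → Eu n → Eu n
  | 0 => id
  | p + 1 => F p ∘ compSeq F p

/-- The product of the derivatives of `F i, …, F (i + p - 1)` at `u i, …, u (i + p - 1)`. -/
noncomputable def prodD {n : ℕ} (F : ℕ → Eu n → Eu n) (u : ℕ → Eu n) (i : ℕ) :
    ℕ → (Eu n →L[ℝ] Eu n)
  | 0 => ContinuousLinearMap.id ℝ (Eu n)
  | p + 1 => (fderiv ℝ (F (i + p)) (u (i + p))).comp (prodD F u i p)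

/-- The chart `e` is bi-Lipschitz at `z` with constant `L`. -/
def BiLipAt {n : ℕ} {M : Type} [MetricSpace M] (e : OpenPartialHomeomorph M (Eu n)) (z : M)
    (L : ℝ) : Prop :=
  ∀ᶠ u in nhds z, ‖e u - e z‖ ≤ L * dist u z ∧ dist u z ≤ L * ‖e u - e z‖

/-- Upper growth bound. -/
def UpLE {M : Type} [MetricSpace M] (f : M → M) (z : M) (N : ℕ) (G : ℝ) : Prop :=
  ∀ i p : ℕ, i + p ≤ N → ∀ᶠ u in nhds (f^[i] z),
    dist (f^[p] u) (f^[i + p] z) ≤ G * dist u (f^[i] z)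

end Pool.Agent.CL
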