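import Pool.Agent.Lib_MP_b9d69a.ERQ1
import Pool.Agent.Lib_MP_b9d69a.GR0

/-!
# Piece GR-A: a finite atlas with uniform constants

`exists_fin_atlas`.  For each `y` take `W y, L y` from `LocBiLip` and a compact neighbourhood
`Z y ⊆ interior (W y)` of `y` (`M` is locally compact: charted on `ℝ^n`, or compact metric).  By
compactness finitely many `interior (Z y)` cover `M`; add `x` to the finite set; `L` = the largest of
`1, L y`.
`exists_step`.  `ctl_pair` for all pairs `y, y'` of the finite set; smallest `σ`, largest `κ₀`.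
-/

set_option autoImplicit false
open scoped Manifold Topology ContDiff
open Set Filter

namespace Pool.Agent.CL

variable {n : ℕ} {M : Type} [MetricSpace M] [ChartedSpace (Eu n) M]
    [IsManifold 𝓘(ℝ, Eu n) ((⊤ : ℕ∞) : WithTop ℕ∞) M] [CompactSpace M]

private theorem GRA_low {α : Type} (s : Finset α) (g : α → ℝ) (h : ∀ a ∈ s, 0 < g a) :
    ∃ σ : ℝ, 0 < σ ∧ σ ≤ 1 ∧ ∀ a ∈ s, σ ≤ g a := by
  classical
  induction s using Finset.induction_on with
  | empty => exact ⟨1, one_pos, le_rfl, fun a ha => absurd ha (Finset.notMem_empty a)⟩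
  | insert b s _ ih =>
    obtain ⟨σ, h1, h2, h3⟩ := ih fun a ha => h a (Finset.mem_insert_of_mem ha)
    refine ⟨min σ (g b), lt_min h1 (h b (Finset.mem_insert_self b s)),
      (min_le_left _ _).trans h2, fun a ha => ?_⟩
    rcases Finset.mem_insert.1 ha with rfl | ha
    · exact min_le_right _ _
    · exact (min_le_left _ _).trans (h3 a ha)

private theorem GRA_up {α : Type} (s : Finset α) (g : α → ℝ) :
    ∃ L : ℝ, 1 ≤ L ∧ ∀ a ∈ s, g a ≤ L := by
  classical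
  induction s using Finset.induction_on with
  | empty => exact ⟨1, le_rfl, fun a ha => absurd ha (Finset.notMem_empty a)⟩
  | insert b s _ ih =>
    obtain ⟨L, h1, h2⟩ := ih
    refine ⟨max L (g b), h1.trans (le_max_left _ _), fun a ha => ?_⟩
    rcases Finset.mem_insert.1 ha with rfl | ha
    · exact le_max_right _ _
    · exact (h2 a ha).trans (le_max_left _ _)

private theorem GRA_con_mono {F : Eu n → Eu n} {u₀ : Eu n} {R B L R' B' L' : ℝ}
    (h : Con F u₀ R B L) (hR : R' ≤ R) (hB : B ≤ B') (hL : L ≤ L') : Con F u₀ R' B' L' := by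
  obtain ⟨F', hF'⟩ := h
  refine ⟨F', fun u hu => ?_⟩
  obtain ⟨h1, h2, h3⟩ := hF' u (Metric.closedBall_subset_closedBall hR hu)
  exact ⟨h1, h2.trans hB, h3.trans (mul_le_mul_of_nonneg_right hL (norm_nonneg _))⟩

omit [IsManifold 𝓘(ℝ, Eu n) ((⊤ : ℕ∞) : WithTop ℕ∞) M] in
theorem exists_fin_atlas (hM : LocBiLip n M) (x : M) :
    ∃ (t : Finset M) (Z : M → Set M) (L : ℝ), x ∈ t ∧ 1 ≤ L ∧ Z x ∈ 𝓝 x ∧
      (∀ y ∈ t, IsCompact (Z y) ∧ Z y ⊆ (chartAt (Eu n) y).source ∧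
        ∀ z ∈ Z y, BiLipAt (chartAt (Eu n) y) z L) ∧
      ∀ z, ∃ y ∈ t, z ∈ Z y := by
  classical
  choose W hW hWs L hL using hM
  have hr : ∀ y, ∃ r : ℝ, 0 < r ∧ Metric.closedBall y r ⊆ interior (W y) := fun y =>
    Metric.nhds_basis_closedBall.mem_iff.1 (interior_mem_nhds.2 (hW y))
  choose r hr0 hrW using hr
  obtain ⟨t, _, ht⟩ := isCompact_univ.elim_nhds_subcover (fun y : M => Metric.closedBall y (r y))
    fun y _ => Metric.closedBall_mem_nhds y (hr0 y)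
  obtain ⟨C, hC1, hC⟩ := GRA_up (insert x t) L
  refine ⟨insert x t, fun y => Metric.closedBall y (r y), C, Finset.mem_insert_self x t, hC1,
    Metric.closedBall_mem_nhds x (hr0 x), fun y hy => ⟨Metric.isClosed_closedBall.isCompact,
      ((hrW y).trans interior_subset).trans (hWs y), fun z hz => ?_⟩, fun z => ?_⟩
  · have hz1 : W y ∈ 𝓝 z := mem_interior_iff_mem_nhds.1 (hrW y hz)
    filter_upwards [hz1] with u hu
    obtain ⟨h1, h2⟩ := hL y u hu z (mem_of_mem_nhds hz1)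
    exact ⟨h1.trans (mul_le_mul_of_nonneg_right (hC y hy) dist_nonneg),
      h2.trans (mul_le_mul_of_nonneg_right (hC y hy) (norm_nonneg _))⟩
  · obtain ⟨y, hy, hzy⟩ := Set.mem_iUnion₂.1 (ht (Set.mem_univ z))
    exact ⟨y, Finset.mem_insert_of_mem hy, hzy⟩

theorem exists_step (f : Dif n M) (t : Finset M) (Z : M → Set M)
    (hZ : ∀ y ∈ t, IsCompact (Z y) ∧ Z y ⊆ (chartAt (Eu n) y).source) :
    ∃ σ κ₀ : ℝ, 0 < σ ∧ σ ≤ 1 ∧ 1 ≤ κ₀ ∧ ∀ y ∈ t, ∀ y' ∈ t, ∀ z ∈ Z y, f z ∈ Z y' →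
      (∀ u ∈ Metric.closedBall (chartAt (Eu n) y z) σ,
        u ∈ (chartAt (Eu n) y).target ∧
        f ((chartAt (Eu n) y).symm u) ∈ (chartAt (Eu n) y').source) ∧
      Con (fun u => chartAt (Eu n) y' (f ((chartAt (Eu n) y).symm u)))
        (chartAt (Eu n) y z) σ κ₀ κ₀ := by
  classical
  have key : ∀ q : M × M, ∃ c : ℝ × ℝ, q ∈ t ×ˢ t → 0 < c.1 ∧ 1 ≤ c.2 ∧ ∀ z ∈ Z q.1,
      f z ∈ Z q.2 → (∀ u ∈ Metric.closedBall (chartAt (Eu n) q.1 z) c.1,
        u ∈ (chartAt (Eu n) q.1).target ∧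
        f ((chartAt (Eu n) q.1).symm u) ∈ (chartAt (Eu n) q.2).source) ∧
      Ctl (fun u => chartAt (Eu n) q.2 (f ((chartAt (Eu n) q.1).symm u)))
        (chartAt (Eu n) q.1 z) c.1 c.2 c.2 := by
    intro q
    by_cases hq : q ∈ t ×ˢ t
    · rw [Finset.mem_product] at hq
      obtain ⟨σ, κ, h1, h2, h3⟩ := ctl_pair f (chartAt (Eu n) q.1) (chartAt (Eu n) q.2)
        (chart_mem_atlas _ _) (chart_mem_atlas _ _) (Z q.1) (Z q.2) (hZ _ hq.1).1 (hZ _ hq.2).1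
        (hZ _ hq.1).2 (hZ _ hq.2).2
      exact ⟨(σ, κ), fun _ => ⟨h1, h2, h3⟩⟩
    · exact ⟨(1, 1), fun h => absurd h hq⟩
  choose c hc using key
  obtain ⟨σ, hσ0, hσ1, hσ⟩ := GRA_low (t ×ˢ t) (fun q => (c q).1) fun q hq => (hc q hq).1
  obtain ⟨κ, hκ1, hκ⟩ := GRA_up (t ×ˢ t) fun q => (c q).2
  refine ⟨σ, κ, hσ0, hσ1, hκ1, fun y hy y' hy' z hz hfz => ?_⟩
  have hq : (y, y') ∈ t ×ˢ t := Finset.mem_product.2 ⟨hy, hy'⟩
  obtain ⟨_, _, h3⟩ := hc (y, y') hq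
  obtain ⟨h4, h5⟩ := h3 z hz hfz
  exact ⟨fun u hu => h4 u (Metric.closedBall_subset_closedBall (hσ _ hq) hu),
    GRA_con_mono h5.con (hσ _ hq) (hκ _ hq) (hκ _ hq)⟩

end Pool.Agent.CL
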