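import Pool.Agent.Lib_MP_b9d69a.GR0
import Pool.Agent.Lib_MP_b9d69a.P1

/-!
# Piece GR-P: the products of the derivatives are bounded by the growth

For charts `c 0, …, c N` of the atlas along the orbit of `z` put
`F j = c (j+1) ∘ f ∘ (c j).symm`, `u j = c j (f^[j] z)`.
`prodD_eq`: `prodD F u i p` is the derivative of `c (i+p) ∘ f^[p] ∘ (c i).symm` at `u i`
(induction on `p`; near `u i` the map for `p + 1` is `F (i+p) ∘ (map for p)`, because
`f^[p] ((c i).symm w)` is in the (open) domain of `c (i+p)` for `w` near `u i`; differentiability of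
`F j` at `u j`: `chartRep_contDiffAt`).
`prodD_bound`: near `u i`, with `y = (c i).symm w`:
`‖c (i+p) (f^[p] y) - c (i+p) (f^[i+p] z)‖ ≤ L dist (f^[p] y) (f^[i+p] z) ≤ L G dist y (f^[i] z) ≤ L ^ 2 G ‖w - u i‖`,
and `HasFDerivAt.le_of_lip'`.
-/

set_option autoImplicit false
open scoped Manifold Topology ContDiff
open Set Filter

namespace Pool.Agent.CL

variable {n : ℕ} {M : Type} [MetricSpace M] [ChartedSpace (Eu n) M]
    [IsManifold 𝓘(ℝ, Eu n) ((⊤ : ℕ∞) : WithTop ℕ∞) M]

theorem prodD_eq (f : Dif n M) (z : M) (N : ℕ) (c : ℕ → OpenPartialHomeomorph M (Eu n))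
    (hc : ∀ i, c i ∈ atlas (Eu n) M) (hz : ∀ i, i ≤ N → f^[i] z ∈ (c i).source)
    (i p : ℕ) (hip : i + p ≤ N) :
    HasFDerivAt (fun w => c (i + p) (f^[p] ((c i).symm w)))
      (prodD (fun j w => c (j + 1) (f ((c j).symm w))) (fun j => c j (f^[j] z)) i p)
      (c i (f^[i] z)) := by
  have hsym : ∀ i, i ≤ N → (c i).symm (c i (f^[i] z)) = f^[i] z := fun i hi =>
    (c i).left_inv (hz i hi)
  have hcont : ∀ i, i ≤ N → ContinuousAt (c i).symm (c i (f^[i] z)) := fun i hi =>
    (c i).continuousAt_symm ((c i).map_source (hz i hi))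
  induction p with
  | zero =>
    have h1 : (fun w => c (i + 0) (f^[0] ((c i).symm w))) =ᶠ[𝓝 (c i (f^[i] z))] fun w => w := by
      filter_upwards [(c i).open_target.mem_nhds ((c i).map_source (hz i (by omega)))] with w hw
      exact (c i).right_inv hw
    exact (hasFDerivAt_id (c i (f^[i] z))).congr_of_eventuallyEq h1
  | succ p ih =>
    have ih' := ih (by omega)
    have hval : f^[p] ((c i).symm (c i (f^[i] z))) = f^[i + p] z := by
      rw [hsym i (by omega), Nat.add_comm i p, Function.iterate_add_apply]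
    have hfs : f (f^[i + p] z) ∈ (c (i + p + 1)).source := by
      have := hz (i + p + 1) (by omega)
      rwa [Function.iterate_succ_apply'] at this
    have h2 : HasFDerivAt (fun w => c (i + p + 1) (f ((c (i + p)).symm w)))
        (fderiv ℝ (fun w => c (i + p + 1) (f ((c (i + p)).symm w))) (c (i + p) (f^[i + p] z)))
        (c (i + p) (f^[i + p] z)) :=
      ((chartRep_contDiffAt f (c (i + p)) (c (i + p + 1)) (hc _) (hc _) (f^[i + p] z)
        (hz _ (by omega)) hfs).differentiableAt (by simp)).hasFDerivAt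
    have h3 : HasFDerivAt ((fun w => c (i + p + 1) (f ((c (i + p)).symm w))) ∘
        (fun w => c (i + p) (f^[p] ((c i).symm w))))
        (prodD (fun j w => c (j + 1) (f ((c j).symm w))) (fun j => c j (f^[j] z)) i (p + 1))
        (c i (f^[i] z)) := by
      refine HasFDerivAt.comp (c i (f^[i] z)) ?_ ih'
      rw [hval]
      exact h2
    refine h3.congr_of_eventuallyEq ?_
    have h5 : ContinuousAt (fun w => f^[p] ((c i).symm w)) (c i (f^[i] z)) :=
      (f.continuous.iterate p).continuousAt.comp (hcont i (by omega))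
    have h6 : ∀ᶠ w in 𝓝 (c i (f^[i] z)), f^[p] ((c i).symm w) ∈ (c (i + p)).source := by
      apply h5
      change (c (i + p)).source ∈ 𝓝 (f^[p] ((c i).symm (c i (f^[i] z))))
      rw [hval]
      exact (c (i + p)).open_source.mem_nhds (hz _ (by omega))
    filter_upwards [h6] with w hw
    change c (i + p + 1) (f^[p + 1] ((c i).symm w)) =
      c (i + p + 1) (f ((c (i + p)).symm (c (i + p) (f^[p] ((c i).symm w)))))
    rw [(c (i + p)).left_inv hw, Function.iterate_succ_apply']

theorem prodD_bound (f : Dif n M) (z : M) (N : ℕ) (c : ℕ → OpenPartialHomeomorph M (Eu n))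
    (hc : ∀ i, c i ∈ atlas (Eu n) M) (hz : ∀ i, i ≤ N → f^[i] z ∈ (c i).source)
    (L G : ℝ) (hL : 1 ≤ L) (hG : 1 ≤ G) (hbl : ∀ i, i ≤ N → BiLipAt (c i) (f^[i] z) L)
    (hup : UpLE f z N G) (i p : ℕ) (hip : i + p ≤ N) :
    ‖prodD (fun j w => c (j + 1) (f ((c j).symm w))) (fun j => c j (f^[j] z)) i p‖
      ≤ L ^ 2 * G := by
  have hi : i ≤ N := by omega
  have hsym : (c i).symm (c i (f^[i] z)) = f^[i] z := (c i).left_inv (hz i hi)
  have hcont : Tendsto (c i).symm (𝓝 (c i (f^[i] z))) (𝓝 (f^[i] z)) := by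
    have h := (c i).continuousAt_symm ((c i).map_source (hz i hi))
    rw [ContinuousAt, hsym] at h
    exact h
  have hval : f^[p] (f^[i] z) = f^[i + p] z := by
    rw [Nat.add_comm i p, Function.iterate_add_apply]
  have hcp : Tendsto (f^[p]) (𝓝 (f^[i] z)) (𝓝 (f^[i + p] z)) := by
    have h := (f.continuous.iterate p).continuousAt (x := f^[i] z)
    rw [ContinuousAt, hval] at h
    exact h
  refine (prodD_eq f z N c hc hz i p hip).le_of_lip' (by positivity) ?_
  filter_upwards [(c i).open_target.mem_nhds ((c i).map_source (hz i hi)),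
    hcont.eventually (hbl i hi), hcont.eventually (hup i p hip),
    (hcp.comp hcont).eventually (hbl (i + p) hip)] with w hw h1 h2 h3
  rw [hsym, hval]
  rw [(c i).right_inv hw] at h1
  have hL0 : 0 ≤ L := by linarith
  have hG0 : 0 ≤ G := by linarith
  calc ‖c (i + p) (f^[p] ((c i).symm w)) - c (i + p) (f^[i + p] z)‖
      ≤ L * dist (f^[p] ((c i).symm w)) (f^[i + p] z) := h3.1
    _ ≤ L * (G * dist ((c i).symm w) (f^[i] z)) := mul_le_mul_of_nonneg_left h2 hL0
    _ ≤ L * (G * (L * ‖w - c i (f^[i] z)‖)) :=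
        mul_le_mul_of_nonneg_left (mul_le_mul_of_nonneg_left h1.2 hG0) hL0
    _ = L ^ 2 * G * ‖w - c i (f^[i] z)‖ := by ring

end Pool.Agent.CL
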