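import Pool.Agent.Lib_MP_b9d69a.GR0

/-!
# Piece GR-Q: long compositions of controlled maps

`Con.mono`, `Con.norm_sub_le`, `Con.taylor` as for `Ctl` (file ERQ2).

`con_seq`.  Put `R = σ / (8 (N + 1) κ₀ G ^ 2)`.  For `u ∈ closedBall (u 0) R` let
`w i = compSeq F i u` and `ψ i` the product of the derivatives `F'_j (w j)`, `j < i`.  Claim, by
induction on `p ≤ N`, for all `u` in the ball: `‖w i - u i‖ ≤ 2 G ‖u - u 0‖ (≤ σ)`, `‖ψ i‖ ≤ 2 G`,
`‖ψ i - prodD F u 0 i‖ ≤ 4 i κ₀ G ^ 3 ‖u - u 0‖` for all `i ≤ p`.  Step: variation of constants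
`ψ (p+1) - P 0 (p+1) = ∑ i ≤ p, P (i+1) (p-i) ∘ (F'_i (w i) - F'_i (u i)) ∘ ψ i`
(`P i p = prodD F u i p`; proved by induction on `p` from `P (i+1) (p+1-i) = F'_p (u p) ∘ P (i+1) (p-i)`),
so its norm is `≤ (p+1) * G * (κ₀ * 2 G ‖u - u 0‖) * 2 G = 4 (p+1) κ₀ G ^ 3 ‖u - u 0‖ ≤ G` on the ball,
and `‖ψ (p+1)‖ ≤ 2 G`; the mean value inequality on the ball for `compSeq F (p+1)`, whose derivative
at `u` is `ψ (p+1)`, gives `‖w (p+1) - u (p+1)‖ ≤ 2 G ‖u - u 0‖`.
-/

set_option autoImplicit false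
open scoped Topology
open Set Filter

namespace Pool.Agent.CL

theorem Con.mono {n : ℕ} {F : Eu n → Eu n} {u₀ : Eu n} {R B L R' B' L' : ℝ} (h : Con F u₀ R B L)
    (hR : R' ≤ R) (hB : B ≤ B') (hL : L ≤ L') : Con F u₀ R' B' L' := by
  obtain ⟨F', hF'⟩ := h
  refine ⟨F', fun u hu => ?_⟩
  obtain ⟨h1, h2, h4⟩ := hF' u (Metric.closedBall_subset_closedBall hR hu)
  exact ⟨h1, h2.trans hB, h4.trans (mul_le_mul_of_nonneg_right hL (norm_nonneg _))⟩

theorem Con.norm_sub_le {n : ℕ} {F : Eu n → Eu n} {u₀ : Eu n} {R B L : ℝ} (h : Con F u₀ R B L)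
    {u : Eu n} (hu : u ∈ Metric.closedBall u₀ R) : ‖F u - F u₀‖ ≤ B * ‖u - u₀‖ := by
  obtain ⟨F', hF'⟩ := h
  have hR : 0 ≤ R := dist_nonneg.trans (Metric.mem_closedBall.1 hu)
  exact Convex.norm_image_sub_le_of_norm_hasFDerivWithin_le (f' := F')
    (fun w hw => (hF' w hw).1.hasFDerivWithinAt) (fun w hw => (hF' w hw).2.1)
    (convex_closedBall u₀ R) (Metric.mem_closedBall_self hR) hu

theorem Con.taylor {n : ℕ} {F : Eu n → Eu n} {u₀ : Eu n} {R B L : ℝ} (hR : 0 ≤ R)
    (hL : 0 ≤ L) (h : Con F u₀ R B L) {u : Eu n} (hu : u ∈ Metric.closedBall u₀ R) :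
    ‖F u - F u₀ - fderiv ℝ F u₀ (u - u₀)‖ ≤ L * ‖u - u₀‖ ^ 2 := by
  obtain ⟨F', hF'⟩ := h
  have h0 : fderiv ℝ F u₀ = F' u₀ := (hF' u₀ (Metric.mem_closedBall_self hR)).1.fderiv
  have hsub : Metric.closedBall u₀ ‖u - u₀‖ ⊆ Metric.closedBall u₀ R := by
    apply Metric.closedBall_subset_closedBall
    rw [← dist_eq_norm]
    exact Metric.mem_closedBall.1 hu
  rw [h0]
  have h1 := Convex.norm_image_sub_le_of_norm_hasFDerivWithin_le' (f' := F') (φ := F' u₀)
    (f := F) (C := L * ‖u - u₀‖) (s := Metric.closedBall u₀ ‖u - u₀‖) (x := u₀) (y := u)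
    (fun w hw => (hF' w (hsub hw)).1.hasFDerivWithinAt)
    (fun w hw => (hF' w (hsub hw)).2.2.trans (mul_le_mul_of_nonneg_left (by
      rw [← dist_eq_norm w]
      exact Metric.mem_closedBall.1 hw) hL))
    (convex_closedBall u₀ _) (Metric.mem_closedBall_self (norm_nonneg _))
    (by rw [Metric.mem_closedBall, dist_eq_norm])
  calc ‖F u - F u₀ - F' u₀ (u - u₀)‖ ≤ L * ‖u - u₀‖ * ‖u - u₀‖ := h1
    _ = L * ‖u - u₀‖ ^ 2 := by ring

/-! ### Products of linear maps -/

/-- The product `D (i + p - 1) ∘ ⋯ ∘ D i`. -/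
private noncomputable def lprod {n : ℕ} (D : ℕ → (Eu n →L[ℝ] Eu n)) (i : ℕ) :
    ℕ → (Eu n →L[ℝ] Eu n)
  | 0 => ContinuousLinearMap.id ℝ (Eu n)
  | p + 1 => (D (i + p)).comp (lprod D i p)

private theorem lprod_var {n : ℕ} (D D₀ : ℕ → (Eu n →L[ℝ] Eu n)) (p : ℕ) :
    lprod D 0 p - lprod D₀ 0 p =
      ∑ i ∈ Finset.range p,
        (lprod D₀ (i + 1) (p - 1 - i)).comp ((D i - D₀ i).comp (lprod D 0 i)) := by
  induction p with
  | zero => simp [lprod]
  | succ p ih =>
    rw [Finset.sum_range_succ]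
    have h1 : ∀ i ∈ Finset.range p,
        (lprod D₀ (i + 1) (p + 1 - 1 - i)).comp ((D i - D₀ i).comp (lprod D 0 i)) =
        (D₀ p).comp ((lprod D₀ (i + 1) (p - 1 - i)).comp ((D i - D₀ i).comp (lprod D 0 i))) := by
      intro i hi
      have hi' : i < p := Finset.mem_range.1 hi
      have e1 : p + 1 - 1 - i = (p - 1 - i) + 1 := by omega
      have e2 : i + 1 + (p - 1 - i) = p := by omega
      rw [e1]
      simp only [lprod]
      rw [e2]
      rfl
    rw [Finset.sum_congr rfl h1]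
    have h2 : ∑ i ∈ Finset.range p,
        (D₀ p).comp ((lprod D₀ (i + 1) (p - 1 - i)).comp ((D i - D₀ i).comp (lprod D 0 i))) =
        (D₀ p).comp (lprod D 0 p - lprod D₀ 0 p) := by
      rw [ih]
      ext v
      simp [map_sum]
    rw [h2]
    have e3 : p + 1 - 1 - p = 0 := by omega
    rw [e3]
    simp only [lprod, Nat.zero_add]
    ext v
    simp

private theorem lprod_var_le {n : ℕ} (D D₀ : ℕ → (Eu n →L[ℝ] Eu n)) (p : ℕ) (G δ : ℝ)
    (hG : 0 ≤ G) (hδ : 0 ≤ δ) (h0 : ∀ i q, i + q ≤ p → ‖lprod D₀ i q‖ ≤ G)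
    (hD : ∀ i, i < p → ‖D i - D₀ i‖ ≤ δ) (h1 : ∀ i, i < p → ‖lprod D 0 i‖ ≤ 2 * G) :
    ‖lprod D 0 p - lprod D₀ 0 p‖ ≤ p * (G * (δ * (2 * G))) := by
  rw [lprod_var]
  refine (norm_sum_le _ _).trans ?_
  have h2 : ∀ i ∈ Finset.range p,
      ‖(lprod D₀ (i + 1) (p - 1 - i)).comp ((D i - D₀ i).comp (lprod D 0 i))‖ ≤
        G * (δ * (2 * G)) := by
    intro i hi
    have hi' : i < p := Finset.mem_range.1 hi
    refine (ContinuousLinearMap.opNorm_comp_le _ _).trans ?_
    refine mul_le_mul (h0 _ _ (by omega)) ?_ (norm_nonneg _) hG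
    refine (ContinuousLinearMap.opNorm_comp_le _ _).trans ?_
    exact mul_le_mul (hD i hi') (h1 i hi') (norm_nonneg _) hδ
  refine (Finset.sum_le_sum h2).trans ?_
  rw [Finset.sum_const, Finset.card_range, nsmul_eq_mul]

theorem con_seq {n : ℕ} (N : ℕ) (G κ₀ σ : ℝ) (hG : 1 ≤ G) (hκ₀ : 1 ≤ κ₀) (hσ : 0 < σ)
    (F : ℕ → Eu n → Eu n) (u : ℕ → Eu n) (hu : ∀ i, i < N → F i (u i) = u (i + 1))
    (hF : ∀ i, i < N → Con (F i) (u i) σ κ₀ κ₀) (hσ1 : σ ≤ 1)
    (hP : ∀ i p, i + p ≤ N → ‖prodD F u i p‖ ≤ G) :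
    ∀ p, p ≤ N →
      Con (compSeq F p) (u 0) (σ / (8 * (N + 1) * κ₀ * G ^ 2)) (2 * G)
        (4 * (N + 1) * κ₀ * G ^ 3) ∧
      ∀ w ∈ Metric.closedBall (u 0) (σ / (8 * (N + 1) * κ₀ * G ^ 2)),
        compSeq F p w ∈ Metric.closedBall (u p) σ := by
  have hN0 : (0 : ℝ) ≤ N := Nat.cast_nonneg N
  have hG0 : 0 < G := by linarith
  have hκ0 : 0 < κ₀ := by linarith
  set R : ℝ := σ / (8 * (N + 1) * κ₀ * G ^ 2) with hRdef
  have hden : 0 < 8 * ((N : ℝ) + 1) * κ₀ * G ^ 2 := by positivity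
  have hR : 0 < R := div_pos hσ hden
  have hReq : R * (8 * ((N : ℝ) + 1) * κ₀ * G ^ 2) = σ := by
    rw [hRdef]; field_simp
  -- `2 G R ≤ σ` and `4 (N + 1) κ₀ G ^ 3 R ≤ G`
  have hR1 : 2 * G * R ≤ σ := by
    have h1 : 2 * G ≤ 8 * ((N : ℝ) + 1) * κ₀ * G ^ 2 := by
      have h2 : (1 : ℝ) ≤ ((N : ℝ) + 1) * κ₀ := by nlinarith
      have h3 : G ≤ G ^ 2 := by nlinarith
      have h4 : G ^ 2 ≤ ((N : ℝ) + 1) * κ₀ * G ^ 2 := by
        have := mul_le_mul_of_nonneg_right h2 (sq_nonneg G)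
        linarith
      nlinarith
    have h5 := mul_le_mul_of_nonneg_left h1 hR.le
    rw [hReq] at h5
    linarith
  have hR2 : 4 * ((N : ℝ) + 1) * κ₀ * G ^ 3 * R ≤ G := by
    have h1 : 4 * ((N : ℝ) + 1) * κ₀ * G ^ 3 * R
        = G / 2 * (R * (8 * ((N : ℝ) + 1) * κ₀ * G ^ 2)) := by ring
    rw [h1, hReq]
    nlinarith
  choose! F' hF' using hF
  have hfd : ∀ i, i < N → fderiv ℝ (F i) (u i) = F' i (u i) := fun i hi =>
    (hF' i hi (u i) (Metric.mem_closedBall_self hσ.le)).1.fderiv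
  have hcu : ∀ i, i ≤ N → compSeq F i (u 0) = u i := by
    intro i
    induction i with
    | zero => intro _; rfl
    | succ i ih =>
      intro hi
      show F i (compSeq F i (u 0)) = u (i + 1)
      rw [ih (by omega), hu i (by omega)]
  -- the products of derivatives at the base orbit
  have hprod : ∀ i q, i + q ≤ N → lprod (fun j => F' j (u j)) i q = prodD F u i q := by
    intro i q
    induction q with
    | zero => intro _; rfl
    | succ q ih =>
      intro hq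
      simp only [lprod, prodD]
      rw [ih (by omega), hfd _ (by omega)]
  have hlp : ∀ i q, i + q ≤ N → ‖lprod (fun j => F' j (u j)) i q‖ ≤ G := by
    intro i q hq
    rw [hprod i q hq]
    exact hP i q hq
  have key : ∀ p, p ≤ N → ∀ w ∈ Metric.closedBall (u 0) R,
      ‖compSeq F p w - u p‖ ≤ 2 * G * ‖w - u 0‖ ∧
      ‖lprod (fun j => F' j (compSeq F j w)) 0 p‖ ≤ 2 * G ∧
      ‖lprod (fun j => F' j (compSeq F j w)) 0 p - prodD F u 0 p‖ ≤
        4 * p * κ₀ * G ^ 3 * ‖w - u 0‖ ∧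
      HasFDerivAt (compSeq F p) (lprod (fun j => F' j (compSeq F j w)) 0 p) w := by
    intro p
    induction p using Nat.strong_induction_on with
    | _ p ih =>
    intro hp
    rcases p with _ | p
    · intro w hw
      refine ⟨?_, ?_, ?_, ?_⟩
      · show ‖w - u 0‖ ≤ 2 * G * ‖w - u 0‖
        have := norm_nonneg (w - u 0)
        nlinarith
      · show ‖ContinuousLinearMap.id ℝ (Eu n)‖ ≤ 2 * G
        exact ContinuousLinearMap.norm_id_le.trans (by linarith)
      · show ‖ContinuousLinearMap.id ℝ (Eu n) - ContinuousLinearMap.id ℝ (Eu n)‖ ≤ _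
        rw [sub_self, norm_zero]
        positivity
      · exact hasFDerivAt_id w
    · -- the distance to the centre
      have hball : ∀ w ∈ Metric.closedBall (u 0) R, ∀ j, j ≤ p →
          compSeq F j w ∈ Metric.closedBall (u j) σ := by
        intro w hw j hj
        rw [Metric.mem_closedBall, dist_eq_norm]
        have h1 := (ih j (by omega) (by omega) w hw).1
        have h2 : ‖w - u 0‖ ≤ R := by rw [← dist_eq_norm]; exact Metric.mem_closedBall.1 hw
        have h3 : 2 * G * ‖w - u 0‖ ≤ 2 * G * R := mul_le_mul_of_nonneg_left h2 (by linarith)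
        linarith
      have hder : ∀ w ∈ Metric.closedBall (u 0) R,
          HasFDerivAt (compSeq F (p + 1)) (lprod (fun j => F' j (compSeq F j w)) 0 (p + 1)) w := by
        intro w hw
        have h1 := (ih p (by omega) (by omega) w hw).2.2.2
        have h2 := (hF' p (by omega) _ (hball w hw p le_rfl)).1
        have h3 := h2.comp w h1
        have h4 : lprod (fun j => F' j (compSeq F j w)) 0 (p + 1) =
            (F' p (compSeq F p w)).comp (lprod (fun j => F' j (compSeq F j w)) 0 p) := by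
          simp only [lprod, Nat.zero_add]
        rw [h4]
        exact h3
      have hvar : ∀ w ∈ Metric.closedBall (u 0) R,
          ‖lprod (fun j => F' j (compSeq F j w)) 0 (p + 1) - prodD F u 0 (p + 1)‖ ≤
            4 * (p + 1 : ℕ) * κ₀ * G ^ 3 * ‖w - u 0‖ := by
        intro w hw
        have h1 := lprod_var_le (fun j => F' j (compSeq F j w)) (fun j => F' j (u j)) (p + 1) G
          (κ₀ * (2 * G * ‖w - u 0‖)) hG0.le (by positivity)
          (fun i q hq => hlp i q (by omega))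
          (fun i hi => by
            have h2 := (hF' i (by omega) _ (hball w hw i (by omega))).2.2
            refine h2.trans ?_
            exact mul_le_mul_of_nonneg_left (ih i (by omega) (by omega) w hw).1 hκ0.le)
          (fun i hi => (ih i (by omega) (by omega) w hw).2.1)
        rw [hprod 0 (p + 1) (by omega)] at h1
        refine h1.trans (le_of_eq ?_)
        ring
      have hnorm : ∀ w ∈ Metric.closedBall (u 0) R,
          ‖lprod (fun j => F' j (compSeq F j w)) 0 (p + 1)‖ ≤ 2 * G := by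
        intro w hw
        have h1 := hvar w hw
        have h2 := hP 0 (p + 1) (by omega)
        have h3 : ‖w - u 0‖ ≤ R := by rw [← dist_eq_norm]; exact Metric.mem_closedBall.1 hw
        have h4 : ((p + 1 : ℕ) : ℝ) ≤ (N : ℝ) + 1 := by
          have : ((p + 1 : ℕ) : ℝ) ≤ (N : ℝ) := by exact_mod_cast hp
          linarith
        have h5 : 4 * ((p + 1 : ℕ) : ℝ) * κ₀ * G ^ 3 * ‖w - u 0‖ ≤
            4 * ((N : ℝ) + 1) * κ₀ * G ^ 3 * R := by
          have h6 : 4 * ((p + 1 : ℕ) : ℝ) * κ₀ * G ^ 3 ≤ 4 * ((N : ℝ) + 1) * κ₀ * G ^ 3 := by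
            have h7 : 0 ≤ κ₀ * G ^ 3 := by positivity
            nlinarith
          exact mul_le_mul h6 h3 (norm_nonneg _) (by positivity)
        have h8 : lprod (fun j => F' j (compSeq F j w)) 0 (p + 1) =
            (lprod (fun j => F' j (compSeq F j w)) 0 (p + 1) - prodD F u 0 (p + 1)) +
              prodD F u 0 (p + 1) := by abel
        rw [h8]
        refine (norm_add_le _ _).trans ?_
        linarith
      intro w hw
      refine ⟨?_, hnorm w hw, hvar w hw, hder w hw⟩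
      have h1 := Convex.norm_image_sub_le_of_norm_hasFDerivWithin_le
        (f := compSeq F (p + 1)) (f' := fun w => lprod (fun j => F' j (compSeq F j w)) 0 (p + 1))
        (s := Metric.closedBall (u 0) R) (C := 2 * G) (x := u 0) (y := w)
        (fun w hw => (hder w hw).hasFDerivWithinAt) (fun w hw => hnorm w hw)
        (convex_closedBall (u 0) R) (Metric.mem_closedBall_self hR.le) hw
      rw [hcu (p + 1) hp] at h1
      exact h1
  intro p hp
  refine ⟨⟨fun w => lprod (fun j => F' j (compSeq F j w)) 0 p, fun w hw => ?_⟩, fun w hw => ?_⟩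
  · obtain ⟨-, k2, k3, k4⟩ := key p hp w hw
    refine ⟨k4, k2, ?_⟩
    have h0 : lprod (fun j => F' j (compSeq F j (u 0))) 0 p = prodD F u 0 p := by
      have h1 := (key p hp (u 0) (Metric.mem_closedBall_self hR.le)).2.2.1
      rw [sub_self, norm_zero, mul_zero] at h1
      have h2 := norm_le_zero_iff.1 h1
      exact sub_eq_zero.1 h2
    show ‖lprod (fun j => F' j (compSeq F j w)) 0 p -
      lprod (fun j => F' j (compSeq F j (u 0))) 0 p‖ ≤ _
    rw [h0]
    refine k3.trans ?_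
    refine mul_le_mul_of_nonneg_right ?_ (norm_nonneg _)
    have h4 : (p : ℝ) ≤ (N : ℝ) + 1 := by
      have : (p : ℝ) ≤ (N : ℝ) := by exact_mod_cast hp
      linarith
    have h7 : 0 ≤ κ₀ * G ^ 3 := by positivity
    nlinarith
  · rw [Metric.mem_closedBall, dist_eq_norm]
    have h1 := (key p hp w hw).1
    have h2 : ‖w - u 0‖ ≤ R := by rw [← dist_eq_norm]; exact Metric.mem_closedBall.1 hw
    have h3 : 2 * G * ‖w - u 0‖ ≤ 2 * G * R := mul_le_mul_of_nonneg_left h2 (by linarith)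
    linarith

end Pool.Agent.CL
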