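import Pool.Agent.Lib_MP_b9d69a.GRA
import Pool.Agent.Lib_MP_b9d69a.GRP
import Pool.Agent.Lib_MP_b9d69a.GRQ

/-!
# Piece GR-C: control of the iterates by the growth

Proof.  Take `t, Z, L` from `exists_fin_atlas` and `σ, κ₀` from `exists_step`; `W = Z x`, `ρ = σ`,
`C₁ = 8 * κ₀ * L ^ 4` (or larger).  Let `z ∈ W`, `f^[N] z ∈ W`, `UpLE f z N G`.  For `N = 0` take the
identity.  For `N ≥ 1` choose `y i ∈ t` with `f^[i] z ∈ Z (y i)`, `y 0 = y N = x`, and
`c i = chartAt (y i)`; `F, u` as in GRP; `prodD_bound` gives `‖prodD F u i p‖ ≤ L ^ 2 G =: G'`; `con_seq`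
gives `Con (compSeq F N) (φ z) (σ / (8 (N+1) κ₀ G' ^ 2)) (2 G') (4 (N+1) κ₀ G' ^ 3)`.  By induction
on `i ≤ N`: for `w` in the ball `compSeq F i w = c i (f^[i] (φ.symm w))` and
`f^[i] (φ.symm w) ∈ (c i).source` (first part of `exists_step`, `compSeq F i w ∈ closedBall (u i) σ`).
All constants are bounded by `κ = (C₁ (N+1) G) ^ 4`; `Con.mono`.
-/

set_option autoImplicit false
open scoped Manifold Topology ContDiff
open Set Filter

namespace Pool.Agent.CL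

variable {n : ℕ} {M : Type} [MetricSpace M] [ChartedSpace (Eu n) M]
    [IsManifold 𝓘(ℝ, Eu n) ((⊤ : ℕ∞) : WithTop ℕ∞) M] [CompactSpace M]

theorem local_growth (hM : LocBiLip n M) (f : Dif n M) (x : M) :
    ∃ C₁ ρ : ℝ, 1 ≤ C₁ ∧ 0 < ρ ∧ ∃ W ∈ 𝓝 x, W ⊆ (chartAt (Eu n) x).source ∧
      ∀ z ∈ W, ∀ N : ℕ, ∀ G : ℝ, 1 ≤ G → UpLE f z N G → f^[N] z ∈ W →
        (∀ u ∈ Metric.closedBall (chartAt (Eu n) x z) (ρ / (C₁ * (N + 1) * G) ^ 4),
          u ∈ (chartAt (Eu n) x).target ∧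
          f^[N] ((chartAt (Eu n) x).symm u) ∈ (chartAt (Eu n) x).source) ∧
        Con (fun u => chartAt (Eu n) x (f^[N] ((chartAt (Eu n) x).symm u)))
          (chartAt (Eu n) x z) (ρ / (C₁ * (N + 1) * G) ^ 4) ((C₁ * (N + 1) * G) ^ 4)
          ((C₁ * (N + 1) * G) ^ 4) := by
  classical
  obtain ⟨t, Z, L, hxt, hL, hZx, hZ, hcov⟩ := exists_fin_atlas hM x
  obtain ⟨σ, κ₀, hσ0, hσ1, hκ, hstep⟩ :=
    exists_step f t Z (fun y hy => ⟨(hZ y hy).1, (hZ y hy).2.1⟩)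
  have hκ0 : 0 < κ₀ := by linarith
  have hL0 : 0 < L := by linarith
  have hL4 : 1 ≤ L ^ 4 := one_le_pow₀ hL
  refine ⟨8 * κ₀ * L ^ 4, σ, ?_, hσ0, Z x, hZx, (hZ x hxt).2.1, ?_⟩
  · nlinarith [mul_le_mul hκ hL4 zero_le_one hκ0.le]
  intro z hz N G hG hup hzN
  have hG0 : 0 < G := by linarith
  -- the charts along the orbit
  choose y' hy't hy'Z using fun i : ℕ => hcov (f^[i] z)
  let y : ℕ → M := fun i => if i = 0 ∨ i = N then x else y' i
  have hy0 : y 0 = x := if_pos (Or.inl rfl)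
  have hyN : y N = x := if_pos (Or.inr rfl)
  have hyt : ∀ i, y i ∈ t := by
    intro i
    by_cases h : i = 0 ∨ i = N
    · have : y i = x := if_pos h
      rw [this]; exact hxt
    · have : y i = y' i := if_neg h
      rw [this]; exact hy't i
  have hyZ : ∀ i, f^[i] z ∈ Z (y i) := by
    intro i
    by_cases h : i = 0 ∨ i = N
    · have h1 : y i = x := if_pos h
      rw [h1]
      rcases h with rfl | rfl
      · exact hz
      · exact hzN
    · have h1 : y i = y' i := if_neg h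
      rw [h1]; exact hy'Z i
  clear_value y
  set c : ℕ → OpenPartialHomeomorph M (Eu n) := fun i => chartAt (Eu n) (y i) with hcdef
  have hc : ∀ i, c i ∈ atlas (Eu n) M := fun i => chart_mem_atlas _ _
  have hc0 : c 0 = chartAt (Eu n) x := by rw [hcdef]; simp only [hy0]
  have hcN : c N = chartAt (Eu n) x := by rw [hcdef]; simp only [hyN]
  have hzs : ∀ i, f^[i] z ∈ (c i).source := fun i => (hZ (y i) (hyt i)).2.1 (hyZ i)
  have hbl : ∀ i, BiLipAt (c i) (f^[i] z) L := fun i => (hZ (y i) (hyt i)).2.2 _ (hyZ i)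
  set F : ℕ → Eu n → Eu n := fun j w => c (j + 1) (f ((c j).symm w)) with hFdef
  set u : ℕ → Eu n := fun j => c j (f^[j] z) with hudef
  have hfi : ∀ i, f (f^[i] z) = f^[i + 1] z := fun i => (Function.iterate_succ_apply' f i z).symm
  have hst : ∀ i, (∀ w ∈ Metric.closedBall (u i) σ, w ∈ (c i).target ∧
      f ((c i).symm w) ∈ (c (i + 1)).source) ∧ Con (F i) (u i) σ κ₀ κ₀ := by
    intro i
    have h1 : f (f^[i] z) ∈ Z (y (i + 1)) := by rw [hfi]; exact hyZ (i + 1)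
    exact hstep (y i) (hyt i) (y (i + 1)) (hyt (i + 1)) (f^[i] z) (hyZ i) h1
  have hu1 : ∀ i, i < N → F i (u i) = u (i + 1) := by
    intro i _
    change c (i + 1) (f ((c i).symm (c i (f^[i] z)))) = c (i + 1) (f^[i + 1] z)
    rw [(c i).left_inv (hzs i), hfi]
  have hP : ∀ i p, i + p ≤ N → ‖prodD F u i p‖ ≤ L ^ 2 * G := fun i p hip =>
    prodD_bound f z N c hc (fun i _ => hzs i) L G hL hG (fun i _ => hbl i) hup i p hip
  have hL2 : 1 ≤ L ^ 2 := one_le_pow₀ hL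
  have hG' : 1 ≤ L ^ 2 * G := by nlinarith
  have hseq := con_seq N (L ^ 2 * G) κ₀ σ hG' hκ hσ0 F u hu1 (fun i _ => (hst i).2) hσ1 hP
  -- constants
  set R₀ : ℝ := σ / (8 * (N + 1) * κ₀ * (L ^ 2 * G) ^ 2) with hR₀
  set a : ℝ := 8 * κ₀ * L ^ 4 * (N + 1) * G with ha
  have hN0 : (0 : ℝ) ≤ N := Nat.cast_nonneg N
  have hN1 : (1 : ℝ) ≤ N + 1 := by linarith
  have hb1 : 1 ≤ κ₀ * L ^ 4 := by nlinarith [mul_le_mul hκ hL4 zero_le_one hκ0.le]
  have hb2 : 1 ≤ κ₀ * L ^ 4 * (N + 1) := by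
    nlinarith [mul_le_mul hb1 hN1 zero_le_one (by positivity : (0 : ℝ) ≤ κ₀ * L ^ 4)]
  have haG : 8 * G ≤ a := by
    have : a = 8 * ((κ₀ * L ^ 4 * (N + 1)) * G) := by rw [ha]; ring
    rw [this]
    nlinarith [mul_le_mul hb2 le_rfl hG0.le (by positivity : (0 : ℝ) ≤ κ₀ * L ^ 4 * (N + 1))]
  have ha8 : 8 ≤ a := by linarith
  have ha0 : 0 < a := by linarith
  have ha1 : 1 ≤ a := by linarith
  have hR0pos : 0 < 8 * ((N : ℝ) + 1) * κ₀ * (L ^ 2 * G) ^ 2 := by positivity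
  have hden : 8 * ((N : ℝ) + 1) * κ₀ * (L ^ 2 * G) ^ 2 < a ^ 4 := by
    have h1 : 8 * ((N : ℝ) + 1) * κ₀ * (L ^ 2 * G) ^ 2 = a * G := by rw [ha]; ring
    rw [h1]
    have h2 : a * G ≤ a * a := mul_le_mul_of_nonneg_left (by linarith) ha0.le
    have h3 : a * a < a ^ 4 := by
      have h4 : a ^ 4 = (a * a) * (a * a) := by ring
      have h5 : 1 < a * a := by nlinarith
      rw [h4]
      nlinarith
    linarith
  have hR : σ / a ^ 4 < R₀ := by
    rw [hR₀]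
    exact div_lt_div_of_pos_left hσ0 hR0pos hden
  have hRσ : R₀ ≤ σ := by
    rw [hR₀]
    refine div_le_self hσ0.le ?_
    have h1 : 8 * ((N : ℝ) + 1) * κ₀ * (L ^ 2 * G) ^ 2 = a * G := by rw [ha]; ring
    rw [h1]
    nlinarith
  have hB : 2 * (L ^ 2 * G) ≤ a ^ 4 := by
    have h1 : 2 * (L ^ 2 * G) ≤ a := by
      have h2 : L ^ 2 ≤ κ₀ * L ^ 4 * (N + 1) := by
        have h3 : L ^ 2 ≤ L ^ 4 := pow_le_pow_right₀ hL (by norm_num)
        have h4 : L ^ 4 ≤ κ₀ * L ^ 4 := by nlinarith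
        have h5 : κ₀ * L ^ 4 ≤ κ₀ * L ^ 4 * (N + 1) := by nlinarith
        linarith
      have h6 : L ^ 2 * G ≤ κ₀ * L ^ 4 * (N + 1) * G := mul_le_mul_of_nonneg_right h2 hG0.le
      have h7 : a = 8 * (κ₀ * L ^ 4 * (N + 1) * G) := by rw [ha]; ring
      rw [h7]
      have h8 : 0 < κ₀ * L ^ 4 * (N + 1) * G := by positivity
      linarith
    exact h1.trans (le_self_pow₀ ha1 (by norm_num))
  have hLL : 4 * ((N : ℝ) + 1) * κ₀ * (L ^ 2 * G) ^ 3 ≤ a ^ 4 := by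
    have h1 : 4 * ((N : ℝ) + 1) * κ₀ * (L ^ 2 * G) ^ 3 ≤ a ^ 3 := by
      have h2 : a ^ 3 = (8 * κ₀ * (N + 1)) ^ 3 * L ^ 6 * (L ^ 2 * G) ^ 3 := by rw [ha]; ring
      rw [h2]
      refine mul_le_mul_of_nonneg_right ?_ (by positivity)
      have h3 : 1 ≤ 8 * κ₀ * ((N : ℝ) + 1) := by
        nlinarith [mul_le_mul hκ hN1 zero_le_one hκ0.le]
      have h4 : 8 * κ₀ * ((N : ℝ) + 1) ≤ (8 * κ₀ * (N + 1)) ^ 3 := le_self_pow₀ h3 (by norm_num)
      have h5 : (8 * κ₀ * ((N : ℝ) + 1)) ^ 3 ≤ (8 * κ₀ * (N + 1)) ^ 3 * L ^ 6 :=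
        le_mul_of_one_le_right (by positivity) (one_le_pow₀ hL)
      have h6 : 0 < κ₀ * ((N : ℝ) + 1) := by positivity
      nlinarith
    exact h1.trans (pow_le_pow_right₀ ha1 (by norm_num))
  -- the composition is the iterate
  have hiter : ∀ w ∈ Metric.closedBall (u 0) R₀, w ∈ (c 0).target ∧ ∀ i, i ≤ N →
      compSeq F i w = c i (f^[i] ((c 0).symm w)) ∧ f^[i] ((c 0).symm w) ∈ (c i).source := by
    intro w hw
    have hwt : w ∈ (c 0).target :=
      ((hst 0).1 w (Metric.closedBall_subset_closedBall hRσ hw)).1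
    refine ⟨hwt, fun i => ?_⟩
    induction i with
    | zero =>
      intro _
      exact ⟨((c 0).right_inv hwt).symm, (c 0).map_target hwt⟩
    | succ i ih =>
      intro hi
      obtain ⟨h1, h2⟩ := ih (by omega)
      have h3 := ((hst i).1 _ ((hseq i (by omega)).2 w hw)).2
      have h4 : f ((c i).symm (compSeq F i w)) = f^[i + 1] ((c 0).symm w) := by
        rw [h1, (c i).left_inv h2, Function.iterate_succ_apply']
      rw [h4] at h3
      refine ⟨?_, h3⟩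
      change c (i + 1) (f ((c i).symm (compSeq F i w))) = _
      rw [h4]
  have hu0 : u 0 = chartAt (Eu n) x z := by
    change c 0 z = _
    rw [hc0]
  have hsub : Metric.closedBall (chartAt (Eu n) x z) (σ / a ^ 4) ⊆ Metric.ball (u 0) R₀ := by
    rw [hu0]
    exact Metric.closedBall_subset_ball hR
  have hfun : ∀ w ∈ Metric.ball (u 0) R₀,
      chartAt (Eu n) x (f^[N] ((chartAt (Eu n) x).symm w)) = compSeq F N w := by
    intro w hw
    have h1 := ((hiter w (Metric.ball_subset_closedBall hw)).2 N le_rfl).1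
    rw [hcN, hc0] at h1
    exact h1.symm
  refine ⟨fun w hw => ?_, ?_⟩
  · have h1 := hiter w (Metric.ball_subset_closedBall (hsub hw))
    have h2 := (h1.2 N le_rfl).2
    rw [hcN, hc0] at h2
    rw [hc0] at h1
    exact ⟨h1.1, h2⟩
  · obtain ⟨F', hF'⟩ := (hseq N le_rfl).1
    refine ⟨F', fun w hw => ?_⟩
    obtain ⟨h1, h2, h3⟩ := hF' w (Metric.ball_subset_closedBall (hsub hw))
    refine ⟨h1.congr_of_eventuallyEq ?_, h2.trans hB, ?_⟩
    · filter_upwards [Metric.isOpen_ball.mem_nhds (hsub hw)] with v hv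
      exact hfun v hv
    · rw [hu0] at h3
      exact h3.trans (mul_le_mul_of_nonneg_right hLL (norm_nonneg _))

end Pool.Agent.CL
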