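import Pool.Agent.Lib_MP_b9d69a.GRC

/-!
# Piece GR-F: the return data with growth constants

`upLE_symm`: `f.symm^[i] (f^[p] z) = f^[p - i] z`; if `u` is near this point, `v = f.symm^[q] u` is near
`f^[p - i - q] z`; the second inequality of `GrowthLE f z N G` for `(p - i - q, q)` at `v`.
`exists_retData`: as in ERF.lean (copy its proof: `local_data` is replaced by `local_growth` for `f` and
`f.symm`, `K ^ p` by the constant `κ = (C₁ k G) ^ 4`): with `C₂, ρ₂, W₂` for `f` and `C₃, ρ₃, W₃` for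
`f.symm` put `C₁ = 3 max C₂ C₃` (`N + 1 ≤ 2 k + 1 ≤ 3 k`), `ρ ≤ ρ₂, ρ₃` small, `W` small;
`near p := f^[p] z ∈ φ.source ∧ ‖φ (f^[p] z) - φ z‖ ≤ ρ`, `a p = φ (f^[p] z) - φ z`,
`A p = fderiv ℝ (φ ∘ f^[p] ∘ φ.symm) (φ z)`.  `near_add`: `F = φ ∘ f^[p] ∘ φ.symm` at
`φ z + a q`: `f^[p + q] z = f^[p] (f^[q] z) ∈ φ.source` and
`‖a (p + q)‖ ≤ ‖a p‖ + κ ‖a q‖ ≤ ρ` (`Con.norm_sub_le`).  `A 0 = id`: the map is the identity near `φ z`.
`UpLE f z p G` for `p ≤ 2 k` follows from `GrowthLE f z (2 k) G`.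
-/

set_option autoImplicit false
open scoped Manifold Topology ContDiff
open Set Filter

namespace Pool.Agent.CL

variable {n : ℕ} {M : Type} [MetricSpace M] [ChartedSpace (Eu n) M]

private theorem symm_iter_iter (f : Dif n M) (p : ℕ) (y : M) :
    (⇑f.symm)^[p] (f^[p] y) = y :=
  (Function.LeftInverse.iterate (fun w => f.symm_apply_apply w) p) y

private theorem iter_symm_iter (f : Dif n M) (p : ℕ) (y : M) :
    f^[p] ((⇑f.symm)^[p] y) = y :=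
  (Function.LeftInverse.iterate (fun w => f.apply_symm_apply w) p) y

private theorem symm_iter_sub (f : Dif n M) (z : M) (i r : ℕ) :
    (⇑f.symm)^[i] (f^[i + r] z) = f^[r] z := by
  rw [Function.iterate_add_apply, symm_iter_iter]

theorem upLE_symm (f : Dif n M) (z : M) (N : ℕ) (G : ℝ) (h : GrowthLE f z N G) (p : ℕ)
    (hp : p ≤ N) : UpLE f.symm (f^[p] z) p G := by
  intro i q hiq
  obtain ⟨r, rfl⟩ := Nat.exists_eq_add_of_le hiq
  have e1 : (⇑f.symm)^[i] (f^[i + q + r] z) = f^[r + q] z := by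
    rw [show i + q + r = i + (r + q) by omega, symm_iter_sub]
  have e2 : (⇑f.symm)^[i + q] (f^[i + q + r] z) = f^[r] z := symm_iter_sub f z (i + q) r
  have e3 : (⇑f.symm)^[q] (f^[r + q] z) = f^[r] z := by
    rw [show r + q = q + r by omega, symm_iter_sub]
  rw [e1, e2]
  have hc : Continuous ((⇑f.symm)^[q]) := f.symm.continuous.iterate q
  have ht : Tendsto ((⇑f.symm)^[q]) (𝓝 (f^[r + q] z)) (𝓝 (f^[r] z)) := by
    have := hc.tendsto (f^[r + q] z)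
    rwa [e3] at this
  filter_upwards [ht.eventually (h r q (by omega))] with u hu
  have := hu.2
  rwa [iter_symm_iter] at this

private theorem growthLE_upLE (f : Dif n M) (z : M) (N : ℕ) (G : ℝ) (h : GrowthLE f z N G)
    (p : ℕ) (hp : p ≤ N) : UpLE f z p G := by
  intro i q hiq
  filter_upwards [h i q (by omega)] with u hu
  exact hu.1

theorem exists_retData [IsManifold 𝓘(ℝ, Eu n) ((⊤ : ℕ∞) : WithTop ℕ∞) M] [CompactSpace M]
    (hM : LocBiLip n M) (f : Dif n M) (x : M) :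
    ∃ C₁ ρ : ℝ, 2 ≤ C₁ ∧ 0 < ρ ∧ ∃ W ∈ 𝓝 x, W ⊆ (chartAt (Eu n) x).source ∧
      ∀ z ∈ W, ∀ k : ℕ, 1 ≤ k → ∀ G : ℝ, 1 ≤ G → GrowthLE f z (2 * k) G →
        ∃ D : RetData n k ((C₁ * k * G) ^ 4) ρ,
          (∀ p, D.near p ↔ f^[p] z ∈ (chartAt (Eu n) x).source ∧
            ‖chartAt (Eu n) x (f^[p] z) - chartAt (Eu n) x z‖ ≤ ρ) ∧
          ∀ p, D.a p = chartAt (Eu n) x (f^[p] z) - chartAt (Eu n) x z := by
  classical
  obtain ⟨C₂, ρ₁, hC₂, hρ₁, W₁, hW₁, hW₁s, h₁⟩ := local_growth hM f x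
  obtain ⟨C₃, ρ₂, hC₃, hρ₂, W₂, hW₂, hW₂s, h₂⟩ := local_growth hM f.symm x
  set φ := chartAt (Eu n) x with hφ
  have hx : x ∈ φ.source := mem_chart_source _ x
  set C := 3 * max C₂ C₃ with hC
  have hC1 : 3 * C₂ ≤ C := mul_le_mul_of_nonneg_left (le_max_left _ _) (by norm_num)
  have hC2 : 3 * C₃ ≤ C := mul_le_mul_of_nonneg_left (le_max_right _ _) (by norm_num)
  have hnb : φ.symm ⁻¹' (W₁ ∩ W₂) ∩ φ.target ∈ 𝓝 (φ x) :=
    Filter.inter_mem (φ.tendsto_symm hx (Filter.inter_mem hW₁ hW₂))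
      (φ.open_target.mem_nhds (φ.map_source hx))
  obtain ⟨r, hr, hrs⟩ := Metric.nhds_basis_closedBall.mem_iff.1 hnb
  set ρ := min (min ρ₁ ρ₂) (r / 2) with hρ
  have hρ0 : 0 < ρ := lt_min (lt_min hρ₁ hρ₂) (by linarith)
  have hρ1 : ρ ≤ ρ₁ := (min_le_left _ _).trans (min_le_left _ _)
  have hρ2 : ρ ≤ ρ₂ := (min_le_left _ _).trans (min_le_right _ _)
  have hρr : ρ + ρ ≤ r := by
    have := min_le_right (min ρ₁ ρ₂) (r / 2)
    linarith
  have hin : ∀ y ∈ φ.source, ‖φ y - φ x‖ ≤ r → y ∈ W₁ ∧ y ∈ W₂ := by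
    intro y hy hyr
    have h := hrs (show φ y ∈ Metric.closedBall (φ x) r by
      rw [mem_closedBall_iff_norm]; exact hyr)
    have h' : φ.symm (φ y) ∈ W₁ ∩ W₂ := h.1
    rw [φ.left_inv hy] at h'
    exact h'
  refine ⟨C, ρ, by linarith, hρ0, φ.source ∩ φ ⁻¹' Metric.ball (φ x) ρ,
    Filter.inter_mem (φ.open_source.mem_nhds hx)
      ((φ.continuousAt hx).preimage_mem_nhds (Metric.ball_mem_nhds _ hρ0)),
    Set.inter_subset_left, ?_⟩
  rintro z ⟨hzs, hzb⟩ k hk G hG hgr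
  have hzb' : ‖φ z - φ x‖ < ρ := by
    rw [← mem_ball_iff_norm]; exact hzb
  have hzW := hin z hzs (by linarith)
  have hk1 : (1 : ℝ) ≤ k := by exact_mod_cast hk
  set κ : ℝ := (C * k * G) ^ 4 with hκ
  -- the local constants are at most `κ`
  have hbase : ∀ (c : ℝ) (p : ℕ), 1 ≤ c → 3 * c ≤ C → p ≤ 2 * k →
      1 ≤ c * (p + 1) * G ∧ (c * (p + 1) * G) ^ 4 ≤ κ := by
    intro c p hc hcC hp
    have hp' : ((p : ℝ)) + 1 ≤ 3 * k := by
      have : (p : ℝ) ≤ 2 * k := by exact_mod_cast hp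
      linarith
    have hp0 : (1 : ℝ) ≤ (p : ℝ) + 1 := by
      have : (0 : ℝ) ≤ p := Nat.cast_nonneg p
      linarith
    have h1 : 1 ≤ c * (p + 1) := by nlinarith
    have h2 : 1 ≤ c * (p + 1) * G := by nlinarith
    refine ⟨h2, pow_le_pow_left₀ (by linarith) ?_ 4⟩
    have h3 : c * (p + 1) ≤ C * k := by
      calc c * ((p : ℝ) + 1) ≤ c * (3 * k) := mul_le_mul_of_nonneg_left hp' (by linarith)
        _ = (3 * c) * k := by ring
        _ ≤ C * k := mul_le_mul_of_nonneg_right hcC (by linarith)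
    exact mul_le_mul_of_nonneg_right h3 (by linarith)
  have hκ0 : 0 < κ := by
    have h := (hbase C₂ 0 hC₂ hC1 (Nat.zero_le _))
    exact lt_of_lt_of_le (pow_pos (by linarith [h.1]) 4) h.2
  have hκ1 : 1 ≤ κ := by
    have h := (hbase C₂ 0 hC₂ hC1 (Nat.zero_le _))
    exact (one_le_pow₀ h.1).trans h.2
  have hq1 : ∀ p : ℕ, p ≤ 2 * k → 0 < (C₂ * (p + 1) * G) ^ 4 := fun p hp =>
    pow_pos (by linarith [(hbase C₂ p hC₂ hC1 hp).1]) 4
  have hq2 : ∀ p : ℕ, p ≤ 2 * k → 0 < (C₃ * (p + 1) * G) ^ 4 := fun p hp =>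
    pow_pos (by linarith [(hbase C₃ p hC₃ hC2 hp).1]) 4
  have hrad1 : ∀ (p : ℕ) (c : ℝ), p ≤ 2 * k → 0 ≤ c → κ * c ≤ ρ →
      c ≤ ρ₁ / (C₂ * (p + 1) * G) ^ 4 := by
    intro p c hp hc hcρ
    rw [le_div_iff₀ (hq1 p hp)]
    calc c * (C₂ * (p + 1) * G) ^ 4 ≤ c * κ :=
        mul_le_mul_of_nonneg_left (hbase C₂ p hC₂ hC1 hp).2 hc
      _ = κ * c := mul_comm _ _
      _ ≤ ρ₁ := hcρ.trans hρ1
  have hrad2 : ∀ (p : ℕ) (c : ℝ), p ≤ 2 * k → 0 ≤ c → κ * c ≤ ρ →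
      c ≤ ρ₂ / (C₃ * (p + 1) * G) ^ 4 := by
    intro p c hp hc hcρ
    rw [le_div_iff₀ (hq2 p hp)]
    calc c * (C₃ * (p + 1) * G) ^ 4 ≤ c * κ :=
        mul_le_mul_of_nonneg_left (hbase C₃ p hC₃ hC2 hp).2 hc
      _ = κ * c := mul_comm _ _
      _ ≤ ρ₂ := hcρ.trans hρ2
  -- near
  have hnear : ∀ p : ℕ, f^[p] z ∈ φ.source → ‖φ (f^[p] z) - φ z‖ ≤ ρ →
      f^[p] z ∈ W₁ ∧ f^[p] z ∈ W₂ := by
    intro p hs hn
    refine hin _ hs ?_
    calc ‖φ (f^[p] z) - φ x‖ = ‖(φ (f^[p] z) - φ z) + (φ z - φ x)‖ := by congr 1; abel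
      _ ≤ ‖φ (f^[p] z) - φ z‖ + ‖φ z - φ x‖ := norm_add_le _ _
      _ ≤ r := by linarith
  have hinv : ∀ (p : ℕ) (y : M), (⇑f.symm)^[p] (f^[p] y) = y := symm_iter_iter f
  let F : ℕ → Eu n → Eu n := fun p u => φ (f^[p] (φ.symm u))
  have hFz : ∀ p, F p (φ z) = φ (f^[p] z) := fun p => by
    change φ (f^[p] (φ.symm (φ z))) = _
    rw [φ.left_inv hzs]
  have hball0 : ∀ p : ℕ, p ≤ 2 * k →
      φ z ∈ Metric.closedBall (φ z) (ρ₁ / (C₂ * (p + 1) * G) ^ 4) := fun p hp =>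
    Metric.mem_closedBall_self (div_nonneg hρ₁.le (hq1 p hp).le)
  -- the control of the iterates
  have hctl : ∀ p : ℕ, p ≤ 2 * k → f^[p] z ∈ W₁ →
      (∀ u ∈ Metric.closedBall (φ z) (ρ₁ / (C₂ * (p + 1) * G) ^ 4),
          u ∈ φ.target ∧ f^[p] (φ.symm u) ∈ φ.source) ∧
        Con (F p) (φ z) (ρ₁ / (C₂ * (p + 1) * G) ^ 4) κ κ := by
    intro p hp hpW
    obtain ⟨ha, hb⟩ := h₁ z hzW.1 p G hG (growthLE_upLE f z (2 * k) G hgr p hp) hpW
    exact ⟨ha, hb.mono le_rfl (hbase C₂ p hC₂ hC1 hp).2 (hbase C₂ p hC₂ hC1 hp).2⟩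
  refine ⟨{
    near := fun p => f^[p] z ∈ φ.source ∧ ‖φ (f^[p] z) - φ z‖ ≤ ρ
    a := fun p => φ (f^[p] z) - φ z
    A := fun p => fderiv ℝ (F p) (φ z)
    near_norm := fun p h => h.2
    near_zero := ?_
    a_zero := ?_
    A_zero := ?_
    split := ?_
    near_add := ?_
    comp := ?_
    compA := ?_
    bound := ?_ }, fun p => Iff.rfl, fun p => rfl⟩
  · -- near_zero
    refine ⟨hzs, ?_⟩
    change ‖φ z - φ z‖ ≤ ρ
    rw [sub_self, norm_zero]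
    exact hρ0.le
  · -- a_zero
    change φ z - φ z = 0
    exact sub_self _
  · -- A_zero
    have hev : F 0 =ᶠ[𝓝 (φ z)] id := by
      filter_upwards [φ.open_target.mem_nhds (φ.map_source hzs)] with u hu
      change φ (φ.symm u) = u
      exact φ.right_inv hu
    change fderiv ℝ (F 0) (φ z) = _
    rw [hev.fderiv_eq, fderiv_id]
  · -- split
    intro p s hpsk hps hpn hle
    have hpk : p ≤ 2 * k := by omega
    obtain ⟨hball, hCon⟩ := h₂ (f^[p] z) (hnear p hpn.1 hpn.2).2 p G hG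
      (upLE_symm f z (2 * k) G hgr p hpk) (by rw [hinv]; exact hzW.2)
    have hu : ‖φ (f^[p + s] z) - φ (f^[p] z)‖ ≤
        ‖φ (f^[p + s] z) - φ z‖ + ‖φ (f^[p] z) - φ z‖ := by
      calc ‖φ (f^[p + s] z) - φ (f^[p] z)‖ =
          ‖(φ (f^[p + s] z) - φ z) - (φ (f^[p] z) - φ z)‖ := by congr 1; abel
        _ ≤ _ := norm_sub_le _ _
    have hu' : φ (f^[p + s] z) ∈ Metric.closedBall (φ (f^[p] z))
        (ρ₂ / (C₃ * (p + 1) * G) ^ 4) := by
      rw [mem_closedBall_iff_norm]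
      exact hu.trans (hrad2 p _ hpk (add_nonneg (norm_nonneg _) (norm_nonneg _)) hle)
    have hsym : (⇑f.symm)^[p] (φ.symm (φ (f^[p + s] z))) = f^[s] z := by
      rw [φ.left_inv hps.1, Function.iterate_add_apply, hinv]
    have hsrc : f^[s] z ∈ φ.source := by
      have := (hball _ hu').2
      rwa [hsym] at this
    have hb := hCon.norm_sub_le hu'
    simp only [hsym] at hb
    rw [φ.left_inv hpn.1, hinv] at hb
    have hb2 : ‖φ (f^[s] z) - φ z‖ ≤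
        κ * (‖φ (f^[p + s] z) - φ z‖ + ‖φ (f^[p] z) - φ z‖) :=
      hb.trans (mul_le_mul (hbase C₃ p hC₃ hC2 hpk).2 hu (norm_nonneg _) hκ0.le)
    exact ⟨⟨hsrc, hb2.trans hle⟩, hb2⟩
  · -- near_add
    intro p q hpqk hpn hqn hle
    have hpk : p ≤ 2 * k := by omega
    obtain ⟨hball, hCon⟩ := hctl p hpk (hnear p hpn.1 hpn.2).1
    have hleq : κ * ‖φ (f^[q] z) - φ z‖ ≤ ρ := by
      have := norm_nonneg (φ (f^[p] z) - φ z)
      linarith
    have hu' : φ (f^[q] z) ∈ Metric.closedBall (φ z) (ρ₁ / (C₂ * (p + 1) * G) ^ 4) := by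
      rw [mem_closedBall_iff_norm]
      exact hrad1 p _ hpk (norm_nonneg _) hleq
    have e0 : f^[p] (φ.symm (φ (f^[q] z))) = f^[p + q] z := by
      rw [φ.left_inv hqn.1, Function.iterate_add_apply]
    have hsrc : f^[p + q] z ∈ φ.source := by
      have := (hball _ hu').2
      rwa [e0] at this
    have hb := hCon.norm_sub_le hu'
    rw [hFz p] at hb
    have e1 : F p (φ (f^[q] z)) = φ (f^[p + q] z) := by
      change φ (f^[p] (φ.symm (φ (f^[q] z)))) = _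
      rw [e0]
    rw [e1] at hb
    refine ⟨hsrc, ?_⟩
    calc ‖φ (f^[p + q] z) - φ z‖ =
        ‖(φ (f^[p] z) - φ z) + (φ (f^[p + q] z) - φ (f^[p] z))‖ := by congr 1; abel
      _ ≤ ‖φ (f^[p] z) - φ z‖ + ‖φ (f^[p + q] z) - φ (f^[p] z)‖ := norm_add_le _ _
      _ ≤ ‖φ (f^[p] z) - φ z‖ + κ * ‖φ (f^[q] z) - φ z‖ := by linarith
      _ ≤ ρ := hle
  · -- comp
    intro p q hpqk hpn hqn hle
    have hpk : p ≤ 2 * k := by omega
    obtain ⟨hball, hCon⟩ := hctl p hpk (hnear p hpn.1 hpn.2).1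
    have hu' : φ (f^[q] z) ∈ Metric.closedBall (φ z) (ρ₁ / (C₂ * (p + 1) * G) ^ 4) := by
      rw [mem_closedBall_iff_norm]
      exact hrad1 p _ hpk (norm_nonneg _) hle
    have ht := Con.taylor (div_nonneg hρ₁.le (hq1 p hpk).le) hκ0.le hCon hu'
    have e1 : F p (φ (f^[q] z)) = φ (f^[p + q] z) := by
      change φ (f^[p] (φ.symm (φ (f^[q] z)))) = _
      rw [φ.left_inv hqn.1, Function.iterate_add_apply]
    rw [e1, hFz p] at ht
    have e3 : φ (f^[p + q] z) - φ z - (φ (f^[p] z) - φ z) = φ (f^[p + q] z) - φ (f^[p] z) := by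
      abel
    rw [e3]
    exact ht
  · -- compA
    intro p q hpqk hpn hqn hle
    have hpk : p ≤ 2 * k := by omega
    have hqk : q ≤ 2 * k := by omega
    obtain ⟨hbp, P', hP⟩ := hctl p hpk (hnear p hpn.1 hpn.2).1
    obtain ⟨hbq, Q', hQ⟩ := hctl q hqk (hnear q hqn.1 hqn.2).1
    have hu' : φ (f^[q] z) ∈ Metric.closedBall (φ z) (ρ₁ / (C₂ * (p + 1) * G) ^ 4) := by
      rw [mem_closedBall_iff_norm]
      exact hrad1 p _ hpk (norm_nonneg _) hle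
    obtain ⟨hP1, -, hP4⟩ := hP _ hu'
    obtain ⟨hP0, -, -⟩ := hP _ (hball0 p hpk)
    obtain ⟨hQ1, hQ2, -⟩ := hQ _ (hball0 q hqk)
    have hcomp : HasFDerivAt (fun u => F p (F q u)) ((P' (φ (f^[q] z))).comp (Q' (φ z)))
        (φ z) := by
      have hP1' : HasFDerivAt (F p) (P' (φ (f^[q] z))) (F q (φ z)) := by
        rw [hFz q]
        exact hP1
      exact HasFDerivAt.comp (φ z) hP1' hQ1
    have hev : F (p + q) =ᶠ[𝓝 (φ z)] fun u => F p (F q u) := by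
      have hnb : Metric.closedBall (φ z) (ρ₁ / (C₂ * (q + 1) * G) ^ 4) ∈ 𝓝 (φ z) :=
        Metric.closedBall_mem_nhds _ (div_pos hρ₁ (hq1 q hqk))
      filter_upwards [hnb] with u hu
      change φ (f^[p + q] (φ.symm u)) = φ (f^[p] (φ.symm (φ (f^[q] (φ.symm u)))))
      rw [φ.left_inv (hbq u hu).2, Function.iterate_add_apply]
    have eA : fderiv ℝ (F (p + q)) (φ z) = (P' (φ (f^[q] z))).comp (Q' (φ z)) :=
      (hcomp.congr_of_eventuallyEq hev).fderiv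
    have eP : fderiv ℝ (F p) (φ z) = P' (φ z) := HasFDerivAt.fderiv hP0
    have eQ : fderiv ℝ (F q) (φ z) = Q' (φ z) := HasFDerivAt.fderiv hQ1
    rw [eA, eP, eQ, ← ContinuousLinearMap.sub_comp]
    calc ‖(P' (φ (f^[q] z)) - P' (φ z)).comp (Q' (φ z))‖ ≤
        ‖P' (φ (f^[q] z)) - P' (φ z)‖ * ‖Q' (φ z)‖ := ContinuousLinearMap.opNorm_comp_le _ _
      _ ≤ (κ * ‖φ (f^[q] z) - φ z‖) * κ :=
        mul_le_mul hP4 hQ2 (norm_nonneg _) (mul_nonneg hκ0.le (norm_nonneg _))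
      _ = κ ^ 2 * ‖φ (f^[q] z) - φ z‖ := by ring
  · -- bound
    intro p hpk hpn
    obtain ⟨-, P', hP⟩ := hctl p hpk (hnear p hpn.1 hpn.2).1
    obtain ⟨hP0, hP1, -⟩ := hP _ (hball0 p hpk)
    have eP : fderiv ℝ (F p) (φ z) = P' (φ z) := HasFDerivAt.fderiv hP0
    rw [eP]
    exact hP1

end Pool.Agent.CL
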