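import Pool.Agent.Lib_MP_b9d69a.GR0

/-!
# Piece GR-L2: the rotation argument

Paper proof.  Put `N = p + q ≤ 2 k ≤ κ`, `η = ‖a q‖`, `a₀ = a q`, `X = κ E η`,
`t i = (i * p) % N`, `β i = (i * p) / N` (so `t i = i p - β i N`).  If `t i < q` then
`t (i+1) = t i + p` and `β (i+1) = β i`; if `q ≤ t i` then `t (i+1) = t i - q` and
`β (i+1) = β i + 1`.  Claim, for `i ≤ N`, by induction: `near (t i)`,
`V i := ‖A (t i) a₀ - a₀‖ ≤ 2 i X` and `T i := ‖a (t i) + β i • a₀‖ ≤ 4 i ^ 2 X`
(hence, as `β i ≤ i ≤ κ` and `E ≤ 1`, `‖a (t i)‖ ≤ κ η + 4 κ ^ 3 η ≤ 5 κ ^ 3 η`).  `i = 0` is clear.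
* `t = t i < q`, `t' = t + p ≤ 2 k`: `‖a p‖ ≤ E η`; `near_add t p` as
  `‖a t‖ + κ ‖a p‖ ≤ 6 κ ^ 3 η ≤ κ ^ 6 η ≤ ρ`.  `comp t p` and `a (t+p) + β a₀ = (a t + β a₀) + A t (a p) + err`:
  `T' ≤ T + κ E η + κ (E η) ^ 2 ≤ T + 2 X`.  `compA t p` and
  `A t (A p a₀) - a₀ = A t (A p a₀ - a₀) + (A t a₀ - a₀)`: `V' ≤ V + κ E η + κ ^ 2 E η η ≤ V + 2 X`.
* `q ≤ t`, `t' = t - q`, `t = q + t' = t' + q`: `split q t'` as `κ (‖a t‖ + η) ≤ κ * 6 κ ^ 3 η ≤ ρ`:
  `near t'`.  `compA t' q`: `A t' a₀ - a₀ = A t' (a₀ - A q a₀) + (A t' (A q a₀) - A t a₀) + (A t a₀ - a₀)`: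
  `V' ≤ V + κ E η + κ ^ 2 η η ≤ V + 2 X` (as `κ ^ 2 η ≤ E`).  `comp t' q`:
  `a t' + (β + 1) a₀ = (a t + β a₀) - (a t - a t' - A t' a₀) - (A t' a₀ - a₀)`:
  `T' ≤ T + V' + κ η ^ 2 ≤ T + V + 3 X`.
For `i = N`: `t N = 0`, `β N = p ≥ 1`, `a 0 = 0`: `η ≤ p η ≤ 4 N ^ 2 X ≤ 4 κ ^ 3 E η ≤ κ ^ 5 E η`.
-/

set_option autoImplicit false
open scoped Topology
open Set Filter

namespace Pool.Agent.CL

theorem rotation_returns (n k : ℕ) (κ ρ : ℝ) (hκ : 2 ≤ κ) (hκk : 2 * (k : ℝ) ≤ κ)
    (D : RetData n k κ ρ) (p q : ℕ) (hp : 1 ≤ p) (hq : 1 ≤ q) (hpk : p ≤ k) (hqk : q ≤ k)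
    (hnp : D.near p) (hnq : D.near q) (ha : D.a q ≠ 0) (hρ : κ ^ 8 * ‖D.a q‖ ≤ ρ)
    (E : ℝ) (hE0 : 0 ≤ E) (hE1 : E ≤ 1) (hE : κ ^ 2 * ‖D.a q‖ ≤ E)
    (h1 : ‖D.a p‖ ≤ E * ‖D.a q‖) (h2 : ‖D.A p (D.a q) - D.a q‖ ≤ E * ‖D.a q‖)
    (h3 : ‖D.A q (D.a q) - D.a q‖ ≤ E * ‖D.a q‖) :
    1 ≤ κ ^ 5 * E := by
  obtain ⟨η, hη⟩ : ∃ η, η = ‖D.a q‖ := ⟨_, rfl⟩
  obtain ⟨N, hN⟩ : ∃ N, N = p + q := ⟨_, rfl⟩
  obtain ⟨X, hX⟩ : ∃ X, X = κ * E * η := ⟨_, rfl⟩
  rw [← hη] at hρ hE h1 h2 h3
  have hη0 : 0 < η := by rw [hη]; exact norm_pos_iff.2 ha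
  have hκ1 : 1 ≤ κ := by linarith
  have hκ0 : 0 < κ := by linarith
  have hN0 : 0 < N := by omega
  have hNk : N ≤ 2 * k := by omega
  have hNκ : (N : ℝ) ≤ κ := by
    have : (N : ℝ) ≤ ((2 * k : ℕ) : ℝ) := by exact_mod_cast hNk
    push_cast at this
    linarith
  have hX0 : 0 ≤ X := by rw [hX]; positivity
  have hEηX : E * η ≤ X := by
    rw [hX]
    have : 0 ≤ E * η := by positivity
    nlinarith
  have hκ2 : 1 ≤ κ ^ 2 := one_le_pow₀ hκ1
  have hη1 : η ≤ 1 := by nlinarith
  have hEη1 : E * η ≤ 1 := by nlinarith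
  -- powers
  have hpow : ∀ j, j ≤ 8 → κ ^ j * η ≤ ρ := by
    intro j hj
    refine le_trans ?_ hρ
    exact mul_le_mul_of_nonneg_right (pow_le_pow_right₀ hκ1 hj) hη0.le
  have hρ1 : κ * ‖D.a q‖ ≤ ρ := by
    have := hpow 1 (by norm_num)
    rw [pow_one] at this
    rw [← hη]
    exact this
  have hap : κ * ‖D.a p‖ ≤ κ * η := by
    apply mul_le_mul_of_nonneg_left _ hκ0.le
    refine h1.trans ?_
    nlinarith
  have hρ2 : κ * ‖D.a p‖ ≤ ρ := by
    rw [← hη] at hρ1
    linarith
  have key : ∀ i : ℕ, i ≤ N → D.near (i * p % N) ∧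
      ‖D.A (i * p % N) (D.a q) - D.a q‖ ≤ 2 * i * X ∧
      ‖D.a (i * p % N) + ((i * p / N : ℕ) : ℝ) • D.a q‖ ≤ 4 * (i : ℝ) ^ 2 * X := by
    intro i
    induction i with
    | zero =>
      intro _
      rw [zero_mul, Nat.zero_mod, Nat.zero_div, D.a_zero, D.A_zero]
      refine ⟨D.near_zero, ?_, ?_⟩
      · simp
      · simp
    | succ i ih =>
      intro hi
      obtain ⟨hnt, hV, hT⟩ := ih (by omega)
      obtain ⟨t, ht⟩ : ∃ t, t = i * p % N := ⟨_, rfl⟩
      obtain ⟨β, hβ⟩ : ∃ β, β = i * p / N := ⟨_, rfl⟩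
      rw [← ht] at hnt hV hT
      rw [← hβ] at hT
      have hdm : i * p = N * β + t := by
        rw [ht, hβ]
        exact (Nat.div_add_mod _ _).symm
      have htN : t < N := by
        rw [ht]
        exact Nat.mod_lt _ hN0
      have hdm' : (i + 1) * p = N * β + (t + p) := by
        rw [add_mul, one_mul, hdm, add_assoc]
      have hβi : β ≤ i := by
        rw [hβ]
        apply Nat.div_le_of_le_mul
        rw [mul_comm N i]
        exact Nat.mul_le_mul_left _ (by omega)
      have hiκ : (i : ℝ) ≤ κ := by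
        have : (i : ℝ) ≤ (N : ℝ) := by exact_mod_cast (by omega : i ≤ N)
        linarith
      have hi0 : (0 : ℝ) ≤ i := by positivity
      have hβκ : (β : ℝ) ≤ κ := by
        have : (β : ℝ) ≤ (i : ℝ) := by exact_mod_cast hβi
        linarith
      have hTb : ‖D.a t + (β : ℝ) • D.a q‖ ≤ 4 * κ ^ 3 * η := by
        refine hT.trans ?_
        rw [hX]
        have e1 : (i : ℝ) ^ 2 ≤ κ ^ 2 := pow_le_pow_left₀ hi0 hiκ 2
        have e2 : κ * E * η ≤ κ * η := by
          have : 0 ≤ κ * η := by positivity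
          nlinarith
        calc 4 * (i : ℝ) ^ 2 * (κ * E * η) ≤ 4 * κ ^ 2 * (κ * η) :=
              mul_le_mul (by linarith) e2 (by positivity) (by positivity)
          _ = 4 * κ ^ 3 * η := by ring
      have hat : ‖D.a t‖ ≤ 5 * κ ^ 3 * η := by
        have e1 : D.a t = (D.a t + (β : ℝ) • D.a q) - (β : ℝ) • D.a q := by abel
        have e2 := norm_sub_le (D.a t + (β : ℝ) • D.a q) ((β : ℝ) • D.a q)
        rw [← e1, norm_smul, Real.norm_of_nonneg (by positivity : (0 : ℝ) ≤ β), ← hη] at e2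
        have e3 : (β : ℝ) * η ≤ κ ^ 3 * η := by
          apply mul_le_mul_of_nonneg_right _ hη0.le
          refine hβκ.trans ?_
          exact le_self_pow₀ hκ1 (by norm_num)
        linarith
      have h6 : 6 * κ ^ 3 * η ≤ κ ^ 6 * η := by
        apply mul_le_mul_of_nonneg_right _ hη0.le
        have e1 : (8 : ℝ) ≤ κ ^ 3 := by
          calc (8 : ℝ) = 2 ^ 3 := by norm_num
            _ ≤ κ ^ 3 := pow_le_pow_left₀ (by norm_num) hκ 3
        have e2 : κ ^ 6 = κ ^ 3 * κ ^ 3 := by ring
        have e3 : 0 < κ ^ 3 := by positivity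
        rw [e2]
        nlinarith
      have hκη : κ * η ≤ κ ^ 3 * η :=
        mul_le_mul_of_nonneg_right (le_self_pow₀ hκ1 (by norm_num)) hη0.le
      by_cases hcase : t < q
      · -- plus step
        have ht' : (i + 1) * p % N = t + p := by
          rw [hdm', Nat.mul_add_mod]
          exact Nat.mod_eq_of_lt (by omega)
        have hβ' : (i + 1) * p / N = β := by
          rw [hdm', Nat.mul_add_div hN0, Nat.div_eq_of_lt (by omega : t + p < N)]
          rfl
        rw [ht', hβ']
        have htp : t + p ≤ 2 * k := by omega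
        have hbt := D.bound t (by omega) hnt
        have e1 := D.comp t p htp hnt hnp hρ2
        have e2 := D.compA t p htp hnt hnp hρ2
        refine ⟨?_, ?_, ?_⟩
        · apply D.near_add t p htp hnt hnp
          have := hpow 6 (by norm_num)
          linarith
        · have e3 : D.A (t + p) (D.a q) - D.a q =
              (D.A (t + p) - (D.A t).comp (D.A p)) (D.a q) + D.A t (D.A p (D.a q) - D.a q) +
                (D.A t (D.a q) - D.a q) := by
            rw [map_sub]
            change _ = (D.A (t + p) (D.a q) - D.A t (D.A p (D.a q))) + _ + _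
            abel
          rw [e3]
          have e4 := norm_add₃_le (a := (D.A (t + p) - (D.A t).comp (D.A p)) (D.a q))
            (b := D.A t (D.A p (D.a q) - D.a q)) (c := D.A t (D.a q) - D.a q)
          have e5 : ‖(D.A (t + p) - (D.A t).comp (D.A p)) (D.a q)‖ ≤ X := by
            refine (ContinuousLinearMap.le_opNorm _ _).trans ?_
            rw [← hη]
            have e6 : ‖D.A (t + p) - (D.A t).comp (D.A p)‖ * η ≤ κ ^ 2 * (E * η) * η := by
              apply mul_le_mul_of_nonneg_right _ hη0.le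
              refine e2.trans ?_
              exact mul_le_mul_of_nonneg_left h1 (by positivity)
            refine e6.trans ?_
            have e7 : κ ^ 2 * (E * η) * η = (κ ^ 2 * η) * (E * η) := by ring
            rw [e7]
            have e8 : (κ ^ 2 * η) * (E * η) ≤ 1 * (E * η) := by
              apply mul_le_mul_of_nonneg_right _ (by positivity)
              linarith
            linarith
          have e6 : ‖D.A t (D.A p (D.a q) - D.a q)‖ ≤ X := by
            refine (ContinuousLinearMap.le_opNorm _ _).trans ?_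
            rw [hX, mul_assoc]
            exact mul_le_mul hbt h2 (norm_nonneg _) hκ0.le
          rw [Nat.cast_add, Nat.cast_one]
          linarith
        · have e3 : D.a (t + p) + (β : ℝ) • D.a q =
              (D.a (t + p) - D.a t - D.A t (D.a p)) + D.A t (D.a p) +
                (D.a t + (β : ℝ) • D.a q) := by abel
          rw [e3]
          have e4 := norm_add₃_le (a := D.a (t + p) - D.a t - D.A t (D.a p))
            (b := D.A t (D.a p)) (c := D.a t + (β : ℝ) • D.a q)
          have e5 : ‖D.A t (D.a p)‖ ≤ X := by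
            refine (ContinuousLinearMap.le_opNorm _ _).trans ?_
            rw [hX, mul_assoc]
            exact mul_le_mul hbt h1 (norm_nonneg _) hκ0.le
          have e6 : κ * ‖D.a p‖ ^ 2 ≤ X := by
            have e7 : ‖D.a p‖ ^ 2 ≤ (E * η) ^ 2 := pow_le_pow_left₀ (norm_nonneg _) h1 2
            have e8 : (E * η) ^ 2 ≤ E * η := by
              have : 0 ≤ E * η := by positivity
              nlinarith
            rw [hX, mul_assoc]
            exact mul_le_mul_of_nonneg_left (e7.trans e8) hκ0.le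
          rw [Nat.cast_add, Nat.cast_one]
          nlinarith
      · -- minus step
        rw [not_lt] at hcase
        obtain ⟨s, hs⟩ : ∃ s, t = s + q := ⟨t - q, by omega⟩
        have ht' : (i + 1) * p % N = s := by
          have e1 : (i + 1) * p = N * (β + 1) + s := by
            rw [hdm', hs, mul_add, mul_one, hN]
            ring
          rw [e1, Nat.mul_add_mod]
          exact Nat.mod_eq_of_lt (by omega)
        have hβ' : (i + 1) * p / N = β + 1 := by
          have e1 : (i + 1) * p = N * (β + 1) + s := by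
            rw [hdm', hs, mul_add, mul_one, hN]
            ring
          rw [e1, Nat.mul_add_div hN0, Nat.div_eq_of_lt (by omega : s < N)]
        rw [ht', hβ']
        rw [hs] at hnt hV hT hat
        have hsq : s + q ≤ 2 * k := by omega
        have hsp := D.split q s (by omega) (by rwa [add_comm q s]) hnq (by
          rw [add_comm q s, ← hη]
          have e1 : κ * (‖D.a (s + q)‖ + η) ≤ κ * (6 * κ ^ 3 * η) := by
            apply mul_le_mul_of_nonneg_left _ hκ0.le
            have : η ≤ κ ^ 3 * η := by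
              have := one_le_pow₀ hκ1 (n := 3)
              nlinarith
            linarith
          have e2 : κ * (6 * κ ^ 3 * η) ≤ κ * (κ ^ 6 * η) :=
            mul_le_mul_of_nonneg_left h6 hκ0.le
          have e3 : κ * (κ ^ 6 * η) = κ ^ 7 * η := by ring
          have := hpow 7 (by norm_num)
          linarith)
        have hns := hsp.1
        have hbs := D.bound s (by omega) hns
        have e1 := D.comp s q hsq hns hnq hρ1
        have e2 := D.compA s q hsq hns hnq hρ1
        rw [← hη] at e1 e2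
        have hκη2 : κ ^ 2 * η * η ≤ X := by
          have : κ ^ 2 * η * η ≤ E * η := mul_le_mul_of_nonneg_right hE hη0.le
          linarith
        have hVs : ‖D.A s (D.a q) - D.a q‖ ≤ 2 * i * X + 2 * X := by
          have e3 : D.A s (D.a q) - D.a q =
              -(D.A s (D.A q (D.a q) - D.a q)) +
                -((D.A (s + q) - (D.A s).comp (D.A q)) (D.a q)) +
                (D.A (s + q) (D.a q) - D.a q) := by
            rw [map_sub]
            change _ = _ + -(D.A (s + q) (D.a q) - D.A s (D.A q (D.a q))) + _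
            abel
          rw [e3]
          have e4 := norm_add₃_le (a := -(D.A s (D.A q (D.a q) - D.a q)))
            (b := -((D.A (s + q) - (D.A s).comp (D.A q)) (D.a q)))
            (c := D.A (s + q) (D.a q) - D.a q)
          rw [norm_neg, norm_neg] at e4
          have e5 : ‖(D.A (s + q) - (D.A s).comp (D.A q)) (D.a q)‖ ≤ X := by
            refine (ContinuousLinearMap.le_opNorm _ _).trans ?_
            rw [← hη]
            exact (mul_le_mul_of_nonneg_right e2 hη0.le).trans hκη2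
          have e6 : ‖D.A s (D.A q (D.a q) - D.a q)‖ ≤ X := by
            refine (ContinuousLinearMap.le_opNorm _ _).trans ?_
            rw [hX, mul_assoc]
            exact mul_le_mul hbs h3 (norm_nonneg _) hκ0.le
          linarith
        refine ⟨hns, ?_, ?_⟩
        · rw [Nat.cast_add, Nat.cast_one]
          linarith
        · have e3 : D.a s + ((β + 1 : ℕ) : ℝ) • D.a q =
              (D.a (s + q) + (β : ℝ) • D.a q) + -(D.a (s + q) - D.a s - D.A s (D.a q)) +
                -(D.A s (D.a q) - D.a q) := by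
            push_cast
            rw [add_smul, one_smul]
            abel
          rw [e3]
          have e4 := norm_add₃_le (a := D.a (s + q) + (β : ℝ) • D.a q)
            (b := -(D.a (s + q) - D.a s - D.A s (D.a q)))
            (c := -(D.A s (D.a q) - D.a q))
          rw [norm_neg, norm_neg] at e4
          have e5 : κ * η ^ 2 ≤ X := by
            refine le_trans ?_ hκη2
            have e7 : κ * η ^ 2 = κ * (η * η) := by ring
            have e8 : κ ^ 2 * η * η = κ ^ 2 * (η * η) := by ring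
            rw [e7, e8]
            apply mul_le_mul_of_nonneg_right _ (by positivity)
            exact le_self_pow₀ hκ1 (by norm_num)
          rw [Nat.cast_add, Nat.cast_one]
          nlinarith
  -- conclusion
  obtain ⟨-, -, hT⟩ := key N le_rfl
  rw [Nat.mul_mod_right, Nat.mul_div_cancel_left _ hN0, D.a_zero, zero_add, norm_smul,
    Real.norm_of_nonneg (by positivity : (0 : ℝ) ≤ p), ← hη, hX] at hT
  have hp1 : (1 : ℝ) ≤ p := by exact_mod_cast hp
  have e1 : (N : ℝ) ^ 2 ≤ κ ^ 2 := pow_le_pow_left₀ (by positivity) hNκ 2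
  have e2 : 4 * (N : ℝ) ^ 2 * (κ * E * η) ≤ 4 * κ ^ 2 * (κ * E * η) := by
    apply mul_le_mul_of_nonneg_right _ (by positivity)
    linarith
  have e3 : 4 * κ ^ 2 * (κ * E * η) ≤ κ ^ 5 * E * η := by
    have e4 : 4 * κ ^ 2 * (κ * E * η) = 4 * (κ ^ 3 * E * η) := by ring
    have e5 : κ ^ 5 * E * η = κ ^ 2 * (κ ^ 3 * E * η) := by ring
    rw [e4, e5]
    apply mul_le_mul_of_nonneg_right _ (by positivity)
    nlinarith
  have e4 : η ≤ p * η := by nlinarith
  have e5 : 1 * η ≤ κ ^ 5 * E * η := by linarith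
  exact le_of_mul_le_mul_right e5 hη0

end Pool.Agent.CL
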