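import Pool.Agent.Lib_MP_b9d69a.GRF
import Pool.Agent.Lib_MP_b9d69a.GRL3
import Pool.Agent.Lib_MP_b9d69a.NR

/-!
# Returns and growth: assembly
-/

set_option autoImplicit false
open scoped Manifold Topology ContDiff
open Set Filter

namespace Pool.Agent.CL

variable {n : ℕ} {M : Type} [MetricSpace M] [ChartedSpace (Eu n) M]
    [IsManifold 𝓘(ℝ, Eu n) ((⊤ : ℕ∞) : WithTop ℕ∞) M]

private theorem final_bound (C₁ k G C' X P : ℝ) (m m' : ℕ) (hC₁ : 1 ≤ C₁) (hk : 1 ≤ k)
    (hG : 1 ≤ G) (hC' : C₁ ≤ C') (hX : 0 ≤ X) (hP : P ≤ C') (hP0 : 0 ≤ P) (hm : m + 1 ≤ m')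
    (h : 1 ≤ (C₁ * k * G) ^ m * (P * X)) : 1 ≤ (C' * k * G) ^ m' * X := by
  have h1 : 1 ≤ C₁ * k * G := by
    have := mul_le_mul hC₁ hk (by norm_num) (by linarith)
    have h2 := mul_le_mul this hG (by norm_num) (by positivity)
    linarith
  have h2 : C₁ * k * G ≤ C' * k * G := by
    apply mul_le_mul_of_nonneg_right _ (by linarith)
    exact mul_le_mul_of_nonneg_right hC' (by linarith)
  have h3 : 1 ≤ C' * k * G := h1.trans h2
  have h4 : P ≤ C' * k * G := by
    refine hP.trans ?_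
    have h5 : C' * 1 ≤ C' * (k * G) := by
      apply mul_le_mul_of_nonneg_left _ (by linarith)
      nlinarith
    linarith
  have h5 : (C₁ * k * G) ^ m * P ≤ (C' * k * G) ^ m' := by
    calc (C₁ * k * G) ^ m * P ≤ (C' * k * G) ^ m * (C' * k * G) :=
          mul_le_mul (pow_le_pow_left₀ (by linarith) h2 m) h4 hP0 (by positivity)
      _ = (C' * k * G) ^ (m + 1) := by ring
      _ ≤ (C' * k * G) ^ m' := pow_le_pow_right₀ h3 hm
  have h6 := mul_le_mul_of_nonneg_right h5 hX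
  have h7 : (C₁ * k * G) ^ m * P * X = (C₁ * k * G) ^ m * (P * X) := by ring
  linarith

/-- Where local closing fails, returns are not faster than a fixed power of the growth. -/
theorem growth_returns [CompactSpace M] (hM : LocBiLip n M) (f : Dif n M) (x : M)
    (hx : ¬ LocallyClosable f x) : GrowthReturnsAt f x := by
  obtain ⟨W₁, hW₁, hW₁s, r, c, hr, hc, hc2, -, hret⟩ := no_return f x hx
  obtain ⟨C₁, ρ, hC₁, hρ, W₂, hW₂, hW₂s, hdata⟩ := exists_retData hM f x
  obtain ⟨C, hC⟩ := abstract_growth n ρ (min c ρ) r hρ (lt_min hc hρ)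
  obtain ⟨W₃, hW₃, hW₃s, L₀, hL₀⟩ := hM x
  obtain ⟨L, hL⟩ : ∃ L, L = max L₀ 1 := ⟨_, rfl⟩
  have hL1 : 1 ≤ L := by rw [hL]; exact le_max_right _ _
  have hLL : ∀ y ∈ W₃, ∀ z ∈ W₃,
      ‖chartAt (Eu n) x y - chartAt (Eu n) x z‖ ≤ L * dist y z := by
    intro y hy z hz
    refine ((hL₀ y hy z hz).1).trans (mul_le_mul_of_nonneg_right ?_ dist_nonneg)
    rw [hL]
    exact le_max_left _ _
  obtain ⟨δ₀, hδ₀, hball⟩ := Metric.mem_nhds_iff.1 hW₃
  obtain ⟨δ, hδdef⟩ : ∃ δ, δ = δ₀ / 2 := ⟨_, rfl⟩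
  have hδ : 0 < δ := by rw [hδdef]; positivity
  have hδ2 : δ + δ = δ₀ := by rw [hδdef]; ring
  obtain ⟨C', hC'⟩ := exists_nat_ge (C₁ + L + δ⁻¹ + L / ρ + (4 * C + 2 : ℝ))
  have hLρ : 0 < L / ρ := by positivity
  have hδi : 0 < δ⁻¹ := by positivity
  have hCn : (0 : ℝ) ≤ C := by positivity
  have hm : 4 * C + 1 ≤ C' := by
    have h1 : ((4 * C + 1 : ℕ) : ℝ) ≤ (C' : ℝ) := by
      push_cast
      linarith
    exact_mod_cast h1
  refine ⟨W₁ ∩ W₂ ∩ Metric.ball x δ,
    inter_mem (inter_mem hW₁ hW₂) (Metric.ball_mem_nhds x hδ), C', ?_⟩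
  rintro z ⟨⟨hz1, hz2⟩, hz3⟩ k hk G hG hgrow
  have hk1 : (1 : ℝ) ≤ k := by exact_mod_cast hk
  obtain ⟨D, hnear, ha⟩ := hdata z hz2 k hk G hG hgrow
  have hX : 0 ≤ dist (f^[k] z) z := dist_nonneg
  by_cases hd : dist (f^[k] z) z < δ
  · have hz3' : z ∈ W₃ := by
      apply hball
      rw [Metric.mem_ball] at hz3 ⊢
      linarith
    have hfk : f^[k] z ∈ W₃ := by
      apply hball
      rw [Metric.mem_ball] at hz3 ⊢
      have := dist_triangle (f^[k] z) z x
      linarith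
    have hLk := hLL _ hfk _ hz3'
    by_cases hn : D.near k
    · have hκ1 : (16 : ℝ) ≤ (C₁ * k * G) ^ 4 := by
        calc (16 : ℝ) = (2 * 1 * 1) ^ 4 := by norm_num
          _ ≤ (C₁ * k * G) ^ 4 := by
            apply pow_le_pow_left₀ (by norm_num)
            apply mul_le_mul _ hG (by norm_num) (by positivity)
            exact mul_le_mul hC₁ hk1 (by norm_num) (by linarith)
      have hκ2 : 2 * (k : ℝ) ≤ (C₁ * k * G) ^ 4 := by
        have h1 : 2 * (k : ℝ) ≤ C₁ * k * G := by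
          calc 2 * (k : ℝ) = 2 * k * 1 := by ring
            _ ≤ C₁ * k * G := by
              apply mul_le_mul _ hG (by norm_num) (by positivity)
              exact mul_le_mul_of_nonneg_right hC₁ (by linarith)
        refine h1.trans ?_
        exact le_self_pow₀ (by linarith) (by norm_num)
      have h1 := hC k ((C₁ * k * G) ^ 4) hk (by linarith) hκ2 D (by
        intro η hη hηc p hp hpn hpa
        have hηc' : η < c := lt_of_lt_of_le hηc (min_le_left _ _)
        have hηρ : η < ρ := lt_of_lt_of_le hηc (min_le_right _ _)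
        have hps := (hnear p).1 hpn
        rw [ha p] at hpa
        obtain ⟨i, hi0, hip, hi⟩ := hret z hz1 η hη hηc' z p hp
          ⟨hW₁s hz1, by rw [sub_self, norm_zero]; positivity⟩ ⟨hps.1, hpa⟩
        refine ⟨i, hi0, hip, (hnear i).2 ⟨hi.1, hi.2.le.trans hηρ.le⟩, ?_⟩
        rw [ha i]
        exact hi.2) hn
      rw [ha k] at h1
      have h2 : 1 ≤ (C₁ * k * G) ^ (4 * C) * (L * dist (f^[k] z) z) := by
        have h3 : (((C₁ * k * G) ^ 4) ^ C)⁻¹ < L * dist (f^[k] z) z := lt_of_lt_of_le h1 hLk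
        rw [← pow_mul] at h3
        have h4 : 0 < (C₁ * k * G) ^ (4 * C) := by positivity
        rw [inv_lt_iff_one_lt_mul₀ h4] at h3
        linarith
      exact final_bound C₁ k G C' _ L (4 * C) C' (by linarith) hk1 hG (by linarith) hX
        (by linarith) (by linarith) hm h2
    · have h1 : ρ < ‖chartAt (Eu n) x (f^[k] z) - chartAt (Eu n) x z‖ := by
        by_contra hcon
        exact hn ((hnear k).2 ⟨hW₃s hfk, not_lt.1 hcon⟩)
      have h2 : 1 ≤ (C₁ * k * G) ^ 0 * (L / ρ * dist (f^[k] z) z) := by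
        rw [pow_zero, one_mul, div_mul_eq_mul_div, one_le_div hρ]
        linarith
      exact final_bound C₁ k G C' _ (L / ρ) 0 C' (by linarith) hk1 hG (by linarith) hX
        (by linarith) hLρ.le (by omega) h2
  · rw [not_lt] at hd
    have h2 : 1 ≤ (C₁ * k * G) ^ 0 * (δ⁻¹ * dist (f^[k] z) z) := by
      rw [pow_zero, one_mul, inv_mul_eq_div, one_le_div hδ]
      exact hd
    exact final_bound C₁ k G C' _ δ⁻¹ 0 C' (by linarith) hk1 hG (by linarith) hX
      (by linarith) hδi.le (by omega) h2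

end Pool.Agent.CL
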