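import Pool.Agent.Lib_MP_b9d69a.Defs

/-!
# Piece CL-H: a small bump in a chart extends to a diffeomorphism of `M`

`θ = id + b` is a bijection of `Eu n` (it approximates the identity with constant `1/2`:
`ApproximatesLinearOn.toHomeomorph`, or direct), smooth with smooth inverse
(`Homeomorph.contDiff_symm`, the derivative `1 + Db` is invertible as `‖Db‖ ≤ 1/2`), and it is the
identity outside the closed ball `B`; so it maps `B` onto `B` and `e.target` onto itself.  Put
`h x = e.symm (θ (e x))` on `e.source` and `h x = x` elsewhere, the inverse with `θ⁻¹`.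
Smoothness: on the open set `e.source` it is a composition of smooth maps
(`contMDiffOn_of_mem_maximalAtlas`, `contMDiffOn_symm_of_mem_maximalAtlas`); on the open
complement of the compact set `e.symm '' B` it is the identity (`M` is Hausdorff).
-/

set_option autoImplicit false
open scoped Manifold ContDiff Topology
open Set Filter

namespace Pool.Agent.CL

/-- a `C^1`-small perturbation of the identity is a diffeomorphism of the model space -/
private theorem exists_homeo {n : ℕ} (b : Eu n → Eu n) (hb : ContDiff ℝ ∞ b)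
    (hLip : ∀ u, ‖fderiv ℝ b u‖ ≤ 1 / 2) :
    ∃ θ : Eu n ≃ₜ Eu n, (∀ u, θ u = u + b u) ∧ ContDiff ℝ ∞ θ ∧ ContDiff ℝ ∞ θ.symm := by
  have hbd : Differentiable ℝ b := hb.differentiable (by simp)
  have hlip : LipschitzWith (1 / 2) b := by
    refine lipschitzWith_of_nnnorm_fderiv_le hbd (fun u => ?_)
    rw [← NNReal.coe_le_coe]
    simpa using hLip u
  have happ : ApproximatesLinearOn (fun u => u + b u)
      ((ContinuousLinearEquiv.refl ℝ (Eu n) : Eu n ≃L[ℝ] Eu n) : Eu n →L[ℝ] Eu n) univ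
      (1 / 2) := by
    intro x _ y _
    have h := hlip.norm_sub_le x y
    have h2 : (x + b x) - (y + b y) - ((ContinuousLinearEquiv.refl ℝ (Eu n) : Eu n ≃L[ℝ] Eu n) :
        Eu n →L[ℝ] Eu n) (x - y) = b x - b y := by
      simp
      abel
    rw [h2]
    exact h
  have hc : Subsingleton (Eu n) ∨ (1 / 2 : NNReal) <
      ‖((ContinuousLinearEquiv.refl ℝ (Eu n)).symm : Eu n →L[ℝ] Eu n)‖₊⁻¹ := by
    rcases subsingleton_or_nontrivial (Eu n) with h | h
    · exact Or.inl h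
    · refine Or.inr ?_
      have : ‖((ContinuousLinearEquiv.refl ℝ (Eu n)).symm : Eu n →L[ℝ] Eu n)‖₊ = 1 := by
        rw [← NNReal.coe_inj]
        simp
      rw [this, inv_one]
      exact NNReal.half_lt_self one_ne_zero
  set θ : Eu n ≃ₜ Eu n := happ.toHomeomorph _ hc with hθ
  have hθu : ∀ u, θ u = u + b u := fun u => rfl
  have hθs : ContDiff ℝ ∞ θ := by
    have : (θ : Eu n → Eu n) = fun u => u + b u := funext hθu
    rw [this]
    exact contDiff_id.add hb
  refine ⟨θ, hθu, hθs, ?_⟩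
  have hlt : ∀ u, ‖-(fderiv ℝ b u)‖ < 1 := by
    intro u
    rw [norm_neg]
    exact lt_of_le_of_lt (hLip u) (by norm_num)
  refine θ.contDiff_symm (f₀' := fun u => ContinuousLinearEquiv.unitsEquiv ℝ (Eu n)
    (Units.oneSub (-(fderiv ℝ b u)) (hlt u))) ?_ hθs
  intro u
  have h1 : HasFDerivAt (fun u => u + b u) (ContinuousLinearMap.id ℝ (Eu n) + fderiv ℝ b u) u :=
    (hasFDerivAt_id u).add (hbd u).hasFDerivAt
  have h2 : ((ContinuousLinearEquiv.unitsEquiv ℝ (Eu n)
      (Units.oneSub (-(fderiv ℝ b u)) (hlt u)) : Eu n ≃L[ℝ] Eu n) : Eu n →L[ℝ] Eu n) =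
      ContinuousLinearMap.id ℝ (Eu n) + fderiv ℝ b u := by
    ext v
    simp [Units.oneSub]
  rw [h2]
  exact h1

/-- transport of a self-map of the model space to `M` by the chart `e` -/
private noncomputable def tr {n : ℕ} {M : Type} [TopologicalSpace M] [ChartedSpace (Eu n) M]
    (e : OpenPartialHomeomorph M (Eu n)) (ψ : Eu n → Eu n) : M → M := by
  classical
  exact fun x => if x ∈ e.source then e.symm (ψ (e x)) else x

private theorem tr_pos {n : ℕ} {M : Type} [TopologicalSpace M] [ChartedSpace (Eu n) M]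
    (e : OpenPartialHomeomorph M (Eu n)) (ψ : Eu n → Eu n) {x : M} (hx : x ∈ e.source) :
    tr e ψ x = e.symm (ψ (e x)) := by
  simp [tr, hx]

private theorem tr_neg {n : ℕ} {M : Type} [TopologicalSpace M] [ChartedSpace (Eu n) M]
    (e : OpenPartialHomeomorph M (Eu n)) (ψ : Eu n → Eu n) {x : M} (hx : x ∉ e.source) :
    tr e ψ x = x := by
  simp [tr, hx]

private theorem tr_smooth {n : ℕ} {M : Type} [TopologicalSpace M] [ChartedSpace (Eu n) M]
    [IsManifold 𝓘(ℝ, Eu n) ((⊤ : ℕ∞) : WithTop ℕ∞) M] [T2Space M]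
    (e : OpenPartialHomeomorph M (Eu n)) (he : e ∈ atlas (Eu n) M) (c : Eu n) (R : ℝ)
    (hB : Metric.closedBall c R ⊆ e.target) (ψ : Eu n → Eu n) (hψ : ContDiff ℝ ∞ ψ)
    (hid : ∀ u, u ∉ Metric.closedBall c R → ψ u = u)
    (hmap : ∀ u ∈ e.target, ψ u ∈ e.target) :
    ContMDiff 𝓘(ℝ, Eu n) 𝓘(ℝ, Eu n) ((⊤ : ℕ∞) : WithTop ℕ∞) (tr e ψ) := by
  have hemax : e ∈ IsManifold.maximalAtlas 𝓘(ℝ, Eu n) ((⊤ : ℕ∞) : WithTop ℕ∞) M :=
    IsManifold.subset_maximalAtlas he
  have h1 := contMDiffOn_of_mem_maximalAtlas hemax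
  have h2 := contMDiffOn_symm_of_mem_maximalAtlas hemax
  intro x
  by_cases hx : x ∈ e.source
  · have hev : tr e ψ =ᶠ[𝓝 x] fun y => e.symm (ψ (e y)) := by
      filter_upwards [e.open_source.mem_nhds hx] with y hy
      exact tr_pos e ψ hy
    refine ContMDiffAt.congr_of_eventuallyEq ?_ hev
    have h3 : ContMDiffAt 𝓘(ℝ, Eu n) 𝓘(ℝ, Eu n) ((⊤ : ℕ∞) : WithTop ℕ∞) e x :=
      (h1 x hx).contMDiffAt (e.open_source.mem_nhds hx)
    have h4 : ContMDiffAt 𝓘(ℝ, Eu n) 𝓘(ℝ, Eu n) ((⊤ : ℕ∞) : WithTop ℕ∞) ψ (e x) :=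
      hψ.contMDiff.contMDiffAt
    have hm : ψ (e x) ∈ e.target := hmap _ (e.map_source hx)
    have h5 : ContMDiffAt 𝓘(ℝ, Eu n) 𝓘(ℝ, Eu n) ((⊤ : ℕ∞) : WithTop ℕ∞) e.symm (ψ (e x)) :=
      (h2 _ hm).contMDiffAt (e.open_target.mem_nhds hm)
    exact h5.comp x (h4.comp x h3)
  · have hcpt : IsCompact (e.symm '' Metric.closedBall c R) :=
      (isCompact_closedBall c R).image_of_continuousOn (e.continuousOn_symm.mono hB)
    have hnot : x ∈ (e.symm '' Metric.closedBall c R)ᶜ := by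
      rintro ⟨u, hu, rfl⟩
      exact hx (e.map_target (hB hu))
    have hev : tr e ψ =ᶠ[𝓝 x] id := by
      filter_upwards [hcpt.isClosed.isOpen_compl.mem_nhds hnot] with y hy
      by_cases hys : y ∈ e.source
      · rw [tr_pos e ψ hys, hid, e.left_inv hys, id]
        intro hyB
        exact hy ⟨e y, hyB, e.left_inv hys⟩
      · rw [tr_neg e ψ hys, id]
    exact contMDiffAt_id.congr_of_eventuallyEq hev

private theorem tr_comp {n : ℕ} {M : Type} [TopologicalSpace M] [ChartedSpace (Eu n) M]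
    (e : OpenPartialHomeomorph M (Eu n)) (ψ ψ' : Eu n → Eu n)
    (hmap : ∀ u ∈ e.target, ψ u ∈ e.target) (hinv : ∀ u, ψ' (ψ u) = u) (x : M) :
    tr e ψ' (tr e ψ x) = x := by
  by_cases hx : x ∈ e.source
  · have hm : ψ (e x) ∈ e.target := hmap _ (e.map_source hx)
    rw [tr_pos e ψ hx, tr_pos e ψ' (e.map_target hm), e.right_inv hm, hinv, e.left_inv hx]
  · rw [tr_neg e ψ hx, tr_neg e ψ' hx]

theorem exists_dif {n : ℕ} {M : Type} [TopologicalSpace M] [ChartedSpace (Eu n) M]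
    [IsManifold 𝓘(ℝ, Eu n) ((⊤ : ℕ∞) : WithTop ℕ∞) M] [T2Space M]
    (e : OpenPartialHomeomorph M (Eu n)) (he : e ∈ atlas (Eu n) M) (c : Eu n) (R : ℝ)
    (hB : Metric.closedBall c R ⊆ e.target) (b : Eu n → Eu n) (hb : ContDiff ℝ ∞ b)
    (hsupp : ∀ u, u ∉ Metric.closedBall c R → b u = 0)
    (hLip : ∀ u, ‖fderiv ℝ b u‖ ≤ 1 / 2) :
    ∃ h : Dif n M, Realises e b h := by
  obtain ⟨θ, hθ, hs, hs'⟩ := exists_homeo b hb hLip
  have hid : ∀ u, u ∉ Metric.closedBall c R → θ u = u := by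
    intro u hu
    rw [hθ, hsupp u hu, add_zero]
  have hid' : ∀ u, u ∉ Metric.closedBall c R → θ.symm u = u := by
    intro u hu
    rw [Homeomorph.symm_apply_eq, hid u hu]
  have hmap : ∀ u ∈ e.target, θ u ∈ e.target := by
    intro u hu
    by_cases hv : θ u ∈ Metric.closedBall c R
    · exact hB hv
    · have h1 : θ.symm (θ u) = θ u := hid' _ hv
      rw [θ.symm_apply_apply] at h1
      rw [← h1]; exact hu
  have hmap' : ∀ u ∈ e.target, θ.symm u ∈ e.target := by
    intro u hu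
    by_cases hv : θ.symm u ∈ Metric.closedBall c R
    · exact hB hv
    · have h1 : θ (θ.symm u) = θ.symm u := hid _ hv
      rw [θ.apply_symm_apply] at h1
      rw [← h1]; exact hu
  refine ⟨⟨⟨tr e θ, tr e θ.symm, tr_comp e θ θ.symm hmap θ.symm_apply_apply,
    tr_comp e θ.symm θ hmap' θ.apply_symm_apply⟩, tr_smooth e he c R hB θ hs hid hmap,
    tr_smooth e he c R hB θ.symm hs' hid' hmap'⟩, ?_, ?_⟩
  · intro x hx
    have hm : θ (e x) ∈ e.target := hmap _ (e.map_source hx)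
    change tr e θ x ∈ e.source ∧ e (tr e θ x) = e x + b (e x)
    rw [tr_pos e θ hx]
    exact ⟨e.map_target hm, by rw [e.right_inv hm, hθ]⟩
  · intro x hx
    exact tr_neg e θ hx

end Pool.Agent.CL
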