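import Pool.Agent.Lib_MP_b9d69a.G

/-!
# The strong form: hierarchical recurrence where local closing fails
-/

set_option autoImplicit false
open scoped Manifold ContDiff Topology
open Set Filter

namespace Pool.Agent.CL

/-- The closed annulus of radii `a ≤ b` around `y` in the chart at `x`. -/
def annulus {n : ℕ} {M : Type} [TopologicalSpace M] [ChartedSpace (Eu n) M]
    (x y : M) (a b : ℝ) : Set M :=
  {z | z ∈ (chartAt (Eu n) x).source ∧ a ≤ ‖chartAt (Eu n) x z - chartAt (Eu n) x y‖ ∧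
    ‖chartAt (Eu n) x z - chartAt (Eu n) x y‖ ≤ b}

/-- The recurrence of `f` near `x` is hierarchical.  There are a neighbourhood `W` of `x`,
contained in the domain of the chart `φ` at `x`, a natural number `r` and `c > 0` such that for
every `y ∈ W` and every `0 < ρ < c`, with `A` the annulus `ρ ^ r ≤ ‖φ z - φ y‖ ≤ ρ`:
every orbit segment `p, f p, ..., f^k p` (`k ≥ 1`) whose two ends are at chart distance less than
`ρ ^ (r ^ (j + 1))` from `y` visits `A` at least `2 ^ j` times (`j = 0, 1, 2, ...`);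
and if `y` is nonwandering then `A` contains a nonwandering point which loops at `y`. -/
def HierarchicalAt {n : ℕ} {M : Type} [TopologicalSpace M] [ChartedSpace (Eu n) M]
    (f : M → M) (x : M) : Prop :=
  ∃ W ∈ nhds x, W ⊆ (chartAt (Eu n) x).source ∧ ∃ (r : ℕ) (c : ℝ), 0 < c ∧
    ∀ y ∈ W, ∀ ρ : ℝ, 0 < ρ → ρ < c →
      (∀ (j : ℕ) (p : M) (k : ℕ), 1 ≤ k → p ∈ cball (n := n) x y (ρ ^ (r ^ (j + 1))) →
        f^[k] p ∈ cball (n := n) x y (ρ ^ (r ^ (j + 1))) →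
        ∃ S : Finset ℕ, 2 ^ j ≤ S.card ∧ ∀ i ∈ S, i < k ∧ f^[i] p ∈ annulus (n := n) x y (ρ ^ r) ρ) ∧
      (y ∈ nonwandering f → ∃ z ∈ annulus (n := n) x y (ρ ^ r) ρ,
        z ∈ nonwandering f ∧ Loops f y z)

theorem HierarchicalAt.polyPerfectAt {n : ℕ} {M : Type} [TopologicalSpace M]
    [ChartedSpace (Eu n) M] {f : M → M} {x : M} (h : HierarchicalAt (n := n) f x) :
    PolyPerfectAt (n := n) f x := by
  obtain ⟨W, hW, hWs, r, c, hc, h⟩ := h
  refine ⟨W, hW, hWs, r, c, hc, fun y hy hyΩ ρ hρ hρc => ?_⟩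
  obtain ⟨z, hz, hzΩ, hzL⟩ := (h y hy ρ hρ hρc).2 hyΩ
  exact ⟨z, hz.1, hzΩ, hzL, hz.2.1, hz.2.2⟩

/-- The closing theorem: where local closing fails the recurrence is hierarchical. -/
theorem closing_hier {n : ℕ} {M : Type} [TopologicalSpace M] [ChartedSpace (Eu n) M]
    [IsManifold 𝓘(ℝ, Eu n) ((⊤ : ℕ∞) : WithTop ℕ∞) M] [T2Space M]
    (f : Dif n M) (x : M) (hx : ¬ LocallyClosable f x) : HierarchicalAt (n := n) f x := by
  obtain ⟨W, hW, hWs, r, c, hr, hc, hc2, hball, hNR⟩ := no_return f x hx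
  refine ⟨W, hW, hWs, r, c, hc, fun y hyW ρ hρ hρc => ?_⟩
  set φ := chartAt (Eu n) x with hφ
  have hys : y ∈ φ.source := hWs hyW
  have hρ1 : ρ < 1 := by linarith
  have hr1 : 1 ≤ r := by omega
  set B : ℕ → Set M := fun j => cball (n := n) x y (ρ ^ (r ^ j)) with hBdef
  have hpow : ∀ j, ρ ^ (r ^ j) ≤ ρ := fun j => by
    calc ρ ^ (r ^ j) ≤ ρ ^ 1 :=
          pow_le_pow_of_le_one hρ.le hρ1.le (Nat.one_le_pow _ _ (by omega))
      _ = ρ := pow_one ρ
  have hBmono : ∀ j, B (j + 1) ⊆ B j := fun j =>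
    cball_mono x y (pow_le_pow_of_le_one hρ.le hρ1.le (Nat.pow_le_pow_right (by omega) (by omega)))
  have hstar : ∀ (j : ℕ) (z : M) (k : ℕ), 1 ≤ k → z ∈ B (j + 1) → f^[k] z ∈ B (j + 1) →
      ∃ i, 0 < i ∧ i < k ∧ f^[i] z ∈ B j := by
    intro j z k hk hz hkz
    have e1 : ρ ^ (r ^ (j + 1)) = (ρ ^ (r ^ j)) ^ r := by rw [← pow_mul, ← pow_succ]
    refine hNR y hyW (ρ ^ (r ^ j)) (pow_pos hρ _) (lt_of_le_of_lt (hpow j) hρc) z k hk ?_ ?_
    · rw [← e1]; exact hz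
    · rw [← e1]; exact hkz
  set A : Set M := annulus (n := n) x y (ρ ^ r) ρ with hAdef
  have hAc : IsCompact A := by
    have h1 : A = φ.symm '' (Metric.closedBall (φ y) ρ ∩ {u | ρ ^ r ≤ ‖u - φ y‖}) := by
      ext z
      constructor
      · rintro ⟨h1, h2, h3⟩
        refine ⟨φ z, ⟨?_, h2⟩, φ.left_inv h1⟩
        rw [Metric.mem_closedBall, dist_eq_norm]; exact h3
      · rintro ⟨u, ⟨h1, h2⟩, rfl⟩
        have hu : u ∈ φ.target := hball y hyW (Metric.closedBall_subset_closedBall hρc.le h1)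
        refine ⟨φ.map_target hu, ?_, ?_⟩
        · change ρ ^ r ≤ ‖φ (φ.symm u) - φ y‖
          rw [φ.right_inv hu]; exact h2
        · change ‖φ (φ.symm u) - φ y‖ ≤ ρ
          rw [φ.right_inv hu, ← dist_eq_norm]; exact h1
    rw [h1]
    apply IsCompact.image_of_continuousOn
    · apply IsCompact.inter_right (isCompact_closedBall _ _)
      exact isClosed_le continuous_const (by fun_prop)
    · apply φ.continuousOn_symm.mono
      intro u hu
      exact hball y hyW (Metric.closedBall_subset_closedBall hρc.le hu.1)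
  have hBA : B 0 \ B 1 ⊆ A := by
    rintro z ⟨h0, h1⟩
    simp only [hBdef, pow_zero, pow_one] at h0 h1
    refine ⟨h0.1, ?_, h0.2.le⟩
    by_contra hlt
    exact h1 ⟨h0.1, not_le.mp hlt⟩
  have hdoub : ∀ (j : ℕ) (p : M) (k : ℕ), 1 ≤ k → p ∈ B (j + 1) → f^[k] p ∈ B (j + 1) →
      ∃ S : Finset ℕ, 2 ^ j ≤ S.card ∧ ∀ i ∈ S, i < k ∧ f^[i] p ∈ A := by
    intro j p k hk hp hkp
    obtain ⟨S, hS1, hS2⟩ := doubling f B hBmono hstar j p k hk hp hkp
    exact ⟨S, hS1, fun i hi => ⟨(hS2 i hi).1, hBA (hS2 i hi).2⟩⟩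
  refine ⟨hdoub, fun hyΩ => ?_⟩
  obtain ⟨z, hzA, hz⟩ := exists_loop f y A hAc (fun V hV m => by
    obtain ⟨ε, hε, hεV⟩ := exists_cball_subset x y hys V hV
    have hlim : Tendsto (fun j : ℕ => ρ ^ (r ^ (j + 1))) atTop (𝓝 0) := by
      refine (tendsto_pow_atTop_nhds_zero_of_lt_one hρ.le hρ1).comp ?_
      exact (tendsto_pow_atTop_atTop_of_one_lt (by omega)).comp (tendsto_add_atTop_nat 1)
    have h1 : ∀ᶠ j : ℕ in atTop, ρ ^ (r ^ (j + 1)) < ε := hlim.eventually (gt_mem_nhds hε)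
    have h2 : ∀ᶠ j : ℕ in atTop, m ≤ 2 ^ j :=
      (tendsto_pow_atTop_atTop_of_one_lt (by norm_num : 1 < 2)).eventually (eventually_ge_atTop m)
    obtain ⟨j, hj1, hj2⟩ := (h1.and h2).exists
    have hBV : B (j + 1) ⊆ V := (cball_mono x y hj1.le).trans hεV
    obtain ⟨k, hk, p, hp, hkp⟩ := hyΩ (B (j + 1))
      (cball_mem_nhds x y hys _ (pow_pos hρ _))
    obtain ⟨S, hS1, hS2⟩ := hdoub j p k hk hp hkp
    exact ⟨p, hBV hp, k, hBV hkp, S, hj2.trans hS1, hS2⟩)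
  exact ⟨z, hzA, hz.nonwandering, hz⟩

/-- An isolated nonwandering point which is a limit of periodic points is periodic. -/
theorem periodic_of_isolated {M : Type} [TopologicalSpace M] (f : M → M) (x : M)
    (hx : x ∈ closure (Function.periodicPts f)) (U : Set M) (hU : U ∈ 𝓝 x)
    (hUx : U ∩ nonwandering f ⊆ {x}) : x ∈ Function.periodicPts f := by
  obtain ⟨q, hqU, hq⟩ := mem_closure_iff_nhds.mp hx U hU
  have hqΩ : q ∈ nonwandering f := by
    intro V hV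
    obtain ⟨m, hm, hqm⟩ := hq
    exact ⟨m, hm, q, mem_of_mem_nhds hV, by rw [hqm]; exact mem_of_mem_nhds hV⟩
  have := hUx ⟨hqU, hqΩ⟩
  rw [mem_singleton_iff] at this
  rw [← this]; exact hq

end Pool.Agent.CL
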