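import Pool.Agent.Lib_MP_b9d69a.P1
import Pool.Agent.Lib_MP_b9d69a.H

/-!
# Piece CL-P2: the perturbation lemma

`nhds_pert`: a neighbourhood of `f` in `cInfTop n M` contains a finite intersection of subbasic
sets `subb f₀ e₁ e₂ K k ε` containing `f` (`TopologicalSpace.isTopologicalBasis_of_subbasis`, or
`TopologicalSpace.nhds_generateFrom`); apply `subb_pert` to each, take the maximum of the `k`s and
the minimum of the `δ`s.
`pert`: take `δ ≤ 1/2`, `k ≥ 1` (so that `‖fderiv ℝ b u‖ = ‖iteratedFDeriv ℝ 1 b u‖ ≤ 1/2`,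
`norm_iteratedFDeriv_one`), and `exists_dif`.
-/

set_option autoImplicit false
open scoped Manifold ContDiff Topology
open Set Filter

namespace Pool.Agent.CL

variable {n : ℕ} {M : Type} [TopologicalSpace M] [ChartedSpace (Eu n) M]
    [IsManifold 𝓘(ℝ, Eu n) ((⊤ : ℕ∞) : WithTop ℕ∞) M] [T2Space M]

theorem nhds_pert (f : Dif n M) (e : OpenPartialHomeomorph M (Eu n))
    (he : e ∈ atlas (Eu n) M) (c : Eu n) (R : ℝ) (hB : Metric.closedBall c R ⊆ e.target)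
    (𝒰 : Set (Dif n M)) (h𝒰 : 𝒰 ∈ @nhds (Dif n M) (cInfTop n M) f) :
    ∃ (k : ℕ) (δ : ℝ), 0 < δ ∧ ∀ b : Eu n → Eu n, ContDiff ℝ ∞ b →
      (∀ u, u ∉ Metric.closedBall c R → b u = 0) →
      (∀ j ≤ k, ∀ u, ‖iteratedFDeriv ℝ j b u‖ ≤ δ) →
      ∀ h : Dif n M, Realises e b h → f.trans h ∈ 𝒰 := by
  let F : Filter (Dif n M) :=
    { sets := {𝒱 | ∃ (k : ℕ) (δ : ℝ), 0 < δ ∧ ∀ b : Eu n → Eu n, ContDiff ℝ ∞ b →
        (∀ u, u ∉ Metric.closedBall c R → b u = 0) →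
        (∀ j ≤ k, ∀ u, ‖iteratedFDeriv ℝ j b u‖ ≤ δ) →
        ∀ h : Dif n M, Realises e b h → f.trans h ∈ 𝒱}
      univ_sets := ⟨0, 1, one_pos, fun _ _ _ _ _ _ => mem_univ _⟩
      sets_of_superset := by
        rintro s t ⟨k, δ, hδ, h1⟩ hst
        exact ⟨k, δ, hδ, fun b hb h2 h3 h h4 => hst (h1 b hb h2 h3 h h4)⟩
      inter_sets := by
        rintro s t ⟨k, δ, hδ, h1⟩ ⟨k', δ', hδ', h1'⟩
        refine ⟨max k k', min δ δ', lt_min hδ hδ', fun b hb h2 h3 h h4 => ⟨?_, ?_⟩⟩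
        · exact h1 b hb h2 (fun j hj u =>
            (h3 j (hj.trans (le_max_left _ _)) u).trans (min_le_left _ _)) h h4
        · exact h1' b hb h2 (fun j hj u =>
            (h3 j (hj.trans (le_max_right _ _)) u).trans (min_le_right _ _)) h h4 }
  have hF : F ≤ @nhds (Dif n M) (cInfTop n M) f := by
    unfold cInfTop
    rw [TopologicalSpace.nhds_generateFrom]
    refine le_iInf₂ fun s hs => le_principal_iff.2 ?_
    obtain ⟨hfs, f₀, e₁, he₁, e₂, he₂, K, hK, hKe, hKf, k, ε, hε, rfl⟩ := hs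
    obtain ⟨δ, hδ, h1⟩ := subb_pert f f₀ e e₁ e₂ he he₁ he₂ c R hB K hK hKe hKf k ε hfs
    exact ⟨k, δ, hδ, h1⟩
  exact hF h𝒰

/-- The perturbation lemma. -/
theorem pert (f : Dif n M) (e : OpenPartialHomeomorph M (Eu n))
    (he : e ∈ atlas (Eu n) M) (c : Eu n) (R : ℝ) (hB : Metric.closedBall c R ⊆ e.target)
    (𝒰 : Set (Dif n M)) (h𝒰 : 𝒰 ∈ @nhds (Dif n M) (cInfTop n M) f) :
    ∃ (k : ℕ) (δ : ℝ), 0 < δ ∧ ∀ b : Eu n → Eu n, ContDiff ℝ ∞ b →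
      (∀ u, u ∉ Metric.closedBall c R → b u = 0) →
      (∀ j ≤ k, ∀ u, ‖iteratedFDeriv ℝ j b u‖ ≤ δ) →
      ∃ h : Dif n M, Realises e b h ∧ f.trans h ∈ 𝒰 := by
  obtain ⟨k, δ, hδ, h1⟩ := nhds_pert f e he c R hB 𝒰 h𝒰
  refine ⟨max k 1, min δ (1 / 2), lt_min hδ (by norm_num), fun b hb h2 h3 => ?_⟩
  obtain ⟨h, hh⟩ := exists_dif e he c R hB b hb h2 (fun u => by
    rw [← norm_iteratedFDeriv_one]
    exact (h3 1 (le_max_right _ _) u).trans (min_le_right _ _))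
  exact ⟨h, hh, h1 b hb h2 (fun j hj u =>
    (h3 j (hj.trans (le_max_left _ _)) u).trans (min_le_left _ _)) h hh⟩

end Pool.Agent.CL
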