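import Pool.Agent.Lib_MP_b9d69a.Hier

/-!
# Short forms of the definitions, for the statements of the hand-ins

All of them unfold to the definitions used in the other files (`rfl` lemmas below); the topology
unfolds to the topology of the frozen statement `S05927`.
-/

set_option autoImplicit false
open scoped Manifold ContDiff Topology
open Set Filter

namespace Pool.Agent.CL

/-- `M` is a `C^∞` manifold modelled on `ℝ^n`. -/
def IsSmooth (n : ℕ) (M : Type) [TopologicalSpace M] [ChartedSpace (Eu n) M] : Prop :=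
  IsManifold 𝓘(ℝ, Eu n) ((⊤ : ℕ∞) : WithTop ℕ∞) M

/-- The map underlying a diffeomorphism. -/
def fn {n : ℕ} {M : Type} [TopologicalSpace M] [ChartedSpace (Eu n) M] (f : Dif n M) : M → M :=
  f.toFun

/-- Continuous `j`-linear maps `(ℝ^n)^j → ℝ^n`. -/
abbrev MultiL (n j : ℕ) := (Eu n) [×j]→L[ℝ] (Eu n)

/-- The `j`-th derivative of `F` at `u`. -/
noncomputable def iterDer (n j : ℕ) (F : Eu n → Eu n) (u : Eu n) : MultiL n j :=
  iteratedFDeriv ℝ j F u

/-- The norm of the difference of the `j`-th derivatives of `F` and `G` at `u`. -/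
noncomputable def derivGap (n j : ℕ) (F G : Eu n → Eu n) (u : Eu n) : ℝ :=
  ‖iterDer n j F u - iterDer n j G u‖

/-- `g` in the charts `e` and `e'`. -/
def inCharts {n : ℕ} {M : Type} [TopologicalSpace M]
    (e e' : OpenPartialHomeomorph M (Eu n)) (g : M → M) : Eu n → Eu n :=
  e'.toFun ∘ g ∘ e.invFun

/-- The subbasic neighbourhood of `f₀` given by charts `e, e'`, a compact set `K`, an order `k` of
differentiability and `ε > 0`. -/
def subbasic {n : ℕ} {M : Type} [TopologicalSpace M] [ChartedSpace (Eu n) M]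
    (f₀ : Dif n M) (e e' : OpenPartialHomeomorph M (Eu n)) (K : Set M) (k : ℕ) (ε : ℝ) :
    Set (Dif n M) :=
  {g : Dif n M | fn g '' K ⊆ e'.source ∧ ∀ x ∈ K, ∀ j : ℕ, j ≤ k →
    derivGap n j (inCharts e e' (fn g)) (inCharts e e' (fn f₀)) (e.toFun x) < ε}

/-- The `C^∞` topology on `Diff(M)`; it is the topology of the frozen statement `S05927`. -/
def smoothTop (n : ℕ) (M : Type) [TopologicalSpace M] [ChartedSpace (Eu n) M] :
    TopologicalSpace (Dif n M) :=
  TopologicalSpace.generateFrom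
    {U | ∃ f₀ : Dif n M, ∃ e ∈ atlas (Eu n) M, ∃ e' ∈ atlas (Eu n) M,
        ∃ K : Set M, IsCompact K ∧ K ⊆ e.source ∧ fn f₀ '' K ⊆ e'.source ∧
        ∃ k : ℕ, ∃ ε : ℝ, 0 < ε ∧ U = subbasic f₀ e e' K k ε}

theorem smoothTop_eq (n : ℕ) (M : Type) [TopologicalSpace M] [ChartedSpace (Eu n) M] :
    smoothTop n M = cInfTop n M := rfl

/-- The local `C^∞` closing lemma holds for `f` at `x`: for every neighbourhood `V` of `x` and
every `C^∞` neighbourhood `𝒰` of `f` there is `g ∈ 𝒰`, which differs from `f` only at points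
which `f` sends into `V`, with a periodic point in `V`. -/
def LocalClosingAt {n : ℕ} {M : Type} [TopologicalSpace M] [ChartedSpace (Eu n) M]
    (f : Dif n M) (x : M) : Prop :=
  ∀ V ∈ nhds x, ∀ 𝒰 ∈ @nhds (Dif n M) (smoothTop n M) f,
    ∃ g ∈ 𝒰, (∀ p : M, fn f p ∉ V → fn g p = fn f p) ∧
      ∃ q ∈ V, q ∈ Function.periodicPts (fn g)

theorem localClosingAt_iff {n : ℕ} {M : Type} [TopologicalSpace M] [ChartedSpace (Eu n) M]
    (f : Dif n M) (x : M) : LocalClosingAt f x ↔ LocallyClosable f x := Iff.rfl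

end Pool.Agent.CL
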